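import Pool.Agent.Lib.MP_fe5cb4_co.Sey.St

/-!
Minors of planar graphs are planar, in the form of MacLane.
-/

set_option autoImplicit false

namespace Pool.Agent.Lib.MP_fe5cb4_co.Sey

open Finset

namespace Minor

open scoped Classical

/-- the coboundary of a function on the vertices -/
def dd {V : Type} (f : V → ZMod 2) : Sym2 V → ZMod 2 :=
  Sym2.lift ⟨fun a b => f a + f b, fun _ _ => add_comm _ _⟩

theorem dd_mk {V : Type} (f : V → ZMod 2) (a b : V) : dd f s(a, b) = f a + f b := rfl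

theorem dd_map {V W : Type} (π : V → W) (f : W → ZMod 2) (e : Sym2 V) :
    dd (f ∘ π) e = dd f (e.map π) := by
  induction e with
  | h a b => rfl

theorem dd_diag {V : Type} (f : V → ZMod 2) {e : Sym2 V} (h : e.IsDiag) : dd f e = 0 := by
  induction e with
  | h a b =>
    obtain rfl : a = b := h
    exact CharTwo.add_self_eq_zero _

/-- cycles as chains -/
def Cy {V : Type} [Fintype V] (G : SimpleGraph V) (z : Sym2 V → ZMod 2) : Prop :=
  (∀ e, z e ≠ 0 → e ∈ G.edgeSet) ∧ ∀ f, ∑ e, z e * dd f e = 0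

/-- `Z` is generated by a finite family in which every coordinate occurs at most twice -/
def Two {E : Type} (Z : (E → ZMod 2) → Prop) : Prop :=
  ∃ (ι : Type) (_ : Fintype ι) (b : ι → E → ZMod 2), (∀ i, Z (b i)) ∧
    (∀ e, {i | b i e ≠ 0}.ncard ≤ 2) ∧ ∀ z, Z z → ∃ x : ι → ZMod 2, ∀ e, z e = ∑ i, x i * b i e

theorem two_cases : ∀ t : ZMod 2, t = 0 ∨ t = 1 := by decide

theorem cast_ncard {ι : Type} [Fintype ι] (x y : ι → ZMod 2) :
    (({i | x i ≠ 0 ∧ y i ≠ 0}.ncard : ℕ) : ZMod 2) = ∑ i, x i * y i := by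
  rw [Set.ncard_eq_toFinset_card', Set.toFinset_ofPred, card_filter, Nat.cast_sum]
  refine sum_congr rfl fun i _ => ?_
  rcases two_cases (x i) with s | s <;> rcases two_cases (y i) with t | t <;> simp [s, t]

theorem eq_of_iff : ∀ {s t : ZMod 2}, (s ≠ 0 ↔ t ≠ 0) → s = t := by decide

theorem cyc_iff {V : Type} [Fintype V] {G : SimpleGraph V} {z : Sym2 V → ZMod 2} :
    Cyc G {e | z e ≠ 0} ↔ Cy G z := by
  refine and_congr_right fun h => ?_
  have e1 : ∀ v, {e | e ∈ {e | z e ≠ 0} ∧ v ∈ e} = {e | z e ≠ 0 ∧ dd (Pi.single v 1) e ≠ 0} :=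
    fun v => Set.ext fun e => and_congr_right fun he => by
      induction e with
      | h a b =>
        have : a ≠ b := (h he : G.Adj a b).ne
        rw [dd_mk, Sym2.mem_iff]
        by_cases h1 : v = a
        · subst h1
          simp [this.symm]
        · by_cases h2 : v = b
          · subst h2
            simp [this]
          · simp [h1, h2, Ne.symm h1, Ne.symm h2]
  simp only [e1, ← ZMod.natCast_eq_zero_iff_even, cast_ncard]
  refine ⟨fun hv f => ?_, fun hf v => hf _⟩
  have e2 : ∀ e, dd f e = ∑ v, f v * dd (Pi.single v 1) e := fun e => by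
    induction e with
    | h a b => simp [dd_mk, mul_add, sum_add_distrib, Pi.single_apply]
  simp only [e2, mul_sum]
  rw [sum_comm]
  refine sum_eq_zero fun v _ => ?_
  simp only [mul_left_comm _ (f v)]
  rw [← mul_sum, hv, mul_zero]

theorem planar_iff {V : Type} [Fintype V] {G : SimpleGraph V} : Planar G ↔ Two (Cy G) := by
  have ind : ∀ {α : Type} (C : Set α) (e : α), (if e ∈ C then (1 : ZMod 2) else 0) ≠ 0 ↔ e ∈ C :=
    fun C e => by simp
  constructor
  · rintro ⟨n, B, h1, h2, h3⟩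
    refine ⟨Fin n, inferInstance, fun i e => if e ∈ B i then 1 else 0, fun i => cyc_iff.1 ?_,
      fun e => ?_, fun z hz => ?_⟩
    · simpa only [ind, Set.ofPred_mem_eq] using h1 i
    · simpa only [ind] using h2 e
    · obtain ⟨I, hI⟩ := h3 _ (cyc_iff.2 hz)
      refine ⟨fun i => if i ∈ I then 1 else 0, fun e => eq_of_iff ((hI e).trans ?_)⟩
      rw [← cast_ncard, ZMod.natCast_ne_zero_iff_odd]
      simp only [ind]
  · rintro ⟨ι, _, b, h1, h2, h3⟩
    obtain ⟨n, ⟨σ⟩⟩ := Finite.exists_equiv_fin ι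
    refine ⟨n, fun i => {e | b (σ.symm i) e ≠ 0}, fun i => cyc_iff.2 (h1 _), fun e => ?_,
      fun C hC => ?_⟩
    · refine le_trans (Set.ncard_le_ncard_of_injOn σ.symm (fun i h => h)
        σ.symm.injective.injOn) (h2 e)
    · obtain ⟨x, hx⟩ := h3 (fun e => if e ∈ C then 1 else 0)
        (cyc_iff.1 (by simpa only [ind, Set.ofPred_mem_eq] using hC))
      refine ⟨{i | x (σ.symm i) ≠ 0}, fun e => ?_⟩
      rw [← ind C e, hx e, ← σ.symm.sum_comp, ← cast_ncard, ZMod.natCast_ne_zero_iff_odd]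
      rfl

theorem Cy.comb {V : Type} [Fintype V] {G : SimpleGraph V} {ι : Type} [Fintype ι]
    {b : ι → Sym2 V → ZMod 2} (h : ∀ i, Cy G (b i)) (x : ι → ZMod 2) :
    Cy G fun e => ∑ i, x i * b i e := by
  refine ⟨fun e he => ?_, fun f => ?_⟩
  · obtain ⟨i, -, hi⟩ := exists_ne_zero_of_sum_ne_zero he
    exact (h i).1 e (right_ne_zero_of_mul hi)
  · simp only [sum_mul, mul_assoc]
    rw [sum_comm]
    exact sum_eq_zero fun i _ => by rw [← mul_sum, (h i).2, mul_zero]

theorem two_del {V : Type} [Fintype V] {G : SimpleGraph V} (h : Two (Cy G)) (F : Set (Sym2 V)) :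
    Two fun z => Cy G z ∧ ∀ e ∈ F, z e = 0 := by
  obtain ⟨ι, _, b, h1, h2, h3⟩ := h
  let φ : ι → (ι → ZMod 2) → ZMod 2 := fun i x =>
    if ∀ e ∈ F, ∑ i, x i * b i e = 0 then x i else 0
  refine ⟨(ι → ZMod 2) → ZMod 2, inferInstance,
    fun k e => ∑ i, (if k ≠ 0 ∧ φ i = k then 1 else 0) * b i e,
    fun k => ⟨Cy.comb h1 _, fun e he => ?_⟩, fun e => ?_, fun z hz => ?_⟩
  · obtain ⟨S, hS, hc⟩ : ∃ S : Finset ι, (∀ x : ι → ZMod 2, ∑ i, x i * b i e = ∑ i ∈ S, x i) ∧
        S.card ≤ 2 := by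
      refine ⟨univ.filter fun i => b i e ≠ 0, fun x => ?_, ?_⟩
      · rw [sum_filter]
        refine sum_congr rfl fun i _ => ?_
        rcases two_cases (b i e) with t | t <;> simp [t]
      · simpa only [Set.ncard_eq_toFinset_card', Set.toFinset_ofPred] using h2 e
    have h0 : ∑ i ∈ S, φ i = 0 := funext fun x => by
      simp only [φ, Finset.sum_apply]
      split_ifs with hx
      · rw [← hS, hx e he]
        rfl
      · exact sum_const_zero
    refine (hS _).trans ?_
    rcases (by omega : S.card = 0 ∨ S.card = 1 ∨ S.card = 2) with c | c | c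
    · rw [card_eq_zero.1 c, sum_empty]
    · obtain ⟨i, rfl⟩ := card_eq_one.1 c
      rw [sum_singleton] at h0 ⊢
      exact if_neg fun a => a.1 (a.2.symm.trans h0)
    · obtain ⟨i, j, hij, rfl⟩ := card_eq_two.1 c
      rw [sum_pair hij] at h0 ⊢
      rw [CharTwo.add_eq_zero.1 h0]
      exact CharTwo.add_self_eq_zero _
  · refine le_trans (Set.ncard_le_ncard (t := φ '' {i | b i e ≠ 0}) fun k hk => ?_)
      ((Set.ncard_image_le).trans (h2 e))
    obtain ⟨i, -, hi⟩ := exists_ne_zero_of_sum_ne_zero hk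
    exact ⟨i, right_ne_zero_of_mul hi, by_contra fun a =>
      left_ne_zero_of_mul hi (if_neg fun c => a c.2)⟩
  · obtain ⟨x, hx⟩ := h3 z hz.1
    refine ⟨fun k => k x, fun e => ?_⟩
    simp only [mul_sum]
    rw [sum_comm, hx e]
    refine sum_congr rfl fun i _ => ?_
    have : φ i x = x i := if_pos fun e he => (hx e).symm.trans (hz.2 e he)
    rw [sum_eq_single (φ i) (fun k _ hk => by rw [if_neg fun a => hk a.2.symm]; simp) (by simp),
      ← this]
    by_cases a : φ i = 0
    · simp [a]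
    · simp [a]

theorem two_map {E E' : Type} {Z : (E → ZMod 2) → Prop} {Z' : (E' → ZMod 2) → Prop} (h : Two Z)
    (T : (E → ZMod 2) → E' → ZMod 2) (hT : ∀ e, (∀ z, T z e = 0) ∨ ∃ a, ∀ z, T z e = z a)
    (h1 : ∀ z, Z z → Z' (T z)) (h2 : ∀ c, Z' c → ∃ z, Z z ∧ ∀ e, c e = T z e) : Two Z' := by
  obtain ⟨ι, _, b, b1, b2, b3⟩ := h
  refine ⟨ι, inferInstance, fun i => T (b i), fun i => h1 _ (b1 i), fun e => ?_, fun c hc => ?_⟩
  · rcases hT e with a | ⟨a, ha⟩
    · simp [a]
    · simpa only [ha] using b2 a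
  · obtain ⟨z, hz, e1⟩ := h2 c hc
    obtain ⟨x, hx⟩ := b3 z hz
    refine ⟨x, fun e => ?_⟩
    rcases hT e with a | ⟨a, ha⟩
    · simp [e1, a]
    · simp only [e1, ha, hx]

theorem walk {V : Type} [Fintype V] {P : Sym2 V → Prop} {R : V → V → Prop}
    (hR : ∀ s t, R s t → P s(s, t)) {a b : V} (h : Relation.ReflTransGen R a b) :
    ∃ t : Sym2 V → ZMod 2, (∀ e, ¬ P e → t e = 0) ∧ ∀ f, ∑ e, t e * dd f e = f a + f b := by
  induction h with
  | refl => exact ⟨0, fun _ _ => rfl, fun f => by simp [CharTwo.add_self_eq_zero]⟩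
  | @tail s u _ hs ih =>
    obtain ⟨t, t1, t2⟩ := ih
    refine ⟨t + Pi.single s(s, u) 1, fun e he => ?_, fun f => ?_⟩
    · rw [Pi.add_apply, t1 e he, Pi.single_eq_of_ne fun a => he (by rw [a]; exact hR s u hs),
        add_zero]
    · simp only [Pi.add_apply, add_mul, sum_add_distrib, t2, Pi.single_apply, ite_mul, one_mul,
        zero_mul, sum_ite_eq', mem_univ, if_true, dd_mk]
      rw [add_assoc, ← add_assoc (f s), CharTwo.add_self_eq_zero, zero_add]

end Minor

open Minor in
theorem minor_thm : StMinor := by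
  classical
  intro V W _ _ G H π h1 h2 hG
  let g : (V → ZMod 2) → W → ZMod 2 := fun f w => if h : ∃ a, π a = some w then f h.choose else 0
  let P : Sym2 V → Prop := fun e => e ∈ G.edgeSet ∧ (e.map π).IsDiag
  have base : ∀ a w, π a = some w → ∃ t : Sym2 V → ZMod 2, (∀ e, ¬ P e → t e = 0) ∧
      ∀ f, ∑ e, t e * dd f e = f a + g f w := fun a w h => by
    have ex : ∃ a, π a = some w := ⟨a, h⟩
    simp only [g, dif_pos ex]
    exact walk (fun s t h => ⟨h.1, h.2.1.trans h.2.2.symm⟩) (h1 w a _ h ex.choose_spec)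
  have rep : ∀ e : H.edgeSet, ∃ (r : Sym2 V) (t : Sym2 V → ZMod 2), r ∈ G.edgeSet ∧
      r.map π = e.1.map some ∧ (∀ e, ¬ P e → t e = 0) ∧
      ∀ f, dd f r + ∑ e, t e * dd f e = dd (g f) e.1 := by
    rintro ⟨e, he⟩
    induction e with
    | h w w' =>
      obtain ⟨a, b, ha, hb, hab⟩ := h2 w w' he
      obtain ⟨t, t1, t2⟩ := base a w ha
      obtain ⟨u, u1, u2⟩ := base b w' hb
      refine ⟨s(a, b), t + u, hab, by simp [ha, hb], fun e he => by simp [t1 e he, u1 e he],
        fun f => ?_⟩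
      simp only [Pi.add_apply, add_mul, sum_add_distrib, t2, u2, dd_mk]
      linear_combination CharTwo.add_self_eq_zero (f a) + CharTwo.add_self_eq_zero (f b)
  choose r t r1 r2 t1 t2 using rep
  have inj : Function.Injective r := fun e e' h => Subtype.ext
    (Sym2.map.injective (Option.some_injective W) (by rw [← r2, h, r2]))
  have nd : ∀ e, ¬ ((r e).map π).IsDiag := fun e h =>
    H.not_isDiag_of_mem_edgeSet e.2 ((Sym2.isDiag_map (Option.some_injective W)).1 (r2 e ▸ h))
  have key : Two fun c : H.edgeSet → ZMod 2 => ∀ f, ∑ e, c e * dd f e.1 = 0 := by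
    refine two_map (two_del (planar_iff.1 hG) {e | ¬ (e.map π).IsDiag ∧ e ∉ Set.range r})
      (fun z e => z (r e)) (fun e => Or.inr ⟨r e, fun _ => rfl⟩) (fun z hz f => ?_) fun c hc => ?_
    · refine (Fintype.sum_of_injective r inj _ _ (fun e he => ?_) fun e => ?_).trans
        (hz.1.2 ((fun o => o.elim 0 f) ∘ π))
      · by_cases a : (e.map π).IsDiag
        · rw [dd_map, dd_diag _ a, mul_zero]
        · rw [hz.2 e ⟨a, he⟩, zero_mul]
      · rw [dd_map, r2, ← dd_map]
        rfl
    · refine ⟨fun e => ∑ i, c i * (Pi.single (M := fun _ => ZMod 2) (r i) 1 e + t i e),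
        ⟨⟨fun e he => ?_, fun f => ?_⟩, fun e he => sum_eq_zero fun i _ => ?_⟩, fun e => ?_⟩
      · obtain ⟨i, -, hi⟩ := exists_ne_zero_of_sum_ne_zero he
        by_contra a
        exact right_ne_zero_of_mul hi (by
          rw [t1 i e fun p => a p.1, Pi.single_eq_of_ne fun p => a (by rw [p]; exact r1 i),
            add_zero])
      · simp only [sum_mul, mul_assoc]
        rw [sum_comm, ← hc (g f)]
        refine sum_congr rfl fun i _ => ?_
        rw [← mul_sum, ← t2]
        simp [add_mul, sum_add_distrib, Pi.single_apply]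
      · rw [t1 i e fun p => he.1 p.2, Pi.single_eq_of_ne fun p => he.2 ⟨i, p.symm⟩, add_zero,
          mul_zero]
      · simp [t1 _ _ fun p => nd e p.2, Pi.single_apply, inj.eq_iff]
  have ex : ∀ c : Sym2 W → ZMod 2, (∀ e, c e ≠ 0 → e ∈ H.edgeSet) → ∀ f,
      ∑ e : H.edgeSet, c e.1 * dd f e.1 = ∑ e, c e * dd f e := fun c hc f =>
    Fintype.sum_of_injective _ Subtype.val_injective _ _ (fun e he => by
      rw [by_contra fun a => he ⟨⟨e, hc e a⟩, rfl⟩, zero_mul]) fun _ => rfl
  refine planar_iff.2 (two_map key (fun c e => if h : e ∈ H.edgeSet then c ⟨e, h⟩ else 0)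
    (fun e => ?_) (fun c hc => ?_) fun c hc => ⟨fun e => c e.1, fun f => ?_, fun e => ?_⟩)
  · by_cases h : e ∈ H.edgeSet
    · exact Or.inr ⟨⟨e, h⟩, fun _ => dif_pos h⟩
    · exact Or.inl fun _ => dif_neg h
  · have a : ∀ e, (if h : e ∈ H.edgeSet then c ⟨e, h⟩ else 0) ≠ 0 → e ∈ H.edgeSet :=
      fun e he => by_contra fun h => he (dif_neg h)
    refine ⟨a, fun f => (ex _ a f).symm.trans ((sum_congr rfl fun e _ => ?_).trans (hc f))⟩
    rw [dif_pos e.2]
  · exact (ex c hc.1 f).trans (hc.2 f)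
  · split_ifs with h
    · rfl
    · exact by_contra fun a => h (hc.1 e a)

/-- a graph that embeds into a planar graph is planar -/
theorem Planar.of_inj {V W : Type} [Finite V] [Finite W] {G : SimpleGraph V} {H : SimpleGraph W}
    (hG : Planar G) (f : W → V) (hf : Function.Injective f)
    (h : ∀ a b, H.Adj a b → G.Adj (f a) (f b)) : Planar H := by
  have := Fintype.ofFinite V
  have := Fintype.ofFinite W
  have e : ∀ a w, Function.extend f some (fun _ => none) a = some w → a = f w := fun a w ha => by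
    by_cases c : ∃ x, f x = a
    · obtain ⟨x, rfl⟩ := c
      rw [hf.extend_apply] at ha
      rw [Option.some_injective _ ha]
    · rw [Function.extend_apply' _ _ _ c] at ha
      cases ha
  refine minor_thm V W G H (Function.extend f some fun _ => none) (fun w a b ha hb => ?_)
    (fun w w' a => ⟨f w, f w', hf.extend_apply _ _ _, hf.extend_apply _ _ _, h w w' a⟩) hG
  rw [e a w ha, e b w hb]

theorem Planar.mono {V : Type} [Finite V] {G H : SimpleGraph V} (hG : Planar G) (h : H ≤ G) :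
    Planar H := hG.of_inj id Function.injective_id fun _ _ a => h a

theorem Planar.comap {V W : Type} [Finite V] [Finite W] {G : SimpleGraph V} (hG : Planar G)
    (f : W → V) (hf : Function.Injective f) : Planar (G.comap f) :=
  hG.of_inj f hf fun _ _ a => a

end Pool.Agent.Lib.MP_fe5cb4_co.Sey
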