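import Pool.Agent.Lib.MP_fe5cb4_co.Sey.St

/-!
Disconnected targets, tight cuts and local connectivity.
-/

set_option autoImplicit false

namespace Pool.Agent.Lib.MP_fe5cb4_co.Sey

open Finset

namespace Reduce

variable {V : Type} [Fintype V] [DecidableEq V] {d : ℕ} {m : V → V → ℕ}

lemma cut_add (h : ∀ a, ∑ b, m a b = d) (X : Finset V) :
    cut m X + ∑ a ∈ X, ∑ b ∈ X, m a b = d * #X := by
  rw [cut, ← sum_add_distrib, sum_congr rfl fun a _ => by rw [add_comm, sum_add_sum_compl, h a]]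
  simp [mul_comm]

lemma cut_compl (h : ∀ a b, m a b = m b a) (X : Finset V) : cut m Xᶜ = cut m X := by
  rw [cut, cut, compl_compl, sum_comm]
  exact sum_congr rfl fun a _ => sum_congr rfl fun b _ => h b a

lemma cut_map {W S : Type} [Fintype W] [DecidableEq W] {m' : W → W → ℕ}
    (h : ∀ a, ∑ b, m a b = d) (h' : ∀ a, ∑ b, m' a b = d) (f : S ↪ W) (g : S ↪ V)
    (e : ∀ a b, m' (f a) (f b) = m (g a) (g b)) (Z : Finset S) :
    cut m' (Z.map f) = cut m (Z.map g) := by
  have h1 := cut_add h (Z.map g)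
  have h2 := cut_add h' (Z.map f)
  simp only [sum_map, card_map, e] at h1 h2
  omega

lemma cut_split (T : Target d m) {K X : Finset V} (hK : K ⊆ X)
    (h : ∀ a ∈ K, ∀ b ∈ X \ K, m a b = 0) : cut m X = cut m K + cut m (X \ K) := by
  have h1 := cut_add T.deg X
  have h2 := cut_add T.deg K
  have h3 := cut_add T.deg (X \ K)
  have h4 : ∑ a ∈ K, ∑ b ∈ X \ K, m a b = 0 := sum_eq_zero fun a ha => sum_eq_zero (h a ha)
  have h5 : ∑ a ∈ X \ K, ∑ b ∈ K, m a b = 0 :=
    sum_eq_zero fun a ha => sum_eq_zero fun b hb => (T.symm a b).trans (h b hb a ha)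
  rw [← card_sdiff_add_card_eq_card hK, mul_add, ← sum_sdiff hK] at h1
  simp only [← sum_sdiff hK, sum_add_distrib] at h1
  omega

lemma even_card (T : Target d m) (hd : 1 ≤ d) : Even (Fintype.card V) := by
  by_contra h
  have := T.odd univ (Nat.not_even_iff_odd.1 h)
  simp [cut] at this
  omega

lemma odd_compl (T : Target d m) (hd : 1 ≤ d) {X : Finset V} (h : Odd #X) : Odd #Xᶜ := by
  have := even_card T hd
  rw [← card_add_card_compl X] at this
  exact Nat.not_even_iff_odd.1 fun e => Nat.not_even_iff_odd.2 h ((Nat.even_add.1 this).2 e)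

lemma conn (T : Target d m) (h0 : ∀ X : Finset V, X.Nonempty → Xᶜ.Nonempty → cut m X ≠ 0)
    {X : Finset V} (ho : Odd #X) (hc : cut m X = d) {a b : V} (ha : a ∈ X) (hb : b ∈ X) :
    Relation.ReflTransGen (fun s t => (supp m).Adj s t ∧ s ∈ X ∧ t ∈ X) a b := by
  classical
  by_contra hn
  set K := X.filter fun s =>
    Relation.ReflTransGen (fun s t => (supp m).Adj s t ∧ s ∈ X ∧ t ∈ X) a s with hK
  have sub : K ⊆ X := filter_subset _ _
  have aK : a ∈ K := mem_filter.2 ⟨ha, .refl⟩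
  have bK : b ∉ K := fun e => hn (mem_filter.1 e).2
  have h1 := cut_split T sub fun s hs t ht => by_contra fun e =>
    (mem_sdiff.1 ht).2 (mem_filter.2 ⟨(mem_sdiff.1 ht).1, (mem_filter.1 hs).2.tail
      ⟨(supp_adj T.symm T.diag _ _).2 e, sub hs, (mem_sdiff.1 ht).1⟩⟩)
  have h2 := h0 K ⟨a, aK⟩ ⟨b, mem_compl.2 bK⟩
  have h3 := h0 (X \ K) ⟨b, mem_sdiff.2 ⟨hb, bK⟩⟩ ⟨a, mem_compl.2 fun e => (mem_sdiff.1 e).2 aK⟩
  rw [← card_sdiff_add_card_eq_card sub, Nat.odd_add] at ho
  by_cases e : Even #K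
  · have := T.odd _ (ho.2 e)
    omega
  · have := T.odd _ (Nat.not_even_iff_odd.1 e)
    omega

/-- A colouring of the part `X`; the fixed points are the ends of the edges that leave `X`. -/
structure Half (m : V → V → ℕ) (X : Finset V) (P : Prop) (c : Fin d → V → V) (A : Fin d → V) :
    Prop where
  mem : ∀ i, ∀ v ∈ X, c i v ∈ X
  inv : ∀ i, ∀ v ∈ X, c i (c i v) = v
  fix : ∀ i, ∀ v ∈ X, c i v = v ↔ P ∧ A i = v
  mA : ∀ i, A i ∈ X
  cnt : ∀ a ∈ X, ∀ b ∈ X, a ≠ b → m a b = #{i | c i a = b}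

omit [Fintype V] in
lemma Half.perm {X : Finset V} {P : Prop} {c : Fin d → V → V} {A : Fin d → V}
    (h : Half m X P c A) (ρ : Equiv.Perm (Fin d)) :
    Half m X P (fun i => c (ρ i)) fun i => A (ρ i) :=
  ⟨fun i => h.mem _, fun i => h.inv _, fun i => h.fix _, fun i => h.mA _, fun a ha b hb e =>
    (h.cnt a ha b hb e).trans (card_equiv ρ (by simp)).symm⟩

omit [Fintype V] in
lemma glue1 (hd : ∀ a, m a a = 0) {X Y : Finset V} (hY : ∀ v, v ∈ Y ↔ v ∉ X) {P : Prop}
    [Decidable P] {c₁ c₂ c : Fin d → V → V} {A B : Fin d → V} (H₁ : Half m X P c₁ A)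
    (H₂ : Half m Y P c₂ B) (hc : ∀ a ∈ X, ∀ b ∈ Y, m a b = #{i | P ∧ A i = a ∧ B i = b})
    (e₁ : ∀ i, ∀ v ∈ X, c i v = if c₁ i v = v then B i else c₁ i v)
    (e₂ : ∀ i, ∀ v ∈ Y, c i v = if c₂ i v = v then A i else c₂ i v) {a : V} (ha : a ∈ X) :
    (∀ i, c i (c i a) = a ∧ c i a ≠ a) ∧ ∀ b, m a b = #{i | c i a = b} := by
  have hB : ∀ i, B i ∉ X := fun i => (hY _).1 (H₂.mA i)
  have key : ∀ i, c i (c i a) = a ∧ c i a ≠ a := fun i => by
    rw [e₁ i a ha]
    split_ifs with h
    · obtain ⟨p, q⟩ := (H₁.fix i a ha).1 h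
      rw [e₂ i _ (H₂.mA i), if_pos ((H₂.fix i _ (H₂.mA i)).2 ⟨p, rfl⟩)]
      exact ⟨q, fun e => hB i (e ▸ ha)⟩
    · rw [e₁ i _ (H₁.mem i a ha), H₁.inv i a ha, if_neg (Ne.symm h)]
      exact ⟨rfl, h⟩
  refine ⟨key, fun b => ?_⟩
  by_cases hb : b ∈ X
  · by_cases e : a = b
    · rw [← e, hd, eq_comm, card_eq_zero, filter_eq_empty_iff]
      exact fun i _ => (key i).2
    · rw [H₁.cnt a ha b hb e]
      refine congrArg card (filter_congr fun i _ => ?_)
      rw [e₁ i a ha]
      split_ifs with h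
      · exact iff_of_false (fun e' => e (h.symm.trans e')) fun e' => hB i (e' ▸ hb)
      · rfl
  · rw [hc a ha b ((hY b).2 hb)]
    refine congrArg card (filter_congr fun i _ => ?_)
    rw [e₁ i a ha, ← and_assoc, ← H₁.fix i a ha]
    split_ifs with h
    · exact and_iff_right h
    · exact iff_of_false (fun e => h e.1) fun e => hb (e ▸ H₁.mem i a ha)

lemma glue (hs : ∀ a b, m a b = m b a) (hd : ∀ a, m a a = 0) {X : Finset V} {P : Prop}
    [Decidable P] {c₁ c₂ : Fin d → V → V} {A B : Fin d → V} (H₁ : Half m X P c₁ A)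
    (H₂ : Half m Xᶜ P c₂ B) (hc : ∀ a ∈ X, ∀ b ∈ Xᶜ, m a b = #{i | P ∧ A i = a ∧ B i = b}) :
    Col d m := by
  let c : Fin d → V → V := fun i v => if v ∈ X then (if c₁ i v = v then B i else c₁ i v)
    else if c₂ i v = v then A i else c₂ i v
  have e₁ : ∀ i, ∀ v ∈ X, c i v = if c₁ i v = v then B i else c₁ i v := fun i v h => if_pos h
  have e₂ : ∀ i, ∀ v ∈ Xᶜ, c i v = if c₂ i v = v then A i else c₂ i v :=
    fun i v h => if_neg (mem_compl.1 h)
  have key : ∀ a, (∀ i, c i (c i a) = a ∧ c i a ≠ a) ∧ ∀ b, m a b = #{i | c i a = b} := fun a => by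
    by_cases ha : a ∈ X
    · exact glue1 hd (fun _ => mem_compl) H₁ H₂ hc e₁ e₂ ha
    · refine glue1 hd (fun _ => by simp) H₂ H₁ (fun a ha b hb => ?_) e₂ e₁ (mem_compl.2 ha)
      rw [hs, hc b hb a ha]
      exact congrArg card (filter_congr fun i _ => by tauto)
  exact ⟨c, fun i => ⟨fun v => ((key v).1 i).1, fun v => ((key v).1 i).2⟩, fun a => (key a).2⟩

omit [Fintype V] in
lemma exists_perm (X Y : Finset V) {A B : Fin d → V} (hA : ∀ i, A i ∈ X) (hB : ∀ i, B i ∈ Y)
    (h1 : ∀ a ∈ X, ∑ b ∈ Y, m a b = #{i | A i = a})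
    (h2 : ∀ b ∈ Y, ∑ a ∈ X, m a b = #{i | B i = b}) :
    ∃ ρ : Equiv.Perm (Fin d), ∀ a ∈ X, ∀ b ∈ Y, m a b = #{i | A i = a ∧ B (ρ i) = b} := by
  let S := (p : X × Y) × Fin (m p.1 p.2)
  have cS : ∀ (q : X × Y → Prop) [DecidablePred q],
      Fintype.card {s : S // q s.1} = ∑ p : X × Y, if q p then m p.1 p.2 else 0 := fun q _ => by
    rw [Fintype.card_subtype, card_filter, Fintype.sum_sigma]
    exact sum_congr rfl fun p _ => by split_ifs <;> simp
  let e₁ : Fin d ≃ S := Equiv.ofFiberEquiv (f := fun i => (⟨A i, hA i⟩ : X))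
    (g := fun s => s.1.1) fun a => Fintype.equivOfCardEq (by
      rw [cS fun p => p.1 = a, Fintype.sum_prod_type, Fintype.sum_eq_single a (by simp +contextual),
        Fintype.card_subtype]
      simp only [if_true, Subtype.ext_iff]
      rw [← h1 a a.2, sum_coe_sort Y fun b => m a b])
  let e₂ : Fin d ≃ S := Equiv.ofFiberEquiv (f := fun i => (⟨B i, hB i⟩ : Y))
    (g := fun s => s.1.2) fun b => Fintype.equivOfCardEq (by
      rw [cS fun p => p.2 = b, Fintype.sum_prod_type_right,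
        Fintype.sum_eq_single b (by simp +contextual), Fintype.card_subtype]
      simp only [if_true, Subtype.ext_iff]
      rw [← h2 b b.2, sum_coe_sort X fun a => m a b])
  have k₁ : ∀ i, ((e₁ i).1.1 : V) = A i := fun i => congrArg Subtype.val
    (Equiv.ofFiberEquiv_map (f := fun i => (⟨A i, hA i⟩ : X)) (g := fun s : S => s.1.1) _ i)
  have k₂ : ∀ i, ((e₂ i).1.2 : V) = B i := fun i => congrArg Subtype.val
    (Equiv.ofFiberEquiv_map (f := fun i => (⟨B i, hB i⟩ : Y)) (g := fun s : S => s.1.2) _ i)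
  refine ⟨e₁.trans e₂.symm, fun a ha b hb => ?_⟩
  have := cS fun p => p = (⟨a, ha⟩, ⟨b, hb⟩)
  rw [sum_ite_eq', if_pos (mem_univ _), Fintype.card_subtype] at this
  refine this.symm.trans (card_equiv e₁ fun i => ?_).symm
  rw [mem_filter_univ, mem_filter_univ, ← k₁, ← k₂, Prod.ext_iff, Subtype.ext_iff, Subtype.ext_iff]
  simp

/-- The induction hypothesis. -/
def IH (d : ℕ) (V : Type) [Fintype V] : Prop :=
  ∀ (W : Type) [Fintype W] [DecidableEq W] (m' : W → W → ℕ),
    Fintype.card W < Fintype.card V → Target d m' → Planar (supp m') → Col d m'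

lemma half0 (hM : StMinor) (T : Target d m) (hp : Planar (supp m)) (ih : IH d V) {X : Finset V}
    (h1 : X.Nonempty) (h2 : Xᶜ.Nonempty) (h0 : cut m X = 0) :
    ∃ (c : Fin d → V → V) (A : Fin d → V), Half m X False c A := by
  let m' : X → X → ℕ := fun a b => m a b
  have dg : ∀ a, ∑ b, m' a b = d := fun a => by
    have := sum_eq_zero_iff.1 h0 a a.2
    rw [sum_coe_sort X fun b => m a b, ← T.deg a, ← sum_add_sum_compl X, this, add_zero]
  have T' : Target d m' := ⟨fun a b => T.symm _ _, fun a => T.diag _, dg, fun Z hZ => by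
    have := cut_map T.deg dg (.refl _) (.subtype _) (fun _ _ => rfl) Z
    rw [map_refl] at this
    exact this ▸ T.odd _ (by rwa [card_map])⟩
  obtain ⟨c, k1, k2⟩ := ih X m' (by
      rw [Fintype.card_coe, ← card_add_card_compl X]
      exact Nat.lt_add_of_pos_right h2.card_pos) T'
    (hM V X _ _ (fun a => if h : a ∈ X then some ⟨a, h⟩ else none) (fun w a b ha hb => by
      have e : ∀ a, (if h : a ∈ X then some (⟨a, h⟩ : X) else none) = some w → a = w :=
        fun a ha => by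
          split_ifs at ha
          exact congrArg Subtype.val (Option.some.inj ha)
      rw [e a ha, e b hb]) (fun w w' h => ⟨w, w', dif_pos w.2, dif_pos w'.2,
        (supp_adj T.symm T.diag _ _).2 ((supp_adj T'.symm T'.diag _ _).1 h)⟩) hp)
  obtain ⟨a₀, h₀⟩ := h1
  refine ⟨fun i v => if h : v ∈ X then c i ⟨v, h⟩ else v, fun _ => a₀, fun i v h => ?_,
    fun i v h => ?_, fun i v h => ?_, fun _ => h₀, fun a ha b hb _ => ?_⟩
  · simp only [dif_pos h, coe_mem]
  · simp only [dif_pos h, coe_mem, dif_pos, Subtype.coe_eta, (k1 i).1]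
  · simp only [dif_pos h, false_and, iff_false]
    exact fun e => (k1 i).2 _ (Subtype.ext e)
  · simp only [dif_pos ha]
    exact (k2 ⟨a, ha⟩ ⟨b, hb⟩).trans (congrArg card (filter_congr fun i _ => Subtype.ext_iff))

/-- The contraction of the complement of `X`. -/
def con (m : V → V → ℕ) (X : Finset V) : Option X → Option X → ℕ
  | some a, some b => m a b
  | some a, none => ∑ b ∈ Xᶜ, m a b
  | none, some a => ∑ b ∈ Xᶜ, m a b
  | none, none => 0

lemma con_target (T : Target d m) {X : Finset V} (ho : Odd #X) (hc : cut m X = d) :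
    Target d (con m X) := by
  have sy : ∀ a b, con m X a b = con m X b a := by
    rintro (_ | a) (_ | b)
    exacts [rfl, rfl, rfl, T.symm _ _]
  have dg : ∀ a, ∑ b, con m X a b = d := by
    rintro (_ | a)
    · rw [Fintype.sum_option, ← hc, cut, ← sum_coe_sort X]
      exact zero_add _
    · rw [Fintype.sum_option, ← T.deg a, ← sum_add_sum_compl X, add_comm,
        ← sum_coe_sort X fun b => m a b]
      rfl
  have key : ∀ Z : Finset (Option X), none ∉ Z → Odd #Z → d ≤ cut (con m X) Z := fun Z h hZ => by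
    have := cut_map T.deg dg .some (.subtype _) (fun _ _ => rfl) Z.eraseNone
    rw [map_some_eraseNone, erase_eq_of_notMem h] at this
    exact this ▸ T.odd _ (by rwa [card_map, card_eraseNone_of_not_mem h])
  refine ⟨sy, ?_, dg, fun Z hZ => ?_⟩
  · rintro (_ | a)
    exacts [rfl, T.diag _]
  by_cases h : none ∈ Z
  · rw [← cut_compl sy]
    refine key _ (by simpa using h) ?_
    have := card_add_card_compl Z
    rw [Fintype.card_option, Fintype.card_coe] at this
    rw [Nat.odd_iff] at ho hZ ⊢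
    omega
  · exact key Z h hZ

lemma half1 (hM : StMinor) (T : Target d m) (hd : 1 ≤ d) (hp : Planar (supp m)) (ih : IH d V)
    (h0 : ∀ X : Finset V, X.Nonempty → Xᶜ.Nonempty → cut m X ≠ 0) {X : Finset V} (ho : Odd #X)
    (h2 : 2 ≤ #Xᶜ) (hc : cut m X = d) :
    ∃ (c : Fin d → V → V) (A : Fin d → V), Half m X True c A ∧
      ∀ a ∈ X, ∑ b ∈ Xᶜ, m a b = #{i | A i = a} := by
  have T' := con_target T ho hc
  let π : V → Option (Option X) := fun a => some (if h : a ∈ X then some ⟨a, h⟩ else none)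
  have p1 : ∀ (a : V) (w : X), π a = some (some w) ↔ a = w := fun a w => by
    by_cases h : a ∈ X
    · simp [π, h, Subtype.ext_iff]
    · simpa [π, h] using fun e : a = w => h (e ▸ w.2)
  have p2 : ∀ a : V, π a = some none ↔ a ∈ Xᶜ := fun a => by
    by_cases h : a ∈ X <;> simp [π, h]
  have ad : ∀ a b, (supp m).Adj a b ↔ m a b ≠ 0 := supp_adj T.symm T.diag
  obtain ⟨c, k1, k2⟩ := ih (Option X) (con m X) (by
      rw [Fintype.card_option, Fintype.card_coe, ← card_add_card_compl X]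
      omega) T'
    (hM V _ _ _ π (by
      rintro (_ | w) a b ha hb
      · simp only [p2] at ha hb ⊢
        exact conn T h0 (odd_compl T hd ho) ((cut_compl T.symm X).trans hc) ha hb
      · rw [(p1 a w).1 ha, (p1 b w).1 hb]) (by
      intro w w' h
      rw [supp_adj T'.symm T'.diag] at h
      rcases w with _ | w <;> rcases w' with _ | w'
      · exact absurd rfl h
      · obtain ⟨b, hb, e⟩ := exists_ne_zero_of_sum_ne_zero h
        exact ⟨b, w', (p2 b).2 hb, (p1 _ _).2 rfl, ((ad _ _).2 e).symm⟩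
      · obtain ⟨b, hb, e⟩ := exists_ne_zero_of_sum_ne_zero h
        exact ⟨w, b, (p1 _ _).2 rfl, (p2 b).2 hb, (ad _ _).2 e⟩
      · exact ⟨w, w', (p1 _ _).2 rfl, (p1 _ _).2 rfl, (ad _ _).2 h⟩) hp)
  choose A hA using fun i => Option.ne_none_iff_exists'.1 ((k1 i).2 none)
  have hN : ∀ i a, c i (some a) = none ↔ A i = a := fun i a =>
    ⟨fun e => Option.some.inj (by rw [← hA, ← e, (k1 i).1]), fun e => by rw [← e, ← hA, (k1 i).1]⟩
  let c' : Fin d → V → V := fun i v =>
    if h : v ∈ X then (c i (some ⟨v, h⟩)).elim v Subtype.val else v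
  have q1 : ∀ i (a b : X), c i (some a) = some b → c' i a = b := fun i a b e => by
    simp only [c', dif_pos a.2, Subtype.coe_eta, e, Option.elim_some]
  have q2 : ∀ i (a : X), c i (some a) = none → c' i a = a := fun i a e => by
    simp only [c', dif_pos a.2, Subtype.coe_eta, e, Option.elim_none]
  refine ⟨c', fun i => A i, ⟨fun i v h => ?_, fun i v h => ?_, fun i v h => ?_, fun i => (A i).2,
    fun a ha b hb n => ?_⟩, fun a ha => ?_⟩
  · rcases e : c i (some ⟨v, h⟩) with _ | b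
    · exact (q2 i _ e).symm ▸ h
    · exact (q1 i _ _ e).symm ▸ b.2
  · rcases e : c i (some ⟨v, h⟩) with _ | b
    · exact (congrArg _ (q2 i _ e)).trans (q2 i _ e)
    · exact (congrArg _ (q1 i _ _ e)).trans (q1 i b ⟨v, h⟩ (by rw [← e, (k1 i).1]))
  · rw [true_and, ← Subtype.ext_iff (a2 := ⟨v, h⟩), ← hN]
    refine ⟨fun e' => ?_, q2 i _⟩
    rcases e : c i (some ⟨v, h⟩) with _ | b
    · rfl
    · exact absurd (e.trans (congrArg some (Subtype.ext ((q1 i _ _ e).symm.trans e'))))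
        ((k1 i).2 _)
  · refine (k2 (some ⟨a, ha⟩) (some ⟨b, hb⟩)).trans
      (congrArg card (filter_congr fun i _ => ⟨q1 i _ _, fun e' => ?_⟩))
    rcases e : c i (some ⟨a, ha⟩) with _ | b'
    · exact absurd ((q2 i _ e).symm.trans e') n
    · exact congrArg some (Subtype.ext ((q1 i _ _ e).symm.trans e'))
  · exact (k2 (some ⟨a, ha⟩) none).trans
      (congrArg card (filter_congr fun i _ => (hN i _).trans Subtype.ext_iff))

end Reduce

open Reduce

theorem reduce_thm (hM : StMinor) : StReduce := by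
  intro d V _ _ m hd T hp ih X hX
  have z : ∀ X : Finset V, X.Nonempty → Xᶜ.Nonempty → cut m X = 0 → Col d m := fun X h1 h2 h0 => by
    obtain ⟨c₁, A, H₁⟩ := half0 hM T hp ih h1 h2 h0
    obtain ⟨c₂, B, H₂⟩ := half0 hM T hp ih h2 (by rwa [compl_compl])
      ((cut_compl T.symm X).trans h0)
    exact glue T.symm T.diag H₁ H₂ fun a ha b hb => by
      simpa using sum_eq_zero_iff.1 (sum_eq_zero_iff.1 h0 a ha) b hb
  rcases hX with ⟨h1, h2, h0⟩ | ⟨ho, h1, h2, hc⟩
  · exact z X h1 h2 h0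
  by_contra n
  have h0 : ∀ X : Finset V, X.Nonempty → Xᶜ.Nonempty → cut m X ≠ 0 :=
    fun X h1 h2 h0 => n (z X h1 h2 h0)
  obtain ⟨c₁, A, H₁, k₁⟩ := half1 hM T hd hp ih h0 ho h2 hc
  obtain ⟨c₂, B, H₂, k₂⟩ := half1 hM T hd hp ih h0 (odd_compl T hd ho) (by rwa [compl_compl])
    ((cut_compl T.symm X).trans hc)
  obtain ⟨ρ, hρ⟩ := exists_perm X Xᶜ H₁.mA H₂.mA k₁ fun b hb => by
    rw [← k₂ b hb, compl_compl]
    exact sum_congr rfl fun a _ => T.symm a b
  exact n (glue T.symm T.diag H₁ (H₂.perm ρ) fun a ha b hb => by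
    simpa only [true_and] using hρ a ha b hb)

theorem local_thm : StLocal := by
  classical
  intro d V _ _ m T
  have ad : ∀ a b, (supp m).Adj a b ↔ m a b ≠ 0 := supp_adj T.symm T.diag
  refine ⟨fun v a b ha hb => ?_, fun u v w h1 h2 h3 => ?_⟩
  · by_contra hn
    set K := univ.filter fun s => s ≠ v ∧
      Relation.ReflTransGen (fun s t => (supp m).Adj s t ∧ s ≠ v ∧ t ≠ v) a s with hK
    have aK : a ∈ K := mem_filter_univ _ |>.2 ⟨ha.ne', .refl⟩
    have bK : b ∉ K := fun e => hn ((mem_filter_univ _).1 e).2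
    have vK : v ∉ K := fun e => ((mem_filter_univ _).1 e).1 rfl
    have h1 : cut m K = ∑ s ∈ K, m v s := sum_congr rfl fun s hs => by
      rw [T.symm v s]
      refine sum_eq_single_of_mem v (mem_compl.2 vK) fun t ht e => by_contra fun e' => ?_
      obtain ⟨k1, k2⟩ := (mem_filter_univ _).1 hs
      exact mem_compl.1 ht ((mem_filter_univ _).2 ⟨e, k2.tail ⟨(ad _ _).2 e', k1, e⟩⟩)
    have h2 : m v a ≤ ∑ s ∈ K, m v s := single_le_sum (fun _ _ => Nat.zero_le _) aK
    have h3 : m v b ≤ ∑ s ∈ Kᶜ, m v s :=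
      single_le_sum (fun _ _ => Nat.zero_le _) (mem_compl.2 bK)
    have h4 := (sum_add_sum_compl K (m v)).trans (T.deg v)
    have h5 := cut_add T.deg K
    have h6 := cut_add T.deg (insert v K)
    have h7 : ∑ s ∈ K, m s v = ∑ s ∈ K, m v s := sum_congr rfl fun s _ => T.symm _ _
    simp only [sum_insert vK, sum_add_distrib, card_insert_of_notMem vK, mul_add, T.diag] at h6
    have h8 := (ad _ _).1 ha
    have h9 := (ad _ _).1 hb
    by_cases e : Even #K
    · have := T.odd (insert v K) (by rw [card_insert_of_notMem vK]; exact e.add_one)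
      omega
    · have := T.odd _ (Nat.not_even_iff_odd.1 e)
      omega
  · by_contra hn
    have n1 : u ∉ ({v, w} : Finset V) := by simp [h1.ne, h3.ne]
    have h4 : ∑ b ∈ {u, w}, m v b = d := by
      rw [← T.deg v]
      exact sum_subset (subset_univ _) fun z _ hz => by_contra fun e =>
        hn ⟨z, (ad _ _).2 e, by simpa [not_or] using hz⟩
    have h5 := cut_add T.deg {u, v, w}
    have h6 : #({u, v, w} : Finset V) = 3 := by rw [card_insert_of_notMem n1, card_pair h2.ne]
    have h7 := T.odd {u, v, w} (by rw [h6]; decide)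
    have h8 := (ad _ _).1 h3
    simp only [sum_insert n1, sum_pair h2.ne, h6, T.diag] at h5
    rw [sum_pair h3.ne] at h4
    rw [T.symm u v, T.symm w u, T.symm w v] at h5
    omega

end Pool.Agent.Lib.MP_fe5cb4_co.Sey
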