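import Pool.Agent.Lib.MP_fe5cb4_co.Sey.St

set_option autoImplicit false

namespace Pool.Agent.Lib.MP_fe5cb4_co.Sey

open Finset

namespace Config

open Classical

variable {V : Type} [Fintype V] {G : SimpleGraph V} {n : ℕ} {B : Fin n → Set (Sym2 V)}

lemma cast_ncard {α : Type} [Fintype α] (p : α → Prop) [DecidablePred p] :
    (({a | p a}.ncard : ℕ) : ZMod 2) = ∑ a, if p a then 1 else 0 := by
  rw [Set.ncard_eq_toFinset_card', Set.toFinset_ofPred, natCast_card_filter]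

lemma two {e : Sym2 V} (he : e ∈ G.edgeSet) : #{v | v ∈ e} = 2 := by
  induction e using Sym2.ind with
  | _ a b =>
    rw [← card_pair (G.ne_of_adj he)]
    congr 1
    ext v
    simp

variable (G) in
/-- The boundary map. -/
noncomputable def bd : (G.edgeSet → ZMod 2) →ₗ[ZMod 2] V → ZMod 2 :=
  Matrix.mulVecLin (Matrix.of fun v e => if v ∈ e.1 then 1 else 0)

lemma bd_apply (x : G.edgeSet → ZMod 2) (v : V) : bd G x v = ∑ e, if v ∈ e.1 then x e else 0 := by
  simp [bd, Matrix.mulVec, dotProduct]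

lemma bd_single {a b : V} (h : G.Adj a b) :
    bd G (Pi.single ⟨s(a, b), h⟩ 1) = Pi.single a 1 + Pi.single b 1 := by
  funext v
  rw [bd_apply, sum_eq_single (⟨s(a, b), h⟩ : G.edgeSet) (fun e _ he => by simp [he]) (by simp)]
  have := h.ne
  by_cases h1 : v = a <;> by_cases h2 : v = b <;> simp_all

/-- The members generate the cycle space. -/
def Gen (G : SimpleGraph V) (B : Fin n → Set (Sym2 V)) : Prop :=
  ∀ C, Cyc G C → ∃ I : Set (Fin n), ∀ e, e ∈ C ↔ Odd {i | i ∈ I ∧ e ∈ B i}.ncard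

lemma gen (h : Gen G B) {x : G.edgeSet → ZMod 2} (hx : bd G x = 0) :
    ∃ I : Set (Fin n), ∀ e, x e = ∑ i, if i ∈ I ∧ e.1 ∈ B i then 1 else 0 := by
  obtain ⟨I, hI⟩ := h (Subtype.val '' {e | x e = 1}) ⟨by rintro _ ⟨e, -, rfl⟩; exact e.2, fun v => by
    have e : {e | e ∈ Subtype.val '' {e | x e = 1} ∧ v ∈ e} =
        Subtype.val '' {e | x e = 1 ∧ v ∈ e.1} := by
      ext e
      exact ⟨by rintro ⟨⟨e, h1, rfl⟩, h2⟩; exact ⟨e, ⟨h1, h2⟩, rfl⟩,
        by rintro ⟨e, ⟨h1, h2⟩, rfl⟩; exact ⟨⟨e, h1, rfl⟩, h2⟩⟩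
    rw [e, Set.ncard_image_of_injective _ Subtype.val_injective, ← ZMod.natCast_eq_zero_iff_even,
      cast_ncard]
    refine (sum_congr rfl fun e _ => ?_).trans ((bd_apply x v).symm.trans (congrFun hx v))
    have : ∀ a : ZMod 2, a = 0 ∨ a = 1 := by decide
    rcases this (x e) with h | h <;> simp [h]⟩
  refine ⟨I, fun e => ?_⟩
  have h1 := hI e.1
  rw [Subtype.val_injective.mem_set_image, ← ZMod.natCast_eq_one_iff_odd, cast_ncard] at h1
  have : ∀ a b : ZMod 2, (a = 1 ↔ b = 1) → a = b := by decide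
  exact this _ _ h1

lemma euler [Nonempty V] (h : Gen G B) :
    #G.edgeFinset < Fintype.card V + #{i | (B i).Nonempty} := by
  have h1 := (bd G).finrank_range_add_finrank_ker
  have h2 : LinearMap.range (bd G) ≠ ⊤ := fun e => by
    obtain ⟨x, hx⟩ := LinearMap.range_eq_top.1 e (Pi.single (Classical.arbitrary V) 1)
    have h3 := congrArg (∑ v, · v) hx
    simp only [bd_apply, sum_pi_single', mem_univ, if_true] at h3
    rw [sum_comm, sum_eq_zero fun e _ => by
      rw [← sum_filter, sum_const, two e.2, two_nsmul, CharTwo.add_self_eq_zero]] at h3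
    exact zero_ne_one h3
  have h3 : LinearMap.ker (bd G) ≤ Submodule.span (ZMod 2) (Set.range
      fun (i : ({i | (B i).Nonempty} : Finset _)) (e : G.edgeSet) =>
        if e.1 ∈ B i then (1 : ZMod 2) else 0) := fun x hx => by
    obtain ⟨I, hI⟩ := gen h hx
    rw [funext hI, ← Finset.sum_fn]
    refine Submodule.sum_mem _ fun i _ => ?_
    by_cases h4 : i ∈ I ∧ (B i).Nonempty
    · exact Submodule.subset_span ⟨⟨i, by simpa using h4.2⟩, funext fun e => by simp [h4.1]⟩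
    · have e : (fun e : G.edgeSet => if i ∈ I ∧ e.1 ∈ B i then (1 : ZMod 2) else 0) = 0 :=
        funext fun e => if_neg fun a => h4 ⟨a.1, _, a.2⟩
      exact e ▸ zero_mem _
  have h4 := (Submodule.finrank_mono h3).trans (finrank_range_le_card _)
  have h5 := Submodule.finrank_lt h2
  rw [Module.finrank_fintype_fun_eq_card] at h1 h5
  rw [Fintype.card_coe] at h4
  rw [SimpleGraph.edgeFinset_card]
  omega

omit [Fintype V] in
lemma add_self (x : V → ZMod 2) : x + x = 0 := funext fun _ => CharTwo.add_self_eq_zero _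

lemma walk {v a z : V} (h : Relation.ReflTransGen (fun s t => G.Adj s t ∧ s ≠ v ∧ t ≠ v) a z) :
    ∃ x : G.edgeSet → ZMod 2, (∀ e, v ∈ e.1 → x e = 0) ∧ bd G x = Pi.single a 1 + Pi.single z 1 := by
  induction h with
  | refl => exact ⟨0, fun _ _ => rfl, by rw [map_zero, add_self]⟩
  | @tail b c _ h ih =>
    obtain ⟨x, h1, h2⟩ := ih
    refine ⟨x + Pi.single ⟨s(b, c), h.1⟩ 1, fun e he => ?_, ?_⟩
    · rw [Pi.add_apply, h1 e he, zero_add, Pi.single_eq_of_ne]
      rintro rfl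
      rcases Sym2.mem_iff.1 he with e | e
      exacts [h.2.1 e.symm, h.2.2 e.symm]
    · rw [map_add, h2, bd_single, add_assoc, ← add_assoc (Pi.single b 1), add_self, zero_add]

lemma sep (h : Gen G B) (hL : Loc2 G) {v a b z : V} (ha : G.Adj v a) (hb : G.Adj v b)
    (hz : G.Adj v z) (h1 : a ≠ b) (h2 : z ≠ a) (h3 : z ≠ b) :
    ¬ ∀ i, s(v, a) ∈ B i ↔ s(v, b) ∈ B i := fun h4 => by
  obtain ⟨x, x1, x2⟩ := walk (hL v a z ha hz)
  obtain ⟨I, hI⟩ := gen h (x := x + Pi.single ⟨s(v, a), ha⟩ 1 + Pi.single ⟨s(v, z), hz⟩ 1) (by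
    rw [map_add, map_add, x2, bd_single, bd_single, ← add_self
      (Pi.single a 1 + Pi.single z 1 + Pi.single v 1 : V → ZMod 2)]
    abel)
  have e1 := hI ⟨s(v, a), ha⟩
  have e2 := hI ⟨s(v, b), hb⟩
  simp only [h4] at e1
  rw [← e2] at e1
  simp [x1, Subtype.ext_iff, h1.symm, h2.symm, h3.symm, hb.ne', ha.ne'] at e1

omit [Fintype V] in
lemma other {C : Set (Sym2 V)} (hC : Cyc G C) {v a : V} (h : s(v, a) ∈ C) :
    ∃ b, s(v, b) ∈ C ∧ b ≠ a := by
  by_contra h1
  push Not at h1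
  have e : {e | e ∈ C ∧ v ∈ e} = {s(v, a)} := by
    ext e
    refine ⟨fun ⟨h2, h3⟩ => ?_, by rintro rfl; exact ⟨h, Sym2.mem_mk_left _ _⟩⟩
    obtain ⟨b, rfl⟩ := Sym2.mem_iff_exists.1 h3
    rw [h1 b h2]; rfl
  have := hC.2 v
  rw [e, Set.ncard_singleton] at this
  exact absurd this (by decide)

lemma tri {C : Set (Sym2 V)} (hC : Cyc G C) {v a : V} (h : s(v, a) ∈ C) :
    3 ≤ #{e ∈ G.edgeFinset | e ∈ C} ∧ (#{e ∈ G.edgeFinset | e ∈ C} ≤ 3 →
      ∃ b, s(v, b) ∈ C ∧ s(a, b) ∈ C) := by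
  obtain ⟨b, b1, b2⟩ := other hC h
  obtain ⟨c, c1, c2⟩ := other hC (Sym2.eq_swap ▸ h : s(a, v) ∈ C)
  have n1 : v ≠ a := G.ne_of_adj (hC.1 h)
  have n2 : v ≠ b := G.ne_of_adj (hC.1 b1)
  have h1 : ({s(v, a), s(v, b), s(a, c)} : Finset _) ⊆ {e ∈ G.edgeFinset | e ∈ C} := by
    intro e he
    simp only [mem_insert, mem_singleton] at he
    rcases he with rfl | rfl | rfl <;>
      exact mem_filter.2 ⟨SimpleGraph.mem_edgeFinset.2 (hC.1 ‹_›), ‹_›⟩
  have h2 : #({s(v, a), s(v, b), s(a, c)} : Finset _) = 3 :=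
    card_eq_three.2 ⟨_, _, _, by simp [b2.symm, n2], by simp [n1, c2.symm], by
      simp [n1, b2], rfl⟩
  refine ⟨h2 ▸ card_le_card h1, fun h3 => ⟨b, b1, ?_⟩⟩
  obtain ⟨d, d1, d2⟩ := other hC (Sym2.eq_swap ▸ b1 : s(b, v) ∈ C)
  have h4 := (eq_of_subset_of_card_le h1 (h2 ▸ h3)).ge
    (mem_filter.2 ⟨SimpleGraph.mem_edgeFinset.2 (hC.1 d1), d1⟩)
  simp only [mem_insert, mem_singleton, Sym2.eq_iff, b2, d2, n2.symm, false_and, and_false,
    false_or, or_false] at h4
  rwa [h4.1]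

end Config

open Config Classical in
theorem config_thm : StConfig := by
  rintro V _ _ G D ⟨n, B, hB, h2, hG⟩ hL h5 hD
  by_contra hc
  have dg : ∀ v, (G.neighborSet v).ncard = #{e ∈ G.edgeFinset | v ∈ e} := fun v => by
    rw [← G.incidenceFinset_eq_filter, G.card_incidenceFinset_eq_degree,
      Set.ncard_eq_toFinset_card', ← G.neighborFinset_def, G.card_neighborFinset_eq_degree]
  let s : Fin n → ℕ := fun i => #{e ∈ G.edgeFinset | e ∈ B i}
  let t : Sym2 V → ℕ := fun e => #{i | s i ≤ 3 ∧ e ∈ B i}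
  have c2 : ∀ e, #{i | e ∈ B i} ≤ 2 := fun e => by
    simpa [Set.ncard_eq_toFinset_card'] using h2 e
  have t2 : ∀ e, t e ≤ 2 := fun e =>
    (card_le_card (monotone_filter_right _ fun _ _ h => h.2)).trans (c2 e)
  have t1 : ∀ v, (G.neighborSet v).ncard = 5 → ∀ e, v ∈ e → t e ≤ 1 := fun v hv e he => by
    obtain ⟨a, rfl⟩ := Sym2.mem_iff_exists.1 he
    refine card_le_one.2 fun i hi j hj => by_contra fun ij => ?_
    obtain ⟨i1, i2⟩ := (mem_filter.1 hi).2
    obtain ⟨j1, j2⟩ := (mem_filter.1 hj).2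
    obtain ⟨b, b1, b2⟩ := (tri (hB i) i2).2 i1
    obtain ⟨c, c1, c2'⟩ := (tri (hB j) j2).2 j1
    have va : G.Adj v a := (hB i).1 i2
    have vb : G.Adj v b := (hB i).1 b1
    have vc : G.Adj v c := (hB j).1 c1
    have ab : G.Adj a b := (hB i).1 b2
    have ac : G.Adj a c := (hB j).1 c2'
    by_cases e : b = c
    · subst e
      have key : ∀ e, e ∈ B i → e ∈ B j → ∀ k, e ∈ B k ↔ k ∈ ({i, j} : Finset _) := fun e a1 a2 k => by
        rw [eq_of_subset_of_card_le (s := {i, j}) (t := {i | e ∈ B i})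
          (by simp [insert_subset_iff, a1, a2]) (by rw [card_pair ij]; exact c2 e)]
        simp
      obtain ⟨z, z1, z2⟩ := Set.exists_mem_notMem_of_ncard_lt_ncard (s := {a, b})
        (t := G.neighborSet v) ((Set.ncard_pair ab.ne).trans_lt (by omega))
      exact sep hG hL va vb z1 ab.ne (fun e => z2 (Or.inl e)) (fun e => z2 (Or.inr e)) fun k =>
        (key _ i2 j2 k).trans (key _ b1 c1 k).symm
    · rcases hD v hv b c vb vc e with h | h
      · exact hc ⟨v, b, c, a, h, vb, vc, ab.symm, ac.symm, Ne.symm e, va.ne'⟩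
      · exact hc ⟨v, c, b, a, h, vc, vb, ac.symm, ab.symm, e, va.ne'⟩
  have k1 : ∀ v, 24 + ∑ e ∈ G.edgeFinset with v ∈ e, t e ≤ ∑ e ∈ G.edgeFinset with v ∈ e, 6 :=
    fun v => by
      have a1 := h5 v
      have a2 : ∑ e ∈ G.edgeFinset with v ∈ e, t e ≤ _ := sum_le_card_nsmul _ t 2 fun e _ => t2 e
      have a3 : _ → ∑ e ∈ G.edgeFinset with v ∈ e, t e ≤ _ := fun h =>
        sum_le_card_nsmul _ t 1 fun e he => t1 v h e (mem_filter.1 he).2
      rw [sum_const]
      simp only [smul_eq_mul, ← dg] at a2 a3 ⊢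
      omega
  have k2 : ∀ f : Sym2 V → ℕ, ∑ v, ∑ e ∈ G.edgeFinset with v ∈ e, f e =
      2 * ∑ e ∈ G.edgeFinset, f e := fun f => by
    simp only [sum_filter]
    rw [sum_comm, mul_sum]
    exact sum_congr rfl fun e he => by
      rw [← sum_filter, sum_const, two (SimpleGraph.mem_edgeFinset.1 he), smul_eq_mul]
  have k3 := sum_le_sum fun v (_ : v ∈ univ) => k1 v
  rw [sum_add_distrib, k2, k2, sum_const, sum_const, card_univ] at k3
  have k4 : ∀ i, (if (B i).Nonempty then 12 else 0) ≤ 3 * s i + if s i ≤ 3 then s i else 0 :=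
    fun i => by
      by_cases h : (B i).Nonempty
      · obtain ⟨e, he⟩ := h
        induction e using Sym2.ind with
        | _ v a =>
          have : 3 ≤ s i := (tri (hB i) he).1
          split_ifs <;> omega
      · rw [if_neg h]; exact Nat.zero_le _
  have k5 := sum_le_sum fun i (_ : i ∈ univ) => k4 i
  have k6 : ∑ i, s i ≤ #G.edgeFinset * 2 := by
    simp only [s, card_filter]
    rw [sum_comm]
    exact sum_le_card_nsmul _ _ 2 fun e _ => (card_filter _ _).ge.trans (c2 e)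
  have k7 : (∑ i, if s i ≤ 3 then s i else 0) = ∑ e ∈ G.edgeFinset, t e := by
    simp only [t, card_filter]
    rw [sum_comm]
    refine sum_congr rfl fun i _ => ?_
    split_ifs with h
    · simp only [h, true_and]; exact card_filter _ _
    · simp [h]
  rw [← sum_filter, sum_const, sum_add_distrib, ← mul_sum, k7] at k5
  have k8 := euler hG
  simp only [smul_eq_mul] at k3 k5
  omega

end Pool.Agent.Lib.MP_fe5cb4_co.Sey
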