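import Pool.Agent.Lib.MP_fe5cb4_co.Sey.Cofacial
import Pool.Agent.Lib.MP_fe5cb4_co.Sey.Config

/-!
Short members of a planar structure, parity of cuts and the count by the formula of Euler.
-/

set_option autoImplicit false

namespace Pool.Agent.Lib.MP_fe5cb4_co.Sey

open Finset Pool.Agent.Lib.MP_fe5cb4_co.Sey.Norm

namespace Low

variable {V : Type} [Fintype V] [DecidableEq V] {G : SimpleGraph V}

/-- the edges of a chain -/
def es (c : Ch V) : Finset (Sym2 V) := {e | c e ≠ 0}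

omit [DecidableEq V] in
theorem mem_es {c : Ch V} {e : Sym2 V} : e ∈ es c ↔ c e ≠ 0 := by simp [es]

theorem es_rm {c : Ch V} {a b : V} (h : c s(a, b) ≠ 0) : es (c + one a b) = (es c).erase s(a, b) := by
  ext e
  rw [mem_erase, mem_es, mem_es, Pi.add_apply]
  by_cases k : e = s(a, b)
  · rw [k, one_self, ne_zero_iff.1 h]
    simp [add_self]
  · have : one a b e = 0 := by_contra fun u => k (one_ne u)
    simp [this, k]

/-- a chain without loops with boundary `a + b` and `n` edges -/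
structure Pa (n : ℕ) (c : Ch V) (a b : V) : Prop where
  nl : ∀ v, c s(v, v) = 0
  bd : ∀ v, bd c v = (if v = a then 1 else 0) + if v = b then 1 else 0
  card : #(es c) = n

theorem Pa.step {n : ℕ} {c : Ch V} {a b w : V} (h : Pa (n + 1) c a b) (k : c s(a, w) ≠ 0) :
    Pa n (c + one a w) w b := by
  have aw : a ≠ w := fun e => k (e ▸ h.nl a)
  refine ⟨fun v => by_contra fun t => ?_, fun v => ?_, ?_⟩
  · have := mem_es.2 t
    rw [es_rm k] at this
    exact mem_es.1 (mem_of_mem_erase this) (h.nl v)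
  · rw [bd_add, h.bd, bd_one aw]
    generalize (if v = a then 1 else 0 : ZMod 2) = p
    generalize (if v = b then 1 else 0 : ZMod 2) = q
    generalize (if v = w then 1 else 0 : ZMod 2) = r
    revert p q r
    decide
  · rw [es_rm k, card_erase_of_mem (mem_es.2 k), h.card, Nat.add_sub_cancel]

theorem Pa.ex {n : ℕ} {c : Ch V} {a b : V} (h : Pa n c a b) (k : a ≠ b) : ∃ w, c s(a, w) ≠ 0 := by
  by_contra! t
  have := h.bd a
  rw [Norm.bd, sum_eq_zero fun w _ => t w, if_pos rfl, if_neg k, add_zero] at this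
  exact zero_ne_one this

theorem Pa.zero {c : Ch V} {a b : V} (h : Pa 0 c a b) : a = b := by_contra fun k => by
  obtain ⟨w, hw⟩ := h.ex k
  exact (card_pos.2 ⟨_, mem_es.2 hw⟩).ne' h.card

theorem Pa.ne {c : Ch V} {a b : V} (h : Pa 1 c a b) : a ≠ b := by
  rintro rfl
  obtain ⟨e, he⟩ := card_pos.1 (h.card ▸ one_pos : 0 < #(es c))
  induction e using Sym2.ind with
  | _ p q =>
    have h' : Pa 1 c p p := ⟨h.nl, fun v => by rw [h.bd, add_self, add_self], h.card⟩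
    have := (h'.step (mem_es.1 he)).zero
    exact mem_es.1 he (this ▸ h.nl q)

theorem Pa.one {c : Ch V} {a b : V} (h : Pa 1 c a b) : es c = {s(a, b)} := by
  obtain ⟨w, hw⟩ := h.ex h.ne
  obtain rfl := (h.step hw).zero
  exact (eq_of_subset_of_card_le (singleton_subset_iff.2 (mem_es.2 hw)) (by simp [h.card])).symm

theorem Pa.two {c : Ch V} {a b : V} (h : Pa 2 c a b) (k : a ≠ b) :
    ∃ q, es c = {s(a, q), s(q, b)} := by
  obtain ⟨w, hw⟩ := h.ex k
  have := (h.step hw).one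
  rw [es_rm hw] at this
  exact ⟨w, by rw [← insert_erase (mem_es.2 hw), this]⟩

/-- a path with three edges in the chain `c` -/
structure P3 (c : Ch V) (x u v y : V) : Prop where
  ux : c s(u, x) ≠ 0
  uv : c s(u, v) ≠ 0
  vy : c s(v, y) ≠ 0
  xv : x ≠ v
  yu : y ≠ u

omit [DecidableEq V] in
theorem adj {c : Ch V} (hc : c ∈ Z G) {a b : V} (h : c s(a, b) ≠ 0) : G.Adj a b := hc.1 _ h

omit [Fintype V] [DecidableEq V] in
theorem P3.symm {c : Ch V} {x u v y : V} (h : P3 c x u v y) : P3 c y v u x :=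
  ⟨h.vy, Sym2.eq_swap ▸ h.uv, h.ux, h.yu, h.xv⟩

omit [DecidableEq V] in
theorem ex_p3 {c : Ch V} (hc : c ∈ Z G) {u v : V} (h : c s(u, v) ≠ 0) : ∃ x y, P3 c x u v y := by
  obtain ⟨x, x1, x2, -⟩ := second hc h
  obtain ⟨y, y1, y2, -⟩ := second hc (Sym2.eq_swap ▸ h : c s(v, u) ≠ 0)
  exact ⟨x, y, x2, h, y2, x1, y1⟩

theorem P3.rest {c : Ch V} (hc : c ∈ Z G) {x u v y : V} (h : P3 c x u v y) :
    ∃ (n : ℕ) (c' : Ch V), #(es c) = n + 3 ∧ Pa n c' x y ∧
      es c' = (((es c).erase s(u, v)).erase s(v, y)).erase s(u, x) := by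
  have uv := (adj hc h.uv).ne
  have k1 : (c + one u v) s(v, y) ≠ 0 := mem_es.1 (by
    rw [es_rm h.uv]
    exact mem_erase.2 ⟨by simp [uv.symm, h.yu], mem_es.2 h.vy⟩)
  have k2 : (c + one u v + one v y) s(u, x) ≠ 0 := mem_es.1 (by
    rw [es_rm k1, es_rm h.uv]
    exact mem_erase.2 ⟨by simp [uv, h.yu.symm], mem_erase.2 ⟨by simp [uv, h.xv], mem_es.2 h.ux⟩⟩)
  have e : es (c + one u v + one v y + one u x) =
      (((es c).erase s(u, v)).erase s(v, y)).erase s(u, x) := by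
    rw [es_rm k2, es_rm k1, es_rm h.uv]
  have c1 := card_erase_add_one (mem_es.2 h.uv)
  have c2 := card_erase_add_one (mem_es.2 k1)
  have c3 := card_erase_add_one (mem_es.2 k2)
  rw [← es_rm h.uv] at c1
  rw [← es_rm k1] at c2
  rw [← es_rm k2] at c3
  obtain ⟨n, hn⟩ : ∃ n, #(es c) = n + 3 := ⟨#(es c) - 3, by omega⟩
  have p0 : Pa (n + 3) c u u :=
    ⟨fun v => by_contra fun t => (adj hc t).ne rfl, fun v => by rw [hc.2, add_self], hn⟩
  have p2 := (p0.step h.uv).step k1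
  have p3 : Pa (n + 1) (c + one u v + one v y) u y :=
    ⟨p2.nl, fun w => (p2.bd w).trans (add_comm _ _), p2.card⟩
  exact ⟨n, _, hn, p3.step k2, e⟩

theorem P3.three {c : Ch V} (hc : c ∈ Z G) {x u v y : V} (h : P3 c x u v y) : 3 ≤ #(es c) := by
  obtain ⟨n, _, h1, -⟩ := h.rest hc
  omega

theorem P3.tri {c : Ch V} (hc : c ∈ Z G) {x u v y : V} (h : P3 c x u v y) (k : #(es c) = 3) :
    x = y ∧ ∀ e ∈ es c, e = s(u, v) ∨ e = s(v, x) ∨ e = s(u, x) := by
  obtain ⟨n, c', h1, h2, h3⟩ := h.rest hc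
  obtain rfl : n = 0 := by omega
  obtain rfl := h2.zero
  refine ⟨rfl, fun e he => by_contra fun t => ?_⟩
  push Not at t
  have : e ∈ es c' := h3 ▸ mem_erase.2 ⟨t.2.2, mem_erase.2 ⟨t.2.1, mem_erase.2 ⟨t.1, he⟩⟩⟩
  exact (card_pos.2 ⟨_, this⟩).ne' h2.card

theorem P3.quad {c : Ch V} (hc : c ∈ Z G) {x u v y : V} (h : P3 c x u v y) (k : #(es c) = 4) :
    x ≠ y ∧ c s(x, y) ≠ 0 := by
  obtain ⟨n, c', h1, h2, h3⟩ := h.rest hc
  obtain rfl : n = 1 := by omega
  have : s(x, y) ∈ es c' := h2.one ▸ mem_singleton_self _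
  rw [h3] at this
  exact ⟨h2.ne, mem_es.1 (mem_of_mem_erase (mem_of_mem_erase (mem_of_mem_erase this)))⟩

theorem P3.penta {c : Ch V} (hc : c ∈ Z G) {x u v y : V} (h : P3 c x u v y) (k : #(es c) = 5)
    (xy : x ≠ y) : ∃ q, c s(x, q) ≠ 0 ∧ c s(q, y) ≠ 0 ∧ q ≠ u ∧ q ≠ v ∧ ∀ e ∈ es c,
      e = s(u, v) ∨ e = s(v, y) ∨ e = s(u, x) ∨ e = s(x, q) ∨ e = s(q, y) := by
  obtain ⟨n, c', h1, h2, h3⟩ := h.rest hc
  obtain rfl : n = 2 := by omega
  obtain ⟨q, hq⟩ := h2.two xy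
  have a1 : s(x, q) ∈ es c' := hq ▸ mem_insert_self _ _
  have a2 : s(q, y) ∈ es c' := hq ▸ mem_insert_of_mem (mem_singleton_self _)
  simp only [h3, mem_erase, mem_es] at a1 a2
  refine ⟨q, a1.2.2.2, a2.2.2.2, fun e => a1.1 (by rw [e, Sym2.eq_swap]),
    fun e => a2.2.1 (by rw [e]), fun e he => by_contra fun t => ?_⟩
  push Not at t
  have : e ∈ es c' := h3 ▸ mem_erase.2 ⟨t.2.2.1, mem_erase.2 ⟨t.2.1, mem_erase.2 ⟨t.1, he⟩⟩⟩
  rw [hq, mem_insert, mem_singleton] at this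
  exact this.elim t.2.2.2.1 t.2.2.2.2

theorem P3.penta_ne {c : Ch V} (hc : c ∈ Z G) {x u v y : V} (h : P3 c x u v y)
    (k : #(es c) = 5) : x ≠ y := by
  rintro rfl
  obtain ⟨n, c', h1, h2, -⟩ := h.rest hc
  obtain rfl : n = 2 := by omega
  obtain ⟨e, he⟩ := card_pos.1 (h2.card ▸ two_pos : 0 < #(es c'))
  induction e using Sym2.ind with
  | _ p q =>
    have h' : Pa 2 c' p p := ⟨h2.nl, fun v => by rw [h2.bd, add_self, add_self], h2.card⟩
    have h4 := (h'.step (mem_es.1 he)).one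
    rw [es_rm (mem_es.1 he)] at h4
    have h5 : s(q, p) ∈ (es c').erase s(p, q) := h4 ▸ mem_singleton_self _
    exact (mem_erase.1 h5).1 Sym2.eq_swap

omit [Fintype V] [DecidableEq V] in
/-- a symmetric sum modulo two vanishes -/
theorem sum_symm (f : V → V → ZMod 2) (h : ∀ a b, f a b = f b a) (h0 : ∀ a, f a a = 0)
    (X : Finset V) : ∑ a ∈ X, ∑ b ∈ X, f a b = 0 := by
  rw [← sum_product']
  refine sum_involution (fun p _ => p.swap) (fun p _ => ?_) (fun p _ k e => k ?_)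
    (fun p hp => ?_) fun _ _ => rfl
  · rw [Prod.fst_swap, Prod.snd_swap, h p.2, add_self]
  · rw [show p.2 = p.1 from congrArg Prod.fst e, h0]
  · exact mem_product.2 (mem_product.1 hp).symm

/-- a cut meets an even set in an even number of edges -/
theorem cross {c : Ch V} (hc : c ∈ Z G) {X : Finset V} {u v : V} (hu : u ∈ X) (hv : v ∉ X)
    (h : c s(u, v) ≠ 0) : ∃ a ∈ X, ∃ b ∉ X, c s(a, b) ≠ 0 ∧ ¬ (a = u ∧ b = v) := by
  by_contra! t
  have h1 : ∑ a ∈ X, bd c a = 0 := sum_eq_zero fun a _ => hc.2 a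
  simp only [bd, ← sum_add_sum_compl X, sum_add_distrib] at h1
  rw [sum_symm (fun a b => c s(a, b)) (fun a b => by rw [Sym2.eq_swap])
    (fun a => by_contra fun k => (adj hc k).ne rfl), zero_add, sum_eq_single_of_mem u hu,
    sum_eq_single_of_mem v (mem_compl.2 hv)] at h1
  · exact h h1
  · exact fun b hb k => by_contra fun e => k (t u hu b (mem_compl.1 hb) e).2
  · exact fun a ha k => sum_eq_zero fun b hb => by_contra fun e => k (t a ha b (mem_compl.1 hb) e).1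

/-- a planar structure in which every edge lies in two members -/
structure Emb (G : SimpleGraph V) {ι : Type} [Fintype ι] (B : ι → Ch V) : Prop where
  mem : ∀ i, B i ∈ Z G
  ne : ∀ i, B i ≠ 0
  two : ∀ e ∈ G.edgeSet, #{i | B i e ≠ 0} = 2
  gen : Z G ≤ Submodule.span (ZMod 2) (Set.range B)
  loc : Loc2 G
  third : ∀ u v w, G.Adj u v → G.Adj v w → G.Adj u w → ∃ z, G.Adj v z ∧ z ≠ u ∧ z ≠ w

theorem ex_emb (h : Planar G) (hL : Loc2 G)
    (hT : ∀ u v w, G.Adj u v → G.Adj v w → G.Adj u w → ∃ z, G.Adj v z ∧ z ≠ u ∧ z ≠ w)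
    (h2 : ∀ u v, G.Adj u v → ∃ x, G.Adj u x ∧ x ≠ v) :
    ∃ (ι : Type) (_ : Fintype ι) (B : ι → Ch V), Emb G B := by
  obtain ⟨ι, _, B, h1, h3, h4, h5⟩ := normal h
  refine ⟨ι, inferInstance, B, h1, h3, fun e he => ?_, h5, hL, hT⟩
  induction e using Sym2.ind with
  | _ u v =>
    obtain ⟨x, x1, x2⟩ := h2 u v he
    obtain ⟨i, hi⟩ := ex_mem hL h5 he x1 x2.symm
    have := card_pos.2 ⟨i, (mem_filter.2 ⟨mem_univ i, hi⟩ : i ∈ univ.filter (B · s(u, v) ≠ 0))⟩
    have := h4 s(u, v)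
    omega

variable {ι : Type} [Fintype ι] {B : ι → Ch V}

omit [DecidableEq V] in
theorem Emb.le (h : Emb G B) (e : Sym2 V) : #{i | B i e ≠ 0} ≤ 2 := by
  by_cases k : e ∈ G.edgeSet
  · exact (h.two e k).le
  · rw [card_eq_zero.2 (filter_eq_empty_iff.2 fun i _ t => k ((h.mem i).1 e t))]
    exact Nat.zero_le _

omit [DecidableEq V] in
theorem Emb.edge (h : Emb G B) (i : ι) : ∃ x u v y, P3 (B i) x u v y := by
  obtain ⟨e, he⟩ := Function.ne_iff.1 (h.ne i)
  induction e using Sym2.ind with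
  | _ u v =>
    obtain ⟨x, y, k⟩ := ex_p3 (h.mem i) he
    exact ⟨x, u, v, y, k⟩

theorem Emb.chord3 (h : Emb G B) {i : ι} {x u v y : V} (k : P3 (B i) x u v y) (xy : x ≠ y) :
    Planar (G ⊔ SimpleGraph.edge x y) := by
  have t : ∀ p q r : ZMod 2, p + q + (q + r) = p + r := by decide
  refine Cofacial.chord h.mem h.le h.gen i xy (one x u + one u v + one v y)
    (Cofacial.add_one (Cofacial.add_one (fun e t => one_ne t ▸ Sym2.eq_swap ▸ k.ux) k.uv) k.vy)
    fun s => ?_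
  rw [bd_add, bd_add, bd_one (adj (h.mem i) k.ux).ne', bd_one (adj (h.mem i) k.uv).ne,
    bd_one (adj (h.mem i) k.vy).ne, t, t]

/-- the neighbour on the other member at a side of a triangle -/
theorem Emb.chord2 (h : Emb G B) {u v x : V} (uv : G.Adj u v) (vx : G.Adj v x) (ux : G.Adj u x) :
    ∃ y, G.Adj v y ∧ y ≠ u ∧ y ≠ x ∧ Planar (G ⊔ SimpleGraph.edge x y) := by
  classical
  have t : ∀ p q r : ZMod 2, p + q + (q + r) = p + r := by decide
  obtain ⟨i, j, ij, e⟩ := card_eq_two.1 (h.two s(v, x) vx)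
  have hi : B i s(v, x) ≠ 0 := (mem_filter.1 (e.ge (mem_insert_self i {j}))).2
  have hj : B j s(v, x) ≠ 0 := (mem_filter.1 (e.ge (mem_insert_of_mem (mem_singleton_self j)))).2
  have k : ∃ l y, y ≠ x ∧ y ≠ u ∧ B l s(v, x) ≠ 0 ∧ B l s(v, y) ≠ 0 := by
    obtain ⟨a, a1, a2, -⟩ := second (h.mem i) hi
    obtain ⟨b, b1, b2, -⟩ := second (h.mem j) hj
    by_cases ha : a = u
    · by_cases hb : b = u
      · obtain ⟨z, z1, z2, z3⟩ := h.third u v x uv vx ux
        exact (no_pair h.loc h.le h.gen vx z1 z3 z2 ux.ne' ij hi (ha ▸ a2) hj (hb ▸ b2)).elim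
      · exact ⟨j, b, b1, hb, hj, b2⟩
    · exact ⟨i, a, a1, ha, hi, a2⟩
  obtain ⟨l, y, y1, y2, y3, y4⟩ := k
  refine ⟨y, adj (h.mem l) y4, y2, y1, Cofacial.chord h.mem h.le h.gen l y1.symm
    (one x v + one v y) (Cofacial.add_one (fun e k => one_ne k ▸ Sym2.eq_swap ▸ y3) y4) fun s => ?_⟩
  rw [bd_add, bd_one vx.ne', bd_one (adj (h.mem l) y4).ne, t]

/-- two triangular members on an edge have different apexes -/
theorem Emb.apex (h : Emb G B) {i k : ι} (ik : k ≠ i) (hk : #(es (B k)) = 3) {u v x : V}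
    (uv : B i s(u, v) ≠ 0) (vx : B i s(v, x) ≠ 0) (ux : G.Adj u x) (kuv : B k s(u, v) ≠ 0) :
    ∃ z, z ≠ x ∧ G.Adj u z ∧ G.Adj v z := by
  obtain ⟨z, y, p⟩ := ex_p3 (h.mem k) kuv
  obtain ⟨rfl, -⟩ := p.tri (h.mem k) hk
  refine ⟨z, ?_, adj (h.mem k) p.ux, adj (h.mem k) p.vy⟩
  rintro rfl
  have a1 := adj (h.mem i) uv
  obtain ⟨w, w1, w2, w3⟩ := h.third u v z a1 (adj (h.mem i) vx) ux
  exact no_pair h.loc h.le h.gen a1.symm w1 w2 w3 ux.ne ik (Sym2.eq_swap ▸ kuv) p.vy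
    (Sym2.eq_swap ▸ uv) vx

omit [DecidableEq V] in
open Classical in
theorem Emb.euler [Nonempty V] (h : Emb G B) :
    #G.edgeFinset < Fintype.card V + Fintype.card ι := by
  let E := (Fintype.equivFin ι).symm
  have hg : Config.Gen G fun i => {e | B (E i) e ≠ 0} := fun C hC => by
    have k : {e | (if e ∈ C then 1 else 0 : ZMod 2) ≠ 0} = C := by
      ext e
      simp
    obtain ⟨r, hr⟩ := (Submodule.mem_span_range_iff_exists_fun _).1
      (h.gen (cyc_iff.1 (k.symm ▸ hC)))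
    refine ⟨{i | r (E i) ≠ 0}, fun e => ?_⟩
    have h4 := congrFun hr e
    rw [Finset.sum_apply, ← E.sum_comp, sum_eq_card] at h4
    have h5 : {i | i ∈ {i | r (E i) ≠ 0} ∧ e ∈ {e | B (E i) e ≠ 0}}.ncard =
        #{i | (r (E i) • B (E i)) e ≠ 0} := by
      rw [← Set.ncard_coe_finset]
      congr 1
      ext i
      simp
    rw [h5, ← ZMod.natCast_eq_one_iff_odd, h4]
    simp
  refine (Config.euler hg).trans_le (Nat.add_le_add_left ((card_le_univ _).trans ?_) _)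
  simp

end Low

end Pool.Agent.Lib.MP_fe5cb4_co.Sey
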