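import Pool.Agent.Lib.MP_fe5cb4_co.Sey.St

set_option autoImplicit false

namespace Pool.Agent.Lib.MP_fe5cb4_co.Sey

open Finset

namespace Bridge

variable {V E : Type} [Fintype V] [DecidableEq V] [Fintype E]

/-- number of edges from `a` to `b` -/
def out (s d : E → V) (a b : V) : ℕ := #{e | s e = a ∧ d e = b}

/-- number of edges with ends `a` and `b` -/
def mult (s d : E → V) (a b : V) : ℕ := out s d a b + out s d b a

omit [Fintype V] in
theorem sum_out (s d : E → V) (X Y : Finset V) :
    ∑ a ∈ X, ∑ b ∈ Y, out s d a b = #{e | s e ∈ X ∧ d e ∈ Y} := by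
  rw [← Finset.sum_product']
  rw [Finset.card_eq_sum_card_fiberwise (f := fun e => (s e, d e)) (t := X ×ˢ Y)]
  · refine Finset.sum_congr rfl fun p hp => ?_
    rw [Finset.mem_product] at hp
    unfold out
    congr 1
    ext e
    simp only [Finset.mem_filter, Finset.mem_univ, true_and, Prod.ext_iff]
    constructor
    · rintro ⟨h1, h2⟩
      exact ⟨⟨h1 ▸ hp.1, h2 ▸ hp.2⟩, h1, h2⟩
    · rintro ⟨-, h⟩
      exact h
  · intro e he
    simpa using he

theorem cut_mult (s d : E → V) (X : Finset V) :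
    cut (mult s d) X = #{e | (s e ∈ X ∧ d e ∉ X) ∨ (s e ∉ X ∧ d e ∈ X)} := by
  classical
  unfold cut mult
  simp only [Finset.sum_add_distrib]
  rw [sum_out, Finset.sum_comm, sum_out, Finset.filter_or, Finset.card_union_of_disjoint]
  · simp only [Finset.mem_compl]
  · rw [Finset.disjoint_filter]
    rintro e - ⟨h1, -⟩ ⟨h2, -⟩
    exact h2 h1

omit [Fintype V] in
theorem mult_diag {s d : E → V} (hl : ∀ e, s e ≠ d e) (a : V) : mult s d a a = 0 := by
  have : out s d a a = 0 := by
    unfold out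
    rw [Finset.card_eq_zero, Finset.filter_eq_empty_iff]
    rintro e - ⟨h1, h2⟩
    exact hl e (h1.trans h2.symm)
  unfold mult
  rw [this]

theorem deg_mult {s d : E → V} (hl : ∀ e, s e ≠ d e) (a : V) :
    ∑ b, mult s d a b = #{e | s e = a ∨ d e = a} := by
  have h1 : ∑ b, mult s d a b = cut (mult s d) {a} := by
    unfold cut
    rw [Finset.sum_singleton, ← Finset.sum_compl_add_sum {a}, Finset.sum_singleton,
      mult_diag hl, add_zero]
  rw [h1, cut_mult]
  congr 1
  ext e
  simp only [Finset.mem_filter, Finset.mem_univ, true_and, Finset.mem_singleton]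
  constructor
  · rintro (h | h)
    · exact Or.inl h.1
    · exact Or.inr h.2
  · rintro (h | h)
    · exact Or.inl ⟨h, fun h' => hl e (h.trans h'.symm)⟩
    · exact Or.inr ⟨fun h' => hl e (h'.trans h.symm), h⟩

omit [Fintype V] in
theorem mult_eq {s d : E → V} (hl : ∀ e, s e ≠ d e) (a b : V) :
    mult s d a b = #{e | s(s e, d e) = s(a, b)} := by
  classical
  unfold mult out
  rw [← Finset.card_union_of_disjoint, ← Finset.filter_or]
  · congr 1
    ext e
    simp only [Finset.mem_filter, Finset.mem_univ, true_and, Sym2.eq_iff]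
  · rw [Finset.disjoint_filter]
    rintro e - ⟨h1, -⟩ ⟨-, h2⟩
    exact hl e (h1.trans h2.symm)

theorem card_sub {α : Type} [Fintype α] (p : α → Prop) [DecidablePred p] :
    Nat.card {x : α // p x} = #{x | p x} := by
  rw [Nat.card_eq_fintype_card, Fintype.card_subtype]

omit [Fintype V] in
theorem supp_mult (s d : E → V) :
    supp (mult s d) = SimpleGraph.fromRel fun a b => ∃ e, s e = a ∧ d e = b := by
  have h : ∀ a b, out s d a b ≠ 0 ↔ ∃ e, s e = a ∧ d e = b := by
    intro a b
    unfold out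
    rw [Finset.card_ne_zero]
    constructor
    · rintro ⟨e, he⟩
      exact ⟨e, (Finset.mem_filter.1 he).2⟩
    · rintro ⟨e, he⟩
      exact ⟨e, Finset.mem_filter.2 ⟨Finset.mem_univ _, he⟩⟩
  ext a b
  simp only [supp, SimpleGraph.fromRel_adj, ← h, mult]
  refine and_congr_right fun _ => ?_
  omega

theorem target_iff {s d : E → V} (hl : ∀ e, s e ≠ d e) (r : ℕ) :
    Target r (mult s d) ↔ (∀ v, Nat.card {e : E // s e = v ∨ d e = v} = r) ∧
      ∀ U : Set V, Odd (Nat.card U) →
        r ≤ Nat.card {e : E // (s e ∈ U ∧ d e ∉ U) ∨ (s e ∉ U ∧ d e ∈ U)} := by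
  classical
  constructor
  · intro h
    refine ⟨fun v => ?_, fun U hU => ?_⟩
    · rw [card_sub, ← deg_mult hl]
      exact h.deg v
    · have h1 := h.odd U.toFinset (by rwa [← Nat.card_eq_card_toFinset])
      rw [cut_mult] at h1
      rw [card_sub]
      simpa only [Set.mem_toFinset] using h1
  · rintro ⟨h1, h2⟩
    refine ⟨fun a b => add_comm _ _, mult_diag hl, fun a => ?_, fun X hX => ?_⟩
    · rw [deg_mult hl, ← card_sub]
      exact h1 a
    · have h3 := h2 (X : Set V) (by simpa using hX)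
      rw [card_sub] at h3
      rw [cut_mult]
      simpa only [Finset.mem_coe] using h3

omit [Fintype V] in
theorem col_of {s d : E → V} (hl : ∀ e, s e ≠ d e) {r : ℕ} (M : Fin r → Set E)
    (h1 : ∀ i v, Nat.card {e : E // e ∈ M i ∧ (s e = v ∨ d e = v)} = 1)
    (h2 : ∀ e, Nat.card {i : Fin r // e ∈ M i} = 1) : Col r (mult s d) := by
  classical
  have h3 : ∀ i v, ∃ e, (e ∈ M i ∧ (s e = v ∨ d e = v)) ∧
      ∀ e', e' ∈ M i → (s e' = v ∨ d e' = v) → e' = e := by
    intro i v
    obtain ⟨x, hx⟩ := Nat.card_eq_one_iff_exists.1 (h1 i v)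
    exact ⟨x.1, x.2, fun e' a b => congrArg Subtype.val (hx ⟨e', a, b⟩)⟩
  have h4 : ∀ e, ∃ i, e ∈ M i ∧ ∀ j, e ∈ M j → j = i := by
    intro e
    obtain ⟨x, hx⟩ := Nat.card_eq_one_iff_exists.1 (h2 e)
    exact ⟨x.1, x.2, fun j a => congrArg Subtype.val (hx ⟨j, a⟩)⟩
  choose g hg hgu using h3
  choose k hk hku using h4
  let c : Fin r → V → V := fun i v => if s (g i v) = v then d (g i v) else s (g i v)
  have hc : ∀ i v, s(s (g i v), d (g i v)) = s(v, c i v) := by
    intro i v
    by_cases h : s (g i v) = v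
    · simp only [c, if_pos h]
      rw [h]
    · simp only [c, if_neg h]
      rw [(hg i v).2.resolve_left h, Sym2.eq_swap]
  have hc' : ∀ i e a b, e ∈ M i → s(s e, d e) = s(a, b) → e = g i a ∧ c i a = b := by
    intro i e a b he hab
    have h5 : e = g i a := by
      refine hgu i a e he ?_
      rcases Sym2.eq_iff.1 hab with h | h
      · exact Or.inl h.1
      · exact Or.inr h.2
    refine ⟨h5, ?_⟩
    have h6 := hc i a
    rw [← h5, hab] at h6
    exact (Sym2.congr_right.1 h6).symm
  refine ⟨c, fun i => ⟨fun v => ?_, fun v h => ?_⟩, fun a b => ?_⟩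
  · exact (hc' i (g i v) (c i v) v (hg i v).1 ((hc i v).trans Sym2.eq_swap)).2
  · have h6 := hc i v
    rw [h] at h6
    rcases Sym2.eq_iff.1 h6 with h7 | h7
    · exact hl _ (h7.1.trans h7.2.symm)
    · exact hl _ (h7.1.trans h7.2.symm)
  · rw [mult_eq hl]
    refine Finset.card_nbij' k (fun i => g i a) ?_ ?_ ?_ ?_
    · intro e he
      simp only [Finset.coe_filter, Finset.mem_univ, true_and, Set.mem_ofPred_eq] at he ⊢
      exact (hc' _ e a b (hk e) he).2
    · intro i hi
      simp only [Finset.coe_filter, Finset.mem_univ, true_and, Set.mem_ofPred_eq] at hi ⊢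
      rw [hc, hi]
    · intro e he
      simp only [Finset.coe_filter, Finset.mem_univ, true_and, Set.mem_ofPred_eq] at he
      exact (hc' _ e a b (hk e) he).1.symm
    · intro i _
      exact (hku _ i (hg i a).1).symm

omit [Fintype V] in
theorem of_col {s d : E → V} (hl : ∀ e, s e ≠ d e) {r : ℕ} (h : Col r (mult s d)) :
    ∃ M : Fin r → Set E,
      (∀ i v, Nat.card {e : E // e ∈ M i ∧ (s e = v ∨ d e = v)} = 1) ∧
      ∀ e, Nat.card {i : Fin r // e ∈ M i} = 1 := by
  classical
  obtain ⟨c, hc, hm⟩ := h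
  have hB : ∀ i a b, (∃ a', s(a, b) = s(a', c i a')) ↔ c i a = b := by
    intro i a b
    constructor
    · rintro ⟨a', h⟩
      rcases Sym2.eq_iff.1 h with h | h
      · rw [h.1, h.2]
      · rw [h.1, h.2, (hc i).1]
    · intro h
      exact ⟨a, by rw [h]⟩
  have hg : ∀ z : Sym2 V,
      Nonempty ({e : E // s(s e, d e) = z} ≃ {i : Fin r // ∃ a, z = s(a, c i a)}) := by
    intro z
    induction z using Sym2.ind with
    | _ a b =>
      refine ⟨Fintype.equivOfCardEq ?_⟩
      rw [Fintype.card_subtype, Fintype.card_subtype, ← mult_eq hl, hm]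
      congr 1
      ext i
      simp only [Finset.mem_filter, Finset.mem_univ, true_and, hB]
  let g := fun z => Classical.choice (hg z)
  let k : E → Fin r := fun e => (g s(s e, d e) ⟨e, rfl⟩).1
  have hk : ∀ (z : Sym2 V) (x : {e : E // s(s e, d e) = z}), k x.1 = (g z x).1 := by
    rintro z ⟨e, rfl⟩
    rfl
  have hk1 : ∀ e, c (k e) (s e) = d e := fun e => (hB _ _ _).1 (g s(s e, d e) ⟨e, rfl⟩).2
  refine ⟨fun i => {e | k e = i}, fun i v => ?_, fun e => ?_⟩
  · rw [Nat.card_eq_one_iff_exists]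
    let x := (g s(v, c i v)).symm ⟨i, v, rfl⟩
    have hx : k x.1 = i := by
      rw [hk, Equiv.apply_symm_apply]
    have hx2 : s x.1 = v ∨ d x.1 = v := by
      rcases Sym2.eq_iff.1 x.2 with h | h
      · exact Or.inl h.1
      · exact Or.inr h.2
    refine ⟨⟨x.1, hx, hx2⟩, ?_⟩
    rintro ⟨e, he, hv⟩
    have he' : k e = i := he
    have h1 : s(s e, d e) = s(v, c i v) := by
      have h2 := hk1 e
      rw [he'] at h2
      rcases hv with h | h
      · rw [← h, h2]
      · rw [← h, ← h2, (hc i).1, Sym2.eq_swap]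
    have h3 : g _ ⟨e, h1⟩ = ⟨i, v, rfl⟩ := Subtype.ext ((hk _ ⟨e, h1⟩).symm.trans he')
    have h4 : (⟨e, h1⟩ : {e : E // s(s e, d e) = s(v, c i v)}) = x := by
      rw [Equiv.eq_symm_apply]
      exact h3
    have h5 : e = x.1 := congrArg Subtype.val h4
    exact Subtype.ext h5
  · rw [Nat.card_eq_one_iff_exists]
    exact ⟨⟨k e, rfl⟩, fun y => Subtype.ext (Eq.symm y.2)⟩

theorem exists_edges (m : V → V → ℕ) (hs : ∀ a b, m a b = m b a) (hd : ∀ a, m a a = 0) :
    ∃ (E : Type) (_ : Fintype E) (s d : E → V), (∀ e, s e ≠ d e) ∧ mult s d = m := by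
  classical
  let f := Fintype.equivFin V
  let n : V × V → ℕ := fun p => if f p.1 < f p.2 then m p.1 p.2 else 0
  refine ⟨(p : V × V) × Fin (n p), inferInstance, fun e => e.1.1, fun e => e.1.2, ?_, ?_⟩
  · rintro ⟨⟨a, b⟩, i⟩ h
    have h' : a = b := h
    subst h'
    have := i.2
    simp [n] at this
  · have ho : ∀ a b, out (fun e : (p : V × V) × Fin (n p) => e.1.1) (fun e => e.1.2) a b =
        n (a, b) := by
      intro a b
      unfold out
      rw [Finset.card_filter, Fintype.sum_sigma]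
      rw [Finset.sum_eq_single (a, b)]
      · simp
      · rintro ⟨a', b'⟩ - hp
        refine Finset.sum_eq_zero fun i _ => if_neg ?_
        rintro ⟨h1, h2⟩
        exact hp (Prod.ext h1 h2)
      · intro h
        exact absurd (Finset.mem_univ _) h
    funext a b
    unfold mult
    rw [ho, ho]
    simp only [n]
    rcases lt_trichotomy (f a) (f b) with h | h | h
    · rw [if_pos h, if_neg (not_lt.2 h.le), add_zero]
    · have h' : a = b := f.injective h
      subst h'
      simp [hd]
    · rw [if_neg (not_lt.2 h.le), if_pos h, zero_add, hs]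

end Bridge

theorem bridge_thm : StBridge := by
  intro r
  constructor
  · intro h V _ _ m hm hp
    obtain ⟨E, _, s, d, hl, rfl⟩ := Bridge.exists_edges m hm.symm hm.diag
    obtain ⟨h1, h2⟩ := (Bridge.target_iff hl r).1 hm
    rw [Bridge.supp_mult] at hp
    obtain ⟨M, h3, h4⟩ := h V E s d hl h1 h2 hp
    exact Bridge.col_of hl M h3 h4
  · intro h V E _ _ s d hl h1 h2 hp
    classical
    have := Fintype.ofFinite V
    have := Fintype.ofFinite E
    rw [← Bridge.supp_mult] at hp
    exact Bridge.of_col hl (h V _ ((Bridge.target_iff hl r).2 ⟨h1, h2⟩) hp)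

end Pool.Agent.Lib.MP_fe5cb4_co.Sey
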