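import Pool.Agent.Lib.MP_fe5cb4_co.Sey.St

set_option autoImplicit false

namespace Pool.Agent.Lib.MP_fe5cb4_co.Sey

/-- the slicing step, for a triple edge, a double edge on a 4-cycle and a double edge on a
triangle -/
def StCore2 : Prop :=
  ∀ (d : ℕ) (V : Type) [Fintype V] [DecidableEq V] (m m' : V → V → ℕ) (u v x y : V),
    Target (d + 1) m → u ≠ v → u ≠ x → u ≠ y → v ≠ x → v ≠ y → x ≠ y →
    (∀ a b, m' a b + ed u x a b + ed v y a b = m a b + ed u v a b + ed x y a b) →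
    (2 ≤ m u v ∧ (3 ≤ m u v ∨ 1 ≤ m x y ∨ 1 ≤ m x v)) → Col (d + 1) m' →
    Col (d + 1) m ∨ ∃ (M : V → V) (m₀ : V → V → ℕ), IsPM M ∧ Target d m₀ ∧
      ∀ a b, m a b = m₀ a b + if M a = b then 1 else 0

end Pool.Agent.Lib.MP_fe5cb4_co.Sey
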