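import Pool.Agent.Lib.MP_fe5cb4_co.Sey.Core
import Pool.Agent.Lib.MP_fe5cb4_co.Sey.St2

set_option autoImplicit false
set_option linter.unusedSectionVars false
set_option linter.unusedSimpArgs false

namespace Pool.Agent.Lib.MP_fe5cb4_co.Sey

open Finset Relation

namespace CoreL

open PiL

variable {V : Type} [Fintype V] [DecidableEq V]

theorem sum_upd {κ β : Type} [Fintype κ] [DecidableEq κ] (g : κ → β) (k : κ) (w : β) (F : β → ℕ) :
    ∑ j, F (Function.update g k w j) + F (g k) = ∑ j, F (g j) + F w := by
  rw [← Finset.add_sum_erase _ _ (mem_univ k), ← Finset.add_sum_erase _ (fun j => F (g j)) (mem_univ k),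
    Function.update_self, Finset.sum_congr rfl (g := fun j => F (g j))
      fun j hj => by rw [Function.update_of_ne (mem_erase.1 hj).1]]
  ring

theorem pm_upd {κ : Type} [DecidableEq κ] {g : κ → V → V} (hg : ∀ k, IsPM (g k)) (k : κ)
    {w : V → V} (hw : IsPM w) (j : κ) : IsPM (Function.update g k w j) := by
  rcases eq_or_ne j k with rfl | h
  · rwa [Function.update_self]
  · rw [Function.update_of_ne h]; exact hg j

theorem all_of_count {h h' : K → V → V} (hc : ∀ a b, #{k | h' k a = b} = #{k | h k a = b})
    {u v : V} (huv : ∀ k, h k u = v) (k : K) : h' k u = v := by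
  have h1 := hc u v
  rw [Finset.filter_true_of_mem (s := univ) (p := fun k => h k u = v) fun k _ => huv k] at h1
  have h2 := Finset.eq_univ_of_card _ h1
  have : k ∈ (univ : Finset K) := mem_univ k
  rw [← h2] at this
  exact (mem_filter.1 this).2

theorem sum_of_count {h h' : K → V → V} (hc : ∀ a b, #{k | h' k a = b} = #{k | h k a = b})
    (a b : V) : ∑ k, ind (h' k) a b = ∑ k, ind (h k) a b := by
  rw [← card_eq_sum, ← card_eq_sum, hc]

/-- swapping two colours on a closed set -/
theorem swap_on {h : K → V → V} (hh : ∀ k, IsPM (h k)) {p q : K} {W : Finset V}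
    (hp : ∀ s ∈ W, h p s ∈ W) (hq : ∀ s ∈ W, h q s ∈ W) :
    ∃ h' : K → V → V, (∀ k, IsPM (h' k)) ∧ (∀ a b, ∑ k, ind (h' k) a b = ∑ k, ind (h k) a b) ∧
      (∀ k, ∀ s ∈ W, h' k s = h (Equiv.swap p q k) s) ∧ ∀ k s, s ∉ W → h' k s = h k s := by
  have cl : ∀ k, (k = p ∨ k = q) → ∀ s, h k s ∈ W ↔ s ∈ W := by
    intro k hk s
    have : ∀ s ∈ W, h k s ∈ W := by rcases hk with rfl | rfl <;> assumption
    exact ⟨fun h' => by have := this _ h'; rwa [(hh k).1] at this, this s⟩
  refine ⟨fun k s => if s ∈ W then h (Equiv.swap p q k) s else h k s, fun k => ?_, fun a b => ?_,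
    fun k s hs => if_pos hs, fun k s hs => if_neg hs⟩
  · by_cases hk : k = p ∨ k = q
    · have hk' : Equiv.swap p q k = p ∨ Equiv.swap p q k = q := by
        rcases hk with rfl | rfl <;> simp
      refine ⟨fun s => ?_, fun s => ?_⟩
      · by_cases hs : s ∈ W
        · simp only [if_pos hs, if_pos ((cl _ hk' s).2 hs)]; exact (hh _).1 s
        · simp only [if_neg hs, if_neg fun h' => hs ((cl _ hk s).1 h')]; exact (hh _).1 s
      · simp only
        split_ifs
        · exact (hh _).2 s
        · exact (hh _).2 s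
    · push Not at hk
      simp only [Equiv.swap_apply_of_ne_of_ne hk.1 hk.2, ite_self]
      exact hh k
  · by_cases ha : a ∈ W
    · simp only [ind, if_pos ha]
      exact Equiv.sum_comp (Equiv.swap p q) (fun k => if h k a = b then 1 else 0)
    · simp only [ind, if_neg ha]

end CoreL

open CoreL PiL in
theorem core2_thm : StCore2 := by
  classical
  intro d V _ _ m m' u v x y hm huv hux huy hvx hvy hxy hsw hcase hcol
  by_cases hno : Col (d + 1) m
  · exact Or.inl hno
  right
  obtain ⟨c, hc, hcnt⟩ := hcol
  have hcol : ∀ a b, m' a b = ∑ i, ind (c i) a b := fun a b => by rw [hcnt, card_eq_sum]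
  have hST : ∀ c : Fin (d + 1) → V → V, (∀ i, IsPM (c i)) → (∀ a b, m' a b = ∑ i, ind (c i) a b) →
      ∀ i, c i u = v → c i x ≠ y :=
    fun c hc hcol i h1 h2 => hno (sw_back huv hux huy hvx hvy hxy hsw hc hcol h1 h2)
  have e1 : m' u v = m u v + 1 := by
    have := hsw u v
    rw [ed_left hux, ed_ne huv huy, ed_left huv, ed_ne hux huy, if_neg hvx.symm, if_pos rfl] at this
    omega
  have e2 : m' x y = m x y + 1 := by
    have := hsw x y
    rw [ed_right hux, ed_ne hvx.symm hxy, ed_left hxy, ed_ne hux.symm hvx.symm, if_neg huy,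
      if_pos rfl] at this
    omega
  have crS : ∀ {f : V → V} {Z : Finset V}, f u = v → v ∉ Z → (∀ s ∈ Z, f s ∈ Z) →
      cr f (insert u Z) = 1 := by
    intro f Z h1 h2 h3
    refine cr_eq_one (mem_insert_self _ _) (by rw [h1]; simp [huv.symm, h2]) fun t ht htu => ?_
    exact mem_insert_of_mem (h3 t ((mem_insert.1 ht).resolve_left htu))
  obtain ⟨h2, h3 | h1⟩ := hcase
  · -- four colours on `uv`
    obtain ⟨e, he⟩ := Function.Embedding.exists_of_card_le_finset (α := K)
      (s := univ.filter fun i => c i u = v) (by rw [← hcnt, e1]; simp; omega)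
    have heS : ∀ k, c (e k) u = v := fun k => by simpa using he ⟨k, rfl⟩
    obtain ⟨b, hb⟩ : (univ.filter fun i => c i x = y).Nonempty := by
      rw [← Finset.card_pos, ← hcnt]; omega
    have hbx : c b x = y := by simpa using hb
    have hbJ : b ∉ Set.range e := by
      rintro ⟨k, rfl⟩; exact hST c hc hcol _ (heS k) hbx
    have hreach := ring_reach2 hm hux hvx huy hvy hsw hc hcol hbJ (Or.inl hbx) (h := fun k => c (e k))
      (fun k => hc _) heS (by
        rintro Z - - - hv hZ _ ⟨k, rfl⟩
        exact crS (heS k) hv (hZ k))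
    obtain ⟨c', l, hc', hcnt', -, -, -, hw⟩ := pi_thm V (fun k => c (e k)) _ x y (true, true)
      (true, true) (fun k => hc _) hxy.symm (hST c hc hcol _ (heS _)).symm hreach
    have hu' := all_of_count hcnt' heS
    have hc'' := pm_extend e.injective hc' hc
    have hcol'' := col_extend e.injective (g := c') (m₂ := m') hcol
      fun a b => by rw [sum_of_count hcnt']
    refine finish hm hux hvx (by omega) hsw hc'' hcol'' (J := Set.range e)
      (fun i hi => Function.extend_apply' _ _ _ hi) (l₀ := e l) ⟨l, rfl⟩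
      (hST _ hc'' hcol'' _ (by rw [e.injective.extend_apply]; exact hu' l)) hc' hu' hw ?_
    intro X hu _ hv _ k hk s hs hsu hout
    refine ⟨e k, fun h => hk (e.injective h), ?_⟩
    rw [e.injective.extend_apply]
    exact cr_ne_one hs hout hu (by rw [hu']; exact hv) hsu
  · -- three colours on `uv` and one on `xy`
    set τ : K := (true, true) with hτ
    obtain ⟨f, hf⟩ := Function.Embedding.exists_of_card_le_finset (α := {k : K // k ≠ τ})
      (s := univ.filter fun i => c i u = v) (by rw [← hcnt, e1]; simp; omega)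
    have hfS : ∀ k, c (f k) u = v := fun k => by simpa using hf ⟨k, rfl⟩
    obtain ⟨t₀, b, htx, hbx, htb, hbu⟩ : ∃ t₀ b, c t₀ x = y ∧ (c b x = y ∨ c b x = v) ∧ t₀ ≠ b ∧
        c b u ≠ v := by
      rcases h1 with h1 | h1
      · obtain ⟨t₀, ht₀, b, hb, htb⟩ : ∃ t₀ ∈ univ.filter fun i => c i x = y,
            ∃ b ∈ univ.filter fun i => c i x = y, t₀ ≠ b := by
          rw [← Finset.one_lt_card, ← hcnt]; omega
        have hbx : c b x = y := by simpa using hb
        exact ⟨t₀, b, by simpa using ht₀, Or.inl hbx, htb, fun h => hST c hc hcol b h hbx⟩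
      · have e3 : m' x v = m x v := by
          have := hsw x v
          rw [ed_right hux, ed_ne hvx.symm hxy, ed_left hxy, ed_ne hux.symm hvx.symm, if_neg huv,
            if_neg hvy.symm] at this
          omega
        obtain ⟨t₀, ht₀⟩ : (univ.filter fun i => c i x = y).Nonempty := by
          rw [← Finset.card_pos, ← hcnt]; omega
        obtain ⟨b, hb⟩ : (univ.filter fun i => c i x = v).Nonempty := by
          rw [← Finset.card_pos, ← hcnt]; omega
        have htx : c t₀ x = y := by simpa using ht₀
        have hbx : c b x = v := by simpa using hb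
        refine ⟨t₀, b, htx, Or.inr hbx, ?_, fun h => hux (IsPM_inj (hc b) (h.trans hbx.symm))⟩
        rintro rfl
        exact hvy (hbx.symm.trans htx)
    let e : K → Fin (d + 1) := fun k => if h : k = τ then t₀ else f ⟨k, h⟩
    have eτ : e τ = t₀ := by simp [e]
    have heS : ∀ k, k ≠ τ → c (e k) u = v := fun k hk => by simp only [e, dif_neg hk]; exact hfS _
    have he : Function.Injective e := by
      intro k k' h
      by_cases a1 : k = τ <;> by_cases a2 : k' = τ
      · rw [a1, a2]
      · exact absurd (by rw [← h, a1, eτ]; exact htx) (hST c hc hcol _ (heS k' a2))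
      · exact absurd (by rw [h, a2, eτ]; exact htx) (hST c hc hcol _ (heS k a1))
      · simp only [e, dif_neg a1, dif_neg a2] at h
        exact congrArg Subtype.val (f.injective h)
    have hbJ : b ∉ Set.range e := by
      rintro ⟨k, hk⟩
      by_cases a1 : k = τ
      · exact htb (by rw [← hk, a1, eτ])
      · exact hbu (by rw [← hk]; exact heS k a1)
    set F := cj u v x y (c t₀) with hF
    have hFpm : IsPM F := cj_pm huv hux huy hvx hvy hxy (hc _)
    have hcj : cj u v x y F = c t₀ := cj_cj huv hux huy hvx hvy hxy _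
    have hFu : F u = v := by simp [hF, cj, sw, htx, huy.symm, hxy.symm, hvy.symm]
    have hay : F x ≠ y := by
      intro h
      apply hST c hc hcol t₀ _ htx
      rw [← hcj]
      simp [cj, sw, h, huy.symm, hxy.symm, hvy.symm]
    set a := F x with ha
    set b' := F y with hb'
    have bx : b' ≠ x := fun h => hay (by rw [ha, ← h, hb', hFpm.1])
    have ab : a ≠ b' := fun h => hxy (IsPM_inj hFpm h)
    let h : K → V → V := Function.update (fun k => c (e k)) τ F
    have hτF : h τ = F := Function.update_self ..
    have hh : ∀ k, IsPM (h k) := pm_upd (fun k => hc _) τ hFpm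
    have hhu : ∀ k, h k u = v := by
      intro k
      rcases eq_or_ne k τ with rfl | hk
      · rw [hτF]; exact hFu
      · simp only [h, Function.update_of_ne hk]; exact heS k hk
    have hreach := ring_reach2 hm hux hvx huy hvy hsw hc hcol hbJ hbx hh hhu (by
      rintro Z hx hy hu hv hZ _ ⟨k, rfl⟩
      rcases eq_or_ne k τ with rfl | hk
      · have hZ' : ∀ s ∈ Z, F s ∈ Z := by rw [← hτF]; exact hZ τ
        obtain ⟨v1, -, v3, v4, -, -, v7⟩ := cj_val huv hux huy hvx hvy hxy hFpm hFu rfl rfl hay
        rw [eτ, ← hcj]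
        refine cr_eq_one (mem_insert_of_mem hx) (by rw [v1]; simp [huy.symm, hy]) fun t ht htx => ?_
        rcases mem_insert.1 ht with rfl | ht
        · rw [v3]; exact mem_insert_of_mem (hZ' x hx)
        by_cases a1 : t = F x
        · rw [a1, v4]; exact mem_insert_self _ _
        by_cases a2 : t = F y
        · exact absurd (by have := hZ' t ht; rwa [a2, hFpm.1] at this) hy
        · rw [v7 t (fun h => hu (h ▸ ht)) (fun h => hv (h ▸ ht)) htx (fun h => hy (h ▸ ht)) a1 a2]
          exact mem_insert_of_mem (hZ' t ht)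
      · refine crS (heS k hk) hv fun s hs => ?_
        have := hZ k s hs
        simpa only [h, Function.update_of_ne hk] using this)
    obtain ⟨c', l, hc', hcnt', hy', hl, ⟨p, hpl, hpx⟩, hw⟩ := pi_thm V h _ x y τ τ hh hxy.symm
      (by rw [hτF]; exact hay.symm) hreach
    rw [hτF, ← ha] at hpx
    have hu' := all_of_count hcnt' hhu
    have hτy : c' τ y = b' := by rw [hy', hτF]
    have hsum0 : ∀ s t, ∑ k, ind (h k) s t + ind (cj u v x y F) s t =
        ∑ k, ind (c (e k)) s t + ind F s t := by
      intro s t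
      have := sum_upd (κ := K) (fun k => c (e k)) τ F (fun g => ind g s t)
      rw [eτ, ← hcj] at this
      exact this
    have hI := cj_ind huv hux huy hvx hvy hxy hFpm hFu ha.symm hb'.symm hay
    have key : ∃ g : K → V → V, (∀ k, IsPM (g k)) ∧ (∀ s t, ∑ k, ind (g k) s t = ∑ k, ind (h k) s t) ∧
        (∀ k, g k u = v) ∧ g τ x = a ∧ g τ y = b' ∧
        ReflTransGen (fun s t => Arc c (Set.range e) u v x y s t ∨ ∃ k, k ≠ l ∧ g k s = t) x y := by
      by_cases hp : p = τ
      · exact ⟨c', hc', sum_of_count hcnt', hu', hp ▸ hpx, hτy, hw⟩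
      rcases kempe (hc' p) (hc' τ) (hu' p) (hu' τ) hux.symm hvx.symm (y := y) with
        ⟨W, w1, w2, w3, w4⟩ | ⟨R, z, hz, r1, r2, r3, r4, r5, r6, r7, r8⟩
      · obtain ⟨g, g1, g2, g3, g4⟩ := swap_on hc' w3 w4
        refine ⟨g, g1, fun s t => (g2 s t).trans (sum_of_count hcnt' s t), fun k => ?_, ?_, ?_,
          rtg_mono ?_ hw⟩
        · by_cases hu : u ∈ W
          · rw [g3 k u hu]; exact hu' _
          · rw [g4 k u hu]; exact hu' _
        · rw [g3 τ x w1, Equiv.swap_apply_right]; exact hpx
        · rw [g4 τ y w2]; exact hτy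
        · rintro s t (h | ⟨k, hk, rfl⟩)
          · exact Or.inl h
          right
          by_cases hs : s ∈ W
          · refine ⟨Equiv.swap p τ k, fun h => hk ?_, by rw [g3 _ s hs, Equiv.swap_apply_self]⟩
            rw [← Equiv.swap_apply_self p τ k, h, Equiv.swap_apply_of_ne_of_ne hpl.symm hl]
          · exact ⟨k, hk, g4 k s hs⟩
      · exfalso
        have hxz : x ≠ z := by
          rcases hz with rfl | rfl
          · exact hxy
          · rw [hτy]; exact bx.symm
        have haz : c' p x ≠ c' τ z := by
          rw [hpx]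
          rcases hz with rfl | rfl
          · rw [hτy]; exact ab
          · rw [(hc' τ).1]; exact hay
        obtain ⟨P', Q', p1, p2, p3⟩ := subdiv (hc' p) (hc' τ) (hu' p) (hu' τ) r1 r2 r3 r4 r5 r6 r7 r8
          hxz haz
        have hpm := pm_upd (pm_upd hc' p p1) τ p2
        refine hno (col_of (pm_extend he hpm hc) (col_extend he hcol fun s t => ?_))
        have s1 := sum_upd (κ := K) (Function.update c' p P') τ Q' (fun g => ind g s t)
        rw [Function.update_of_ne (Ne.symm hp)] at s1
        have s2 := sum_upd (κ := K) c' p P' (fun g => ind g s t)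
        have s3 := sum_of_count hcnt' s t
        have s4 := hsum0 s t
        have s5 := hI s t
        have s6 := hsw s t
        have s7 := p3 s t
        rw [hpx] at s7
        beta_reduce at s1 s2 ⊢
        rcases hz with rfl | rfl
        · rw [hτy] at s7
          omega
        · rw [(hc' τ).1, hτy, ed_comm b' y] at s7
          omega
    obtain ⟨g, g1, g2, g3, g4, g5, g6⟩ := key
    have hG := cj_pm huv hux huy hvx hvy hxy (g1 τ)
    have hc'' := pm_extend he (pm_upd g1 τ hG) hc
    have hcol'' := col_extend he (g := Function.update g τ (cj u v x y (g τ))) (m₂ := m') hcol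
      fun s t => by
        have s1 := sum_upd (κ := K) g τ (cj u v x y (g τ)) (fun g => ind g s t)
        have s2 := cj_ind huv hux huy hvx hvy hxy (g1 τ) (g3 τ) g4 g5 hay s t
        have s3 := g2 s t
        have s4 := hsum0 s t
        have s5 := hI s t
        omega
    refine finish hm hux hvx (by omega) hsw hc'' hcol'' (J := Set.range e)
      (fun i hi => Function.extend_apply' _ _ _ hi) (l₀ := e l) ⟨l, rfl⟩
      (hST _ hc'' hcol'' _ (by rw [he.extend_apply, Function.update_of_ne hl]; exact g3 l))
      g1 g3 g6 ?_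
    intro X hu hx hv hy k hk s hs hsu hout
    refine ⟨e k, fun h => hk (he h), ?_⟩
    rw [he.extend_apply]
    rcases eq_or_ne k τ with rfl | hkτ
    · rw [Function.update_self]
      obtain ⟨v1, -, v3, -, -, v6, v7⟩ := cj_val huv hux huy hvx hvy hxy (g1 τ) (g3 τ) g4 g5 hay
      have hxo : cj u v x y (g τ) x ∉ X := by rw [v1]; exact hy
      by_cases a1 : s = x
      · exact cr_ne_one hu (by rw [v3, ← g4, ← a1]; exact hout) hx hxo hux
      by_cases a2 : s = a
      · exact absurd (by rw [a2, IsPM_symm (g1 τ) g4]; exact hx) hout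
      by_cases a3 : s = b'
      · exact cr_ne_one hs (by rw [a3, v6]; exact hv) hx hxo a1
      · refine cr_ne_one hs ?_ hx hxo a1
        rw [v7 s hsu (fun h => hv (h ▸ hs)) a1 (fun h => hy (h ▸ hs)) a2 a3]; exact hout
    · rw [Function.update_of_ne hkτ]
      exact cr_ne_one hs hout hu (by rw [g3]; exact hv) hsu

theorem core_thm : StCore := by
  intro d V _ _ m m' u v x y hm huv hux huy hvx hvy hxy hsw hcase hcol
  refine core2_thm d V m m' u v x y hm huv hux huy hvx hvy hxy hsw ?_ hcol
  omega

end Pool.Agent.Lib.MP_fe5cb4_co.Sey
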