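import Pool.Agent.Lib.MP_fe5cb4_co.Sey.Low3

/-!
The step from degree `d` to degree `d + 1`, for all `d ≥ 3`.
-/

set_option autoImplicit false

namespace Pool.Agent.Lib.MP_fe5cb4_co.Sey

open Finset Pool.Agent.Lib.MP_fe5cb4_co.Sey.Norm

namespace Low

variable {V : Type} [Fintype V] [DecidableEq V] {m : V → V → ℕ} {u v x y : V}
  {ι : Type} [Fintype ι] {B : ι → Ch V}

section Six

theorem pent6 (h : Mn 6 m) (E : Emb (supp m) B) {i : ι} (k : #(es (B i)) = 5)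
    (d : ∀ e ∈ es (B i), Dbl m e) : False := by
  obtain ⟨x, u, v, y, P⟩ := E.edge i
  have d' : ∀ {a b}, B i s(a, b) ≠ 0 → m a b = 2 := fun t => h.dbl.1 (d _ (mem_es.2 t))
  obtain ⟨h0, c, s⟩ := h.at E P (d' P.uv)
  obtain ⟨q, q1, q2, q3, q4, -⟩ := P.penta (E.mem i) k s.ds.xy
  have f := s.cF
  rw [d' P.uv, h0] at f
  obtain ⟨l, hl⟩ := card_pos.1 (show 0 < #(fr c u v x y) by omega)
  obtain ⟨X, K⟩ := s.mate l (mem_fr.1 hl).2
  have fin : ∀ {a b z : V} {j : Fin 6}, #(cl c a b) = 2 → (∀ i, c i a = b → i = l ∨ i ∈ fr c u v x y) →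
      j ∈ fr c u v x y → c j a ≠ b → False := fun {a b z j} k1 k2 k3 k4 => by
    have := card_le_card (show insert j (cl c a b) ⊆ fr c u v x y from insert_subset k3
      fun i hi => (k2 i (mem_cl.1 hi)).elim (fun e => e ▸ hl) id)
    rw [card_insert_of_notMem (mem_cl.not.2 k4)] at this
    omega
  by_cases hq : q ∈ X
  · obtain ⟨k1, k2⟩ := s.key K hq K.2.2.2.1 (fun e => q3 e.1)
      (fun e => (adj (E.mem i) q1).ne' e.1)
    have := s.cV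
    rw [d' P.vy] at this
    obtain ⟨j, hj⟩ := card_pos.1 (show 0 < #(cl c v y) by omega)
    have j1 := mem_cl.1 hj
    exact fin (z := q) (k1.trans (d' q2)) k2 (mem_fr.2 ⟨fun e => s.ds.uy
      (((pm_symm (s.pm j)).1 e).symm.trans j1), fun e => s.ds.vx (s.inj j1 e)⟩)
      fun e => q4 (s.inj e j1)
  · obtain ⟨k1, k2⟩ := s.key K K.2.1 hq (fun e => s.ds.ux e.1.symm)
      (fun e => (adj (E.mem i) q2).ne e.2)
    have := s.cU
    rw [d' P.ux] at this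
    obtain ⟨j, hj⟩ := card_pos.1 (show 0 < #(cl c u x) by omega)
    have j1 := mem_cl.1 hj
    have j2 := (pm_symm (s.pm j)).1 j1
    exact fin (z := q) (k1.trans (d' q1)) k2 (mem_fr.2 ⟨j1 ▸ s.ds.vx.symm, j2 ▸ s.ds.uy⟩)
      fun e => q3 (e.symm.trans j2)

theorem no6 [Nonempty V] {n : ℕ} (h : Mn (n + 6) m) : False := by
  classical
  obtain ⟨ι, _, B, E⟩ := h.emb
  refine h.count2 E 4 (2 * n + 12) (n + 2) (n + 4) (n + 4) 0 0 (by omega) (by omega) rfl (by omega)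
    (by omega) (by omega) (fun _ _ _ _ _ _ => by omega) fun i hi => ?_
  have e : #{e ∈ es (B i) | Dbl m e} + #{e ∈ es (B i) | ¬ Dbl m e} = #(es (B i)) :=
    card_filter_add_card_filter_not _
  have h5 : 0 < #{e ∈ es (B i) | Dbl m e} → 5 ≤ #(es (B i)) := fun t => by
    obtain ⟨e, he⟩ := card_pos.1 t
    exact h.five E (mem_filter.1 he).1 (mem_filter.1 he).2
  have h6 : n = 0 → #(es (B i)) = 5 → #{e ∈ es (B i) | ¬ Dbl m e} ≠ 0 := by
    rintro rfl k t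
    exact pent6 h E k fun e he => not_not.1 (filter_eq_empty_iff.1 (card_eq_zero.1 t) he)
  have h7 := Nat.mul_le_mul_left n hi
  rw [← e, mul_add] at h7
  simp only [add_mul]
  omega

end Six

section Five

theorem tri5 (h : Mn 5 m) (uv : (supp m).Adj u v) (ux : (supp m).Adj u x)
    (vx : (supp m).Adj v x) (h1 : Two m x v u) (h2 : Two m u v x) : False := by
  obtain ⟨y, yu, xy, vy⟩ := h1
  obtain ⟨w, wx, uw, vw⟩ := h2
  have a1 := h.single uv ux vx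
  have a2 := h.single ux uv vx.symm
  have a3 := h.single vy vx xy.symm
  have a4 := h.single xy vx.symm vy.symm
  obtain ⟨c, s⟩ := h.sw u v x y (h.ok uv ux vy vx.ne' yu xy.ne (Or.inr (by omega)) (h.pl' xy))
  have f := s.cF
  have g := s.cS
  obtain ⟨l, hl⟩ := card_pos.1 (show 0 < #(cl c u v) by omega)
  have l1 := mem_cl.1 hl
  obtain ⟨X, K⟩ := s.mate l (s.dis l l1)
  obtain ⟨i, i1, i2⟩ := s.ex K K.2.1 K.2.2.1 (fun e => ux.ne' e.1) (fun e => vy.ne e.2)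
    (h.adj.1 vx.symm)
  have i3 := i2.resolve_left fun e => ux.ne' (s.inj i1 (e ▸ l1))
  obtain ⟨a, ha, b, hb, j, j1, j2, j3⟩ := s.tri l1 K (h.adj.1 uw) (h.adj.1 vw.symm) uw.ne' vw.ne'
  obtain rfl := card_le_one.1 (show #(fr c u v x y) ≤ 1 by omega) i i3 j j1
  have := K.2.2.2.2 i (fun e => (mem_fr.1 i3).1 (e ▸ l1)) a ha x K.2.1 (j2 ▸ hb) (i1 ▸ K.2.2.1)
  rcases j3 with ⟨e, -⟩ | ⟨e, -⟩
  exacts [ux.ne (e ▸ this), wx (e ▸ this)]

theorem lem5 (h : Mn 5 m) (E : Emb (supp m) B) {i : ι} (P : P3 (B i) x u v y) (k : m u v = 2) :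
    ∃ e ∈ es (B i), ¬ Dbl m e ∧ ¬ Tri m e ∧ e ≠ s(u, x) ∧ e ≠ s(v, y) ∧ (m u x = 2 → x ∉ e) ∧
      (m v y = 2 → y ∉ e) := by
  obtain ⟨h0, c, s⟩ := h.at E P k
  have f := s.cF
  obtain ⟨l, hl⟩ := card_eq_one.1 (show #(fr c u v x y) = 1 by omega)
  obtain ⟨a, b, k1, -, k2, k3⟩ := h.pure E P k h0 s
    (mem_fr.1 (hl ▸ mem_singleton_self l : l ∈ fr c u v x y)).2 fun j hj => mem_singleton.1 (hl ▸ hj)
  exact ⟨_, k1, h.dbl.not.2 (by omega), k3⟩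

theorem ddd5 (h : Mn 5 m) (E : Emb (supp m) B) {i : ι} (k : #(es (B i)) = 5)
    (P : P3 (B i) x u v y) (k1 : m u v = 2) (k2 : m u x = 2) (k3 : m v y = 2) : False := by
  obtain ⟨e, e1, e2, -, e3, e4, e5, e6⟩ := lem5 h E P k1
  obtain ⟨q, -, -, -, -, t⟩ := P.penta (E.mem i) k (P.penta_ne (E.mem i) k)
  rcases t e e1 with rfl | rfl | rfl | rfl | rfl
  exacts [e2 (h.dbl.2 k1), e4 rfl, e3 rfl, e5 k2 (by simp), e6 k3 (by simp)]

theorem no5 [Nonempty V] (h : Mn 5 m) : False := by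
  classical
  obtain ⟨ι, _, B, E⟩ := h.emb
  refine h.count2 E 8 20 2 6 5 1 1 rfl (by omega) rfl (by omega) (by omega) (by omega)
    (fun u v x uv vx ux => ?_) fun i hi => ?_
  · have sw : ∀ {a b z}, Two m a b z → Two m b a z := fun ⟨z, a, b, c⟩ => ⟨z, a, c, b⟩
    have t1 := tri5 h uv ux vx
    have t2 := fun a b => tri5 h uv.symm vx ux a (sw b)
    have t3 := fun a b => tri5 h vx uv.symm ux.symm (sw a) (sw b)
    split_ifs <;> first | omega | tauto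
  have e : #{e ∈ es (B i) | Dbl m e} + #{e ∈ es (B i) | ¬ Dbl m e} = #(es (B i)) :=
    card_filter_add_card_filter_not _
  by_cases h4 : 4 ≤ #{e ∈ es (B i) | ¬ Dbl m e}
  · omega
  obtain ⟨e₀, he⟩ := card_pos.1 (show 0 < #{e ∈ es (B i) | Dbl m e} by omega)
  have h5 := h.five E (mem_filter.1 he).1 (mem_filter.1 he).2
  obtain ⟨he, u, v, rfl, k⟩ := mem_filter.1 he
  obtain ⟨x, y, P⟩ := ex_p3 (E.mem i) (mem_es.1 he)
  obtain ⟨e₁, e1, e2, e3, e4, e5, e6, e7⟩ := lem5 h E P k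
  have m1 : e₁ ∈ {e ∈ es (B i) | ¬ Dbl m e ∧ ¬ Tri m e} := mem_filter.2 ⟨e1, e2, e3⟩
  have h1 := card_pos.2 ⟨_, m1⟩
  by_cases h3 : #{e ∈ es (B i) | ¬ Dbl m e} = 3
  · omega
  have th : ∀ {a b c : Sym2 V}, a ∈ es (B i) → b ∈ es (B i) → c ∈ es (B i) → ¬ Dbl m a →
      ¬ Dbl m b → ¬ Dbl m c → a ≠ b → a ≠ c → b ≠ c → False := fun {a b c} _ _ _ _ _ _ _ _ _ => by
    have : 2 < #{e ∈ es (B i) | ¬ Dbl m e} := two_lt_card_iff.2 ⟨a, b, c, by simp [*]⟩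
    omega
  have h2 : 1 < #{e ∈ es (B i) | ¬ Dbl m e ∧ ¬ Tri m e} := by
    induction e₁ using Sym2.ind with
    | _ a b =>
      have ot : ∀ {a b z : V}, B i s(a, b) ≠ 0 → B i s(a, z) ≠ 0 → z ≠ b → m a z = 2 →
          ∃ e ∈ ({e ∈ es (B i) | ¬ Dbl m e ∧ ¬ Tri m e} : Finset _), e ≠ s(a, b) :=
        fun {a b z} t1 t2 t3 t4 => by
          obtain ⟨_, w, Q⟩ := ex_p3 (E.mem i) t2
          obtain ⟨e, f1, f2, f3, f4, -⟩ := lem5 h E ⟨t1, t2, Q.vy, t3.symm, Q.yu⟩ t4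
          exact ⟨e, mem_filter.2 ⟨f1, f2, f3⟩, f4⟩
      obtain ⟨z, w, Q⟩ := ex_p3 (E.mem i) (mem_es.1 e1)
      have ab := (adj (E.mem i) Q.uv).ne
      by_cases t1 : m a z = 2
      · obtain ⟨e, f1, f2⟩ := ot Q.uv Q.ux Q.xv t1
        exact one_lt_card.2 ⟨e, f1, _, m1, f2⟩
      by_cases t2 : m b w = 2
      · obtain ⟨e, f1, f2⟩ := ot Q.symm.uv Q.vy Q.yu t2
        exact one_lt_card.2 ⟨e, f1, _, m1, Sym2.eq_swap ▸ f2⟩
      exact (th e1 (mem_es.2 Q.ux) (mem_es.2 Q.vy) e2 (h.dbl.not.2 t1) (h.dbl.not.2 t2)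
        (by simp [ab.symm, Q.xv.symm]) (by simp [ab, Q.yu.symm]) (by simp [ab, Q.yu.symm])).elim
  have h7 : #{e ∈ es (B i) | ¬ Dbl m e ∧ ¬ Tri m e} ≤ #{e ∈ es (B i) | ¬ Dbl m e} :=
    card_le_card (monotone_filter_right _ fun _ _ t => t.1)
  have h6 : #(es (B i)) ≠ 5 := fun k5 => by
    have sd : ∀ {x u v y : V}, P3 (B i) x u v y → m u v = 2 → m u x = 2 → False :=
      fun {x u v y} P k t1 => by
        obtain ⟨e₁, e1, e2, -, e4, e5, e6, -⟩ := lem5 h E P k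
        obtain ⟨q, q1, q2, q3, q4, t⟩ := P.penta (E.mem i) k5 (P.penta_ne (E.mem i) k5)
        have t2 : m v y ≠ 2 := ddd5 h E k5 P k t1
        have t3 : m x q ≠ 2 := fun t3 => ddd5 h E k5
          ⟨q1, Sym2.eq_swap ▸ P.ux, P.uv, q3, P.xv.symm⟩ (h.T.symm _ _ ▸ t1) t3 k
        refine th e1 (mem_es.2 P.vy) (mem_es.2 q1) e2 (h.dbl.not.2 t2) (h.dbl.not.2 t3) e5
          (fun e => e6 t1 (by simp [e])) ?_
        simp [P.xv.symm, q4.symm]
    by_cases t1 : m u x = 2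
    · exact sd P k t1
    by_cases t2 : m v y = 2
    · exact sd P.symm (h.T.symm _ _ ▸ k) t2
    exact th e1 (mem_es.2 P.ux) (mem_es.2 P.vy) e2 (h.dbl.not.2 t1) (h.dbl.not.2 t2) e4 e5
      (by simp [(adj (E.mem i) P.uv).ne, P.yu.symm])
  omega

end Five

section Four

theorem quad4 (h : Mn 4 m) {w : V} (uv : (supp m).Adj u v) (ux : (supp m).Adj u x)
    (vy : (supp m).Adj v y) (xy : (supp m).Adj x y) (xv : x ≠ v) (yu : y ≠ u) (a2 : m u x ≠ 2)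
    (a3 : m v y ≠ 2) (uw : (supp m).Adj u w) (vw : (supp m).Adj v w) : False := by
  obtain ⟨c, s⟩ := h.sw u v x y (h.ok uv ux vy xv yu xy.ne (Or.inr ⟨a2, a3⟩) (h.pl' xy))
  have f := s.cF
  have g := s.cS
  have a1 := h.adj.1 uv
  have a4 := h.adj.1 xy
  obtain ⟨l, hl⟩ := card_pos.1 (show 0 < #(cl c u v) by omega)
  obtain ⟨X, K⟩ := s.mate l (s.dis l (mem_cl.1 hl))
  obtain ⟨a, -, b, -, j, j1, -⟩ := s.tri (mem_cl.1 hl) K (h.adj.1 uw) (h.adj.1 vw.symm) uw.ne' vw.ne'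
  have := card_pos.2 ⟨_, j1⟩
  omega

theorem pent4 (h : Mn 4 m) (E : Emb (supp m) B) {i : ι} (k : #(es (B i)) = 5)
    (d : ∀ e ∈ es (B i), ¬ Dbl m e) (P : P3 (B i) x u v y) {w : V} (uw : (supp m).Adj u w)
    (vw : (supp m).Adj v w) : False := by
  have d' : ∀ {a b}, B i s(a, b) ≠ 0 → m a b = 1 := fun {a b} t => by
    have := h.dbl.not.1 (d _ (mem_es.2 t))
    have := h.adj.1 (adj (E.mem i) t)
    have := h.le a b
    omega
  have xy := P.penta_ne (E.mem i) k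
  obtain ⟨q, q1, q2, q3, q4, -⟩ := P.penta (E.mem i) k xy
  have uv := adj (E.mem i) P.uv
  have ux := adj (E.mem i) P.ux
  have vy := adj (E.mem i) P.vy
  have xq := adj (E.mem i) q1
  have qy := adj (E.mem i) q2
  have a1 := d' P.uv
  have a2 := d' P.ux
  have a3 := d' P.vy
  have h0 : m x y = 0 := by_contra fun t =>
    quad4 h uv ux vy (h.adj.2 t) P.xv P.yu (by omega) (by omega) uw vw
  obtain ⟨c, s⟩ := h.sw u v x y (h.ok uv ux vy P.xv P.yu xy (Or.inr (by omega)) (E.chord3 P xy))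
  have f := s.cF
  have g := s.cS
  obtain ⟨φ, hφ⟩ := card_eq_one.1 (show #(fr c u v x y) = 1 by omega)
  have fφ : ∀ {j}, j ∈ fr c u v x y ↔ j = φ := by simp [hφ]
  have c1 : #(cl c x q) = 1 := by
    simpa [ed, P.xv, ux.ne', q3, xy, qy.ne, d' q1] using s.cnt x q
  have c2 : #(cl c q y) = 1 := by
    simpa [ed, P.yu, vy.ne', q3, q4, xq.ne', qy.ne, d' q2] using s.cnt q y
  have main : ∀ l, c l x ≠ y → l ∈ cl c x q ∪ cl c q y := fun l hl => by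
    obtain ⟨X, K⟩ := s.mate l hl
    have ex : ∃ a ∈ X, ∃ b ∉ X, ∃ j, c j a = b ∧ (j = l ∨ j = φ) ∧
        ((a = x ∧ b = q) ∨ (a = q ∧ b = y)) := by
      by_cases hq : q ∈ X
      · obtain ⟨j, j1, j2⟩ := s.ex K hq K.2.2.2.1 (fun e => q3 e.1) (fun e => xq.ne' e.1)
          (h.adj.1 qy)
        exact ⟨q, hq, y, K.2.2.2.1, j, j1, j2.imp_right fφ.1, Or.inr ⟨rfl, rfl⟩⟩
      · obtain ⟨j, j1, j2⟩ := s.ex K K.2.1 hq (fun e => ux.ne' e.1) (fun e => qy.ne e.2)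
          (h.adj.1 xq)
        exact ⟨x, K.2.1, q, hq, j, j1, j2.imp_right fφ.1, Or.inl ⟨rfl, rfl⟩⟩
    obtain ⟨a, ha, b, hb, j, j1, j2, j3⟩ := ex
    have j4 : j = l := by_contra fun n => by
      obtain rfl := j2.resolve_left n
      have l1 : c l u = v := by_contra fun t => n (fφ.1 (mem_fr.2 ⟨t, hl⟩)).symm
      obtain ⟨a', ha', b', hb', j', k1, k2, k3⟩ :=
        s.tri l1 K (h.adj.1 uw) (h.adj.1 vw.symm) uw.ne' vw.ne'
      obtain rfl := fφ.1 k1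
      obtain rfl := K.2.2.2.2 j' n a ha a' ha' (j1 ▸ hb) (k2 ▸ hb')
      obtain rfl := j1.symm.trans k2
      rcases j3 with ⟨e1, e2⟩ | ⟨e1, e2⟩ <;> rcases k3 with ⟨e3, e4⟩ | ⟨e3, e4⟩
      exacts [ux.ne (e3 ▸ e1), q4 (e2 ▸ e4), q3 (e1 ▸ e3), vy.ne (e4 ▸ e2)]
    rw [mem_union, mem_cl, mem_cl, ← j4]
    rcases j3 with ⟨rfl, rfl⟩ | ⟨rfl, rfl⟩
    exacts [Or.inl j1, Or.inr j1]
  have m1 : φ ∈ fr c u v x y := fφ.2 rfl
  have := (card_le_card (show insert φ (cl c u v) ⊆ _ from insert_subset (main φ (mem_fr.1 m1).2)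
    fun l hl => main l (s.dis l (mem_cl.1 hl)))).trans (card_union_le _ _)
  rw [card_insert_of_notMem (mem_cl.not.2 (mem_fr.1 m1).1)] at this
  omega

theorem no4 [Nonempty V] (h : Mn 4 m) : False := by
  classical
  obtain ⟨ι, _, B, E⟩ := h.emb
  refine h.count2 E 12 24 0 6 4 2 2 rfl (by omega) rfl (by omega) (by omega) (by omega)
    (fun u v x uv vx ux => ?_) fun i hi => ?_
  · have n : ∀ {u v x}, (supp m).Adj u v → (supp m).Adj v x → (supp m).Adj u x → ¬ Two m u v x :=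
      fun {u v x} uv vx ux ⟨z, zx, uz, vz⟩ => quad4 h ux uz vx.symm vz.symm zx uv.ne'
        (by rw [h.single uz uv vz.symm]; omega) (by rw [h.single vx.symm ux.symm uv.symm]; omega)
        uv vx.symm
    rw [if_neg (n uv vx ux), if_neg (n vx.symm uv.symm ux.symm), if_neg (n ux.symm uv vx.symm)]
  have e : #{e ∈ es (B i) | Dbl m e} + #{e ∈ es (B i) | ¬ Dbl m e} = #(es (B i)) :=
    card_filter_add_card_filter_not _
  by_cases h0 : #{e ∈ es (B i) | Dbl m e} = 0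
  · have d : ∀ e ∈ es (B i), ¬ Dbl m e := filter_eq_empty_iff.1 (card_eq_zero.1 h0)
    by_cases h6 : 6 ≤ #(es (B i))
    · omega
    have : {e ∈ es (B i) | ¬ Dbl m e ∧ ¬ Tri m e} = es (B i) := filter_true_of_mem fun e he =>
      ⟨d e he, fun t => by
        induction e using Sym2.ind with
        | _ u v =>
          obtain ⟨w, uw, vw⟩ := tri_iff.1 t
          obtain ⟨x, y, P⟩ := ex_p3 (E.mem i) (mem_es.1 he)
          by_cases h4 : #(es (B i)) = 4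
          · exact quad4 h (adj (E.mem i) P.uv) (adj (E.mem i) P.ux) (adj (E.mem i) P.vy)
              (adj (E.mem i) (P.quad (E.mem i) h4).2) P.xv P.yu
              (h.dbl.not.1 (d _ (mem_es.2 P.ux))) (h.dbl.not.1 (d _ (mem_es.2 P.vy))) uw vw
          · exact pent4 h E (by omega) d P uw vw⟩
    rw [this]
    omega
  obtain ⟨e₀, he⟩ := card_pos.1 (Nat.pos_of_ne_zero h0)
  obtain ⟨he, u, v, rfl, k⟩ := mem_filter.1 he
  obtain ⟨x, y, P⟩ := ex_p3 (E.mem i) (mem_es.1 he)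
  obtain ⟨k0, c, s⟩ := h.at E P k
  have f := s.cF
  have g := s.cS
  have f0 : fr c u v x y = ∅ := card_eq_zero.1 (by omega)
  have h3 : #(cl c u v) ≤ #{e ∈ es (B i) | ¬ Dbl m e ∧ ¬ Tri m e ∧ e ≠ s(u, x) ∧ e ≠ s(v, y)} := by
    refine card_le_card_of_forall_subsingleton (fun l e => ∃ a b, e = s(a, b) ∧ cl c a b = {l})
      (fun l hl => ?_) fun e _ => ?_
    · obtain ⟨a, b, k1, k2, k3, k4, k5, k6, -⟩ := h.pure E P k k0 s (s.dis l (mem_cl.1 hl))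
        (by simp [f0])
      exact ⟨_, mem_filter.2 ⟨k1, h.dbl.not.2 (by omega), k4, k5, k6⟩, a, b, rfl, k2⟩
    · rintro l ⟨-, a, b, rfl, k1⟩ l' ⟨-, a', b', e, k2⟩
      have t : c l' a' = b' := mem_cl.1 (k2 ▸ mem_singleton_self l')
      refine (mem_singleton.1 (k1 ▸ mem_cl.2 ?_ : l' ∈ {l})).symm
      rcases Sym2.eq_iff.1 e with ⟨rfl, rfl⟩ | ⟨rfl, rfl⟩
      exacts [t, (pm_symm (s.pm l')).1 t]
  have h4 : #{e ∈ es (B i) | ¬ Dbl m e ∧ ¬ Tri m e ∧ e ≠ s(u, x) ∧ e ≠ s(v, y)} ≤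
      #{e ∈ es (B i) | ¬ Dbl m e ∧ ¬ Tri m e} :=
    card_le_card (monotone_filter_right _ fun _ _ t => ⟨t.1, t.2.1⟩)
  have t1 : m u x ≠ 2 := fun t => by
    have := s.cU
    obtain ⟨j, hj⟩ := card_pos.1 (show 0 < #(cl c u x) by omega)
    have j1 := mem_cl.1 hj
    exact notMem_empty j (f0 ▸ mem_fr.2 ⟨j1 ▸ s.ds.vx.symm, (pm_symm (s.pm j)).1 j1 ▸ s.ds.uy⟩)
  have t2 : m v y ≠ 2 := fun t => by
    have := s.cV
    obtain ⟨j, hj⟩ := card_pos.1 (show 0 < #(cl c v y) by omega)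
    have j1 := mem_cl.1 hj
    exact notMem_empty j (f0 ▸ mem_fr.2 ⟨fun e => s.ds.uy
      (((pm_symm (s.pm j)).1 e).symm.trans j1), fun e => s.ds.vx (s.inj j1 e)⟩)
  have h5 : #(insert s(v, y) (insert s(u, x)
      {e ∈ es (B i) | ¬ Dbl m e ∧ ¬ Tri m e ∧ e ≠ s(u, x) ∧ e ≠ s(v, y)})) ≤
      #{e ∈ es (B i) | ¬ Dbl m e} := card_le_card (insert_subset
        (mem_filter.2 ⟨mem_es.2 P.vy, h.dbl.not.2 t2⟩) (insert_subset
        (mem_filter.2 ⟨mem_es.2 P.ux, h.dbl.not.2 t1⟩) (monotone_filter_right _ fun _ _ t => t.1)))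
  rw [card_insert_of_notMem (by simp [s.ds.uv.symm, s.ds.vx]),
    card_insert_of_notMem (by simp)] at h5
  omega

end Four

end Low

open Low in
theorem low_step (core : StCore2) (d : ℕ) (hd : 3 ≤ d) (h : SeyM d) : SeyM (d + 1) :=
  step_of core h fun V _ _ _ m k => by
    obtain rfl | rfl | ⟨n, rfl⟩ : d = 3 ∨ d = 4 ∨ ∃ n, d = n + 5 := by
      rcases Nat.lt_or_ge d 5 with t | t
      · omega
      · exact Or.inr (Or.inr ⟨d - 5, by omega⟩)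
    exacts [no4 k, no5 k, no6 k]

end Pool.Agent.Lib.MP_fe5cb4_co.Sey
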