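import Pool.Agent.Lib.MP_fe5cb4_co.Sey.St

/-!
The degrees `0`, `1` and `2`.
-/

set_option autoImplicit false

namespace Pool.Agent.Lib.MP_fe5cb4_co.Sey

open Finset

namespace Small

variable {V : Type} [Fintype V] [DecidableEq V] {m : V → V → ℕ}

theorem one (hs : ∀ a b, m a b = m b a) (hd : ∀ a, m a a = 0) (h : ∀ a, ∑ b, m a b = 1) :
    ∃ M, IsPM M ∧ ∀ a b, m a b = if M a = b then 1 else 0 := by
  have h1 : ∀ a, ∃ c, ∀ b, m a b = if c = b then 1 else 0 := fun a => by
    obtain ⟨c, -, hc⟩ := exists_ne_zero_of_sum_ne_zero (s := univ) (f := m a)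
      (by rw [h a]; exact one_ne_zero)
    have e := h a
    rw [← add_sum_erase _ _ (mem_univ c)] at e
    refine ⟨c, fun b => ?_⟩
    split_ifs with k
    · rw [← k]
      omega
    · have := single_le_sum (f := m a) (fun _ _ => Nat.zero_le _)
        (mem_erase.2 ⟨Ne.symm k, mem_univ b⟩)
      omega
  choose M hM using h1
  refine ⟨M, ⟨fun v => ?_, fun v e => ?_⟩, hM⟩
  · have := hM (M v) v
    rw [hs, hM, if_pos rfl] at this
    by_contra c
    rw [if_neg c] at this
    exact one_ne_zero this
  · have := hM v v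
    rw [hd, if_pos e] at this
    exact zero_ne_one this

/-- A `d`-graph has a perfect matching. -/
theorem pm {d : ℕ} (hd : 1 ≤ d) (T : Target d m) : ∃ M, IsPM M ∧ ∀ a, m a (M a) ≠ 0 := by
  classical
  have adj := supp_adj T.symm T.diag
  obtain ⟨M, hM⟩ := (SimpleGraph.tutte (G := supp m)).2 fun u hu => by
    let H := ((⊤ : (supp m).Subgraph).deleteVerts u).coe
    let π : V → Option H.ConnectedComponent := fun a =>
      if h : a ∈ ((⊤ : (supp m).Subgraph).deleteVerts u).verts then
        some (H.connectedComponentMk ⟨a, h⟩) else none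
    let U : Finset V := univ.filter (· ∈ u)
    have k1 : ∀ c ∈ H.oddComponents, d ≤ ∑ a with π a = some c, ∑ b ∈ U, m a b := fun c hc => by
      have e : ((univ.filter fun a => π a = some c : Finset V) : Set V) =
          Subtype.val '' c.supp := by
        ext a
        simp only [π, coe_filter, mem_univ, true_and, Set.mem_setOf_eq, Set.mem_image,
          SimpleGraph.ConnectedComponent.mem_supp_iff]
        constructor
        · intro h
          split_ifs at h with k
          exact ⟨⟨a, k⟩, Option.some.inj h, rfl⟩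
        · rintro ⟨x, h, rfl⟩
          rw [dif_pos x.2, h]
      have o : Odd #(univ.filter fun a => π a = some c) := by
        rw [← Set.ncard_coe_finset, e, Set.ncard_image_of_injective _ Subtype.val_injective]
        exact hc
      refine (T.odd _ o).trans (sum_le_sum fun a ha => sum_le_sum_of_ne_zero fun b hb h0 => ?_)
      refine mem_filter.2 ⟨mem_univ _, by_contra fun k => mem_compl.1 hb ?_⟩
      obtain ⟨x, hx, rfl⟩ := e.le ha
      have kb : b ∈ ((⊤ : (supp m).Subgraph).deleteVerts u).verts := ⟨trivial, k⟩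
      refine e.ge ⟨⟨b, kb⟩, ?_, rfl⟩
      have A : H.Adj x ⟨b, kb⟩ := ⟨x.2, kb, (adj _ _).2 h0⟩
      exact (SimpleGraph.ConnectedComponent.mem_supp_congr_adj c A).1 hx
    have k2 : H.oddComponents.ncard * d ≤ u.ncard * d := by
      calc _ = ∑ c ∈ H.oddComponents.toFinset, d := by
            rw [sum_const, smul_eq_mul, Set.ncard_eq_toFinset_card']
        _ ≤ ∑ c ∈ H.oddComponents.toFinset, ∑ a with π a = some c, ∑ b ∈ U, m a b :=
            sum_le_sum fun c hc => k1 c (Set.mem_toFinset.1 hc)
        _ = ∑ c ∈ H.oddComponents.toFinset.map ⟨some, Option.some_injective _⟩,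
              ∑ a with π a = c, ∑ b ∈ U, m a b := by rw [sum_map]; rfl
        _ ≤ ∑ a, ∑ b ∈ U, m a b := by
            rw [sum_fiberwise_eq_sum_filter]
            exact sum_le_sum_of_subset (filter_subset _ _)
        _ = ∑ b ∈ U, d := by
            rw [sum_comm]
            exact sum_congr rfl fun b _ => by simp only [T.symm _ b, T.deg]
        _ = _ := by
            rw [sum_const, smul_eq_mul, ← Set.ncard_coe_finset]
            simp [U]
    exact absurd (Nat.le_of_mul_le_mul_right k2 hd) (not_le.2 hu)
  choose f hf hu using SimpleGraph.Subgraph.isPerfectMatching_iff.1 hM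
  exact ⟨f, ⟨fun v => (hu _ _ (hf v).symm).symm, fun v => (hf v).ne.symm⟩,
    fun a => (adj _ _).1 (M.adj_sub (hf a))⟩

end Small

theorem small_thm : SeyM 0 ∧ SeyM 1 ∧ SeyM 2 := by
  refine ⟨fun V _ _ m T _ => ⟨Fin.elim0, fun i => i.elim0, fun a b => ?_⟩, fun V _ _ m T _ => ?_,
    fun V _ _ m T _ => ?_⟩
  · rw [sum_eq_zero_iff.1 (T.deg a) b (mem_univ _)]
    simp
  · obtain ⟨M, h1, h2⟩ := Small.one T.symm T.diag T.deg
    refine ⟨fun _ => M, fun _ => h1, fun a b => ?_⟩
    rw [h2, card_filter]
    simp
  · obtain ⟨M, h1, h2⟩ := Small.pm one_le_two T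
    have e : ∀ a b, m a b = (m a b - if M a = b then 1 else 0) + if M a = b then 1 else 0 :=
      fun a b => by
        split_ifs with k
        · have := h2 a
          rw [k] at this
          omega
        · rfl
    obtain ⟨M', h3, h4⟩ := Small.one (m := fun a b => m a b - if M a = b then 1 else 0)
      (fun a b => by
        rw [T.symm a b]
        exact congrArg _ (if_congr ⟨fun k => k ▸ h1.1 a, fun k => k ▸ h1.1 b⟩ rfl rfl))
      (fun a => by simp [T.diag]) fun a => by
        have := T.deg a
        rw [sum_congr rfl fun b _ => e a b, sum_add_distrib, sum_ite_eq, if_pos (mem_univ _)] at this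
        omega
    refine ⟨![M', M], fun i => by fin_cases i <;> assumption, fun a b => ?_⟩
    rw [e, h4 a b, card_filter, Fin.sum_univ_two]
    rfl

end Pool.Agent.Lib.MP_fe5cb4_co.Sey
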