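import Pool.Agent.Lib.MP_fe5cb4_co.Sey.Norm

/-!
Chords, and a pair of cofacial neighbours of the ends of an edge.
-/

set_option autoImplicit false

namespace Pool.Agent.Lib.MP_fe5cb4_co.Sey

open Finset Pool.Agent.Lib.MP_fe5cb4_co.Sey.Norm

namespace Cofacial

variable {V : Type} [Fintype V] [DecidableEq V] {G : SimpleGraph V} {ι : Type} [Fintype ι]
  {B : ι → Ch V}

/-- a chord can be added inside a member -/
theorem chord (h1 : ∀ i, B i ∈ Z G) (h2 : ∀ e, #{i | B i e ≠ 0} ≤ 2)
    (h3 : Z G ≤ Submodule.span (ZMod 2) (Set.range B)) (i : ι) {x y : V} (hxy : x ≠ y) (p : Ch V)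
    (hp : ∀ e, p e ≠ 0 → B i e ≠ 0)
    (hb : ∀ v, bd p v = (if v = x then 1 else 0) + if v = y then 1 else 0) :
    Planar (G ⊔ SimpleGraph.edge x y) := by
  classical
  by_cases a : G.Adj x y
  · rw [SimpleGraph.sup_edge_of_adj _ a]
    exact planar_iff.2 ⟨ι, _, B, h1, h2, h3⟩
  have mono : Z G ≤ Z (G ⊔ SimpleGraph.edge x y) := fun c hc =>
    ⟨fun e he => SimpleGraph.edgeSet_mono le_sup_left (hc.1 e he), hc.2⟩
  have z0 : ∀ j, B j s(x, y) = 0 := fun j => by_contra fun k => a ((h1 j).1 _ k)
  have q : p + one x y ∈ Z (G ⊔ SimpleGraph.edge x y) := ⟨fun e he => by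
    by_cases k : p e = 0
    · rw [one_ne (a := x) (b := y) (e := e) fun k' => he (by rw [Pi.add_apply, k, k', add_zero])]
      exact Or.inr ((SimpleGraph.edge_adj ..).2 ⟨Or.inl ⟨rfl, rfl⟩, hxy⟩)
    · exact (mono (h1 i)).1 e (hp e k), fun v => by rw [bd_add, hb, bd_one hxy, add_self]⟩
  let B' : Option ι → Ch V := fun o =>
    o.elim (p + one x y) fun j => if j = i then B j + (p + one x y) else B j
  have dd : ∀ c : Ch V, c + c = 0 := fun c => funext fun e => add_self _
  have sub : Z G ≤ Submodule.span (ZMod 2) (Set.range B') := by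
    refine h3.trans (Submodule.span_le.2 ?_)
    rintro _ ⟨j, rfl⟩
    by_cases k : j = i
    · have : B j = B' (some j) + B' none := by
        simp only [B', Option.elim_some, Option.elim_none, if_pos k, add_assoc (B j), dd, add_zero]
      rw [this]
      exact add_mem (Submodule.subset_span ⟨_, rfl⟩) (Submodule.subset_span ⟨_, rfl⟩)
    · exact Submodule.subset_span ⟨some j, if_neg k⟩
  refine planar_iff.2 ⟨Option ι, inferInstance, B', ?_, fun e => ?_, fun c hc => ?_⟩
  · rintro (_ | j)
    · exact q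
    · show (if j = i then _ else _) ∈ _
      split_ifs
      exacts [add_mem (mono (h1 j)) q, mono (h1 j)]
  · by_cases k : e = s(x, y)
    · refine (card_le_card (t := {none, some i}) ?_).trans card_le_two
      rintro (_ | j) hj
      · simp
      · by_contra n
        exact (mem_filter.1 hj).2 ((congrFun (if_neg fun u => n (by simp [u])) e).trans (k ▸ z0 j))
    · have o : one x y e = 0 := by_contra fun u => k (one_ne u)
      have b0 : B' none e = p e := by simp [B', o]
      have b1 : B' (some i) e = B i e + p e := by simp [B', o]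
      have b2 : ∀ j, j ≠ i → B' (some j) e = B j e := fun j u => by simp [B', u]
      have b3 : p e ≠ 0 → B' (some i) e = 0 := fun u => by
        rw [b1, ne_zero_iff.1 u, ne_zero_iff.1 (hp e u), add_self]
      refine (card_le_card_of_injOn (fun o => o.getD i) ?_ ?_).trans (h2 e)
      · rintro (_ | j) hj
        · simpa using hp e (b0 ▸ (mem_filter.1 hj).2)
        · have u := (mem_filter.1 hj).2
          by_cases w : j = i
          · subst w
            have : p e = 0 := by_contra fun t => u (b3 t)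
            simpa [b1, this] using u
          · simpa [b2 j w] using u
      · rintro (_ | j) hj (_ | l) hl u
        · rfl
        · exact absurd (b3 (b0 ▸ (mem_filter.1 hj).2)) ((show i = l from u) ▸ (mem_filter.1 hl).2)
        · exact absurd (b3 (b0 ▸ (mem_filter.1 hl).2)) ((show j = i from u) ▸ (mem_filter.1 hj).2)
        · exact congrArg some u
  · have w : ∀ c ∈ Z (G ⊔ SimpleGraph.edge x y), c s(x, y) = 0 → c ∈ Z G := fun c hc k =>
      ⟨fun e he => by
        have u := hc.1 e he
        rw [SimpleGraph.edgeSet_sup, SimpleGraph.edgeSet_edge_of_ne hxy] at u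
        exact u.resolve_right fun t => he ((show e = _ from t) ▸ k), hc.2⟩
    by_cases k : c s(x, y) = 0
    · exact sub (w c hc k)
    · have p0 : p s(x, y) = 0 := by_contra fun t => hp _ t (z0 i)
      have : c = c + (p + one x y) + B' none := by
        simp only [B', Option.elim_none, add_assoc c, dd, add_zero]
      rw [this]
      refine add_mem (sub (w _ (add_mem hc q) ?_)) (Submodule.subset_span ⟨_, rfl⟩)
      rw [Pi.add_apply, Pi.add_apply, p0, one_self, ne_zero_iff.1 k, zero_add, add_self]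

omit [Fintype V] in
theorem add_one {f p : Ch V} {a b : V} (hp : ∀ e, p e ≠ 0 → f e ≠ 0) (h : f s(a, b) ≠ 0) (e : Sym2 V)
    (he : (p + one a b) e ≠ 0) : f e ≠ 0 := by
  by_cases k : p e = 0
  · rwa [one_ne (a := a) (b := b) (e := e) fun k' => he (by rw [Pi.add_apply, k, k', add_zero])]
  · exact hp e k

end Cofacial

open Cofacial in
theorem cofacial_thm : StCofacial := by
  intro V _ G hP hL hT u v huv ⟨x₀, hx₀, hx₁⟩
  classical
  obtain ⟨ι, _, B, h1, -, h2, h3⟩ := normal hP
  have h2' : ∀ e, #{i | B i e ≠ 0} ≤ 2 := fun e => by have := h2 e; omega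
  have t : ∀ p q r : ZMod 2, p + q + (q + r) = p + r := by decide
  obtain ⟨i, hi⟩ := ex_mem hL h3 huv hx₀ hx₁.symm
  have hi' : B i s(v, u) ≠ 0 := Sym2.eq_swap ▸ hi
  obtain ⟨x, x1, x2, x3⟩ := second (h1 i) hi
  obtain ⟨y, y1, y2, y3⟩ := second (h1 i) hi'
  by_cases hxy : x = y
  · subst hxy
    obtain ⟨j, ji, hj⟩ : ∃ j, j ≠ i ∧ B j s(v, x) ≠ 0 := by
      have : 1 < #{i | B i s(v, x) ≠ 0} := by
        have := card_pos.2 ⟨i, (mem_filter.2 ⟨mem_univ i, y2⟩ : i ∈ univ.filter (B · s(v, x) ≠ 0))⟩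
        have := h2 s(v, x)
        omega
      obtain ⟨j, a, b⟩ := exists_mem_ne this i
      exact ⟨j, b, (mem_filter.1 a).2⟩
    obtain ⟨z, z1, z2, z3⟩ := second (h1 j) hj
    obtain ⟨w, w1, w2, w3⟩ := hT u v x huv y3 x3
    refine ⟨x, z, x3, z3, x1, fun k => no_pair hL h2' h3 huv.symm w1 w2 w3 y1.symm ji (k ▸ z2) hj hi' y2,
      z1.symm, chord h1 h2' h3 j z1.symm (one x v + one v z)
        (add_one (fun e k => one_ne k ▸ Sym2.eq_swap ▸ hj) z2) fun s => ?_⟩
    rw [bd_add, bd_one y3.ne', bd_one z3.ne, t]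
  · refine ⟨x, y, x3, y3, x1, y1, hxy, chord h1 h2' h3 i hxy (one x u + one u v + one v y)
      (add_one (add_one (fun e k => one_ne k ▸ Sym2.eq_swap ▸ x2) hi) y2) fun s => ?_⟩
    rw [bd_add, bd_add, bd_one x3.ne', bd_one huv.ne, bd_one y3.ne, t, t]

end Pool.Agent.Lib.MP_fe5cb4_co.Sey
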