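import Pool.Agent.Lib.MP_fe5cb4_co.Sey.St

set_option autoImplicit false

namespace Pool.Agent.Lib.MP_fe5cb4_co.Sey

open Finset Relation

namespace PiL

theorem rtg_mono {α : Type} {r p : α → α → Prop} {a b : α} (h : ∀ s t, r s t → p s t)
    (hab : ReflTransGen r a b) : ReflTransGen p a b := by
  induction hab with
  | refl => exact ReflTransGen.refl
  | tail _ h2 ih => exact ih.tail (h _ _ h2)

abbrev K := Bool × Bool

/-- the two pairings of the four colours, alternating with the level -/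
def pr (n : ℕ) (k : K) : Bool := if n % 2 = 0 then k.1 else k.2

/-- the partner of `k` in the pairing of level `n` -/
def oth (n : ℕ) (k : K) : K := if n % 2 = 0 then (k.1, !k.2) else (!k.1, k.2)

theorem pr_oth (n : ℕ) (k : K) : pr n (oth n k) = pr n k := by
  unfold pr oth; split_ifs <;> rfl

theorem oth_ne (n : ℕ) (k : K) : oth n k ≠ k := by
  obtain ⟨a, b⟩ := k
  unfold oth; split_ifs <;> cases a <;> cases b <;> simp

theorem eq_or (n : ℕ) (k j : K) (h : pr n j = pr n k) : j = k ∨ j = oth n k := by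
  obtain ⟨a, b⟩ := k
  obtain ⟨a', b'⟩ := j
  unfold pr at h; unfold oth
  split_ifs at h ⊢ <;> cases a <;> cases b <;> cases a' <;> cases b' <;> simp_all

theorem exists_pr (n : ℕ) (β γ : Bool) : ∃ k, pr (n + 1) k = β ∧ pr n k = γ := by
  unfold pr
  rcases Nat.mod_two_eq_zero_or_one n with h | h
  · have : (n + 1) % 2 ≠ 0 := by omega
    exact ⟨(γ, β), by simp [this], by simp [h]⟩
  · have : (n + 1) % 2 = 0 := by omega
    exact ⟨(β, γ), by simp [this], by simp [h]⟩

variable {V : Type} [Fintype V] [DecidableEq V]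

/-- two-coloured components -/
def Cy (c : K → V → V) (n : ℕ) (β : Bool) : V → V → Prop :=
  ReflTransGen fun a b => ∃ k, pr n k = β ∧ c k a = b

/-- the levels -/
def X (c : K → V → V) (A : V → V → Prop) (y : V) : ℕ → Set V
  | 0 => {y}
  | n + 1 => {v | (∃ w ∈ X c A y n, A v w) ∨ ∃ β, ∃ w ∈ X c A y n, Cy c (n + 1) β v w}

def Good (c c' : K → V → V) : Prop :=
  (∀ k, IsPM (c' k)) ∧ ∀ a b, #{k | c' k a = b} = #{k | c k a = b}

/-- vertices whose two-coloured component misses `Y` -/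
def Z (c' : K → V → V) (n : ℕ) (γ : Bool) (Y : Set V) : Set V :=
  {v | ¬ ∃ w ∈ Y, Cy c' n γ v w}

/-- protected step -/
def Prot (c' : K → V → V) (n : ℕ) (k : K) (Y : Set V) (s t : V) : Prop :=
  ∃ j, j ≠ k ∧ c' j s = t ∧ (s ∉ Y ∨ t ∉ Y) ∧
    (pr n j = pr n k → s ∈ Z c' n (pr n k) Y ∨ t ∈ Z c' n (pr n k) Y)

def Wk (c' : K → V → V) (A : V → V → Prop) (k : K) (Y : Set V) : V → V → Prop :=
  ReflTransGen fun s t => A s t ∨ ((s ∉ Y ∨ t ∉ Y) ∧ ∃ j, j ≠ k ∧ c' j s = t)

omit [Fintype V] [DecidableEq V] in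
theorem X_mono (c : K → V → V) (A : V → V → Prop) (y : V) (n : ℕ) :
    X c A y n ⊆ X c A y (n + 1) := fun v hv => Or.inr ⟨true, v, hv, ReflTransGen.refl⟩

omit [Fintype V] [DecidableEq V] in
theorem Z_step {c' : K → V → V} (hc : ∀ k, IsPM (c' k)) {n : ℕ} {γ : Bool} {Y : Set V} {j : K}
    (hj : pr n j = γ) (v : V) : c' j v ∈ Z c' n γ Y ↔ v ∈ Z c' n γ Y := by
  constructor
  · rintro h ⟨w, hw, hvw⟩
    exact h ⟨w, hw, ReflTransGen.head ⟨j, hj, (hc j).1 v⟩ hvw⟩
  · rintro h ⟨w, hw, hvw⟩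
    exact h ⟨w, hw, ReflTransGen.head ⟨j, hj, rfl⟩ hvw⟩

/-- both colours of a class can be avoided -/
theorem opt {c c' : K → V → V} {A : V → V → Prop} {n : ℕ} {k : K} {Y : Set V} {x z a : V}
    (hg : Good c c') (hY : ∀ j, ∀ v ∈ Y, c' j v = c j v)
    (hw : ReflTransGen (fun s t => A s t ∨ Prot c' n k Y s t) x z) (ha : Prot c' n k Y x a)
    (k₀ : K) (hk : pr n k₀ = pr n k) :
    ∃ c'', Good c c'' ∧ (∀ j, ∀ v ∈ Y, c'' j v = c j v) ∧ Wk c'' A k₀ Y x z ∧
      ∃ p, p ≠ k₀ ∧ c'' p x = a := by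
  classical
  rcases eq_or n k k₀ hk with rfl | rfl
  · refine ⟨c', hg, hY, ?_, ?_⟩
    · refine rtg_mono ?_ hw
      rintro s t (h | ⟨j, h1, h2, h3, -⟩)
      · exact Or.inl h
      · exact Or.inr ⟨h3, j, h1, h2⟩
    · obtain ⟨j, h1, h2, -⟩ := ha
      exact ⟨j, h1, h2⟩
  · set k' := oth n k with hk'
    set W := Z c' n (pr n k) Y with hW
    let c'' : K → V → V := fun j v => if v ∈ W then c' (Equiv.swap k k' j) v else c' j v
    have hpr : ∀ j, pr n (Equiv.swap k k' j) = pr n j := by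
      intro j
      rcases eq_or_ne j k with rfl | h1
      · rw [Equiv.swap_apply_left]; exact pr_oth _ _
      rcases eq_or_ne j k' with rfl | h2
      · rw [Equiv.swap_apply_right]; exact (pr_oth _ _).symm
      · rw [Equiv.swap_apply_of_ne_of_ne h1 h2]
    have hfix : ∀ j, j ≠ k → j ≠ k' → ∀ v, c'' j v = c' j v := by
      intro j h1 h2 v
      simp only [c'', Equiv.swap_apply_of_ne_of_ne h1 h2, ite_self]
    have htr : ∀ s t, Prot c' n k Y s t → ∃ j, j ≠ k' ∧ c'' j s = t := by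
      rintro s t ⟨j, h1, h2, -, h4⟩
      rcases eq_or_ne j k' with rfl | h5
      · have hs : s ∈ W := by
          rcases h4 (pr_oth _ _) with h | h
          · exact h
          · rw [← h2] at h
            exact (Z_step hg.1 (pr_oth _ _) s).1 h
        refine ⟨k, (oth_ne n k).symm, ?_⟩
        simp only [c'', if_pos hs, Equiv.swap_apply_left]
        exact h2
      · exact ⟨j, h5, by rw [hfix j h1 h5, h2]⟩
    refine ⟨c'', ⟨?_, ?_⟩, ?_, ?_, htr _ _ ha⟩
    · intro j
      by_cases hj : pr n j = pr n k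
      · refine ⟨fun v => ?_, fun v => ?_⟩
        · by_cases hv : v ∈ W
          · have h1 : c' (Equiv.swap k k' j) v ∈ W := (Z_step hg.1 ((hpr j).trans hj) v).2 hv
            simp only [c'', if_pos hv, if_pos h1]
            exact (hg.1 _).1 v
          · have h1 : c' j v ∉ W := fun h => hv ((Z_step hg.1 hj v).1 h)
            simp only [c'', if_neg hv, if_neg h1]
            exact (hg.1 _).1 v
        · simp only [c'']
          split_ifs
          · exact (hg.1 _).2 v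
          · exact (hg.1 _).2 v
      · have h1 : j ≠ k := fun h => hj (by rw [h])
        have h2 : j ≠ k' := fun h => hj (by rw [h]; exact pr_oth _ _)
        have : c'' j = c' j := funext (hfix j h1 h2)
        rw [this]; exact hg.1 j
    · intro s t
      rw [← hg.2 s t]
      by_cases hs : s ∈ W
      · simp only [c'', if_pos hs]
        refine Finset.card_bij (fun j _ => Equiv.swap k k' j) ?_ ?_ ?_
        · intro j hj; simpa using hj
        · intro i _ j _ h; exact (Equiv.swap k k').injective h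
        · intro j hj
          exact ⟨Equiv.swap k k' j, by simpa using hj, by simp⟩
      · simp only [c'', if_neg hs]
    · intro j v hv
      have : v ∉ W := fun h => h ⟨v, hv, ReflTransGen.refl⟩
      simp only [c'', if_neg this]
      exact hY j v hv
    · refine rtg_mono ?_ hw
      rintro s t (h | h)
      · exact Or.inl h
      · exact Or.inr ⟨h.choose_spec.2.2.1, htr s t h⟩

omit [Fintype V] [DecidableEq V] in
/-- a vertex outside level `n+1` has all its level `n+1` components missing level `n` -/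
theorem mem_Z {c c' : K → V → V} {A : V → V → Prop} {y : V} {n : ℕ} (hc : ∀ k, IsPM (c k))
    (hc' : ∀ k, IsPM (c' k)) (hY : ∀ j, ∀ v ∈ X c A y (n + 1), c' j v = c j v) (γ : Bool)
    {v : V} (hv : v ∉ X c A y (n + 1)) : v ∈ Z c' (n + 1) γ (X c A y n) := by
  rintro ⟨w, hw, hvw⟩
  apply hv
  have : Cy c (n + 1) γ v w := by
    clear hv
    induction hvw using ReflTransGen.head_induction_on with
    | refl => exact ReflTransGen.refl
    | @head s t hst _ ih =>
      obtain ⟨j, hj, hst⟩ := hst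
      have ht : t ∈ X c A y (n + 1) := Or.inr ⟨γ, w, hw, ih⟩
      have h1 : c j t = s := by rw [← hY j t ht, ← hst]; exact (hc' j).1 s
      exact ReflTransGen.head ⟨j, hj, by rw [← h1]; exact (hc j).1 t⟩ ih
  exact Or.inr ⟨γ, w, hw, this⟩

omit [Fintype V] [DecidableEq V] in
/-- walking down one level along a component of the other class -/
theorem ext {c c' : K → V → V} {A : V → V → Prop} {y : V} {n : ℕ} {k : K} {β : Bool}
    (hY : ∀ j, ∀ v ∈ X c A y (n + 1), c' j v = c j v) (hβ : pr (n + 1) k ≠ β) {z w : V}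
    (hw : w ∈ X c A y n) (hzw : Cy c (n + 1) β z w) :
    ∃ z' ∈ X c A y n,
      ReflTransGen (fun s t => A s t ∨ Prot c' (n + 1) k (X c A y n) s t) z z' := by
  induction hzw using ReflTransGen.head_induction_on with
  | refl => exact ⟨w, hw, ReflTransGen.refl⟩
  | @head s t hst htw ih =>
    by_cases hs : s ∈ X c A y n
    · exact ⟨s, hs, ReflTransGen.refl⟩
    obtain ⟨z', hz', h⟩ := ih
    have hs' : s ∈ X c A y (n + 1) := Or.inr ⟨β, w, hw, ReflTransGen.head hst htw⟩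
    obtain ⟨j, hj, hst⟩ := hst
    refine ⟨z', hz', ReflTransGen.head (Or.inr ⟨j, ?_, ?_, Or.inl hs, ?_⟩) h⟩
    · rintro rfl; exact hβ hj
    · rw [hY j s hs', hst]
    · intro h'; exact absurd (h'.symm.trans hj) hβ

/-- the invariant -/
def D (c : K → V → V) (A : V → V → Prop) (x y a : V) (n : ℕ) : Prop :=
  ∃ z ∈ X c A y n, ∃ β, (x ∉ X c A y n ∨ a ∉ X c A y n) ∧ ∀ k, pr (n + 1) k = β →
    ∃ c', Good c c' ∧ (∀ j, ∀ v ∈ X c A y n, c' j v = c j v) ∧ Wk c' A k (X c A y n) x z ∧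
      ∃ p, p ≠ k ∧ c' p x = a

theorem D_step {c : K → V → V} {A : V → V → Prop} {x y a : V} {n : ℕ} (hc : ∀ k, IsPM (c k))
    (h : D c A x y a (n + 1)) : D c A x y a n := by
  obtain ⟨z, hz, β, hxa, h⟩ := h
  have key : ∃ β', ∀ (c' : K → V → V) (k : K), (∀ j, ∀ v ∈ X c A y (n + 1), c' j v = c j v) →
      pr (n + 1) k ≠ β' → ∃ z' ∈ X c A y n,
        ReflTransGen (fun s t => A s t ∨ Prot c' (n + 1) k (X c A y n) s t) z z' := by
    rcases hz with ⟨w, hw, hA⟩ | ⟨β', w, hw, hzw⟩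
    · exact ⟨true, fun _ _ _ _ => ⟨w, hw, ReflTransGen.single (Or.inl hA)⟩⟩
    · exact ⟨β', fun _ _ hY hβ => ext hY hβ hw hzw⟩
  obtain ⟨β', key⟩ := key
  obtain ⟨k, hk1, hk2⟩ := exists_pr (n + 1) β (!β')
  obtain ⟨c', hg, hY, hw, p, hp, hpx⟩ := h k hk1
  obtain ⟨z', hz', hzz⟩ := key c' k hY (by rw [hk2]; cases β' <;> simp)
  have hP : ∀ s t j, (s ∉ X c A y (n + 1) ∨ t ∉ X c A y (n + 1)) → j ≠ k → c' j s = t →
      Prot c' (n + 1) k (X c A y n) s t := by
    intro s t j h1 h2 h3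
    refine ⟨j, h2, h3, h1.imp (fun h h' => h (X_mono _ _ _ _ h')) (fun h h' => h (X_mono _ _ _ _ h')),
      fun _ => h1.imp (mem_Z hc hg.1 hY _) (mem_Z hc hg.1 hY _)⟩
  refine ⟨z', hz', pr (n + 1) k,
    hxa.imp (fun h h' => h (X_mono _ _ _ _ h')) (fun h h' => h (X_mono _ _ _ _ h')), ?_⟩
  intro k₀ hk₀
  refine opt hg (fun j v hv => hY j v (X_mono _ _ _ _ hv)) (ReflTransGen.trans ?_ hzz)
    (hP x a p hxa hp hpx) k₀ hk₀
  refine rtg_mono ?_ hw
  rintro s t (h | ⟨h1, j, h2, h3⟩)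
  · exact Or.inl h
  · exact Or.inr (hP s t j h1 h2 h3)

theorem D_base {c : K → V → V} {A : V → V → Prop} {x y : V} {τ : K} {n : ℕ}
    (hc : ∀ k, IsPM (c k)) (hx : x ∉ X c A y n)
    (h : x ∈ X c A y (n + 1) ∨ c τ x ∈ X c A y (n + 1)) : D c A x y (c τ x) n := by
  have hg : Good c c := ⟨hc, fun _ _ => rfl⟩
  by_cases h1 : ∃ w ∈ X c A y n, Cy c (n + 1) (pr (n + 1) τ) x w
  · obtain ⟨w, hw, hxw⟩ := h1
    obtain ⟨k, hk, -⟩ := exists_pr n (!pr (n + 1) τ) true
    have hne : pr (n + 1) k ≠ pr (n + 1) τ := by rw [hk]; cases pr (n + 1) τ <;> simp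
    obtain ⟨z', hz', hzz⟩ := ext (c' := c) (k := k) (fun _ _ _ => rfl) hne hw hxw
    refine ⟨z', hz', pr (n + 1) k, Or.inl hx, fun k₀ hk₀ => ?_⟩
    refine opt hg (fun _ _ _ => rfl) hzz ⟨τ, ?_, rfl, Or.inl hx, fun h' => absurd h'.symm hne⟩ k₀ hk₀
    rintro rfl; exact hne rfl
  · set k := oth (n + 1) τ with hk
    have hpr : pr (n + 1) k = pr (n + 1) τ := pr_oth _ _
    have hP : Prot c (n + 1) k (X c A y n) x (c τ x) :=
      ⟨τ, (oth_ne _ _).symm, rfl, Or.inl hx, fun _ => Or.inl (by rw [hpr]; exact h1)⟩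
    have key : ∀ z, z ∈ X c A y (n + 1) → Cy c (n + 1) (pr (n + 1) τ) x z → ∃ z' ∈ X c A y n,
        ReflTransGen (fun s t => A s t ∨ Prot c (n + 1) k (X c A y n) s t) z z' := by
      rintro z (⟨w, hw, hA⟩ | ⟨β', w, hw, hzw⟩) hxz
      · exact ⟨w, hw, ReflTransGen.single (Or.inl hA)⟩
      · refine ext (fun _ _ _ => rfl) ?_ hw hzw
        intro h'
        rw [hpr] at h'
        subst h'
        exact h1 ⟨w, hw, hxz.trans hzw⟩
    have : ∃ z' ∈ X c A y n,
        ReflTransGen (fun s t => A s t ∨ Prot c (n + 1) k (X c A y n) s t) x z' := by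
      rcases h with h | h
      · exact key x h ReflTransGen.refl
      · obtain ⟨z', hz', hzz⟩ := key _ h (ReflTransGen.single ⟨τ, rfl, rfl⟩)
        exact ⟨z', hz', ReflTransGen.head (Or.inr hP) hzz⟩
    obtain ⟨z', hz', hzz⟩ := this
    exact ⟨z', hz', pr (n + 1) k, Or.inl hx, fun k₀ hk₀ => opt hg (fun _ _ _ => rfl) hzz hP k₀ hk₀⟩

end PiL

open PiL in
theorem pi_thm : StPi := by
  classical
  intro V _ _ c A x y τ τ' hc hyx hya hreach
  have hN : ∃ N, x ∈ X c A y N ∨ c τ x ∈ X c A y N := by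
    have : ∃ N, x ∈ X c A y N := by
      clear hyx hya
      induction hreach using ReflTransGen.head_induction_on with
      | refl => exact ⟨0, rfl⟩
      | @head s t hst _ ih =>
        obtain ⟨N, hN⟩ := ih
        rcases hst with h | ⟨k, hk⟩
        · exact ⟨N + 1, Or.inl ⟨t, hN, h⟩⟩
        · exact ⟨N + 1, Or.inr ⟨_, t, hN, ReflTransGen.single ⟨k, rfl, hk⟩⟩⟩
    exact this.imp fun _ h => Or.inl h
  have h0 : Nat.find hN ≠ 0 := by
    intro h
    have := Nat.find_spec hN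
    rw [h] at this
    rcases this with h | h
    · exact hyx (Set.mem_singleton_iff.1 h).symm
    · exact hya (Set.mem_singleton_iff.1 h).symm
  obtain ⟨n, hn⟩ := Nat.exists_eq_succ_of_ne_zero h0
  have h1 := Nat.find_spec hN
  have h2 := Nat.find_min hN (m := n) (by omega)
  rw [hn] at h1
  push Not at h2
  have hD : D c A x y (c τ x) n := D_base hc h2.1 h1
  have hD0 : D c A x y (c τ x) 0 := by
    clear h1 h2 hn
    induction n with
    | zero => exact hD
    | succ n ih => exact ih (D_step hc hD)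
  obtain ⟨z, hz, β, -, h⟩ := hD0
  have hzy : z = y := hz
  subst hzy
  have : ∃ k, pr 1 k = β ∧ k ≠ τ' := by
    obtain ⟨k, hk, -⟩ := exists_pr 0 β true
    by_cases h' : k = τ'
    · exact ⟨oth 1 k, (pr_oth _ _).trans hk, fun h'' => oth_ne 1 k (h''.trans h'.symm)⟩
    · exact ⟨k, hk, h'⟩
  obtain ⟨k, hk, hkτ⟩ := this
  obtain ⟨c', hg, hY, hw, hp⟩ := h k hk
  refine ⟨c', k, hg.1, hg.2, fun j => hY j z rfl, hkτ, hp, rtg_mono ?_ hw⟩
  rintro s t (h | ⟨-, h⟩)
  · exact Or.inl h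
  · exact Or.inr h

end Pool.Agent.Lib.MP_fe5cb4_co.Sey
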