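import Pool.Agent.Lib.MP_fe5cb4_co.Sey.Ring
import Pool.Agent.Lib.MP_fe5cb4_co.Sey.Pi

set_option autoImplicit false
set_option linter.unusedSectionVars false
set_option linter.unusedSimpArgs false

namespace Pool.Agent.Lib.MP_fe5cb4_co.Sey

open Finset Relation

namespace CoreL

open PiL

variable {V : Type} [Fintype V] [DecidableEq V]

theorem ed_left {p q : V} (h : p ≠ q) (t : V) : ed p q p t = if q = t then 1 else 0 := by
  unfold ed; simp [h, eq_comm]

theorem ed_right {p q : V} (h : p ≠ q) (t : V) : ed p q q t = if p = t then 1 else 0 := by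
  unfold ed; simp [h.symm, eq_comm]

theorem ed_ne {p q s : V} (h1 : s ≠ p) (h2 : s ≠ q) (t : V) : ed p q s t = 0 := by
  unfold ed; simp [h1, h2]

theorem ed_comm (p q : V) : ed p q = ed q p := by
  funext s t; unfold ed; simp only [or_comm]

theorem ind_of {f : V → V} {s w : V} (h : f s = w) (t : V) : ind f s t = if w = t then 1 else 0 := by
  unfold ind; rw [h]

/-- switching a colour containing both `uv` and `xy` back -/
theorem sw_back {d : ℕ} {m m' : V → V → ℕ} {u v x y : V} (huv : u ≠ v) (hux : u ≠ x) (huy : u ≠ y)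
    (hvx : v ≠ x) (hvy : v ≠ y) (hxy : x ≠ y)
    (hsw : ∀ a b, m' a b + ed u x a b + ed v y a b = m a b + ed u v a b + ed x y a b)
    {c : Fin d → V → V} (hc : ∀ i, IsPM (c i)) (hcol : ∀ a b, m' a b = ∑ i, ind (c i) a b)
    {i : Fin d} (h1 : c i u = v) (h2 : c i x = y) : Col d m := by
  let g : Unit → V → V := fun _ s => Equiv.swap v x (c i (Equiv.swap v x s))
  have he : Function.Injective (fun _ : Unit => i) := fun _ _ _ => rfl
  refine col_of (pm_extend he (g := g) (fun _ => pm_conj (hc i) _ (by simp)) hc)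
    (col_extend he hcol fun a b => ?_)
  have h3 := IsPM_symm (hc i) h1
  have h4 := IsPM_symm (hc i) h2
  have key : ind (g ()) a b + ed u v a b + ed x y a b = ind (c i) a b + ed u x a b + ed v y a b := by
    by_cases a1 : a = u
    · subst a1
      have e : g () a = x := by
        simp only [g]; rw [Equiv.swap_apply_of_ne_of_ne huv hux, h1, Equiv.swap_apply_left]
      rw [ind_of e, ind_of h1, ed_left huv, ed_ne hux huy, ed_left hux, ed_ne huv huy]; ring
    by_cases a2 : a = v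
    · subst a2
      have e : g () a = y := by
        simp only [g]; rw [Equiv.swap_apply_left, h2, Equiv.swap_apply_of_ne_of_ne hvy.symm hxy.symm]
      rw [ind_of e, ind_of h3, ed_right huv, ed_ne hvx hvy, ed_left hvy, ed_ne huv.symm hvx]; ring
    by_cases a3 : a = x
    · subst a3
      have e : g () a = u := by
        simp only [g]; rw [Equiv.swap_apply_right, h3, Equiv.swap_apply_of_ne_of_ne huv hux]
      rw [ind_of e, ind_of h2, ed_right hux, ed_ne hux.symm hvx.symm, ed_left hxy,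
        ed_ne hvx.symm hxy]; ring
    by_cases a4 : a = y
    · subst a4
      have e : g () a = v := by
        simp only [g]; rw [Equiv.swap_apply_of_ne_of_ne hvy.symm hxy.symm, h4, Equiv.swap_apply_right]
      rw [ind_of e, ind_of h4, ed_right hxy, ed_ne huy.symm hvy.symm, ed_right hvy,
        ed_ne huy.symm hxy.symm]; ring
    · have n1 : c i a ≠ v := fun h => a1 (IsPM_inj (hc i) (h.trans h1.symm))
      have n2 : c i a ≠ x := fun h => a4 (IsPM_inj (hc i) (h.trans h4.symm))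
      have e : g () a = c i a := by
        simp only [g]; rw [Equiv.swap_apply_of_ne_of_ne a2 a3, Equiv.swap_apply_of_ne_of_ne n1 n2]
      rw [ind_of e, ind_of rfl, ed_ne a1 a2, ed_ne a3 a4, ed_ne a1 a3, ed_ne a2 a4]
  have := hsw a b
  simp only [Finset.univ_unique, Finset.sum_singleton]
  have e : g default = g () := rfl
  rw [e]
  omega

/-- the involution exchanging `u,x` and `v,y` -/
def sw (u v x y : V) (s : V) : V :=
  if s = u then x else if s = x then u else if s = v then y else if s = y then v else s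

theorem sw_sw {u v x y : V} (huv : u ≠ v) (hux : u ≠ x) (huy : u ≠ y)
    (hvx : v ≠ x) (hvy : v ≠ y) (hxy : x ≠ y) (s : V) : sw u v x y (sw u v x y s) = s := by
  unfold sw
  by_cases a1 : s = u <;> by_cases a2 : s = x <;> by_cases a3 : s = v <;> by_cases a4 : s = y <;>
    simp_all [eq_comm]

/-- conjugate of a matching -/
def cj (u v x y : V) (f : V → V) (s : V) : V := sw u v x y (f (sw u v x y s))

theorem cj_pm {u v x y : V} (huv : u ≠ v) (hux : u ≠ x) (huy : u ≠ y)
    (hvx : v ≠ x) (hvy : v ≠ y) (hxy : x ≠ y) {f : V → V} (hf : IsPM f) :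
    IsPM (cj u v x y f) := by
  have h := sw_sw huv hux huy hvx hvy hxy
  refine ⟨fun s => ?_, fun s hs => ?_⟩
  · simp only [cj, h, hf.1]
  · have := congrArg (sw u v x y) hs
    simp only [cj, h] at this
    exact hf.2 _ this

theorem cj_cj {u v x y : V} (huv : u ≠ v) (hux : u ≠ x) (huy : u ≠ y)
    (hvx : v ≠ x) (hvy : v ≠ y) (hxy : x ≠ y) (f : V → V) : cj u v x y (cj u v x y f) = f := by
  funext s
  simp only [cj, sw_sw huv hux huy hvx hvy hxy]

/-- values of the conjugate of a matching containing `uv`, `xa`, `yb` -/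
theorem cj_val {u v x y a b : V} (huv : u ≠ v) (hux : u ≠ x) (huy : u ≠ y)
    (hvx : v ≠ x) (hvy : v ≠ y) (hxy : x ≠ y) {f : V → V} (hf : IsPM f) (h1 : f u = v)
    (h2 : f x = a) (h3 : f y = b) (hay : a ≠ y) :
    cj u v x y f x = y ∧ cj u v x y f y = x ∧ cj u v x y f u = a ∧ cj u v x y f a = u ∧
      cj u v x y f v = b ∧ cj u v x y f b = v ∧
      ∀ s, s ≠ u → s ≠ v → s ≠ x → s ≠ y → s ≠ a → s ≠ b → cj u v x y f s = f s := by
  have h4 := IsPM_symm hf h1
  have h5 := IsPM_symm hf h2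
  have h6 := IsPM_symm hf h3
  have au : a ≠ u := fun h => hvx (by rw [← h1, ← h, h5])
  have av : a ≠ v := fun h => hux (by rw [← h4, ← h, h5])
  have ax : a ≠ x := fun h => hf.2 x (h2.trans h)
  have bu : b ≠ u := fun h => hvy (by rw [← h1, ← h, h6])
  have bv : b ≠ v := fun h => huy (by rw [← h4, ← h, h6])
  have bx : b ≠ x := fun h => hay (by rw [← h2, ← h, h6])
  have by' : b ≠ y := fun h => hf.2 y (h3.trans h)
  refine ⟨?_, ?_, ?_, ?_, ?_, ?_, ?_⟩
  · simp [cj, sw, hux.symm, h1, huv.symm, hvx]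
  · simp [cj, sw, huy.symm, hxy.symm, hvy.symm, h4]
  · simp [cj, sw, h2, au, ax, av, hay]
  · simp [cj, sw, au, ax, av, hay, h5, hux.symm]
  · simp [cj, sw, huv.symm, hvx, h3, bu, bv, bx, by']
  · simp [cj, sw, bu, bv, bx, by', h6, huy.symm, hxy.symm, hvy.symm]
  · intro s s1 s2 s3 s4 s5 s6
    have n1 : f s ≠ u := fun h => s2 (IsPM_inj hf (h.trans h4.symm))
    have n2 : f s ≠ v := fun h => s1 (IsPM_inj hf (h.trans h1.symm))
    have n3 : f s ≠ x := fun h => s5 (IsPM_inj hf (h.trans h5.symm))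
    have n4 : f s ≠ y := fun h => s6 (IsPM_inj hf (h.trans h6.symm))
    simp [cj, sw, s1, s2, s3, s4, n1, n2, n3, n4]

theorem cj_ind {u v x y a b : V} (huv : u ≠ v) (hux : u ≠ x) (huy : u ≠ y)
    (hvx : v ≠ x) (hvy : v ≠ y) (hxy : x ≠ y) {f : V → V} (hf : IsPM f) (h1 : f u = v)
    (h2 : f x = a) (h3 : f y = b) (hay : a ≠ y) (s t : V) :
    ind (cj u v x y f) s t + ed u v s t + ed x a s t + ed y b s t =
      ind f s t + ed x y s t + ed u a s t + ed v b s t := by
  obtain ⟨e1, e2, e3, e4, e5, e6, e7⟩ := cj_val huv hux huy hvx hvy hxy hf h1 h2 h3 hay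
  have h4 := IsPM_symm hf h1
  have h5 := IsPM_symm hf h2
  have h6 := IsPM_symm hf h3
  have au : a ≠ u := fun h => hvx (by rw [← h1, ← h, h5])
  have av : a ≠ v := fun h => hux (by rw [← h4, ← h, h5])
  have ax : a ≠ x := fun h => hf.2 x (h2.trans h)
  have bu : b ≠ u := fun h => hvy (by rw [← h1, ← h, h6])
  have bv : b ≠ v := fun h => huy (by rw [← h4, ← h, h6])
  have bx : b ≠ x := fun h => hay (by rw [← h2, ← h, h6])
  have by' : b ≠ y := fun h => hf.2 y (h3.trans h)
  have ab : a ≠ b := fun h => hxy (by rw [← h5, h, h6])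
  by_cases a1 : s = u
  · subst a1
    rw [ind_of e3, ind_of h1, ed_left huv, ed_ne hux au.symm, ed_ne huy bu.symm, ed_ne hux huy,
      ed_left au.symm, ed_ne huv bu.symm]; ring
  by_cases a2 : s = v
  · subst a2
    rw [ind_of e5, ind_of h4, ed_right huv, ed_ne hvx av.symm, ed_ne hvy bv.symm, ed_ne hvx hvy,
      ed_left bv.symm, ed_ne huv.symm av.symm]; ring
  by_cases a3 : s = x
  · subst a3
    rw [ind_of e1, ind_of h2, ed_ne a1 a2, ed_left ax.symm, ed_ne hxy bx.symm, ed_left hxy,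
      ed_ne a1 ax.symm, ed_ne a2 bx.symm]; ring
  by_cases a4 : s = y
  · subst a4
    rw [ind_of e2, ind_of h3, ed_ne a1 a2, ed_ne a3 hay.symm, ed_left by'.symm, ed_right hxy,
      ed_ne a1 hay.symm, ed_ne a2 by'.symm]; ring
  by_cases a5 : s = a
  · subst a5
    rw [ind_of e4, ind_of h5, ed_ne a1 a2, ed_right ax.symm, ed_ne a4 ab, ed_ne a3 a4,
      ed_right au.symm, ed_ne a2 ab]; ring
  by_cases a6 : s = b
  · subst a6
    rw [ind_of e6, ind_of h6, ed_ne a1 a2, ed_ne a3 a5, ed_right by'.symm, ed_ne a3 a4,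
      ed_ne a1 a5, ed_right bv.symm]; ring
  · rw [ind_of (e7 s a1 a2 a3 a4 a5 a6), ind_of rfl, ed_ne a1 a2, ed_ne a3 a5, ed_ne a4 a6,
      ed_ne a3 a4, ed_ne a1 a5, ed_ne a2 a6]

/-- the two-coloured cycle through `x` either misses `y` or splits -/
theorem kempe {P Q : V → V} (hP : IsPM P) (hQ : IsPM Q) {u v x y : V} (hPu : P u = v)
    (hQu : Q u = v) (hxu : x ≠ u) (hxv : x ≠ v) :
    (∃ W : Finset V, x ∈ W ∧ y ∉ W ∧ (∀ s ∈ W, P s ∈ W) ∧ ∀ s ∈ W, Q s ∈ W) ∨
    ∃ (R : Finset V) (z : V), (z = y ∨ z = Q y) ∧ x ∈ R ∧ z ∈ R ∧ P x ∉ R ∧ Q z ∉ R ∧ u ∉ R ∧ v ∉ R ∧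
      (∀ s ∈ R, s ≠ x → P s ∈ R) ∧ ∀ s ∈ R, s ≠ z → Q s ∈ R := by
  classical
  set r : V → V → Prop := fun s t => s ≠ y ∧ s ≠ Q y ∧ t = P (Q s) with hr
  set R : Finset V := univ.filter fun s => ReflTransGen r x s ∨
    ∃ t, ReflTransGen r x t ∧ t ≠ y ∧ t ≠ Q y ∧ s = Q t with hR
  have mR : ∀ s, s ∈ R ↔ ReflTransGen r x s ∨
      ∃ t, ReflTransGen r x t ∧ t ≠ y ∧ t ≠ Q y ∧ s = Q t := fun s => by simp [hR]
  have hx : x ∈ R := (mR x).2 (Or.inl ReflTransGen.refl)
  have cP : ∀ s ∈ R, s ≠ x → P s ∈ R := by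
    intro s hs hsx
    rw [mR] at hs ⊢
    rcases hs with hs | ⟨t, ht, h1, h2, rfl⟩
    · rcases hs.cases_tail with h | ⟨t, ht, h1, h2, rfl⟩
      · exact absurd h hsx
      · exact Or.inr ⟨t, ht, h1, h2, hP.1 _⟩
    · exact Or.inl (ht.tail ⟨h1, h2, rfl⟩)
  have cQ : ∀ s ∈ R, s ≠ y → s ≠ Q y → Q s ∈ R := by
    intro s hs h1 h2
    rw [mR] at hs ⊢
    rcases hs with hs | ⟨t, ht, -, -, rfl⟩
    · exact Or.inr ⟨s, hs, h1, h2, rfl⟩
    · exact Or.inl (by rw [hQ.1]; exact ht)
  have hy : y ∈ R → ReflTransGen r x y := by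
    intro h
    rcases (mR y).1 h with h | ⟨t, -, -, h2, h3⟩
    · exact h
    · exact absurd (IsPM_symm hQ h3.symm).symm h2
  have hy' : Q y ∈ R → ReflTransGen r x (Q y) := by
    intro h
    rcases (mR _).1 h with h | ⟨t, -, h1, -, h3⟩
    · exact h
    · exact absurd (IsPM_inj hQ h3).symm h1
  have hboth : ¬ (y ∈ R ∧ Q y ∈ R) := by
    rintro ⟨h1, h2⟩
    have hru : Relator.RightUnique r := by
      rintro s t t' ⟨-, -, rfl⟩ ⟨-, -, rfl⟩; rfl
    rcases ReflTransGen.total_of_right_unique hru (hy h1) (hy' h2) with h | h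
    · rcases h.cases_head with h | ⟨t, ht, -⟩
      · exact hQ.2 y h.symm
      · exact ht.1 rfl
    · rcases h.cases_head with h | ⟨t, ht, -⟩
      · exact hQ.2 y h
      · exact ht.2.1 rfl
  have huv : ∀ s ∈ R, s ≠ u ∧ s ≠ v := by
    have hh : ∀ k : Bool, IsPM ((fun k : Bool => if k then P else Q) k) := by
      intro k; cases k
      · exact hQ
      · exact hP
    have hu : ∀ k : Bool, (fun k : Bool => if k then P else Q) k u = v := by
      intro k; cases k
      · exact hQu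
      · exact hPu
    have : ∀ s, ReflTransGen r x s → s ≠ u ∧ s ≠ v := by
      intro s hs
      induction hs with
      | refl => exact ⟨hxu, hxv⟩
      | tail _ h2 ih =>
        obtain ⟨-, -, rfl⟩ := h2
        exact avoid hh hu (avoid hh hu ih false) true
    intro s hs
    rcases (mR s).1 hs with h | ⟨t, ht, -, -, rfl⟩
    · exact this s h
    · exact avoid hh hu (this t ht) false
  have split : ∀ z, (z = y ∨ z = Q y) → z ∈ R → Q z ∉ R → (∀ s ∈ R, s ≠ z → Q s ∈ R) →
      ∃ (R : Finset V) (z : V), (z = y ∨ z = Q y) ∧ x ∈ R ∧ z ∈ R ∧ P x ∉ R ∧ Q z ∉ R ∧ u ∉ R ∧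
        v ∉ R ∧ (∀ s ∈ R, s ≠ x → P s ∈ R) ∧ ∀ s ∈ R, s ≠ z → Q s ∈ R := by
    intro z h1 h2 h3 h4
    refine ⟨R, z, h1, hx, h2, fun h => ?_, h3, fun h => (huv u h).1 rfl, fun h => (huv v h).2 rfl,
      cP, h4⟩
    have e1 := cr_eq_one h2 h3 h4
    have e2 : cr P R = 0 := cr_eq_zero fun t ht => by
      by_cases htx : t = x
      · rw [htx]; exact h
      · exact cP t ht htx
    have e3 := cr_parity hP R
    have e4 := cr_parity hQ R
    omega
  by_cases h1 : y ∈ R
  · have h2 : Q y ∉ R := fun h => hboth ⟨h1, h⟩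
    exact Or.inr (split y (Or.inl rfl) h1 h2 fun s hs hsy => cQ s hs hsy fun h => h2 (h ▸ hs))
  by_cases h2 : Q y ∈ R
  · exact Or.inr (split (Q y) (Or.inr rfl) h2 (by rwa [hQ.1])
      fun s hs hsy => cQ s hs (fun h => h1 (h ▸ hs)) hsy)
  · have c2 : ∀ s ∈ R, Q s ∈ R := fun s hs => cQ s hs (fun h => h1 (h ▸ hs)) fun h => h2 (h ▸ hs)
    refine Or.inl ⟨R, hx, h1, fun s hs => ?_, c2⟩
    by_cases hsx : s = x
    · subst hsx
      by_contra h
      have e1 := cr_eq_one hs h cP
      have e2 := cr_eq_zero c2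
      have e3 := cr_parity hP R
      have e4 := cr_parity hQ R
      omega
    · exact cP s hs hsx

/-- subdividing two edges of an even cycle -/
theorem subdiv {P Q : V → V} (hP : IsPM P) (hQ : IsPM Q) {u v x z : V} (hPu : P u = v)
    (hQu : Q u = v) {R : Finset V} (hx : x ∈ R) (hz : z ∈ R) (ha : P x ∉ R) (hz' : Q z ∉ R)
    (hu : u ∉ R) (hv : v ∉ R) (cP : ∀ s ∈ R, s ≠ x → P s ∈ R) (cQ : ∀ s ∈ R, s ≠ z → Q s ∈ R)
    (hxz : x ≠ z) (haz : P x ≠ Q z) :
    ∃ P' Q' : V → V, IsPM P' ∧ IsPM Q' ∧ ∀ s t,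
      ind P' s t + ind Q' s t + 2 * ed u v s t + ed x (P x) s t + ed z (Q z) s t =
        ind P s t + ind Q s t + ed u (P x) s t + ed u x s t + ed v z s t + ed v (Q z) s t := by
  classical
  have huv : u ≠ v := fun h => hP.2 u (hPu.trans h.symm)
  have hPv := IsPM_symm hP hPu
  have hQv := IsPM_symm hQ hQu
  have xu : x ≠ u := fun h => hu (h ▸ hx)
  have xv : x ≠ v := fun h => hv (h ▸ hx)
  have zu : z ≠ u := fun h => hu (h ▸ hz)
  have zv : z ≠ v := fun h => hv (h ▸ hz)
  have au : P x ≠ u := fun h => xv (IsPM_inj hP (h.trans hPv.symm))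
  have av : P x ≠ v := fun h => xu (IsPM_inj hP (h.trans hPu.symm))
  have bu : Q z ≠ u := fun h => zv (IsPM_inj hQ (h.trans hQv.symm))
  have bv : Q z ≠ v := fun h => zu (IsPM_inj hQ (h.trans hQu.symm))
  have az : P x ≠ z := fun h => ha (h ▸ hz)
  have bx : Q z ≠ x := fun h => hz' (h ▸ hx)
  -- generic construction
  have gen : ∀ (F G : V → V), IsPM F → IsPM G → F u = v → ∀ p q w w' : V, ({p, q} : Finset V) = {u, v} →
      p ≠ q → w ∈ R → w' ∈ R → (∀ s ∈ R, s ≠ w → F s ∈ R) → F w ∉ R → (∀ s ∈ R, s ≠ w' → G s ∈ R) →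
      G w' ∉ R → IsPM fun s => if s = p then F w else if s = F w then p else if s = q then w' else
        if s = w' then q else if s ∈ R then G s else F s := by
    intro F G hF hG hFu p q w w' hpq hne hw hw' cF hFw cG hGw
    have hFv := IsPM_symm hF hFu
    have hp : p = u ∨ p = v := by
      have : p ∈ ({u, v} : Finset V) := by rw [← hpq]; simp
      simpa using this
    have hq : q = u ∨ q = v := by
      have : q ∈ ({u, v} : Finset V) := by rw [← hpq]; simp
      simpa using this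
    have pR : p ∉ R := by rcases hp with rfl | rfl <;> assumption
    have qR : q ∉ R := by rcases hq with rfl | rfl <;> assumption
    have Fp : F p = q := by
      rcases hp with rfl | rfl <;> rcases hq with rfl | rfl <;> simp_all
    have Fq := IsPM_symm hF Fp
    have n1 : F w ≠ p := fun h => qR (by rw [← IsPM_inj hF (h.trans Fq.symm)]; exact hw)
    have n2 : F w ≠ q := fun h => pR (by rw [← IsPM_inj hF (h.trans Fp.symm)]; exact hw)
    have n3 : w' ≠ p := fun h => pR (h ▸ hw')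
    have n4 : w' ≠ q := fun h => qR (h ▸ hw')
    have n5 : w' ≠ F w := fun h => hFw (h ▸ hw')
    have main : ∀ s, s ≠ p → s ≠ F w → s ≠ q → s ≠ w' →
        ((if s ∈ R then G s else F s) ≠ p ∧ (if s ∈ R then G s else F s) ≠ F w ∧
          (if s ∈ R then G s else F s) ≠ q ∧ (if s ∈ R then G s else F s) ≠ w') ∧
        ((if s ∈ R then G s else F s) ∈ R ↔ s ∈ R) := by
      intro s s1 s2 s3 s4
      by_cases hs : s ∈ R
      · have h1 := cG s hs s4
        simp only [if_pos hs]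
        exact ⟨⟨fun h => pR (h ▸ h1), fun h => hFw (h ▸ h1), fun h => qR (h ▸ h1),
          fun h => hGw (by rw [← h, hG.1]; exact hs)⟩, iff_of_true h1 hs⟩
      · have h1 : F s ∉ R := fun h => by
          by_cases h' : F s = w
          · exact s2 (IsPM_symm hF h').symm
          · exact hs (by have := cF _ h h'; rwa [hF.1] at this)
        simp only [if_neg hs]
        exact ⟨⟨fun h => s3 (IsPM_inj hF (h.trans Fq.symm)),
          fun h => hs (by rw [IsPM_inj hF h]; exact hw),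
          fun h => s1 (IsPM_inj hF (h.trans Fp.symm)), fun h => h1 (h ▸ hw')⟩, iff_of_false h1 hs⟩
    refine ⟨fun s => ?_, fun s => ?_⟩
    · by_cases s1 : s = p
      · simp [s1, n1]
      by_cases s2 : s = F w
      · simp [s2, n1]
      by_cases s3 : s = q
      · simp [s3, hne.symm, n2.symm, n3, n4, n5]
      by_cases s4 : s = w'
      · simp [s4, hne.symm, n2.symm, n3, n4, n5]
      obtain ⟨⟨m1, m2, m3, m4⟩, m5⟩ := main s s1 s2 s3 s4
      simp only [if_neg s1, if_neg s2, if_neg s3, if_neg s4, if_neg m1, if_neg m2, if_neg m3,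
        if_neg m4, m5]
      by_cases hs : s ∈ R
      · simp only [if_pos hs, hG.1]
      · simp only [if_neg hs, hF.1]
    · by_cases s1 : s = p
      · simp [s1, n1]
      by_cases s2 : s = F w
      · simp [s2, n1, n1.symm]
      by_cases s3 : s = q
      · simp [s3, hne.symm, n2.symm, n4]
      by_cases s4 : s = w'
      · simp [s4, n3, n4, n5, n4.symm]
      simp only [if_neg s1, if_neg s2, if_neg s3, if_neg s4]
      split_ifs
      · exact hG.2 s
      · exact hF.2 s
  refine ⟨_, _, gen P Q hP hQ hPu u v x z rfl huv hx hz cP ha cQ hz',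
    gen Q P hQ hP hQu v u z x (Finset.pair_comm _ _) huv.symm hz hx cQ hz' cP ha, fun s t => ?_⟩
  have ax : P x ≠ x := hP.2 x
  have bz : Q z ≠ z := hQ.2 z
  by_cases a1 : s = u
  · subst a1
    rw [ind_of (w := P x) (by simp), ind_of (w := x) (by simp [huv, bu.symm]), ind_of hPu,
      ind_of hQu, ed_left huv, ed_ne xu.symm au.symm, ed_ne zu.symm bu.symm, ed_left au.symm,
      ed_left xu.symm, ed_ne huv zu.symm, ed_ne huv bu.symm]; ring
  by_cases a2 : s = v
  · subst a2
    rw [ind_of (w := z) (by simp [a1, av.symm]), ind_of (w := Q z) (by simp), ind_of hPv,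
      ind_of hQv, ed_right huv, ed_ne xv.symm av.symm, ed_ne zv.symm bv.symm, ed_ne a1 av.symm,
      ed_ne a1 xv.symm, ed_left zv.symm, ed_left bv.symm]; ring
  by_cases a3 : s = x
  · subst a3
    rw [ind_of (w := Q s) (by simp [a1, a2, ax.symm, hxz, hx]),
      ind_of (w := u) (by simp [a1, a2, bx.symm]), ind_of (f := P) rfl, ind_of (f := Q) rfl,
      ed_ne a1 a2, ed_left ax.symm, ed_ne hxz bx.symm, ed_ne a1 ax.symm, ed_right xu.symm,
      ed_ne a2 hxz, ed_ne a2 bx.symm]; ring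
  by_cases a4 : s = z
  · subst a4
    rw [ind_of (w := v) (by simp [a1, a2, az.symm]),
      ind_of (w := P s) (by simp [a1, a2, a3, bz.symm, hz]), ind_of (f := P) rfl,
      ind_of (f := Q) rfl, ed_ne a1 a2, ed_ne a3 az.symm, ed_left bz.symm, ed_ne a1 az.symm,
      ed_ne a1 a3, ed_right zv.symm, ed_ne a2 bz.symm]; ring
  by_cases a5 : s = P x
  · rw [ind_of (w := u) (by simp [a5, au]),
      ind_of (w := Q s) (by simp [a5, au, av, ax, haz, ha]), ind_of (f := P) (w := x) (by rw [a5, hP.1]),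
      ind_of (f := Q) rfl, ed_ne a1 a2, ed_ne a4 (a5 ▸ haz), ed_ne a1 a3, ed_ne a2 a4,
      ed_ne a2 (a5 ▸ haz), a5, ed_right ax.symm, ed_right au.symm]; ring
  by_cases a6 : s = Q z
  · rw [ind_of (w := P s) (by simp [a6, bu, bv, bz, haz.symm, hz']),
      ind_of (w := v) (by simp [a6, bv]), ind_of (f := P) rfl,
      ind_of (f := Q) (w := z) (by rw [a6, hQ.1]), ed_ne a1 a2, ed_ne a3 a5, ed_ne a1 a5,
      ed_ne a1 a3, ed_ne a2 a4, a6, ed_right bz.symm, ed_right bv.symm]; ring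
  · rw [ed_ne a1 a2, ed_ne a3 a5, ed_ne a4 a6, ed_ne a1 a5, ed_ne a1 a3, ed_ne a2 a4, ed_ne a2 a6]
    by_cases hs : s ∈ R
    · rw [ind_of (w := Q s) (by simp [a1, a2, a4, a5, hs]),
        ind_of (w := P s) (by simp [a1, a2, a3, a6, hs]), ind_of (f := P) rfl, ind_of (f := Q) rfl]
      ring
    · rw [ind_of (w := P s) (by simp [a1, a2, a4, a5, hs]),
        ind_of (w := Q s) (by simp [a1, a2, a3, a6, hs]), ind_of (f := P) rfl, ind_of (f := Q) rfl]

end CoreL

end Pool.Agent.Lib.MP_fe5cb4_co.Sey
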