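import Pool.Agent.Lib.MP_fe5cb4_co.Sey.St

set_option autoImplicit false
set_option linter.unusedSectionVars false

namespace Pool.Agent.Lib.MP_fe5cb4_co.Sey

open Finset Relation

namespace CoreL

variable {V : Type} [Fintype V] [DecidableEq V]

/-- indicator of a matching -/
def ind (f : V → V) (a b : V) : ℕ := if f a = b then 1 else 0

/-- number of edges of a matching leaving `X` -/
def cr (f : V → V) (X : Finset V) : ℕ := #{a ∈ X | f a ∉ X}

theorem card_eq_sum {ι : Type} [Fintype ι] (c : ι → V → V) (a b : V) :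
    #{i | c i a = b} = ∑ i, ind (c i) a b := by
  rw [Finset.card_filter]; rfl

theorem even_of_closed {f : V → V} (hf : IsPM f) (S : Finset V) (h : ∀ s ∈ S, f s ∈ S) :
    Even #S := by
  have : ∑ _s ∈ S, (1 : ZMod 2) = 0 :=
    Finset.sum_involution (fun s _ => f s) (fun _ _ => by decide) (fun s _ _ => hf.2 s)
      (fun s hs => h s hs) (fun s _ => hf.1 s)
  rw [Finset.sum_const, nsmul_eq_mul, mul_one] at this
  exact (ZMod.natCast_eq_zero_iff_even).1 this

theorem cr_parity {f : V → V} (hf : IsPM f) (X : Finset V) : cr f X % 2 = #X % 2 := by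
  have h1 : Even #{a ∈ X | f a ∈ X} := by
    refine even_of_closed hf _ fun s hs => ?_
    rw [Finset.mem_filter] at hs ⊢
    exact ⟨hs.2, by rw [hf.1]; exact hs.1⟩
  have h2 := Finset.card_filter_add_card_filter_not (s := X) (fun a => f a ∈ X)
  unfold cr
  obtain ⟨k, hk⟩ := h1
  omega

theorem cr_odd {f : V → V} (hf : IsPM f) {X : Finset V} (h : Odd #X) : cr f X % 2 = 1 := by
  rw [cr_parity hf]; exact Nat.odd_iff.1 h

theorem cr_compl {f : V → V} (hf : IsPM f) (X : Finset V) : cr f Xᶜ = cr f X := by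
  unfold cr
  refine Finset.card_bij (fun a _ => f a) ?_ ?_ ?_
  · intro a ha
    simp only [mem_filter, mem_compl, not_not] at ha ⊢
    exact ⟨ha.2, by rw [hf.1]; exact ha.1⟩
  · intro a _ b _ h
    rw [← hf.1 a, ← hf.1 b]; exact congrArg f h
  · intro b hb
    simp only [mem_filter, mem_compl, not_not] at hb ⊢
    exact ⟨f b, ⟨hb.2, by rw [hf.1]; exact hb.1⟩, hf.1 b⟩

theorem cr_eq_sum (f : V → V) (X : Finset V) :
    cr f X = ∑ a, if a ∈ X ∧ f a ∉ X then 1 else 0 := by
  unfold cr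
  rw [← Finset.card_filter]
  congr 1; ext a; simp

theorem cr_submod (f : V → V) (X Y : Finset V) :
    cr f (X ∩ Y) + cr f (X ∪ Y) ≤ cr f X + cr f Y := by
  simp only [cr_eq_sum, ← Finset.sum_add_distrib]
  refine Finset.sum_le_sum fun a _ => ?_
  simp only [mem_inter, mem_union]
  by_cases h1 : a ∈ X <;> by_cases h2 : a ∈ Y <;> by_cases h3 : f a ∈ X <;>
    by_cases h4 : f a ∈ Y <;> simp [h1, h2, h3, h4]

theorem cr_ne_one {f : V → V} {X : Finset V} {s t : V} (hs : s ∈ X) (hs' : f s ∉ X) (ht : t ∈ X)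
    (ht' : f t ∉ X) (hst : s ≠ t) : cr f X ≠ 1 := by
  intro h
  obtain ⟨w, hw⟩ := Finset.card_eq_one.1 h
  have h1 : s ∈ ({w} : Finset V) := by rw [← hw]; exact mem_filter.2 ⟨hs, hs'⟩
  have h2 : t ∈ ({w} : Finset V) := by rw [← hw]; exact mem_filter.2 ⟨ht, ht'⟩
  rw [mem_singleton] at h1 h2
  exact hst (h1.trans h2.symm)

theorem cr_eq_one {f : V → V} {X : Finset V} {s : V} (hs : s ∈ X) (hs' : f s ∉ X)
    (h : ∀ t ∈ X, t ≠ s → f t ∈ X) : cr f X = 1 := by
  refine Finset.card_eq_one.2 ⟨s, ?_⟩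
  ext t
  simp only [mem_filter, mem_singleton]
  constructor
  · rintro ⟨h1, h2⟩
    by_contra h3
    exact h2 (h t h1 h3)
  · rintro rfl; exact ⟨hs, hs'⟩

theorem cr_eq_zero {f : V → V} {X : Finset V} (h : ∀ t ∈ X, f t ∈ X) : cr f X = 0 := by
  unfold cr
  rw [Finset.card_eq_zero, Finset.filter_eq_empty_iff]
  intro t ht h'
  exact h' (h t ht)

theorem cut_ind (f : V → V) (X : Finset V) : cut (ind f) X = cr f X := by
  unfold cut cr ind
  rw [Finset.card_filter]
  refine Finset.sum_congr rfl fun a _ => ?_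
  rw [Finset.sum_ite_eq]
  simp

theorem cut_add (m n : V → V → ℕ) (X : Finset V) :
    cut (fun a b => m a b + n a b) X = cut m X + cut n X := by
  simp only [cut, Finset.sum_add_distrib]

theorem cut_sum {ι : Type} [Fintype ι] (m : ι → V → V → ℕ) (X : Finset V) :
    cut (fun a b => ∑ i, m i a b) X = ∑ i, cut (m i) X := by
  unfold cut
  rw [Finset.sum_comm (s := univ)]
  refine Finset.sum_congr rfl fun a _ => ?_
  rw [Finset.sum_comm]

theorem cut_ed (p q : V) (X : Finset V) :
    cut (ed p q) X = if (p ∈ X ↔ q ∈ X) then 0 else 1 := by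
  have h : ∀ a b, a ∈ X → b ∈ Xᶜ → ed p q a b =
      (if a = p then if b = q then 1 else 0 else 0) + (if a = q then if b = p then 1 else 0 else 0) := by
    intro a b ha hb
    have hab : a ≠ b := fun h => (mem_compl.1 hb) (h ▸ ha)
    unfold ed
    by_cases h1 : a = p <;> by_cases h2 : b = q <;> by_cases h3 : a = q <;> by_cases h4 : b = p <;>
      simp_all
  unfold cut
  rw [Finset.sum_congr rfl fun a ha => Finset.sum_congr rfl fun b hb => h a b ha hb]
  simp only [Finset.sum_add_distrib]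
  have h2 : ∀ r s : V, ∑ a ∈ X, ∑ b ∈ Xᶜ, (if a = r then if b = s then 1 else 0 else 0) =
      if r ∈ X ∧ s ∉ X then 1 else 0 := by
    intro r s
    simp only [Finset.sum_ite_irrel, Finset.sum_const_zero, Finset.sum_ite_eq', mem_compl]
    by_cases h1 : r ∈ X <;> by_cases h2 : s ∈ X <;> simp [h1, h2]
  rw [h2, h2]
  by_cases h1 : p ∈ X <;> by_cases h2 : q ∈ X <;> simp [h1, h2]

theorem cut_col {ι : Type} [Fintype ι] {m : V → V → ℕ} {c : ι → V → V}
    (h : ∀ a b, m a b = ∑ i, ind (c i) a b) (X : Finset V) : cut m X = ∑ i, cr (c i) X := by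
  have : m = fun a b => ∑ i, ind (c i) a b := by funext a b; exact h a b
  rw [this, cut_sum]
  exact Finset.sum_congr rfl fun i _ => cut_ind _ _

/-- replacing some colours -/
theorem sum_extend {ι κ : Type} [Fintype ι] [Fintype κ] {e : κ → ι} (he : Function.Injective e)
    {β : Type} (g : κ → β) (c : ι → β) (F : β → ℕ) :
    ∑ i, F (Function.extend e g c i) + ∑ k, F (c (e k)) = ∑ i, F (c i) + ∑ k, F (g k) := by
  classical
  rw [← Finset.sum_add_sum_compl (univ.image e), ← Finset.sum_add_sum_compl (univ.image e) (fun i => F (c i)),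
    Finset.sum_image (fun _ _ _ _ h => he h), Finset.sum_image (fun _ _ _ _ h => he h)]
  have h1 : ∑ k, F (Function.extend e g c (e k)) = ∑ k, F (g k) :=
    Finset.sum_congr rfl fun k _ => by rw [he.extend_apply]
  have h2 : ∑ i ∈ (univ.image e)ᶜ, F (Function.extend e g c i) = ∑ i ∈ (univ.image e)ᶜ, F (c i) :=
    Finset.sum_congr rfl fun i hi => by
      rw [Function.extend_apply']
      rintro ⟨k, rfl⟩
      simp at hi
  rw [h1, h2]; ring

theorem pm_extend {ι κ : Type} {e : κ → ι} (he : Function.Injective e) {g : κ → V → V}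
    {c : ι → V → V} (hg : ∀ k, IsPM (g k)) (hc : ∀ i, IsPM (c i)) (i : ι) :
    IsPM (Function.extend e g c i) := by
  by_cases h : ∃ k, e k = i
  · obtain ⟨k, rfl⟩ := h
    rw [he.extend_apply]; exact hg k
  · rw [Function.extend_apply' _ _ _ h]; exact hc i

theorem col_extend {ι κ : Type} [Fintype ι] [Fintype κ] {e : κ → ι} (he : Function.Injective e)
    {g : κ → V → V} {c : ι → V → V} {m₁ m₂ : V → V → ℕ}
    (h₁ : ∀ a b, m₁ a b = ∑ i, ind (c i) a b)
    (h₂ : ∀ a b, m₂ a b + ∑ k, ind (c (e k)) a b = m₁ a b + ∑ k, ind (g k) a b) (a b : V) :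
    m₂ a b = ∑ i, ind (Function.extend e g c i) a b := by
  have := sum_extend he g c (fun f => ind f a b)
  have h3 := h₂ a b
  rw [h₁] at h3
  omega

theorem col_of {d : ℕ} {m : V → V → ℕ} {c : Fin d → V → V} (hc : ∀ i, IsPM (c i))
    (h : ∀ a b, m a b = ∑ i, ind (c i) a b) : Col d m :=
  ⟨c, hc, fun a b => by rw [card_eq_sum, h]⟩

/-- conjugation of a matching by an involution -/
theorem pm_conj {f : V → V} (hf : IsPM f) (π : Equiv.Perm V) (hπ : ∀ s, π (π s) = s) :
    IsPM fun s => π (f (π s)) := by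
  refine ⟨fun s => ?_, fun s h => ?_⟩
  · simp only [hπ, hf.1]
  · have := congrArg π h
    simp only [hπ] at this
    exact hf.2 _ this

theorem IsPM_inj {f : V → V} (hf : IsPM f) {s t : V} (h : f s = f t) : s = t := by
  rw [← hf.1 s, h, hf.1]

theorem IsPM_symm {f : V → V} (hf : IsPM f) {s t : V} (h : f s = t) : f t = s := by
  rw [← h, hf.1]

end CoreL

end Pool.Agent.Lib.MP_fe5cb4_co.Sey
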