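import Mathlib

set_option autoImplicit false

namespace Pool.Agent.Lib.MP_fe5cb4_co.Sey

/-- `C` belongs to the cycle space (over the field with two elements) of the simple graph `G`:
a set of edges of `G` in which every vertex has even degree. -/
def Cyc {V : Type} (G : SimpleGraph V) (C : Set (Sym2 V)) : Prop :=
  C ⊆ G.edgeSet ∧ ∀ v, Even {e | e ∈ C ∧ v ∈ e}.ncard

/-- Planarity of a finite simple graph by MacLane's criterion: the cycle space is generated
by a finite family of its elements in which every edge occurs at most twice. -/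
def Planar {V : Type} (G : SimpleGraph V) : Prop :=
  ∃ (n : ℕ) (B : Fin n → Set (Sym2 V)), (∀ i, Cyc G (B i)) ∧ (∀ e, {i | e ∈ B i}.ncard ≤ 2) ∧
    ∀ C, Cyc G C → ∃ I : Set (Fin n), ∀ e, e ∈ C ↔ Odd {i | i ∈ I ∧ e ∈ B i}.ncard

/-- Seymour's conjecture for the degree `r`: every planar `r`-graph (finite loopless multigraph
with edges `e` from `s e` to `d e`, `r`-regular, at least `r` edges leaving every odd vertex set,
underlying simple graph planar) is class 1, that is, its edge set is partitioned into `r` perfect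
matchings. -/
def Seymour (r : ℕ) : Prop :=
  ∀ (V E : Type) [Finite V] [Finite E] (s d : E → V),
    (∀ e, s e ≠ d e) →
    (∀ v, Nat.card {e : E // s e = v ∨ d e = v} = r) →
    (∀ U : Set V, Odd (Nat.card U) →
      r ≤ Nat.card {e : E // (s e ∈ U ∧ d e ∉ U) ∨ (s e ∉ U ∧ d e ∈ U)}) →
    Planar (SimpleGraph.fromRel fun a b => ∃ e, s e = a ∧ d e = b) →
    ∃ M : Fin r → Set E,
      (∀ i v, Nat.card {e : E // e ∈ M i ∧ (s e = v ∨ d e = v)} = 1) ∧
      ∀ e, Nat.card {i : Fin r // e ∈ M i} = 1

end Pool.Agent.Lib.MP_fe5cb4_co.Sey
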