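import Pool.Agent.Lib.MP_fe5cb4_co.Sey.StTop
import Pool.Agent.Lib.MP_fe5cb4_co.Sey.Minor

/-!
A drawn multigraph without loops is planar in the sense of MacLane.
-/

set_option autoImplicit false

namespace Pool.Agent.Lib.MP_fe5cb4_co.Sey

open Finset Minor

namespace Draw

open scoped Classical

theorem of_two {W : Type} [Fintype W] {H : SimpleGraph W}
    (key : Two fun c : H.edgeSet → ZMod 2 => ∀ f, ∑ e, c e * dd f e.1 = 0) : Planar H := by
  have ex : ∀ c : Sym2 W → ZMod 2, (∀ e, c e ≠ 0 → e ∈ H.edgeSet) → ∀ f,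
      ∑ e : H.edgeSet, c e.1 * dd f e.1 = ∑ e, c e * dd f e := fun c hc f =>
    Fintype.sum_of_injective _ Subtype.val_injective _ _ (fun e he => by
      rw [by_contra fun a => he ⟨⟨e, hc e a⟩, rfl⟩, zero_mul]) fun _ => rfl
  refine planar_iff.2 (two_map key (fun c e => if h : e ∈ H.edgeSet then c ⟨e, h⟩ else 0)
    (fun e => ?_) (fun c hc => ?_) fun c hc => ⟨fun e => c e.1, fun f => ?_, fun e => ?_⟩)
  · by_cases h : e ∈ H.edgeSet
    · exact Or.inr ⟨⟨e, h⟩, fun _ => dif_pos h⟩
    · exact Or.inl fun _ => dif_neg h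
  · have a : ∀ e, (if h : e ∈ H.edgeSet then c ⟨e, h⟩ else 0) ≠ 0 → e ∈ H.edgeSet :=
      fun e he => by_contra fun h => he (dif_neg h)
    refine ⟨a, fun f => (ex _ a f).symm.trans ((sum_congr rfl fun e _ => ?_).trans (hc f))⟩
    rw [dif_pos e.2]
  · exact (ex c hc.1 f).trans (hc.2 f)
  · split_ifs with h
    · rfl
    · exact by_contra fun a => h (hc.1 e a)

theorem two (h : StDual) {V E : Type} [Fintype V] [Fintype E] {s d : E → V} (hD : Drawn s d) :
    Two fun c : E → ZMod 2 => ∀ f : V → ZMod 2, ∑ e, c e * (f (s e) + f (d e)) = 0 := by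
  obtain ⟨F, _, l, r, h1, h2⟩ := h V E s d hD
  refine ⟨F, inferInstance, fun φ e => (if l e = φ then 1 else 0) + if r e = φ then 1 else 0,
    fun φ f => ?_, fun e => ?_, fun z hz => ?_⟩
  · have e1 : ∀ v, ∑ e, ((if d e = v then 1 else 0) + (if s e = v then 1 else 0)) *
        ((if l e = φ then 1 else 0) + (if r e = φ then 1 else 0)) = (0 : ZMod 2) := fun v => by
      have := congrArg (Int.cast : ℤ → ZMod 2) (h1 φ v)
      push_cast at this
      simpa only [CharTwo.sub_eq_add] using this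
    have e2 : ∀ e, f (s e) + f (d e) =
        ∑ v, f v * ((if d e = v then 1 else 0) + (if s e = v then 1 else 0)) := fun e => by
      simp [mul_add, sum_add_distrib, add_comm]
    simp only [e2, mul_sum]
    rw [sum_comm]
    refine sum_eq_zero fun v _ => ?_
    refine Eq.trans ?_ ((congrArg (f v * ·) (e1 v)).trans (mul_zero _))
    rw [mul_sum]
    exact sum_congr rfl fun e _ => by ring
  · refine le_trans (Set.ncard_le_ncard (t := {l e, r e}) fun φ hφ => ?_)
      ((Set.ncard_insert_le _ _).trans (by simp))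
    by_contra c
    rw [Set.mem_insert_iff, Set.mem_singleton_iff, not_or] at c
    exact hφ (by simp only [if_neg (Ne.symm c.1), if_neg (Ne.symm c.2), add_zero])
  · obtain ⟨ω, hω⟩ := h2 z fun v => Eq.trans
      (sum_congr rfl fun e _ => by simp [Pi.single_apply, mul_add, add_comm]) (hz (Pi.single v 1))
    exact ⟨ω, fun e => by simp [hω, mul_add, sum_add_distrib]⟩

end Draw

theorem draw_thm (h : StDual) : StDraw := by
  classical
  intro V E _ _ s d _ hD
  have := Fintype.ofFinite V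
  have rep : ∀ x : (SimpleGraph.fromRel fun a b => ∃ e, s e = a ∧ d e = b).edgeSet,
      ∃ e, s(s e, d e) = x.1 := by
    rintro ⟨x, hx⟩
    induction x with
    | h a b =>
      have hx' : (∃ e, s e = a ∧ d e = b) ∨ ∃ e, s e = b ∧ d e = a := hx.2
      rcases hx' with ⟨e, h1, h2⟩ | ⟨e, h1, h2⟩
      exacts [⟨e, by rw [h1, h2]⟩, ⟨e, by rw [h1, h2, Sym2.eq_swap]⟩]
  choose r hr using rep
  have inj : Function.Injective r := fun x y e => Subtype.ext (by rw [← hr, e, hr])
  obtain ⟨p, hp, γ, g1, g2, g3⟩ := hD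
  have key := Draw.two h (s := s ∘ r) (d := d ∘ r) ⟨p, hp, γ ∘ r, fun e => g1 _, fun e => g2 _,
    fun e e' x y c => g3 _ _ x y (inj.ne c)⟩
  refine Draw.of_two ?_
  convert key using 6 with c f e
  rw [← hr, dd_mk]
  rfl

end Pool.Agent.Lib.MP_fe5cb4_co.Sey
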