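import Pool.Agent.Lib.MP_fe5cb4_co.Sey.St
import Pool.Agent.Lib.MP_c86c76_al.J.St

set_option autoImplicit false

namespace Pool.Agent.Lib.MP_fe5cb4_co.Sey

open Set Complex Pool.Agent.PT

/-- a drawing without crossings, as in the frozen statement -/
def Drawn {V E : Type} (s d : E → V) : Prop :=
  ∃ p : V → ℂ, Function.Injective p ∧ ∃ γ : E → unitInterval → ℂ,
    (∀ e, Continuous (γ e) ∧ Function.Injective (γ e) ∧ γ e 0 = p (s e) ∧ γ e 1 = p (d e)) ∧
    (∀ e x, γ e x ∈ Set.range p → x = 0 ∨ x = 1) ∧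
    (∀ e e' x y, e ≠ e' → γ e x = γ e' y → γ e x ∈ Set.range p)

open Classical in
/-- job Indep: Eilenberg independence of the bounded components -/
def StIndep : Prop :=
  ∀ (K : Set ℂ) (ι : Type) [Fintype ι] (a : ι → ℂ) (n : ι → ℤ) (q : ℂ), IsCompact K →
    (∀ i, a i ∉ K) → HasLog K (fun z => ∏ i, (z - a i) ^ n i) →
    Bornology.IsBounded (connectedComponentIn Kᶜ q) →
    ∑ i, (if a i ∈ connectedComponentIn Kᶜ q then n i else 0) = 0

/-- job Jump: an arc has two sides -/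
def StJump : Prop :=
  ∀ (γ : ℝ → ℂ) (ρ : ℝ), Continuous γ → InjOn γ (Icc 0 1) → 0 < ρ →
    γ 0 ∉ Metric.ball (γ (1 / 2)) ρ → γ 1 ∉ Metric.ball (γ (1 / 2)) ρ →
    ∃ l ∈ Metric.ball (γ (1 / 2)) ρ, ∃ r ∈ Metric.ball (γ (1 / 2)) ρ,
      l ∉ γ '' Icc 0 1 ∧ r ∉ γ '' Icc 0 1 ∧ ∃ L : ℝ → ℂ, ContinuousOn L (Icc 0 1) ∧
        (∀ t ∈ Icc (0 : ℝ) 1, exp (L t) = (γ t - l) / (γ t - r)) ∧
        L 1 - L 0 = log ((γ 1 - l) / (γ 1 - r)) - log ((γ 0 - l) / (γ 0 - r)) + 2 * Real.pi * I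

open Classical in
/-- job Dual: a drawing has an abstract dual -/
def StDual : Prop :=
  ∀ (V E : Type) [Fintype V] [Fintype E] (s d : E → V), Drawn s d →
    ∃ (F : Type) (_ : Fintype F) (l r : E → F),
      (∀ f v, ∑ e, ((if d e = v then 1 else 0) - (if s e = v then 1 else 0)) *
        ((if l e = f then 1 else 0) - (if r e = f then 1 else 0)) = (0 : ℤ)) ∧
      ∀ D : E → ZMod 2, (∀ v, ∑ e, ((if d e = v then D e else 0) + (if s e = v then D e else 0)) = 0) →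
        ∃ ω : F → ZMod 2, ∀ e, D e = ω (l e) + ω (r e)

/-- job Draw: a drawn loopless multigraph is planar in MacLane's sense -/
def StDraw : Prop :=
  ∀ (V E : Type) [Finite V] [Finite E] (s d : E → V), (∀ e, s e ≠ d e) → Drawn s d →
    Planar (SimpleGraph.fromRel fun a b => ∃ e, s e = a ∧ d e = b)

end Pool.Agent.Lib.MP_fe5cb4_co.Sey
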