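import Pool.Agent.Lib.MP_fe5cb4_co.Sey.GridDraw
import Pool.Agent.Lib.MP_fe5cb4_co.Sey.StTop

set_option autoImplicit false

namespace Pool.Agent.Lib.MP_fe5cb4_co.Sey

theorem drawn_thm : StDraw := fun V E _ _ s d hne h => drawn_planar V E s d hne h

end Pool.Agent.Lib.MP_fe5cb4_co.Sey
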