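import Pool.Agent.Lib.MP_fe5cb4_co.Sey.StTop
import Pool.Agent.Lib.MP_65c801_co.Wind
import Pool.Agent.Lib.MP_65c801_co.Eilen

set_option autoImplicit false

namespace Pool.Agent.Lib.MP_fe5cb4_co.Sey

open Set Complex Pool.Agent.PT Pool.Agent.Lib.MP_65c801_co

namespace Dual

theorem glue {ι : Type} [Finite ι] (π Φ : ι → ℝ → ℂ) (hπ : ∀ i, ContinuousOn (π i) (Icc 0 1))
    (hΦ : ∀ i, ContinuousOn (Φ i) (Icc 0 1))
    (h : ∀ i j, ∀ t ∈ Icc (0 : ℝ) 1, ∀ t' ∈ Icc (0 : ℝ) 1, π i t = π j t' → Φ i t = Φ j t') :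
    ∃ lam : ℂ → ℂ, ContinuousOn lam (⋃ i, π i '' Icc 0 1) ∧
      ∀ i, ∀ t ∈ Icc (0 : ℝ) 1, lam (π i t) = Φ i t := by
  have hex : ∀ z : ℂ, ∃ y : ℂ, ∀ i, ∀ t ∈ Icc (0 : ℝ) 1, π i t = z → y = Φ i t := by
    intro z
    by_cases hz : ∃ j, ∃ t' ∈ Icc (0 : ℝ) 1, π j t' = z
    · obtain ⟨j, t', ht', e⟩ := hz
      exact ⟨Φ j t', fun i t ht e' => h j i t' ht' t ht (e.trans e'.symm)⟩
    · exact ⟨0, fun i t ht e => absurd ⟨i, t, ht, e⟩ hz⟩
  choose lam hlam using hex
  refine ⟨lam, continuousOn_iff_isClosed.2 fun C hC => ?_, fun i t ht => hlam _ i t ht rfl⟩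
  refine ⟨⋃ i, π i '' (Icc 0 1 ∩ Φ i ⁻¹' C), isClosed_iUnion_of_finite fun i => ?_, ?_⟩
  · exact ((isCompact_Icc.of_isClosed_subset
      ((hΦ i).preimage_isClosed_of_isClosed isClosed_Icc hC) inter_subset_left).image_of_continuousOn
      ((hπ i).mono inter_subset_left)).isClosed
  · ext z
    simp only [mem_inter_iff, mem_preimage, mem_iUnion, mem_image]
    constructor
    · rintro ⟨hz, i, t, ht, rfl⟩
      exact ⟨⟨i, t, ⟨ht, by rwa [hlam _ i t ht rfl] at hz⟩, rfl⟩, i, t, ht, rfl⟩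
    · rintro ⟨⟨i, t, ⟨ht, hz⟩, rfl⟩, h'⟩
      exact ⟨by rwa [hlam _ i t ht rfl], h'⟩

theorem slit {m l r z : ℂ} {ρ : ℝ} (hl : l ∈ Metric.ball m ρ) (hr : r ∈ Metric.ball m ρ)
    (hz : z ∉ Metric.ball m ρ) : (z - l) / (z - r) ∈ slitPlane := by
  have hzr : z - r ≠ 0 := sub_ne_zero.2 fun e => hz (e ▸ hr)
  by_contra hn
  rw [mem_slitPlane_iff, not_or, not_lt, not_not] at hn
  obtain ⟨t, ht, e⟩ : ∃ t : ℝ, 0 ≤ t ∧ (z - l) / (z - r) = -t :=
    ⟨-((z - l) / (z - r)).re, neg_nonneg.2 hn.1, Complex.ext (by simp) (by simpa using hn.2)⟩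
  rw [div_eq_iff hzr] at e
  have h1 : (0 : ℝ) < 1 + t := by linarith
  have h2 : (1 + (t : ℂ)) ≠ 0 := by exact_mod_cast h1.ne'
  have h3 := convex_ball m ρ hl hr (show (0 : ℝ) ≤ 1 / (1 + t) by positivity)
    (show (0 : ℝ) ≤ t / (1 + t) by positivity) (by field_simp)
  refine hz (?_ : z ∈ Metric.ball m ρ)
  convert h3 using 1
  simp only [real_smul]
  push_cast
  field_simp
  linear_combination e

end Dual

open Dual WindAux in
theorem dual_thm (hI : StIndep) (hJ : StJump) : StDual := by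
  classical
  intro V E _ _ s d ⟨p, hp, γ, h1, h2, h3⟩
  let g : E → ℝ → ℂ := fun e t => γ e (projIcc 0 1 zero_le_one t)
  have gc : ∀ e, Continuous (g e) := fun e => (h1 e).1.comp continuous_projIcc
  have gi : ∀ e, InjOn (g e) (Icc 0 1) := fun e t ht t' ht' h => by
    have := (h1 e).2.1 h
    rw [projIcc_of_mem _ ht, projIcc_of_mem _ ht'] at this
    exact congrArg Subtype.val this
  have g0 : ∀ e, g e 0 = p (s e) := fun e => by
    simp only [g, projIcc_left]; exact (h1 e).2.2.1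
  have g1 : ∀ e, g e 1 = p (d e) := fun e => by
    simp only [g, projIcc_right]; exact (h1 e).2.2.2
  have gv : ∀ e, ∀ t ∈ Icc (0 : ℝ) 1, g e t ∈ range p → t = 0 ∨ t = 1 := fun e t ht h => by
    have := h2 e _ h
    rw [projIcc_of_mem _ ht] at this
    exact this.imp (congrArg Subtype.val) (congrArg Subtype.val)
  have gx : ∀ e e' t t', e ≠ e' → g e t = g e' t' → g e t ∈ range p := fun e e' t t' =>
    h3 e e' _ _
  let π : V ⊕ E → ℝ → ℂ := Sum.elim (fun w _ => p w) g
  have πc : ∀ i, Continuous (π i) := fun i => by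
    cases i with
    | inl w => exact continuous_const
    | inr e => exact gc e
  set K : Set ℂ := ⋃ i, π i '' Icc 0 1 with hK
  have hKc : IsCompact K := isCompact_iUnion fun i => isCompact_Icc.image (πc i)
  have hh : (1 / 2 : ℝ) ∈ Icc (0 : ℝ) 1 := by constructor <;> norm_num
  have hρ : ∀ e, ∃ ρ > 0, ∀ i, i ≠ Sum.inr e → ∀ t ∈ Icc (0 : ℝ) 1,
      π i t ∉ Metric.ball (g e (1 / 2)) ρ := by
    intro e
    have hnv : g e (1 / 2) ∉ range p := fun h => by
      rcases gv e _ hh h with h | h <;> norm_num at h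
    have hc : IsClosed (⋃ i : {i : V ⊕ E // i ≠ Sum.inr e}, π i.1 '' Icc 0 1) :=
      isClosed_iUnion_of_finite fun i => (isCompact_Icc.image (πc i.1)).isClosed
    obtain ⟨ρ, h0, hb⟩ := Metric.isOpen_iff.1 hc.isOpen_compl (g e (1 / 2)) (by
      simp only [mem_compl_iff, mem_iUnion, not_exists]
      rintro ⟨i, hi⟩ ⟨t, -, ht⟩
      cases i with
      | inl w => exact hnv ⟨w, ht⟩
      | inr e' => exact hnv (gx e e' _ t (fun h => hi (h ▸ rfl)) ht.symm))
    exact ⟨ρ, h0, fun i hi t ht h => hb h (mem_iUnion.2 ⟨⟨i, hi⟩, t, ht, rfl⟩)⟩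
  choose ρ hρ0 hρ using hρ
  choose l hl r hr hl' hr' L Lc Le LL using fun e => hJ (g e) (ρ e) (gc e) (gi e) (hρ0 e)
    (by rw [g0]; exact hρ e (Sum.inl (s e)) (by simp) 0 m0)
    (by rw [g1]; exact hρ e (Sum.inl (d e)) (by simp) 0 m0)
  let a : E ⊕ E → ℂ := Sum.elim l r
  have haK : ∀ x, a x ∉ K := by
    have key : ∀ e z, z ∈ Metric.ball (g e (1 / 2)) (ρ e) → z ∉ g e '' Icc 0 1 → z ∉ K := by
      intro e z hz hz' h
      obtain ⟨i, t, ht, rfl⟩ := mem_iUnion.1 h
      by_cases hi : i = Sum.inr e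
      · subst hi; exact hz' ⟨t, ht, rfl⟩
      · exact hρ e i hi t ht hz
    rintro (e | e)
    · exact key e _ (hl e) (hl' e)
    · exact key e _ (hr e) (hr' e)
  have hne : ∀ x i, ∀ t ∈ Icc (0 : ℝ) 1, π i t - a x ≠ 0 := fun x i t ht h =>
    haK x (mem_iUnion.2 ⟨i, t, ht, sub_eq_zero.1 h⟩)
  let u : E → ℂ → ℂ := fun e z => (z - l e) / (z - r e)
  have hu : ∀ e i, ∀ t ∈ Icc (0 : ℝ) 1, u e (π i t) ≠ 0 := fun e i t ht =>
    div_ne_zero (hne (Sum.inl e) i t ht) (hne (Sum.inr e) i t ht)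
  obtain ⟨lg, lgc, lge, lg0, lg1, lgv⟩ : ∃ lg : E → V ⊕ E → ℝ → ℂ,
      (∀ e i, ContinuousOn (lg e i) (Icc 0 1)) ∧
      (∀ e i, ∀ t ∈ Icc (0 : ℝ) 1, exp (lg e i t) = u e (π i t)) ∧
      (∀ e i, lg e i 0 = log (u e (π i 0))) ∧
      (∀ e e', lg e (Sum.inr e') 1 = log (u e (g e' 1)) +
        2 * Real.pi * I * ((if e' = e then 1 else 0 : ℤ) : ℂ)) ∧
      ∀ e w t, lg e (Sum.inl w) t = log (u e (p w)) := by
    refine ⟨fun e i t => if i = Sum.inr e then L e t - L e 0 + log (u e (g e 0))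
      else log (u e (π i t)), fun e i => ?_, fun e i t ht => ?_, fun e i => ?_, fun e e' => ?_,
      fun e w t => by simp [π]⟩
    · by_cases hi : i = Sum.inr e
      · simp only [if_pos hi]
        exact ((Lc e).sub continuousOn_const).add continuousOn_const
      · simp only [if_neg hi]
        exact (((πc i).continuousOn.sub continuousOn_const).div
          ((πc i).continuousOn.sub continuousOn_const) (hne (Sum.inr e) i)).clog
          fun t ht => slit (hl e) (hr e) (hρ e i hi t ht)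
    · by_cases hi : i = Sum.inr e
      · subst hi
        have h0 : u e (g e 0) ≠ 0 := hu e (Sum.inr e) 0 m0
        simp only [if_true]
        rw [exp_add, exp_sub, Le e t ht, Le e 0 m0, exp_log h0]
        exact div_mul_cancel₀ _ h0
      · simp only [if_neg hi]
        exact exp_log (hu e i t ht)
    · by_cases hi : i = Sum.inr e
      · subst hi; simp [π]
      · simp only [if_neg hi]
    · by_cases hi : e' = e
      · subst hi
        simp only [if_true, LL, u]
        push_cast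
        ring
      · simp [hi, π]
  let cp : ℂ → Set ℂ := fun q => connectedComponentIn Kᶜ q
  have hcp : ∀ x y, cp (a x) = cp (a y) ↔ a x ∈ cp (a y) := fun x y =>
    ⟨fun h => h ▸ mem_connectedComponentIn (haK x), fun h => (connectedComponentIn_eq h).symm⟩
  refine ⟨range fun x => cp (a x), Fintype.ofFinite _, fun e => ⟨_, Sum.inl e, rfl⟩,
    fun e => ⟨_, Sum.inr e, rfl⟩, fun f v => ?_, fun D hD => ?_⟩
  · let ε : E → ℤ := fun e => (if d e = v then 1 else 0) - (if s e = v then 1 else 0)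
    let c : V ⊕ E → ℤ := Sum.elim (fun w => if w = v then 1 else 0) fun e => if s e = v then 1 else 0
    let Φ : V ⊕ E → ℝ → ℂ := fun i t => ∑ e, ε e * lg e i t + c i * (2 * Real.pi * I)
    have hv : ∀ e w, ∀ t ∈ Icc (0 : ℝ) 1, ∀ t', g e t = p w →
        Φ (Sum.inr e) t = Φ (Sum.inl w) t' := by
      intro e w t ht t' h
      rcases gv e t ht ⟨w, h.symm⟩ with rfl | rfl
      · obtain rfl := hp ((g0 e).symm.trans h)
        simp only [Φ, lg0, lgv, c, π, Sum.elim_inr, Sum.elim_inl, g0]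
      · obtain rfl := hp ((g1 e).symm.trans h)
        simp only [Φ, lg1, lgv, c, Sum.elim_inr, Sum.elim_inl, g1, mul_add, Finset.sum_add_distrib]
        have h4 : ∑ b, (ε b : ℂ) * (2 * Real.pi * I * ((if e = b then 1 else 0 : ℤ) : ℂ)) =
            ε e * (2 * Real.pi * I) := by
          rw [Finset.sum_eq_single e (fun b _ hb => by simp [hb.symm]) (by simp)]
          simp
        rw [h4]
        simp only [ε]
        push_cast
        ring
    obtain ⟨lam, lc, le⟩ := glue π Φ (fun i => (πc i).continuousOn)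
      (fun i => (continuousOn_finset_sum _ fun e _ => continuousOn_const.mul (lgc e i)).add
        continuousOn_const) (by
      rintro (w | e) (w' | e') t ht t' ht' h
      · obtain rfl := hp h
        simp only [Φ, lgv]
      · exact (hv e' w t' ht' t h.symm).symm
      · exact hv e w' t ht t' h
      · by_cases he : e = e'
        · subst he
          rw [gi e ht ht' h]
        · obtain ⟨w, hw⟩ := gx e e' t t' he h
          exact (hv e w t ht 0 hw.symm).trans (hv e' w t' ht' 0 (h.symm.trans hw.symm)).symm)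
    have hlog : HasLog K fun z => ∏ x, (z - a x) ^ Sum.elim ε (fun e => -ε e) x := by
      refine ⟨lam, lc, fun z hz => ?_⟩
      obtain ⟨i, t, ht, rfl⟩ := mem_iUnion.1 hz
      rw [le i t ht]
      simp only [Φ, exp_add, exp_int_mul_two_pi_mul_I, mul_one, exp_sum]
      simp only [exp_int_mul, Fintype.prod_sum_type, Sum.elim_inl, Sum.elim_inr, a]
      rw [← Finset.prod_mul_distrib]
      refine Finset.prod_congr rfl fun e _ => ?_
      rw [lge e i t ht, zpow_neg, ← div_eq_mul_inv, ← div_zpow]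
    let T : (range fun x => cp (a x)) → ℤ := fun f => ∑ e, ε e *
      ((if (⟨_, Sum.inl e, rfl⟩ : range fun x => cp (a x)) = f then 1 else 0) -
        (if (⟨_, Sum.inr e, rfl⟩ : range fun x => cp (a x)) = f then 1 else 0))
    have hb : ∀ f : range fun x => cp (a x), Bornology.IsBounded f.1 → T f = 0 := by
      rintro ⟨_, y, rfl⟩ hf
      have h := hI K (E ⊕ E) a _ (a y) hKc haK hlog hf
      rw [Fintype.sum_sum_type, ← Finset.sum_add_distrib] at h
      refine Eq.trans (Finset.sum_congr rfl fun e _ => ?_) h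
      have hq : ∀ x, ((⟨_, x, rfl⟩ : range fun x => cp (a x)) = ⟨_, y, rfl⟩) ↔
          a x ∈ connectedComponentIn Kᶜ (a y) := fun x => Subtype.ext_iff.trans (hcp x y)
      simp only [hq, Sum.elim_inl, Sum.elim_inr]
      split_ifs <;> ring
    have hT : T f = 0 := by
      by_cases hf : Bornology.IsBounded f.1
      · exact hb f hf
      have := Fintype.ofFinite (range fun x => cp (a x))
      have hs : ∑ f', T f' = 0 := by
        simp only [T]
        rw [Finset.sum_comm]
        refine Finset.sum_eq_zero fun e _ => ?_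
        rw [← Finset.mul_sum, Finset.sum_sub_distrib]
        simp
      rw [Finset.sum_eq_single f (fun f' _ hf' => hb f' (by_contra fun hn => hf' ?_))
        (by simp)] at hs
      · exact hs
      · obtain ⟨_, y, rfl⟩ := f
        obtain ⟨_, y', rfl⟩ := f'
        exact Subtype.ext (EilenAux.bounded hKc.isBounded hn hf)
    refine Eq.trans (Finset.sum_congr rfl fun e _ => ?_) hT
    simp only [ε]
    split_ifs <;> rfl
  · have hcyc : MP_65c801_co.Cyc g D := by
      intro z
      by_cases hz : z ∈ range p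
      · obtain ⟨v, rfl⟩ := hz
        have h := hD v
        rw [Finset.sum_add_distrib, add_eq_zero_iff_eq_neg, CharTwo.neg_eq] at h
        simp only [Finset.sum_filter, g0, g1, hp.eq_iff]
        convert h using 1
      · rw [Finset.filter_false_of_mem fun x _ h => hz ⟨_, (g1 x).symm.trans h⟩,
          Finset.filter_false_of_mem fun x _ h => hz ⟨_, (g0 x).symm.trans h⟩]
    have hW : ∀ x y, cp (a x) = cp (a y) → W g D (a x) = W g D (a y) := fun x y h =>
      W_const (fun e => (gc e).continuousOn) hcyc isPreconnected_connectedComponentIn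
        (fun q hq e _ t ht h' => connectedComponentIn_subset Kᶜ _ hq
          (mem_iUnion.2 ⟨Sum.inr e, t, ht, h'⟩)) ((hcp x y).1 h) ((hcp y y).1 rfl)
    refine ⟨fun f => W g D (a f.2.choose), fun e => ?_⟩
    have e1 := hW _ _ (⟨Sum.inl e, rfl⟩ : ∃ y, cp (a y) = cp (a (Sum.inl e))).choose_spec
    have e2 := hW _ _ (⟨Sum.inr e, rfl⟩ : ∃ y, cp (a y) = cp (a (Sum.inr e))).choose_spec
    have e3 : W g D (l e) = ∑ x, D x * ((wn (g x) (r e) + if x = e then 1 else 0 : ℤ) : ZMod 2) := by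
      refine core hcyc (fun z => log (z - r e) + log (u e z)) _ fun x _ => ?_
      have hr0 : ∀ t ∈ Icc (0 : ℝ) 1, g x t - r e ≠ 0 := hne (Sum.inr e) (Sum.inr x)
      have hu0 : ∀ t ∈ Icc (0 : ℝ) 1, u e (g x t) ≠ 0 := hu e (Sum.inr x)
      obtain ⟨M, Mc, Me⟩ := exists_log_Icc (f := fun t => g x t - r e)
        ((gc x).continuousOn.sub continuousOn_const) hr0
      refine ⟨fun t => M t + lg e (Sum.inr x) t, Mc.add (lgc e _), fun t ht => ?_, fun t ht => ?_, ?_⟩
      · rw [exp_add, Me t ht, lge e _ t ht]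
        exact mul_div_cancel₀ _ (hr0 t ht)
      · rw [exp_add, exp_log (hr0 t ht), exp_log (hu0 t ht)]
        exact mul_div_cancel₀ _ (hr0 t ht)
      · have h := wn_spec Mc Me
        simp only [lg1, lg0, Int.cast_add, π, Sum.elim_inr]
        linear_combination h
    have e4 : W g D (l e) = W g D (r e) + D e := by
      rw [e3, W]
      simp only [Int.cast_add, mul_add, Finset.sum_add_distrib]
      congr 1
      rw [Finset.sum_eq_single e (fun b _ hb => by simp [hb]) (by simp)]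
      simp
    refine Eq.trans ?_ (congrArg₂ (· + ·) e1 e2).symm
    change D e = W g D (l e) + W g D (r e)
    rw [e4, add_right_comm, CharTwo.add_self_eq_zero, zero_add]

end Pool.Agent.Lib.MP_fe5cb4_co.Sey
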