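import Pool.Agent.Lib.MP_fe5cb4_co.Sey.Minor

/-!
The square grid is planar in the form of MacLane.
-/

set_option autoImplicit false

namespace Pool.Agent.Lib.MP_fe5cb4_co.Sey

open Finset Minor

/-- the square grid -/
def grid (N : ℕ) : SimpleGraph (Fin N × Fin N) := SimpleGraph.fromRel fun a b =>
  (a.1.val + 1 = b.1.val ∧ a.2.val = b.2.val) ∨ (a.1.val = b.1.val ∧ a.2.val + 1 = b.2.val)

theorem grid_adj {N : ℕ} (a b : Fin N × Fin N) : (grid N).Adj a b ↔
    ((a.1.val + 1 = b.1.val ∧ a.2.val = b.2.val) ∨ (a.1.val = b.1.val ∧ a.2.val + 1 = b.2.val)) ∨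
    ((b.1.val + 1 = a.1.val ∧ b.2.val = a.2.val) ∨ (b.1.val = a.1.val ∧ b.2.val + 1 = a.2.val)) := by
  rw [grid, SimpleGraph.fromRel_adj]
  refine ⟨fun h => h.2, fun h => ⟨fun e => ?_, h⟩⟩
  subst e
  omega

namespace Grid

open scoped Classical

theorem tri {ι E : Type} [Fintype ι] (b : ι → E → ZMod 2) (t : ι → E) (ρ : ι → ℕ)
    (h1 : ∀ k, b k (t k) = 1) (h0 : ∀ k k', k' ≠ k → ρ k' ≤ ρ k → b k (t k') = 0)
    (z : E → ZMod 2) : ∃ x : ι → ZMod 2, ∀ k, z (t k) = ∑ i, x i * b i (t k) := by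
  have inj : Function.Injective fun (x : ι → ZMod 2) k => ∑ i, x i * b i (t k) := by
    intro x y h
    by_contra ne
    have ex : (univ.filter fun i => x i ≠ y i).Nonempty := by
      obtain ⟨i, hi⟩ := Function.ne_iff.1 ne
      exact ⟨i, by simpa using hi⟩
    obtain ⟨i, hi, hm⟩ := exists_min_image _ ρ ex
    have e : ∑ j, (x j - y j) * b j (t i) = 0 := by
      simp only [sub_mul, sum_sub_distrib]
      exact sub_eq_zero.2 (congrFun h i)
    rw [sum_eq_single i (fun j _ hj => ?_) (by simp), h1, mul_one] at e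
    · exact (mem_filter.1 hi).2 (sub_eq_zero.1 e)
    · by_cases c : x j = y j
      · rw [c, sub_self, zero_mul]
      · rw [h0 j i hj.symm (hm j (by simpa using c)), mul_zero]
  obtain ⟨x, hx⟩ := Finite.injective_iff_surjective.1 inj fun k => z (t k)
  exact ⟨x, fun k => (congrFun hx k).symm⟩

theorem one_edge {V : Type} [Fintype V] {G : SimpleGraph V} {z : Sym2 V → ZMod 2} (hz : Cy G z)
    (e : Sym2 V) (f : V → ZMod 2) (h1 : dd f e = 1) (h0 : ∀ e', e' ≠ e → z e' ≠ 0 → dd f e' = 0) :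
    z e = 0 := by
  have h := hz.2 f
  rw [sum_eq_single e (fun e' _ he => ?_) (by simp), h1, mul_one] at h
  · exact h
  · by_cases c : z e' = 0
    · rw [c, zero_mul]
    · rw [h0 e' he c, mul_zero]

variable {n : ℕ}

/-- corners of a square -/
def cA (k : Fin n × Fin n) : Fin (n + 1) × Fin (n + 1) := (k.1.castSucc, k.2.castSucc)
/-- corners of a square -/
def cB (k : Fin n × Fin n) : Fin (n + 1) × Fin (n + 1) := (k.1.succ, k.2.castSucc)
/-- corners of a square -/
def cC (k : Fin n × Fin n) : Fin (n + 1) × Fin (n + 1) := (k.1.succ, k.2.succ)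
/-- corners of a square -/
def cD (k : Fin n × Fin n) : Fin (n + 1) × Fin (n + 1) := (k.1.castSucc, k.2.succ)

/-- boundary of a square -/
noncomputable def sq (k : Fin n × Fin n) (e : Sym2 (Fin (n + 1) × Fin (n + 1))) : ZMod 2 :=
  (if e = s(cA k, cB k) then 1 else 0) + (if e = s(cB k, cC k) then 1 else 0) +
    (if e = s(cC k, cD k) then 1 else 0) + (if e = s(cD k, cA k) then 1 else 0)

theorem sq_ne {k : Fin n × Fin n} {e : Sym2 (Fin (n + 1) × Fin (n + 1))} (h : sq k e ≠ 0) :
    e = s(cA k, cB k) ∨ e = s(cB k, cC k) ∨ e = s(cC k, cD k) ∨ e = s(cD k, cA k) := by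
  by_contra c
  push Not at c
  exact h (by simp [sq, c.1, c.2.1, c.2.2.1, c.2.2.2])

theorem mk_eq (a b c d : Fin (n + 1) × Fin (n + 1)) : s(a, b) = s(c, d) ↔
    ((a.1.val = c.1.val ∧ a.2.val = c.2.val) ∧ (b.1.val = d.1.val ∧ b.2.val = d.2.val)) ∨
    ((a.1.val = d.1.val ∧ a.2.val = d.2.val) ∧ (b.1.val = c.1.val ∧ b.2.val = c.2.val)) := by
  simp only [Sym2.eq_iff, Prod.ext_iff, Fin.ext_iff]

theorem sq_cy (k : Fin n × Fin n) : Cy (grid (n + 1)) (sq k) := by
  refine ⟨fun e he => ?_, fun f => ?_⟩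
  · rcases sq_ne he with h | h | h | h <;> rw [h, SimpleGraph.mem_edgeSet, grid_adj] <;>
      simp [cA, cB, cC, cD]
  · simp only [sq, add_mul, sum_add_distrib, ite_mul, one_mul, zero_mul, sum_ite_eq', mem_univ,
      if_true, dd_mk]
    linear_combination CharTwo.add_self_eq_zero (f (cA k)) + CharTwo.add_self_eq_zero (f (cB k)) +
      CharTwo.add_self_eq_zero (f (cC k)) + CharTwo.add_self_eq_zero (f (cD k))

theorem sq_two (e : Sym2 (Fin (n + 1) × Fin (n + 1))) : {k | sq k e ≠ 0}.ncard ≤ 2 := by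
  by_contra c
  obtain ⟨k1, h1, k2, h2, k3, h3, n1, n2, n3⟩ := (Set.two_lt_ncard (Set.toFinite _)).1 (not_le.1 c)
  induction e with
  | h a b =>
    have key : ∀ k : Fin n × Fin n, sq k s(a, b) ≠ 0 →
        (a.1.val = k.1.val ∨ a.1.val = k.1.val + 1) ∧ (a.2.val = k.2.val ∨ a.2.val = k.2.val + 1) ∧
        (b.1.val = k.1.val ∨ b.1.val = k.1.val + 1) ∧ (b.2.val = k.2.val ∨ b.2.val = k.2.val + 1) ∧
        (a.1.val ≠ b.1.val ∨ a.2.val ≠ b.2.val) := fun k hk => by
      have := sq_ne hk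
      simp only [mk_eq, cA, cB, cC, cD, Fin.val_succ, Fin.val_castSucc] at this
      omega
    have a1 := key k1 h1
    have a2 := key k2 h2
    have a3 := key k3 h3
    simp only [Ne, Prod.ext_iff, Fin.ext_iff] at n1 n2 n3
    omega

end Grid

open Grid in
theorem grid_planar (n : ℕ) : Planar (grid (n + 1)) := by
  classical
  refine planar_iff.2 ⟨Fin n × Fin n, inferInstance, sq, sq_cy, sq_two, fun z hz => ?_⟩
  obtain ⟨x, hx⟩ := tri sq (fun k : Fin n × Fin n => s(cA k, cB k)) (fun k => k.2.val)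
    (fun k => by
      rw [Grid.sq, if_pos rfl, if_neg, if_neg, if_neg]
      · rfl
      all_goals
        simp only [mk_eq, cA, cB, cC, cD, Fin.val_succ, Fin.val_castSucc]
        omega)
    (fun k k' h1 h2 => by
      by_contra c
      have := sq_ne c
      simp only [mk_eq, cA, cB, cC, cD, Fin.val_succ, Fin.val_castSucc] at this
      simp only [Ne, Prod.ext_iff, Fin.ext_iff] at h1
      omega) z
  have hc := Cy.comb sq_cy x
  have hw : Cy (grid (n + 1)) fun e => z e - ∑ i, x i * sq i e := by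
    refine ⟨fun e he => by_contra fun c => he ?_, fun f => ?_⟩
    · have a1 : z e = 0 := by_contra fun a => c (hz.1 e a)
      have a2 : ∑ i, x i * sq i e = 0 := by_contra fun a => c (hc.1 e a)
      simp only [a1, a2, sub_self]
    · simp only [sub_mul, sum_sub_distrib, hz.2 f, hc.2 f, sub_self]
  have low : ∀ a b : Fin (n + 1) × Fin (n + 1), a.1.val + 1 = b.1.val → a.2.val = b.2.val →
      a.2.val < n → z s(a, b) - ∑ i, x i * sq i s(a, b) = 0 := fun a b h1 h2 h3 => by
    obtain ⟨k, k1, k2⟩ : ∃ k : Fin n × Fin n, k.1.val = a.1.val ∧ k.2.val = a.2.val :=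
      ⟨(⟨a.1.val, by omega⟩, ⟨a.2.val, h3⟩), rfl, rfl⟩
    have e : s(a, b) = s(cA k, cB k) := by
      simp only [mk_eq, cA, cB, Fin.val_succ, Fin.val_castSucc]
      omega
    rw [e, hx, sub_self]
  have sup : ∀ a b : Fin (n + 1) × Fin (n + 1), z s(a, b) - ∑ i, x i * sq i s(a, b) ≠ 0 →
      (a.1.val + 1 = b.1.val ∧ a.2.val = n ∧ b.2.val = n) ∨
      (a.1.val = b.1.val ∧ a.2.val + 1 = b.2.val) ∨
      (b.1.val + 1 = a.1.val ∧ a.2.val = n ∧ b.2.val = n) ∨
      (b.1.val = a.1.val ∧ b.2.val + 1 = a.2.val) := fun a b h => by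
    have h1 := (grid_adj a b).1 (hw.1 _ h)
    have h2 : ¬ (a.1.val + 1 = b.1.val ∧ a.2.val = b.2.val ∧ a.2.val < n) :=
      fun p => h (low a b p.1 p.2.1 p.2.2)
    have h3 : ¬ (b.1.val + 1 = a.1.val ∧ b.2.val = a.2.val ∧ b.2.val < n) :=
      fun p => h (by rw [Sym2.eq_swap]; exact low b a p.1 p.2.1 p.2.2)
    have := a.2.2
    have := b.2.2
    omega
  have fin : ∀ a b : Fin (n + 1) × Fin (n + 1),
      ((a.1.val + 1 = b.1.val ∧ a.2.val = n ∧ b.2.val = n) ∨
      (a.1.val = b.1.val ∧ a.2.val + 1 = b.2.val)) →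
      z s(a, b) - ∑ i, x i * sq i s(a, b) = 0 := fun a b h => by
    rcases h with h | h
    · refine one_edge hw s(a, b) (fun c => if c.1.val ≤ a.1.val then 1 else 0) ?_ fun e he hz => ?_
      · rw [dd_mk, if_pos le_rfl, if_neg (by omega), add_zero]
      · induction e with
        | h c d =>
          have := sup c d hz
          rw [Ne, mk_eq] at he
          rw [dd_mk]
          split_ifs
          · rfl
          · omega
          · omega
          · rfl
    · refine one_edge hw s(a, b)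
        (fun c => if c.1.val = a.1.val ∧ c.2.val ≤ a.2.val then 1 else 0) ?_ fun e he hz => ?_
      · rw [dd_mk, if_pos ⟨rfl, le_rfl⟩, if_neg (by omega), add_zero]
      · induction e with
        | h c d =>
          have := sup c d hz
          have := b.2.2
          rw [Ne, mk_eq] at he
          rw [dd_mk]
          split_ifs
          · rfl
          · omega
          · omega
          · rfl
  refine ⟨x, fun e => sub_eq_zero.1 (by_contra fun c => ?_)⟩
  induction e with
  | h a b =>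
    rcases sup a b c with h | h | h | h
    · exact c (fin a b (Or.inl h))
    · exact c (fin a b (Or.inr h))
    · exact c (by rw [Sym2.eq_swap]; exact fin b a (Or.inl ⟨h.1, h.2.2, h.2.1⟩))
    · exact c (by rw [Sym2.eq_swap]; exact fin b a (Or.inr h))

end Pool.Agent.Lib.MP_fe5cb4_co.Sey
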