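import Pool.Agent.Lib.MP_fe5cb4_co.Sey.Grid

/-!
A graph drawn in the plane is a minor of a square grid, hence planar in the form of MacLane.
-/

set_option autoImplicit false

namespace Pool.Agent.Lib.MP_fe5cb4_co.Sey

open Set Filter Topology Relation

namespace GDraw

theorem rlift {α β : Type} {r : α → α → Prop} {p : β → β → Prop} (f : α → β)
    (h : ∀ a b, r a b → p (f a) (f b)) {a b : α} (hab : ReflTransGen r a b) :
    ReflTransGen p (f a) (f b) := by
  induction hab with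
  | refl => exact .refl
  | tail _ h2 ih => exact ih.tail (h _ _ h2)

theorem rsymm {α : Type} {r : α → α → Prop} (h : ∀ a b, r a b → r b a) {a b : α}
    (hab : ReflTransGen r a b) : ReflTransGen r b a := by
  induction hab with
  | refl => exact .refl
  | tail _ h2 ih => exact .head (h _ _ h2) ih

theorem line {N : ℕ} (Q : Fin N → Prop) (hQ : ∀ i j k : Fin N, Q i → Q k → i ≤ j → j ≤ k → Q j)
    {i j : Fin N} (hi : Q i) (hj : Q j) :
    ReflTransGen (fun a b : Fin N => (a.val + 1 = b.val ∨ b.val + 1 = a.val) ∧ Q a ∧ Q b) i j := by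
  have up : ∀ (n : ℕ) (i j : Fin N), Q i → Q j → j.val = i.val + n →
      ReflTransGen (fun a b : Fin N => (a.val + 1 = b.val ∨ b.val + 1 = a.val) ∧ Q a ∧ Q b) i j := by
    intro n
    induction n with
    | zero =>
      intro i j _ _ h
      rw [Fin.ext (a := j) (b := i) h]
    | succ n ih =>
      intro i j hi hj h
      have lt : i.val + n < N := by have := j.2; omega
      have q : Q ⟨i.val + n, lt⟩ := hQ i _ j hi hj (Fin.le_def.2 (by simp))
        (Fin.le_def.2 (by simp [h]))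
      exact (ih i ⟨i.val + n, lt⟩ hi q rfl).tail ⟨Or.inl (by simp [h, add_assoc]), q, hj⟩
  rcases le_total i.val j.val with h | h
  · exact up (j.val - i.val) i j hi hj (by omega)
  · refine rsymm ?_ (up (i.val - j.val) j i hj hi (by omega))
    exact fun a b h => ⟨h.1.symm, h.2.2, h.2.1⟩

variable {N : ℕ} (R δ : ℝ)

/-- the cell `c` is close to the point `z` -/
def Near (z : ℂ) (c : Fin N × Fin N) : Prop :=
  |z.re + R - δ * (c.1.val : ℝ)| ≤ 2 * δ ∧ |z.im + R - δ * (c.2.val : ℝ)| ≤ 2 * δ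

/-- grid steps between cells close to `K` -/
def Stp (K : Set ℂ) (a b : Fin N × Fin N) : Prop :=
  (grid N).Adj a b ∧ (∃ z ∈ K, Near R δ z a) ∧ ∃ z ∈ K, Near R δ z b

variable {R δ}

theorem conv (hδ : 0 < δ) (t : ℝ) (i j k : Fin N) (hi : |t - δ * (i.val : ℝ)| ≤ 2 * δ)
    (hk : |t - δ * (k.val : ℝ)| ≤ 2 * δ) (h1 : i ≤ j) (h2 : j ≤ k) :
    |t - δ * (j.val : ℝ)| ≤ 2 * δ := by
  have a1 : (i.val : ℝ) ≤ j.val := by exact_mod_cast Fin.le_def.1 h1
  have a2 : (j.val : ℝ) ≤ k.val := by exact_mod_cast Fin.le_def.1 h2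
  have b1 := mul_le_mul_of_nonneg_left a1 hδ.le
  have b2 := mul_le_mul_of_nonneg_left a2 hδ.le
  rw [abs_le] at hi hk ⊢
  constructor <;> linarith [hi.1, hi.2, hk.1, hk.2]

theorem point (hδ : 0 < δ) {K : Set ℂ} {z : ℂ} (hz : z ∈ K) {a b : Fin N × Fin N}
    (ha : Near R δ z a) (hb : Near R δ z b) : ReflTransGen (Stp R δ K) a b := by
  have h1 := line _ (conv hδ (z.re + R)) ha.1 hb.1
  have h2 := line _ (conv hδ (z.im + R)) ha.2 hb.2
  have p1 : ReflTransGen (Stp R δ K) (a.1, a.2) (b.1, a.2) :=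
    rlift (fun i => (i, a.2)) (fun i j h =>
      ⟨(grid_adj _ _).2 (by have := h.1; dsimp only; omega), ⟨z, hz, h.2.1, ha.2⟩,
        ⟨z, hz, h.2.2, ha.2⟩⟩) h1
  have p2 : ReflTransGen (Stp R δ K) (b.1, a.2) (b.1, b.2) :=
    rlift (fun i => (b.1, i)) (fun i j h =>
      ⟨(grid_adj _ _).2 (by have := h.1; dsimp only; omega), ⟨z, hz, hb.1, h.2.1⟩,
        ⟨z, hz, hb.1, h.2.2⟩⟩) h2
  exact p1.trans p2

theorem conn (hδ : 0 < δ) (κ : ℂ → Fin N × Fin N) {K : Set ℂ} (hK : IsPreconnected K)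
    (hκ : ∀ z ∈ K, ∀ w, dist z w < δ → Near R δ w (κ z)) {z w : ℂ} (hz : z ∈ K) (hw : w ∈ K)
    {a b : Fin N × Fin N} (ha : Near R δ z a) (hb : Near R δ w b) :
    ReflTransGen (Stp R δ K) a b := by
  have self : ∀ z ∈ K, Near R δ z (κ z) := fun z hz => hκ z hz z (by simpa using hδ)
  have mid : ReflTransGen (Stp R δ K) (κ z) (κ w) := by
    refine hK.induction₂' (fun z w => ReflTransGen (Stp R δ K) (κ z) (κ w)) (fun x hx => ?_)
      (fun _ _ _ _ _ _ h1 h2 => h1.trans h2) hz hw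
    filter_upwards [self_mem_nhdsWithin, mem_nhdsWithin_of_mem_nhds (Metric.ball_mem_nhds x hδ)]
      with y hy hd
    exact ⟨point hδ hx (self x hx) (hκ y hy x hd), point hδ hx (hκ y hy x hd) (self x hx)⟩
  exact ((point hδ hz ha (self z hz)).trans mid).trans (point hδ hw (self w hw) hb)

theorem near_dist {z w : ℂ} {c : Fin N × Fin N} (hz : Near R δ z c) (hw : Near R δ w c) :
    dist z w ≤ 8 * δ := by
  rw [dist_eq_norm]
  refine (Complex.norm_le_abs_re_add_abs_im _).trans ?_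
  obtain ⟨a1, a2⟩ := hz
  obtain ⟨b1, b2⟩ := hw
  rw [abs_le] at a1 a2 b1 b2
  have c1 : |(z - w).re| ≤ 4 * δ := by
    rw [Complex.sub_re, abs_le]
    constructor <;> linarith [a1.1, a1.2, b1.1, b1.2]
  have c2 : |(z - w).im| ≤ 4 * δ := by
    rw [Complex.sub_im, abs_le]
    constructor <;> linarith [a2.1, a2.2, b2.1, b2.2]
  linarith

theorem cell (R : ℝ) (hδ : 0 < δ) : ∃ (n : ℕ) (κ : ℂ → Fin (n + 1) × Fin (n + 1)),
    ∀ z, ‖z‖ ≤ R → ∀ w, dist z w < δ → Near R δ w (κ z) := by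
  have one : ∀ t : ℝ, ∃ i : Fin (⌊2 * R / δ⌋₊ + 1), |t| ≤ R → ∀ s, |t - s| < δ →
      |s + R - δ * (i.val : ℝ)| ≤ 2 * δ := fun t => by
    by_cases h : |t| ≤ R
    · rw [abs_le] at h
      have h0 : 0 ≤ (t + R) / δ := div_nonneg (by linarith [h.1]) hδ.le
      refine ⟨⟨⌊(t + R) / δ⌋₊, Nat.lt_succ_of_le (Nat.floor_le_floor ?_)⟩, fun _ s hs => ?_⟩
      · exact div_le_div_of_nonneg_right (by linarith [h.2]) hδ.le
      · have a1 := (le_div_iff₀ hδ).1 (Nat.floor_le h0)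
        have a2 := (div_lt_iff₀ hδ).1 (Nat.lt_floor_add_one ((t + R) / δ))
        rw [abs_lt] at hs
        rw [abs_le]
        dsimp only
        constructor <;> nlinarith [hs.1, hs.2]
    · exact ⟨0, fun c => absurd c h⟩
  choose f hf using one
  refine ⟨_, fun z => (f z.re, f z.im), fun z hz w hw => ⟨?_, ?_⟩⟩
  · exact hf _ ((Complex.abs_re_le_norm z).trans hz) _
      ((Complex.abs_re_le_norm (z - w)).trans_lt (by rwa [← dist_eq_norm]))
  · exact hf _ ((Complex.abs_im_le_norm z).trans hz) _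
      ((Complex.abs_im_le_norm (z - w)).trans_lt (by rwa [← dist_eq_norm]))

theorem sep {ι : Type} [Finite ι] (A B : ι → Set ℂ) (hA : ∀ i, IsCompact (A i))
    (hB : ∀ i, IsCompact (B i)) : ∃ ε : ℝ, 0 < ε ∧ ∀ i, Disjoint (A i) (B i) →
      ∀ z ∈ A i, ∀ w ∈ B i, ε < dist z w := by
  have : ∀ᶠ ε in 𝓝[>] (0 : ℝ), ∀ i, Disjoint (A i) (B i) →
      ∀ z ∈ A i, ∀ w ∈ B i, ε < dist z w := by
    refine eventually_all.2 fun i => ?_
    by_cases h : Disjoint (A i) (B i)
    · obtain ⟨r, hr, h1⟩ := Metric.exists_pos_forall_lt_edist (hA i) (hB i).isClosed h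
      filter_upwards [mem_nhdsWithin_of_mem_nhds (Iio_mem_nhds (NNReal.coe_pos.2 hr))]
        with ε hε _ z hz w hw
      have h2 := h1 z hz w hw
      rw [edist_nndist, ENNReal.coe_lt_coe] at h2
      exact lt_trans hε (by rw [dist_nndist]; exact_mod_cast h2)
    · exact Eventually.of_forall fun _ c => absurd c h
  obtain ⟨ε, h1, h2⟩ := (this.and self_mem_nhdsWithin).exists
  exact ⟨ε, h2, h1⟩

theorem inner {γ : unitInterval → ℂ} (hγ : Continuous γ) (x : unitInterval) {r : ℝ} (hr : 0 < r) :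
    ∃ a : unitInterval, a ≠ 0 ∧ a ≠ 1 ∧ γ a ∈ Metric.closedBall (γ x) r := by
  have h1 : ∀ y : unitInterval, ∀ᶠ a in 𝓝[≠] x, a ≠ y := fun y => by
    by_cases h : x = y
    · subst h
      exact self_mem_nhdsWithin
    · exact mem_nhdsWithin_of_mem_nhds (isOpen_ne.mem_nhds h)
  have h2 : ∀ᶠ a in 𝓝[≠] x, γ a ∈ Metric.closedBall (γ x) r :=
    mem_nhdsWithin_of_mem_nhds (hγ.continuousAt (Metric.closedBall_mem_nhds _ hr))
  exact ((h1 0).and ((h1 1).and h2)).exists

/-- a system of connected compact sets gives a minor of the grid -/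
theorem system {V E : Type} [Finite V] [Finite E] (s d : E → V) (hne : ∀ e, s e ≠ d e)
    (D : V → Set ℂ) (K : E → Set ℂ)
    (D1 : ∀ v, IsCompact (D v)) (D2 : ∀ v, IsPreconnected (D v)) (D3 : ∀ v, (D v).Nonempty)
    (K1 : ∀ e, IsCompact (K e)) (K2 : ∀ e, IsPreconnected (K e))
    (hD : ∀ v w, v ≠ w → Disjoint (D v) (D w)) (hK : ∀ e f, e ≠ f → Disjoint (K e) (K f))
    (hDK : ∀ v e, v ≠ s e → v ≠ d e → Disjoint (D v) (K e))
    (hs : ∀ e, ∃ z ∈ K e, z ∈ D (s e)) (hd : ∀ e, ∃ z ∈ K e, z ∈ D (d e)) :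
    Planar (SimpleGraph.fromRel fun a b => ∃ e, s e = a ∧ d e = b) := by
  classical
  have := Fintype.ofFinite V
  let T : V ⊕ E → Set ℂ := Sum.elim D K
  have T1 : ∀ a, IsCompact (T a) := fun a => by cases a <;> simp [T, D1, K1]
  have T2 : ∀ a, IsPreconnected (T a) := fun a => by cases a <;> simp [T, D2, K2]
  obtain ⟨ε, hε, hsep⟩ := sep (fun q : (V ⊕ E) × (V ⊕ E) => T q.1) (fun q => T q.2)
    (fun q => T1 _) fun q => T1 _
  obtain ⟨R, hR⟩ := (isCompact_iUnion T1).isBounded.exists_norm_le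
  have hδ : 0 < ε / 8 := by positivity
  obtain ⟨n, κ, hκ⟩ := cell R hδ
  let P : V ⊕ E → Fin (n + 1) × Fin (n + 1) → Prop := fun a c => ∃ z ∈ T a, Near R (ε / 8) z c
  have dis : ∀ a b c, Disjoint (T a) (T b) → P a c → P b c → False := by
    rintro a b c h ⟨z, hz, z1⟩ ⟨w, hw, w1⟩
    have := near_dist z1 w1
    have := hsep (a, b) h z hz w hw
    linarith
  have kap : ∀ a, ∀ z ∈ T a, ∀ w, dist z w < ε / 8 → Near R (ε / 8) w (κ z) := fun a z hz =>
    hκ z (hR z (mem_iUnion.2 ⟨a, hz⟩))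
  have kap' : ∀ a, ∀ z ∈ T a, P a (κ z) := fun a z hz =>
    ⟨z, hz, kap a z hz z (by simpa using hδ)⟩
  have con : ∀ a c c', P a c → P a c' →
      ReflTransGen (fun x y => (grid (n + 1)).Adj x y ∧ P a x ∧ P a y) c c' := by
    rintro a c c' ⟨z, hz, z1⟩ ⟨w, hw, w1⟩
    exact conn hδ κ (T2 a) (kap a) hz hw z1 w1
  let W : V → Fin (n + 1) × Fin (n + 1) → Prop := fun v c =>
    P (.inl v) c ∨ ∃ e, s e = v ∧ P (.inr e) c ∧ ¬ P (.inl (d e)) c
  have Wu : ∀ v w c, W v c → W w c → v = w := by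
    have aux : ∀ v e c, P (.inl v) c → P (.inr e) c → ¬ P (.inl (d e)) c → v = s e :=
      fun v e c h1 h2 h3 => by_contra fun a =>
        dis (.inl v) (.inr e) c (hDK v e a fun b => h3 (b ▸ h1)) h1 h2
    rintro v w c (h | ⟨e, rfl, h1, h2⟩) (k | ⟨f, rfl, k1, k2⟩)
    · exact by_contra fun a => dis (.inl v) (.inl w) c (hD v w a) h k
    · exact aux _ _ c h k1 k2
    · exact (aux _ _ c k h1 h2).symm
    · by_cases a : e = f
      · rw [a]
      · exact (dis (.inr e) (.inr f) c (hK e f a) h1 k1).elim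
  choose q hq using D3
  let Br : V → Fin (n + 1) × Fin (n + 1) → Prop := fun v c =>
    ReflTransGen (fun x y => (grid (n + 1)).Adj x y ∧ W v y) (κ (q v)) c
  have BW : ∀ v c, Br v c → W v c := fun v c h => by
    induction h with
    | refl => exact Or.inl (kap' (.inl v) _ (hq v))
    | tail _ h _ => exact h.2
  have BP : ∀ v c, P (.inl v) c → Br v c := fun v c h =>
    rlift id (fun _ _ a => ⟨a.1, Or.inl a.2.2⟩) (con (.inl v) _ _ (kap' (.inl v) _ (hq v)) h)
  let π : Fin (n + 1) × Fin (n + 1) → Option V := fun c =>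
    if h : ∃ v, Br v c then some h.choose else none
  have hπ : ∀ v c, π c = some v ↔ Br v c := fun v c => by
    by_cases h : ∃ v, Br v c
    · simp only [π, dif_pos h, Option.some.injEq]
      exact ⟨fun a => a ▸ h.choose_spec, fun a => Wu _ _ c (BW _ _ h.choose_spec) (BW _ _ a)⟩
    · simp only [π, dif_neg h]
      exact ⟨fun a => (nomatch a), fun a => (h ⟨v, a⟩).elim⟩
  have adj : ∀ e, ∃ a b, Br (s e) a ∧ Br (d e) b ∧ (grid (n + 1)).Adj a b := fun e => by
    obtain ⟨z, z1, z2⟩ := hs e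
    obtain ⟨w, w1, w2⟩ := hd e
    by_contra c
    have key : ∀ x, ReflTransGen (fun x y => (grid (n + 1)).Adj x y ∧ P (.inr e) x ∧ P (.inr e) y)
        (κ z) x → Br (s e) x := fun x h => by
      induction h with
      | refl => exact BP _ _ (kap' (.inl (s e)) z z2)
      | @tail x y _ h ih =>
        by_cases a : P (.inl (d e)) y
        · exact (c ⟨x, y, ih, BP _ _ a, h.1⟩).elim
        · exact ih.tail ⟨h.1, Or.inr ⟨e, rfl, h.2.2, a⟩⟩
    exact hne e (Wu _ _ _ (BW _ _ (key _ (con (.inr e) _ _ (kap' (.inr e) z z1)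
      (kap' (.inr e) w w1)))) (Or.inl (kap' (.inl (d e)) w w2)))
  refine minor_thm _ V (grid (n + 1)) _ π (fun v a b ha hb => ?_) (fun v w h => ?_) (grid_planar n)
  · have one : ∀ c, Br v c → ReflTransGen
        (fun s t => (grid (n + 1)).Adj s t ∧ π s = some v ∧ π t = some v) (κ (q v)) c := by
      intro c h
      induction h with
      | refl => exact .refl
      | tail h1 h2 ih => exact ih.tail ⟨h2.1, (hπ _ _).2 h1, (hπ _ _).2 (h1.tail h2)⟩
    exact (rsymm (fun _ _ h => ⟨h.1.symm, h.2.2, h.2.1⟩)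
      (one a ((hπ _ _).1 ha))).trans (one b ((hπ _ _).1 hb))
  · obtain ⟨-, ⟨e, rfl, rfl⟩ | ⟨e, rfl, rfl⟩⟩ := (SimpleGraph.fromRel_adj _ _ _).1 h
    · obtain ⟨a, b, h1, h2, h3⟩ := adj e
      exact ⟨a, b, (hπ _ _).2 h1, (hπ _ _).2 h2, h3⟩
    · obtain ⟨a, b, h1, h2, h3⟩ := adj e
      exact ⟨b, a, (hπ _ _).2 h2, (hπ _ _).2 h1, h3.symm⟩

end GDraw

open GDraw in
/-- a drawn loopless multigraph is planar in the sense of MacLane -/
theorem drawn_planar (V E : Type) [Finite V] [Finite E] (s d : E → V) (hne : ∀ e, s e ≠ d e)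
    (h : ∃ p : V → ℂ, Function.Injective p ∧ ∃ γ : E → unitInterval → ℂ,
      (∀ e, Continuous (γ e) ∧ Function.Injective (γ e) ∧ γ e 0 = p (s e) ∧ γ e 1 = p (d e)) ∧
      (∀ e x, γ e x ∈ Set.range p → x = 0 ∨ x = 1) ∧
      (∀ e e' x y, e ≠ e' → γ e x = γ e' y → γ e x ∈ Set.range p)) :
    Planar (SimpleGraph.fromRel fun a b => ∃ e, s e = a ∧ d e = b) := by
  obtain ⟨p, hp, γ, h1, h2, h3⟩ := h
  obtain ⟨ε, hε, hsep⟩ := sep (fun q : V × (V ⊕ E) => ({p q.1} : Set ℂ))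
    (fun q => Sum.elim (fun w => {p w}) (fun e => range (γ e)) q.2) (fun _ => isCompact_singleton)
    (by
      rintro ⟨v, w | e⟩
      · exact isCompact_singleton
      · exact isCompact_range (h1 e).1)
  have hr : 0 < ε / 2 := by positivity
  choose a a0 a1 a2 using fun e => inner (h1 e).1 0 hr
  choose b b0 b1 b2 using fun e => inner (h1 e).1 1 hr
  have mid : ∀ e, ∀ t ∈ uIcc (a e) (b e), γ e t ∉ range p := fun e t ht c => by
    rw [mem_uIcc] at ht
    rcases h2 e t c with rfl | rfl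
    · rcases ht with ht | ht
      · exact a0 e (le_antisymm ht.1 unitInterval.nonneg')
      · exact b0 e (le_antisymm ht.1 unitInterval.nonneg')
    · rcases ht with ht | ht
      · exact b1 e (le_antisymm unitInterval.le_one' ht.2)
      · exact a1 e (le_antisymm unitInterval.le_one' ht.2)
  refine system s d hne (fun v => Metric.closedBall (p v) (ε / 2))
    (fun e => γ e '' uIcc (a e) (b e)) (fun v => isCompact_closedBall _ _)
    (fun v => (convex_closedBall _ _).isPreconnected) (fun v => Metric.nonempty_closedBall.2 hr.le)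
    (fun e => isCompact_uIcc.image (h1 e).1)
    (fun e => isPreconnected_uIcc.image _ (h1 e).1.continuousOn) (fun v w hvw => ?_)
    (fun e f hef => ?_) (fun v e hs hd => ?_)
    (fun e => ⟨_, mem_image_of_mem _ left_mem_uIcc, (h1 e).2.2.1 ▸ a2 e⟩)
    fun e => ⟨_, mem_image_of_mem _ right_mem_uIcc, (h1 e).2.2.2 ▸ b2 e⟩
  · refine Metric.closedBall_disjoint_closedBall ?_
    rw [add_halves]
    exact hsep (v, .inl w) (disjoint_singleton.2 (hp.ne hvw)) _ rfl _ rfl
  · refine Set.disjoint_left.2 ?_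
    rintro _ ⟨t, ht, rfl⟩ ⟨u, -, hu⟩
    exact mid e t ht (h3 e f t u hef hu.symm)
  · refine Set.disjoint_left.2 ?_
    rintro _ hz ⟨t, -, rfl⟩
    have := hsep (v, .inr e) (disjoint_singleton_left.2 ?_) _ rfl _ (mem_range_self t)
    · rw [Metric.mem_closedBall, dist_comm] at hz
      linarith
    · rintro ⟨u, hu⟩
      rcases h2 e u ⟨v, hu.symm⟩ with rfl | rfl
      · exact hs (hp (hu.symm.trans (h1 e).2.2.1))
      · exact hd (hp (hu.symm.trans (h1 e).2.2.2))

end Pool.Agent.Lib.MP_fe5cb4_co.Sey
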