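import Pool.Agent.Lib.MP_fe5cb4_co.Sey.StTop
import Pool.Agent.Lib.MP_65c801_co.Eilen

set_option autoImplicit false

namespace Pool.Agent.Lib.MP_fe5cb4_co.Sey

open Set Complex Pool.Agent.PT Pool.Agent.Lib.MP_65c801_co

namespace Indep

theorem circ {ι : Type} (S : Finset ι) (a : ι → ℂ) (n : ι → ℤ) {R : ℝ} (hR : 0 < R)
    (ha : ∀ i ∈ S, ‖a i‖ < R) {L : ℂ → ℂ} (hL : Continuous L)
    (he : ∀ z, ‖z‖ = R → exp (L z) = ∏ i ∈ S, (z - a i) ^ n i) : ∑ i ∈ S, n i = 0 := by
  let c : ℝ → ℂ := fun φ => exp (Real.log R + φ * I)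
  have hc : Continuous c := by fun_prop
  have hc0 : ∀ φ, c φ ≠ 0 := fun φ => exp_ne_zero _
  have hcR : ∀ φ, ‖c φ‖ = R := fun φ => by
    simp only [c]
    rw [norm_exp]
    simp [Real.exp_log hR]
  have hs : ∀ i ∈ S, ∀ φ, 1 + -(a i / c φ) ∈ slitPlane := fun i hi φ => by
    refine mem_slitPlane_of_norm_lt_one ?_
    rw [norm_neg, norm_div, hcR, div_lt_one hR]
    exact ha i hi
  have h3 := EilenAux.const
    (f := fun φ : ℝ =>
      ∑ i ∈ S, n i * ((Real.log R + φ * I) + log (1 + -(a i / c φ))) - L (c φ))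
    (Continuous.sub (continuous_finsetSum S fun i hi => continuous_const.mul
      (Continuous.add (by fun_prop) (Continuous.clog
        (continuous_const.add (continuous_const.div hc hc0).neg) (hs i hi)))) (hL.comp hc))
    (fun φ => by
      rw [exp_sub, he _ (hcR φ), exp_sum, ← he _ (hcR φ), div_eq_one_iff_eq (exp_ne_zero _),
        he _ (hcR φ)]
      refine Finset.prod_congr rfl fun i hi => ?_
      rw [exp_int_mul, exp_add, exp_log (slitPlane_ne_zero (hs i hi φ))]
      congr 1
      change c φ * _ = _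
      have := hc0 φ
      field_simp
      ring) (2 * Real.pi) 0
  have h4 : c (2 * Real.pi) = c 0 := by
    simp only [c]
    push_cast
    rw [exp_add, exp_two_pi_mul_I, zero_mul, add_zero, mul_one]
  simp only [h4] at h3
  have h5 := sub_eq_zero.2 (sub_left_injective h3)
  rw [← Finset.sum_sub_distrib] at h5
  have h6 : ((∑ i ∈ S, n i : ℤ) : ℂ) * (2 * Real.pi * I) = 0 := by
    rw [← h5, Int.cast_sum, Finset.sum_mul]
    refine Finset.sum_congr rfl fun i _ => ?_
    push_cast
    ring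
  exact_mod_cast (mul_eq_zero.1 h6).resolve_right two_pi_I_ne_zero

end Indep

open Classical in
theorem indep_thm : StIndep := by
  intro K ι _ a n q hK ha ⟨l, hl, he⟩ hU
  have hKc := hK.isClosed
  set U := connectedComponentIn Kᶜ q
  have hUo : IsOpen U := hKc.isOpen_compl.connectedComponentIn
  obtain ⟨g, hg⟩ := ContinuousMap.exists_restrict_eq hKc ⟨K.domRestrict l, hl.domRestrict⟩
  have h1 : ∀ z ∈ closure U, ∀ i ∈ Finset.univ.filter fun i => ¬ a i ∈ U, z - a i ≠ 0 :=
    fun z hz i hi e => by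
      rw [sub_eq_zero.1 e] at hz
      exact (EilenAux.closure_sub hKc q hz).elim (Finset.mem_filter.1 hi).2 (ha i)
  have h2 : ∀ z, z ∉ U → ∀ i ∈ Finset.univ.filter fun i => a i ∈ U, z - a i ≠ 0 :=
    fun z hz i hi e => hz (sub_eq_zero.1 e ▸ (Finset.mem_filter.1 hi).2)
  have hH : Continuous fun z => if z ∈ U then
      exp (g z) * ∏ i ∈ Finset.univ.filter fun i => ¬ a i ∈ U, (z - a i) ^ (-n i)
      else ∏ i ∈ Finset.univ.filter fun i => a i ∈ U, (z - a i) ^ n i := by
    refine continuous_if (fun z hz => ?_) ?_ ?_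
    · have hz' : z ∈ closure U \ U := hUo.frontier_eq ▸ hz
      have h := (EilenAux.closure_sub hKc q hz'.1).resolve_left hz'.2
      rw [show g z = l z from DFunLike.congr_fun hg ⟨z, h⟩,
        show exp (l z) = ∏ i, (z - a i) ^ n i from he z h,
        ← Finset.prod_filter_mul_prod_filter_not Finset.univ fun i => a i ∈ U, mul_assoc,
        ← Finset.prod_mul_distrib, Finset.prod_eq_one (s := Finset.univ.filter fun i => ¬ a i ∈ U),
        mul_one]
      intro i hi
      rw [← zpow_add₀ (h1 z hz'.1 i hi), add_neg_cancel, zpow_zero]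
    · exact ContinuousOn.mul (by fun_prop) (continuousOn_finsetProd _ fun i hi =>
        ContinuousOn.zpow₀ (by fun_prop) _ fun z hz => Or.inl (h1 z hz i hi))
    · exact continuousOn_finsetProd _ fun i hi => ContinuousOn.zpow₀ (by fun_prop) _
        fun z hz => Or.inl (h2 z (hUo.isClosed_compl.closure_subset hz) i hi)
  obtain ⟨L, hL, hle⟩ := EilenAux.exists_log hH fun z => by
    split_ifs with hz
    · exact mul_ne_zero (exp_ne_zero _) (Finset.prod_ne_zero_iff.2 fun i hi =>
        zpow_ne_zero _ (h1 z (subset_closure hz) i hi))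
    · exact Finset.prod_ne_zero_iff.2 fun i hi => zpow_ne_zero _ (h2 z hz i hi)
  obtain ⟨R, hR0, hR⟩ := hU.subset_ball_lt 0 0
  rw [← Finset.sum_filter]
  refine Indep.circ _ a n hR0
    (fun i hi => mem_ball_zero_iff.1 (hR (Finset.mem_filter.1 hi).2)) hL fun z hz => ?_
  rw [hle, if_neg fun h => (mem_ball_zero_iff.1 (hR h)).ne hz]

end Pool.Agent.Lib.MP_fe5cb4_co.Sey
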