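import Pool.Agent.Lib.MP_fe5cb4_co.Sey.StTop
import Pool.Agent.Lib.MP_c86c76_al.J.Eil
import Pool.Agent.Lib.MP_c86c76_al.J.Log
import Pool.Agent.Lib.MP_c86c76_al.J.Sch

/-!
An arc has two sides.
-/

set_option autoImplicit false

namespace Pool.Agent.Lib.MP_fe5cb4_co.Sey

open Set Complex Metric Filter Topology Pool.Agent.PT
open Pool.Agent.Lib.MP_65c801_co (exists_log_Icc)

namespace Jump

variable {p p' γ L : ℝ → ℂ} {a b : ℝ} {c c' x y w z l r : ℂ}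

/-- `c` is the increment of a continuous logarithm of `p`. -/
def Inc (p : ℝ → ℂ) (a b : ℝ) (c : ℂ) : Prop :=
  ∃ L : ℝ → ℂ, ContinuousOn L (Icc a b) ∧ (∀ t ∈ Icc a b, exp (L t) = p t) ∧ L b - L a = c

lemma uniq (hab : a ≤ b) (h : Inc p a b c) (h' : Inc p a b c') : c = c' := by
  obtain ⟨L, h1, h2, rfl⟩ := h
  obtain ⟨L', h3, h4, rfl⟩ := h'
  have k : ∀ s ∈ Icc a b, exp (L s - L' s) = 1 := fun s hs => by
    rw [exp_sub, h2 s hs, ← h4 s hs, div_self (exp_ne_zero _)]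
  linear_combination isCoveringMap_exp.constOn_of_comp (g := fun s => L s - L' s) isPreconnected_Icc
    (h1.sub h3) (fun s hs t ht => Subtype.ext ((k s hs).trans (k t ht).symm))
    (right_mem_Icc.2 hab) (left_mem_Icc.2 hab)

lemma Inc.div (h : Inc p a b c) (h' : Inc p' a b c') : Inc (fun t => p t / p' t) a b (c - c') := by
  obtain ⟨L, h1, h2, rfl⟩ := h
  obtain ⟨L', h3, h4, rfl⟩ := h'
  exact ⟨fun t => L t - L' t, h1.sub h3, fun t ht => by rw [exp_sub, h2 t ht, h4 t ht], by ring⟩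

lemma slit (hp : ContinuousOn p (Icc a b)) (h : ∀ t ∈ Icc a b, p t ∈ slitPlane) :
    Inc p a b (log (p b) - log (p a)) :=
  ⟨fun t => log (p t), hp.clog h, fun t ht => exp_log (slitPlane_ne_zero (h t ht)), rfl⟩

lemma logdiv (hx : 0 < x.re) (hy : 0 < y.re) : x / y ∈ slitPlane ∧ log (x / y) = log x - log y := by
  have h1 := abs_lt.1 (abs_arg_lt_pi_div_two_iff.2 (Or.inl hx))
  have h2 := abs_lt.1 (abs_arg_lt_pi_div_two_iff.2 (Or.inl hy))
  have x0 : x ≠ 0 := fun e => by simp [e] at hx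
  have y0 : y ≠ 0 := fun e => by simp [e] at hy
  have e : log (x / y) = log x - log y := by
    rw [← log_exp (x := log x - log y) (by simp only [sub_im, log_im]; linarith)
      (by simp only [sub_im, log_im]; linarith), exp_sub, exp_log x0, exp_log y0]
  refine ⟨mem_slitPlane_iff_arg.2 ⟨?_, div_ne_zero x0 y0⟩, e⟩
  rw [← log_im, e, sub_im, log_im, log_im]
  linarith

lemma pos (h : ‖z - c‖ ≤ ‖w - c‖) (n : w ≠ z) : w - c ≠ 0 ∧ 0 < ((w - z) / (w - c)).re := by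
  have w0 : w - c ≠ 0 := fun e => n (by
    rw [e, norm_zero, norm_le_zero_iff, sub_eq_zero] at h
    rw [h, sub_eq_zero.1 e])
  have e : (w - z) / (w - c) = 1 - (z - c) / (w - c) := by
    field_simp
    ring
  have h1 : ‖(z - c) / (w - c)‖ ≤ 1 := by
    rw [norm_div]
    exact div_le_one_of_le₀ h (norm_nonneg _)
  have h2 : 1 - (z - c) / (w - c) ≠ 0 := e ▸ div_ne_zero (sub_ne_zero.2 n) w0
  refine ⟨w0, e ▸ ?_⟩
  generalize (z - c) / (w - c) = u at h1 h2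
  by_contra k
  have k1 : 1 ≤ u.re := by simpa using k
  have k2 := Complex.sq_norm u ▸ pow_le_one₀ (n := 2) (norm_nonneg _) h1
  rw [normSq_apply] at k2
  exact h2 (Complex.ext (by simp; nlinarith [mul_self_nonneg u.im]) (by simp; nlinarith))

lemma two (h : ‖l - c‖ ≤ ‖w - c‖) (h' : ‖r - c‖ ≤ ‖w - c‖) (n : w ≠ l) (n' : w ≠ r) :
    (w - l) / (w - r) ∈ slitPlane ∧
      log ((w - l) / (w - r)) = log ((w - l) / (w - c)) - log ((w - r) / (w - c)) := by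
  have := logdiv (pos h n).2 (pos h' n').2
  rwa [div_div_div_cancel_right₀ (pos h n).1] at this

lemma out {δ : ℝ} (hl : l ∈ ball c δ) (hr : r ∈ ball c δ) (hw : w ∉ ball c δ) :
    (w - l) / (w - r) ∈ slitPlane :=
  have k := not_lt.1 (mt mem_ball_iff_norm.2 hw)
  (two ((mem_ball_iff_norm.1 hl).le.trans k) ((mem_ball_iff_norm.1 hr).le.trans k)
    (fun e => hw (e ▸ hl)) fun e => hw (e ▸ hr)).1

lemma arc (hγ : Continuous γ) (hi : InjOn γ (Icc a b)) (hl : l ∉ γ '' Icc a b)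
    (hr : r ∉ γ '' Icc a b) : NSep (γ '' Icc a b) l r := by
  have n : ∀ z ∉ γ '' Icc a b, ∀ t ∈ Icc a b, γ t - z ≠ 0 :=
    fun z hz t ht e => hz ⟨t, ht, sub_eq_zero.1 e⟩
  obtain ⟨L, h1, h2⟩ := exists_log_Icc (f := fun t => (γ t - l) / (γ t - r))
    (ContinuousOn.div (by fun_prop) (by fun_prop) (n r hr))
    fun t ht => div_ne_zero (n l hl t ht) (n r hr t ht)
  refine (eilSt logHtpSt _ l r (isCompact_Icc.image hγ) hl hr).2 ⟨L ∘ Function.invFunOn γ (Icc a b),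
    h1.comp (contOn_invFunOn isCompact_Icc hγ.continuousOn hi)
      fun z hz => Function.invFunOn_mem hz, ?_⟩
  rintro _ ⟨t, ht, rfl⟩
  rw [Function.comp, hi.leftInvOn_invFunOn ht, h2 t ht]

lemma reach {W X α D : Set ℂ} {q : ℂ} {ρ : ℝ} {g : ℂ → ℂ} (hW : IsPreconnected W) (hX : W ⊆ Xᶜ)
    (hS : sphere q ρ ⊆ X) (hD : IsOpen D) (hα : α ⊆ X ∪ D)
    (hg : ∀ z ∈ ball q ρ, z ∉ α → ∀ᶠ z' in 𝓝 z, z' ∉ α ∧ (z' ∈ ball q ρ → g z' = g z))
    (hx : x ∈ W) (hy : y ∈ W) (h1 : x ∈ ball q ρ) (h2 : x ∉ α) (h3 : g y ≠ g x) :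
    ∃ l ∈ ball q ρ ∩ D, l ∉ α ∧ g l = g x := by
  by_contra! k
  refine h3 (hW.subset_of_closure_inter_subset (u := {z | z ∈ ball q ρ ∧ z ∉ α ∧ g z = g x})
    (isOpen_iff_mem_nhds.2 fun z hz => ?_) ⟨x, hx, h1, h2, rfl⟩ (fun z hz => ?_) hy).2.2
  · filter_upwards [hg z hz.1 hz.2.1, isOpen_ball.mem_nhds hz.1] with z' k1 k2
    exact ⟨k2, k1.1, (k1.2 k2).trans hz.2.2⟩
  · have z1 : z ∈ ball q ρ := lt_of_le_of_ne (closure_ball_subset_closedBall
      (closure_mono (fun _ h => h.1) hz.1)) fun e => hX hz.2 (hS e)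
    have z2 : z ∉ α := fun e =>
      let ⟨u, u1, u2⟩ := mem_closure_iff.1 hz.1 D hD ((hα e).resolve_left (hX hz.2))
      k u ⟨u2.1, u1⟩ u2.2.1 u2.2.2
    obtain ⟨u, u1, u2⟩ := ((mem_closure_iff_frequently.1 hz.1).and_eventually (hg z z1 z2)).exists
    exact ⟨z1, z2, (u2.2 u1.1).symm.trans u1.2.2⟩

lemma root {u v : ℂ} (h : ‖u‖ = ‖v‖) (n : u ≠ v) : ∃ ω : ℂ, ‖ω‖ = 1 ∧ 0 < ω.im ∧ v = ω ^ 2 * u := by
  have u0 : u ≠ 0 := fun e => n (by rw [e, norm_zero, eq_comm, norm_eq_zero] at h; rw [e, h])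
  obtain ⟨ω, hω⟩ := IsAlgClosed.exists_pow_nat_eq (v / u) two_pos
  have h1 : ‖ω‖ = 1 := (pow_eq_one_iff_of_nonneg (norm_nonneg _) two_ne_zero).1 (by
    rw [← norm_pow, hω, norm_div, h, div_self (h ▸ norm_ne_zero_iff.2 u0)])
  have h2 : v = ω ^ 2 * u := by rw [hω, div_mul_cancel₀ _ u0]
  rcases lt_trichotomy ω.im 0 with e | e | e
  · exact ⟨-ω, by simpa using h1, by simpa using e, by rw [neg_sq, h2]⟩
  · have k := Complex.sq_norm ω
    rw [h1, normSq_apply, e] at k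
    refine absurd ?_ n
    rw [h2, show ω ^ 2 = 1 from Complex.ext (by simp [sq, e]; linarith) (by simp [sq, e]), one_mul]
  · exact ⟨ω, h1, e, h2⟩

lemma core {q : ℂ} {ρ s t : ℝ} {D : Set ℂ} (hγ : Continuous γ) (hab : a < b)
    (hi : InjOn γ (Icc a b)) (ha : ‖γ a - q‖ = ρ) (hb : ‖γ b - q‖ = ρ)
    (hin : ∀ u ∈ Ioo a b, γ u ∈ ball q ρ) (hst : s < t) (hs : s < b) (ht : a < t) (hD : IsOpen D)
    (h2 : ∀ u ∈ Icc s t, γ u ∈ D) :
    ∃ l ∈ ball q ρ ∩ D, ∃ r ∈ ball q ρ ∩ D, l ∉ γ '' Icc a b ∧ r ∉ γ '' Icc a b ∧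
      Inc (fun u => (γ u - l) / (γ u - r)) a b
        (log ((γ b - l) / (γ b - r)) - log ((γ a - l) / (γ a - r)) + 2 * Real.pi * I) := by
  set α := γ '' Icc a b
  have ma := left_mem_Icc.2 hab.le
  have mb := right_mem_Icc.2 hab.le
  have n : ∀ z ∉ α, ∀ u ∈ Icc a b, γ u ≠ z := fun z hz u hu e => hz ⟨u, hu, e⟩
  have le : ∀ u ∈ Icc a b, ‖γ u - q‖ ≤ ρ := fun u hu => by
    rcases eq_endpoints_or_mem_Ioo_of_mem_Icc hu with rfl | rfl | h
    exacts [ha.le, hb.le, (mem_ball_iff_norm.1 (hin u h)).le]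
  choose! A hA using fun z (hz : z ∉ α) => show ∃ c, Inc (fun u => γ u - z) a b c from
    let ⟨L, h1, h2⟩ := exists_log_Icc (f := fun u => γ u - z) (by fun_prop)
      fun u hu => sub_ne_zero.2 (n z hz u hu)
    ⟨_, L, h1, h2, rfl⟩
  set g := fun z => A z - (log ((γ b - z) / (γ b - q)) - log ((γ a - z) / (γ a - q))) with hg
  have key : ∀ l r, ‖l - q‖ ≤ ρ → ‖r - q‖ ≤ ρ → l ∉ α → r ∉ α →
      Inc (fun u => (γ u - l) / (γ u - r)) a b
        (log ((γ b - l) / (γ b - r)) - log ((γ a - l) / (γ a - r)) + (g l - g r)) :=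
    fun l r k1 k2 k3 k4 => by
      rw [(two (hb ▸ k1) (hb ▸ k2) (n l k3 b mb) (n r k4 b mb)).2,
        (two (ha ▸ k1) (ha ▸ k2) (n l k3 a ma) (n r k4 a ma)).2]
      convert (hA l k3).div (hA r k4) using 1
      ring
  have loc : ∀ z, ‖z - q‖ ≤ ρ → z ∉ α → ∀ᶠ z' in 𝓝 z, z' ∉ α ∧ (z' ∈ ball q ρ → g z' = g z) :=
    fun z k1 k2 => by
      obtain ⟨ε, ε0, hε⟩ := Metric.isOpen_iff.1 (isCompact_Icc.image hγ).isClosed.isOpen_compl z k2
      filter_upwards [ball_mem_nhds z ε0] with z' hz'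
      refine ⟨hε hz', fun k3 => ?_⟩
      linear_combination uniq hab.le (key z' z (mem_ball_iff_norm.1 k3).le k1 (hε hz') k2)
        (slit (ContinuousOn.div (by fun_prop) (by fun_prop) fun u hu => sub_ne_zero.2 (n z k2 u hu))
          fun u hu => out hz' (mem_ball_self ε0) fun e => hε e ⟨u, hu, rfl⟩)
  have ab : γ a - q ≠ γ b - q := fun e => hab.ne (hi ma mb (sub_left_injective e))
  obtain ⟨ω, ω1, ω2, ω3⟩ := root (ha.trans hb.symm) ab
  have ω0 : ω ≠ 0 := fun e => by simp [e] at ω2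
  have a0 : γ a - q ≠ 0 := fun e => ab (by rw [ω3, e, mul_zero])
  have ρ0 : ρ ≠ 0 := ha ▸ norm_ne_zero_iff.2 a0
  have circ : ∀ η : ℂ, ‖η‖ = 1 → η.im ≠ 0 → η ^ 2 = ω ^ 2 → ∃ r ∈ ball q ρ, r ∉ α ∧
      g r = log η - log η⁻¹ := fun η η1 η2 η3 => by
    have η0 : η ≠ 0 := fun e => by simp [e] at η2
    obtain ⟨z, hz⟩ : ∃ z, z - q = -(η * (γ a - q)) := ⟨q - η * (γ a - q), by ring⟩
    have z1 : ‖z - q‖ = ρ := by rw [hz, norm_neg, norm_mul, η1, one_mul, ha]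
    have z2 : -(γ b - q) / (z - q) = η := by
      rw [hz, ω3, ← η3]
      field_simp
    have z3 : -(γ a - q) / (z - q) = η⁻¹ := by
      rw [hz]
      field_simp
    have z0 : z - q ≠ 0 := norm_ne_zero_iff.1 (z1 ▸ ρ0)
    have z4 : z ∉ α := by
      rintro ⟨u, hu, rfl⟩
      rcases eq_endpoints_or_mem_Ioo_of_mem_Icc hu with rfl | rfl | h
      · rw [neg_div, div_self z0, ← inv_neg_one, inv_inj] at z3
        simp [← z3] at η2
      · rw [neg_div, div_self z0] at z2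
        simp [← z2] at η2
      · exact (mem_ball_iff_norm.1 (hin u h)).ne z1
    have z5 : ∀ u ∈ Icc a b, 0 < ((z - γ u) / (z - q)).re :=
      fun u hu => (pos (z1 ▸ le u hu) (n z z4 u hu).symm).2
    have z6 : ∀ u ∈ Icc a b, ‖γ u - q‖ = ρ → log (-(γ u - q) / (z - q)) =
        log ((z - γ u) / (z - q)) - log ((γ u - z) / (γ u - q)) := fun u hu e => by
      have k := pos (e ▸ z1.le) (n z z4 u hu)
      have := sub_ne_zero.2 (n z z4 u hu)
      have := k.1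
      rw [← (logdiv (z5 u hu) k.2).2]
      congr 1
      field_simp
      ring
    have z7 := uniq hab.le ((hA z z4).div (p' := fun _ => q - z) ⟨fun _ => log (q - z),
      continuousOn_const, fun _ _ => exp_log (by rw [← neg_sub]; exact neg_ne_zero.2 z0), rfl⟩)
      (slit (by fun_prop) fun u hu => Or.inl (by rw [← neg_div_neg_eq]; simpa using z5 u hu))
    rw [← neg_div_neg_eq (γ b - z), ← neg_div_neg_eq (γ a - z)] at z7
    simp only [neg_sub, sub_self, sub_zero] at z7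
    obtain ⟨r, r1, r2⟩ := ((mem_closure_iff_frequently.1 (show z ∈ closure (ball q ρ) from
      closure_ball q ρ0 ▸ mem_closedBall_iff_norm.2 z1.le)).and_eventually (loc z z1.le z4)).exists
    refine ⟨r, r1, r2.1, (r2.2 r1).trans ?_⟩
    rw [← z3, ← congrArg log z2, z6 a ma ha, z6 b mb hb, hg]
    linear_combination z7
  obtain ⟨x, x1, x2, x3⟩ := circ ω ω1 ω2.ne' rfl
  obtain ⟨y, y1, y2, y3⟩ := circ (-ω) (by simpa using ω1) (by simpa using ω2.ne') (neg_sq ω)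
  have e : g x - g y = 2 * Real.pi * I := by
    have k : ω⁻¹.im < 0 := by
      rw [inv_im]
      exact div_neg_of_neg_of_pos (neg_neg_of_pos ω2) (normSq_pos.2 ω0)
    rw [x3, y3, inv_neg]
    refine Complex.ext (by simp [log_re]) ?_
    simp only [sub_im, log_im, arg_neg_eq_arg_sub_pi_of_im_pos ω2, arg_neg_eq_arg_add_pi_of_im_neg k]
    simp
    ring
  have J := janSt (eilSt logHtpSt)
  have one : ∀ u v c : ℝ, Icc u v ⊆ Icc a b → (∀ m ∈ Icc u v, m ∈ Ioo a b ∨ m = c) →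
      NSep (sphere q ρ ∪ γ '' Icc u v) x y := fun u v c k1 k2 =>
    J _ _ x y (isCompact_sphere q ρ) (isCompact_Icc.image hγ)
      ((subsingleton_singleton (a := γ c)).anti (by
        rintro _ ⟨k3, m, k4, rfl⟩
        exact congrArg γ ((k2 m k4).resolve_left fun k5 =>
          (mem_ball.1 (hin m k5)).ne (mem_sphere.1 k3)))).isPreconnected
      ((convex_ball q ρ).isPreconnected.subset_connectedComponentIn (F := (sphere q ρ)ᶜ) x1
        (fun z hz e => (mem_ball.1 hz).ne (mem_sphere.1 e)) y1)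
      (arc hγ (hi.mono k1) (fun e => x2 (image_mono k1 e)) fun e => y2 (image_mono k1 e))
  have i1 : Icc a s ⊆ Icc a b := Icc_subset_Icc_right hs.le
  have i2 : Icc t b ⊆ Icc a b := Icc_subset_Icc_left ht.le
  have sep := J _ _ x y ((isCompact_sphere q ρ).union (isCompact_Icc.image hγ))
    ((isCompact_sphere q ρ).union (isCompact_Icc.image hγ)) (by
      rw [← union_inter_distrib_left, ← hi.image_inter i1 i2, Icc_inter_Icc,
        Icc_eq_empty_of_lt ((inf_le_left.trans_lt hst).trans_le le_sup_right), image_empty,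
        union_empty]
      exact isPreconnected_sphere (by simp) q ρ)
    (one a s a i1 fun m hm => hm.1.lt_or_eq.imp (fun k => ⟨k, hm.2.trans_lt hs⟩) Eq.symm)
    (one t b b i2 fun m hm => hm.2.lt_or_eq.imp_left fun k => ⟨ht.trans_le hm.1, k⟩)
  have mx := mem_connectedComponentIn (connectedComponentIn_nonempty_iff.1 ⟨y, sep⟩)
  have cov : α ⊆ sphere q ρ ∪ γ '' Icc a s ∪ (sphere q ρ ∪ γ '' Icc t b) ∪ D := by
    rintro _ ⟨u, hu, rfl⟩
    rcases le_total u s with k | k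
    · exact Or.inl (Or.inl (Or.inr ⟨u, ⟨hu.1, k⟩, rfl⟩))
    rcases le_total t u with k' | k'
    exacts [Or.inl (Or.inr (Or.inr ⟨u, ⟨k', hu.2⟩, rfl⟩)), Or.inr (h2 u ⟨k, k'⟩)]
  have ne : g y ≠ g x := fun k => two_pi_I_ne_zero (by rw [← e, k, sub_self])
  have loc' := fun z (hz : z ∈ ball q ρ) => loc z (mem_ball_iff_norm.1 hz).le
  obtain ⟨l, l1, l2, l3⟩ := reach isPreconnected_connectedComponentIn
    (connectedComponentIn_subset _ x) (fun _ h => Or.inl (Or.inl h)) hD cov loc' mx sep x1 x2 ne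
  obtain ⟨r, r1, r2, r3⟩ := reach isPreconnected_connectedComponentIn
    (connectedComponentIn_subset _ x) (fun _ h => Or.inl (Or.inl h)) hD cov loc' sep mx y1 y2 ne.symm
  refine ⟨l, l1, r, r1, l2, r2, ?_⟩
  rw [← e, ← l3, ← r3]
  exact key l r (mem_ball_iff_norm.1 l1.1).le (mem_ball_iff_norm.1 r1.1).le l2 r2

end Jump

open Jump in
theorem jump_thm : StJump := by
  intro γ ρ hγ hi hρ h0 h1
  set q := γ (1 / 2)
  have cl : IsClosed (γ ⁻¹' (ball q ρ)ᶜ) := isOpen_ball.isClosed_compl.preimage hγ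
  obtain ⟨a, ⟨⟨a1, a2⟩, a3⟩, a4⟩ := ((isCompact_Icc (a := (0 : ℝ)) (b := 1 / 2)).inter_right
    cl).exists_isGreatest ⟨0, by norm_num, h0⟩
  obtain ⟨b, ⟨⟨b1, b2⟩, b3⟩, b4⟩ := ((isCompact_Icc (a := (1 / 2 : ℝ)) (b := 1)).inter_right
    cl).exists_isLeast ⟨1, by norm_num, h1⟩
  have a5 : a < 1 / 2 := a2.lt_of_ne fun e => a3 (e ▸ mem_ball_self hρ)
  have b5 : 1 / 2 < b := b1.lt_of_ne fun e => b3 (e ▸ mem_ball_self hρ)
  have ab := a5.trans b5
  have hin : ∀ u ∈ Ioo a b, γ u ∈ ball q ρ := fun u hu => by_contra fun e => by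
    rcases le_total u (1 / 2) with k | k
    exacts [hu.1.not_ge (a4 ⟨⟨a1.trans hu.1.le, k⟩, e⟩), hu.2.not_ge (b4 ⟨⟨k, hu.2.le.trans b2⟩, e⟩)]
  have le : Icc a b ⊆ γ ⁻¹' closedBall q ρ := closure_Ioo ab.ne ▸
    closure_minimal (fun u hu => ball_subset_closedBall (hin u hu)) (isClosed_closedBall.preimage hγ)
  have eq : ∀ u ∈ Icc a b, γ u ∉ ball q ρ → ‖γ u - q‖ = ρ := fun u hu e =>
    (mem_closedBall_iff_norm.1 (le hu)).antisymm (not_lt.1 (mt mem_ball_iff_norm.2 e))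
  obtain ⟨δ, δ0, hδ⟩ := Metric.isOpen_iff.1 (((isCompact_Icc (a := 0) (b := a)).union
    (isCompact_Icc (a := b) (b := 1))).image hγ).isClosed.isOpen_compl q (by
      rintro ⟨u, hu | hu, e⟩
      · exact (hu.2.trans_lt a5).ne (hi ⟨hu.1, by linarith [hu.2]⟩ (by norm_num) e)
      · exact (b5.trans_le hu.1).ne' (hi ⟨by linarith [hu.1], hu.2⟩ (by norm_num) e))
  obtain ⟨η, η0, hη⟩ := nhds_basis_closedBall.mem_iff.1
    (hγ.continuousAt.preimage_mem_nhds (ball_mem_nhds q δ0))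
  rw [Real.closedBall_eq_Icc] at hη
  obtain ⟨l, l1, r, r1, l2, r2, k⟩ := core hγ ab (hi.mono (Icc_subset_Icc a1 b2))
    (eq a (left_mem_Icc.2 ab.le) a3) (eq b (right_mem_Icc.2 ab.le) b3) hin
    (show 1 / 2 - η < 1 / 2 + η by linarith) (by linarith) (by linarith) isOpen_ball hη
  have off : ∀ z ∈ ball q δ, z ∉ γ '' Icc a b → z ∉ γ '' Icc 0 1 := by
    rintro _ k1 k2 ⟨u, hu, rfl⟩
    rcases le_total u a with e | e
    · exact hδ k1 ⟨u, Or.inl ⟨hu.1, e⟩, rfl⟩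
    rcases le_total b u with e' | e'
    exacts [hδ k1 ⟨u, Or.inr ⟨e', hu.2⟩, rfl⟩, k2 ⟨u, ⟨e, e'⟩, rfl⟩]
  have n : ∀ z ∉ γ '' Icc 0 1, ∀ t ∈ Icc (0 : ℝ) 1, γ t - z ≠ 0 :=
    fun z hz t ht e => hz ⟨t, ht, sub_eq_zero.1 e⟩
  have l3 := off l l1.2 l2
  have r3 := off r r1.2 r2
  have c : ContinuousOn (fun t => (γ t - l) / (γ t - r)) (Icc 0 1) :=
    ContinuousOn.div (by fun_prop) (by fun_prop) (n r r3)
  obtain ⟨L, L1, L2⟩ := exists_log_Icc c fun t ht => div_ne_zero (n l l3 t ht) (n r r3 t ht)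
  have sub : ∀ u v, Icc u v ⊆ Icc 0 1 → Inc (fun t => (γ t - l) / (γ t - r)) u v (L v - L u) :=
    fun u v h => ⟨L, L1.mono h, fun t ht => L2 t (h ht), rfl⟩
  have i1 : Icc 0 a ⊆ Icc 0 1 := Icc_subset_Icc_right (by linarith)
  have i2 : Icc b 1 ⊆ Icc 0 1 := Icc_subset_Icc_left (by linarith)
  refine ⟨l, l1.1, r, r1.1, l3, r3, L, L1, L2, ?_⟩
  linear_combination uniq ab.le (sub a b (Icc_subset_Icc a1 b2)) k +
    uniq a1 (sub 0 a i1) (slit (c.mono i1) fun t ht => out l1.2 r1.2 fun e => hδ e ⟨t, .inl ht, rfl⟩) +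
    uniq b2 (sub b 1 i2) (slit (c.mono i2) fun t ht => out l1.2 r1.2 fun e => hδ e ⟨t, .inr ht, rfl⟩)

end Pool.Agent.Lib.MP_fe5cb4_co.Sey
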