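import Pool.Agent.Lib.MP_fe5cb4_co.Sey.Low1
import Pool.Agent.Lib.MP_fe5cb4_co.Sey.St2
import Pool.Agent.Lib.MP_fe5cb4_co.Sey.Minor
import Pool.Agent.Lib.MP_fe5cb4_co.Sey.Reduce

/-!
Switches in a minimal counterexample and the cuts attached to their colourings.
-/

set_option autoImplicit false

namespace Pool.Agent.Lib.MP_fe5cb4_co.Sey

open Finset

namespace Low

variable {V : Type} [Fintype V] [DecidableEq V] {D d : ℕ} {m m' : V → V → ℕ} {u v x y : V}

/-- the colours of an edge -/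
def cl (c : Fin D → V → V) (a b : V) : Finset (Fin D) := {i | c i a = b}

/-- every colour except `l` leaves `X` at most once -/
def Kil (c : Fin D → V → V) (u v x y : V) (l : Fin D) (X : Finset V) : Prop :=
  u ∈ X ∧ x ∈ X ∧ v ∉ X ∧ y ∉ X ∧ ∀ i ≠ l, ∀ a ∈ X, ∀ a' ∈ X, c i a ∉ X → c i a' ∉ X → a = a'

/-- four different vertices -/
structure Ds (u v x y : V) : Prop where
  uv : u ≠ v
  ux : u ≠ x
  uy : u ≠ y
  vx : v ≠ x
  vy : v ≠ y
  xy : x ≠ y

/-- a colouring of the switched graph -/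
structure Sw (m : V → V → ℕ) (u v x y : V) (c : Fin D → V → V) : Prop where
  ds : Ds u v x y
  pm : ∀ i, IsPM (c i)
  cnt : ∀ a b, #(cl c a b) + ed u x a b + ed v y a b = m a b + ed u v a b + ed x y a b
  dis : ∀ i, c i u = v → c i x ≠ y
  mate : ∀ l, c l x ≠ y → ∃ X, Kil c u v x y l X

/-- an improving switch -/
structure Ok (m : V → V → ℕ) (u v x y : V) : Prop where
  ds : Ds u v x y
  ux : 1 ≤ m u x
  vy : 1 ≤ m v y
  ux' : m u x ≤ m u v
  vy' : m v y ≤ m u v
  pl : Planar (supp m ⊔ SimpleGraph.edge x y)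

/-- the properties of a minimal counterexample -/
structure Mn (D : ℕ) (m : V → V → ℕ) : Prop where
  T : Target D m
  pl : Planar (supp m)
  two : ∀ u v, (supp m).Adj u v → ∃ x, (supp m).Adj u x ∧ x ≠ v
  sw : ∀ u v x y, Ok m u v x y → ∃ c : Fin D → V → V, Sw m u v x y c
  core : ∀ u v x y, Ok m u v x y → 2 ≤ m u v → m u v ≤ 2 ∧ m x y = 0 ∧ m x v = 0

omit [Fintype V] in
theorem ed_eq {p q : V} (h : p ≠ q) (a b : V) :
    ed p q a b = (if a = p ∧ b = q then 1 else 0) + if a = q ∧ b = p then 1 else 0 := by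
  unfold ed
  by_cases h1 : a = p ∧ b = q
  · rw [if_pos (Or.inl h1), if_pos h1, if_neg fun k => h (h1.1.symm.trans k.1)]
  · by_cases h2 : a = q ∧ b = p
    · rw [if_pos (Or.inr h2), if_neg h1, if_pos h2]
    · rw [if_neg (not_or.2 ⟨h1, h2⟩), if_neg h1, if_neg h2]

omit [Fintype V] in
theorem ed_symm (p q a b : V) : ed p q a b = ed p q b a := by
  unfold ed
  exact if_congr (by tauto) rfl rfl

theorem sum_ed {p q : V} (h : p ≠ q) (a : V) :
    ∑ b, ed p q a b = (if a = p then 1 else 0) + if a = q then 1 else 0 := by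
  simp [ed_eq h, sum_add_distrib, ite_and]

theorem cut_ed {p q : V} (h : p ≠ q) (X : Finset V) :
    cut (ed p q) X = (if p ∈ X ∧ q ∉ X then 1 else 0) + if q ∈ X ∧ p ∉ X then 1 else 0 := by
  simp [cut, ed_eq h, sum_add_distrib, ite_and]

theorem cut_par (hs : ∀ a b, m a b = m b a) (h0 : ∀ a, m a a = 0) (h : ∀ a, ∑ b, m a b = D)
    (X : Finset V) : ∃ k, cut m X + 2 * k = D * #X := by
  have h1 := sum_symm (fun a b => (m a b : ZMod 2)) (fun a b => by rw [hs]) (by simp [h0]) X
  simp only [← Nat.cast_sum, ZMod.natCast_eq_zero_iff_even] at h1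
  obtain ⟨k, hk⟩ := h1
  exact ⟨k, by rw [← Reduce.cut_add h X, hk, two_mul]⟩

omit [Fintype V] [DecidableEq V] in
theorem pm_symm {f : V → V} (h : IsPM f) {a b : V} : f a = b ↔ f b = a :=
  ⟨fun e => e ▸ h.1 a, fun e => e ▸ h.1 b⟩

theorem cut_pm (f : V → V) (X : Finset V) :
    cut (fun a b => if f a = b then 1 else 0) X = #{a ∈ X | f a ∉ X} := by
  simp [cut, card_filter]

theorem cr_odd {f : V → V} (h : IsPM f) {X : Finset V} (ho : Odd #X) :
    ∃ k, #{a ∈ X | f a ∉ X} = 2 * k + 1 := by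
  obtain ⟨k, hk⟩ := cut_par (D := 1) (m := fun a b => if f a = b then 1 else 0)
    (fun a b => if_congr (pm_symm h) rfl rfl) (fun a => if_neg (h.2 a)) (by simp) X
  obtain ⟨j, hj⟩ := ho
  rw [cut_pm] at hk
  exact ⟨j - k, by omega⟩

theorem slice (h : SeyM d) (hp : Planar (supp m)) {M : V → V} {m₀ : V → V → ℕ} (hM : IsPM M)
    (T : Target d m₀) (e : ∀ a b, m a b = m₀ a b + if M a = b then 1 else 0) : Col (d + 1) m := by
  obtain ⟨c, h1, h2⟩ := h V m₀ T (hp.mono fun a b k => by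
    simp only [supp, SimpleGraph.fromRel_adj] at k ⊢
    have := e a b
    have := e b a
    exact ⟨k.1, by omega⟩)
  refine ⟨Fin.cons M c, fun i => Fin.cases hM h1 i, fun a b => ?_⟩
  rw [e, h2, card_filter, card_filter, Fin.sum_univ_succ, add_comm]
  rfl

omit [Fintype V] in
theorem back (ds : Ds u v x y) {c : Fin D → V → V} (pm : ∀ i, IsPM (c i))
    (cnt : ∀ a b, #(cl c a b) + ed u x a b + ed v y a b = m a b + ed u v a b + ed x y a b)
    {i : Fin D} (h1 : c i u = v) (h2 : c i x = y) : Col D m := by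
  obtain ⟨d1, d2, d3, d4, d5, d6⟩ := ds
  have h3 := (pm_symm (pm i)).1 h1
  have h4 := (pm_symm (pm i)).1 h2
  let f : V → V := fun a =>
    if a = u then x else if a = x then u else if a = v then y else if a = y then v else c i a
  have n : ∀ a, a ≠ u → a ≠ x → a ≠ v → a ≠ y →
      c i a ≠ u ∧ c i a ≠ x ∧ c i a ≠ v ∧ c i a ≠ y := fun a k1 k2 k3 k4 =>
    ⟨fun e => k3 (((pm_symm (pm i)).1 e).symm.trans h1),
      fun e => k4 (((pm_symm (pm i)).1 e).symm.trans h2),
      fun e => k1 (((pm_symm (pm i)).1 e).symm.trans h3),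
      fun e => k2 (((pm_symm (pm i)).1 e).symm.trans h4)⟩
  have cs : ∀ a, a = u ∨ a = x ∨ a = v ∨ a = y ∨ (a ≠ u ∧ a ≠ x ∧ a ≠ v ∧ a ≠ y) := fun a => by
    tauto
  have hf : IsPM f := ⟨fun a => by
    rcases cs a with rfl | rfl | rfl | rfl | ⟨k1, k2, k3, k4⟩
    · simp [f, d2.symm]
    · simp [f, d2.symm]
    · simp [f, d1.symm, d4, d3.symm, d6.symm, d5.symm]
    · simp [f, d1.symm, d4, d3.symm, d6.symm, d5.symm]
    · obtain ⟨l1, l2, l3, l4⟩ := n a k1 k2 k3 k4
      simp [f, k1, k2, k3, k4, l1, l2, l3, l4, (pm i).1], fun a => by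
    rcases cs a with rfl | rfl | rfl | rfl | ⟨k1, k2, k3, k4⟩
    · simp [f, d2.symm]
    · simp [f, d2.symm, d2]
    · simp [f, d1.symm, d4, d5.symm]
    · simp [f, d3.symm, d6.symm, d5.symm, d5]
    · simp [f, k1, k2, k3, k4, (pm i).2]⟩
  refine ⟨Function.update c i f, fun j => ?_, fun a b => ?_⟩
  · by_cases k : j = i
    · rwa [k, Function.update_self]
    · rw [Function.update_of_ne k]
      exact pm j
  · have e1 := cnt a b
    rw [cl, card_filter, ← add_sum_erase _ _ (mem_univ i)] at e1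
    rw [card_filter, ← add_sum_erase _ _ (mem_univ i), Function.update_self,
      sum_congr rfl fun j hj => by rw [Function.update_of_ne (ne_of_mem_erase hj)]]
    have e2 : (if f a = b then 1 else 0) + ed u v a b + ed x y a b =
        (if c i a = b then 1 else 0) + ed u x a b + ed v y a b := by
      rcases cs a with rfl | rfl | rfl | rfl | ⟨k1, k2, k3, k4⟩
      · simp [f, ed, h1, d1, d2, d3, @eq_comm _ b, add_comm]
      · simp [f, ed, h2, d2.symm, d4.symm, d6, @eq_comm _ b, add_comm]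
      · simp [f, ed, h3, d1.symm, d4, d5, @eq_comm _ b, add_comm]
      · simp [f, ed, h4, d3.symm, d5.symm, d6.symm, @eq_comm _ b, add_comm]
      · simp [f, ed, k1, k2, k3, k4]
    omega

theorem mate (h : SeyM d) (T : Target (d + 1) m) (hp : Planar (supp m)) (hn : ¬ Col (d + 1) m)
    (ds : Ds u v x y) (huv : 1 ≤ m u v) {c : Fin (d + 1) → V → V} (pm : ∀ i, IsPM (c i))
    (cnt : ∀ a b, #(cl c a b) + ed u x a b + ed v y a b = m a b + ed u v a b + ed x y a b)
    {l : Fin (d + 1)} (hl : c l x ≠ y) : ∃ X, Kil c u v x y l X := by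
  have le : ∀ a b, (if c l a = b then 1 else 0) ≤ m a b := fun a b => by
    split_ifs with k
    · have e1 := cnt a b
      have e2 : 0 < #(cl c a b) := card_pos.2 ⟨l, by simp [cl, k]⟩
      have e3 : ed x y a b = 0 := if_neg (by
        rintro (⟨rfl, rfl⟩ | ⟨rfl, rfl⟩)
        exacts [hl k, hl ((pm_symm (pm l)).1 k)])
      by_cases k' : (a = u ∧ b = v) ∨ (a = v ∧ b = u)
      · rcases k' with ⟨rfl, rfl⟩ | ⟨rfl, rfl⟩
        exacts [huv, T.symm _ _ ▸ huv]
      · have e4 : ed u v a b = 0 := if_neg k'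
        omega
    · exact Nat.zero_le _
  let m₀ : V → V → ℕ := fun a b => m a b - if c l a = b then 1 else 0
  have e : ∀ a b, m a b = m₀ a b + if c l a = b then 1 else 0 := fun a b =>
    (Nat.sub_add_cancel (le a b)).symm
  obtain ⟨X, ho, hX⟩ : ∃ X : Finset V, Odd #X ∧ cut m₀ X < d := by
    by_contra! k
    refine hn (slice h hp (pm l) ⟨fun a b => ?_, fun a => by simp [m₀, T.diag], fun a => ?_, k⟩ e)
    · simp only [m₀, T.symm a b, pm_symm (pm l) (a := a)]
    · have := T.deg a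
      rw [sum_congr rfl fun b _ => e a b, sum_add_distrib] at this
      simpa using this
  let cr : Fin (d + 1) → ℕ := fun i => #{a ∈ X | c i a ∉ X}
  have e1 : cut m X = cut m₀ X + cr l := by
    rw [show cr l = _ from (cut_pm (c l) X).symm]
    simp only [cut, ← sum_add_distrib, ← e]
  have e2 : cr l + ∑ i ∈ univ.erase l, cr i + cut (ed u x) X + cut (ed v y) X =
      cut m X + cut (ed u v) X + cut (ed x y) X := by
    rw [add_sum_erase _ _ (mem_univ l)]
    have : ∑ i, cr i = cut (fun a b => #(cl c a b)) X := by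
      rw [sum_congr rfl fun i _ => (cut_pm (c i) X).symm]
      simp only [cut, cl, card_filter]
      rw [sum_comm]
      exact sum_congr rfl fun a _ => sum_comm
    rw [this]
    simp only [cut, ← sum_add_distrib, cnt]
  have e3 : ∀ i ≠ l, cr i + (d - 1) ≤ ∑ i ∈ univ.erase l, cr i := fun i hi => by
    rw [← add_sum_erase _ _ (mem_erase.2 ⟨hi, mem_univ i⟩)]
    have := card_nsmul_le_sum ((univ.erase l).erase i) cr 1 fun j _ => by
      obtain ⟨k, hk⟩ := cr_odd (pm j) ho
      simp only [cr]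
      omega
    rw [card_erase_of_mem (mem_erase.2 ⟨hi, mem_univ i⟩), card_erase_of_mem (mem_univ l)] at this
    simpa using this
  have e4 : d ≤ ∑ i ∈ univ.erase l, cr i := by
    have := card_nsmul_le_sum (univ.erase l) cr 1 fun j _ => by
      obtain ⟨k, hk⟩ := cr_odd (pm j) ho
      simp only [cr]
      omega
    rw [card_erase_of_mem (mem_univ l)] at this
    simpa using this
  rw [cut_ed ds.ux, cut_ed ds.vy, cut_ed ds.uv, cut_ed ds.xy] at e2
  have e5 : ∀ i ≠ l, ∀ a ∈ X, ∀ a' ∈ X, c i a ∉ X → c i a' ∉ X → a = a' :=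
    fun i hi a ha a' ha' k k' => by
      obtain ⟨j, hj⟩ := cr_odd (pm i) ho
      have e6 := e3 i hi
      have e7 : cr i = 2 * j + 1 := hj
      have e8 : #{a ∈ X | c i a ∉ X} ≤ 1 := by
        split_ifs at e2 <;> first | omega | tauto
      exact card_le_one.1 e8 a (mem_filter.2 ⟨ha, k⟩) a' (mem_filter.2 ⟨ha', k'⟩)
  have e6 : (u ∈ X ∧ x ∈ X ∧ v ∉ X ∧ y ∉ X) ∨ (u ∉ X ∧ x ∉ X ∧ v ∈ X ∧ y ∈ X) := by
    by_cases k1 : u ∈ X <;> by_cases k2 : x ∈ X <;> by_cases k3 : v ∈ X <;> by_cases k4 : y ∈ X <;>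
      simp [k1, k2, k3, k4] at e2 ⊢ <;> omega
  rcases e6 with ⟨k1, k2, k3, k4⟩ | ⟨k1, k2, k3, k4⟩
  · exact ⟨X, k1, k2, k3, k4, e5⟩
  · refine ⟨Xᶜ, mem_compl.2 k1, mem_compl.2 k2, by simpa, by simpa, fun i hi a ha a' ha' k k' => ?_⟩
    have := e5 i hi (c i a) (by simpa using k) (c i a') (by simpa using k')
      (by rw [(pm i).1]; exact mem_compl.1 ha) (by rw [(pm i).1]; exact mem_compl.1 ha')
    rw [← (pm i).1 a, this, (pm i).1]

/-- the potential -/
def pot (m : V → V → ℕ) : ℕ := ∑ a, ∑ b, 2 ^ m a b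

theorem pot_le (T : Target D m) : pot m ≤ Fintype.card V * (Fintype.card V * 2 ^ D) := by
  refine (sum_le_card_nsmul _ _ _ fun a _ => sum_le_card_nsmul _ _ (2 ^ D) fun b _ => ?_).trans
    (by simp)
  exact Nat.pow_le_pow_right two_pos
    (T.deg a ▸ single_le_sum (f := m a) (fun _ _ => Nat.zero_le _) (mem_univ b))

theorem switch (T : Target D m) (hD : 1 ≤ D) (h : Ok m u v x y)
    (ht : ∀ X : Finset V, Odd #X → 2 ≤ #X → 2 ≤ #Xᶜ → cut m X ≠ D) :
    ∃ m' : V → V → ℕ, Target D m' ∧ Planar (supp m') ∧ pot m < pot m' ∧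
      ∀ a b, m' a b + ed u x a b + ed v y a b = m a b + ed u v a b + ed x y a b := by
  obtain ⟨⟨d1, d2, d3, d4, d5, d6⟩, h1, h2, h3, h4, h5⟩ := h
  have s1 := T.symm x u
  have s2 := T.symm y v
  have s3 := T.symm v u
  have s4 := T.symm y x
  let m' : V → V → ℕ := fun a b => m a b + ed u v a b + ed x y a b - ed u x a b - ed v y a b
  have e : ∀ a b, m' a b + ed u x a b + ed v y a b = m a b + ed u v a b + ed x y a b :=
    fun a b => by
      have : ed u x a b + ed v y a b ≤ m a b := by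
        unfold ed
        split_ifs with k1 k2 k2
        · exfalso
          rcases k1 with ⟨rfl, rfl⟩ | ⟨rfl, rfl⟩ <;> tauto
        · rcases k1 with ⟨rfl, rfl⟩ | ⟨rfl, rfl⟩ <;> omega
        · rcases k2 with ⟨rfl, rfl⟩ | ⟨rfl, rfl⟩ <;> omega
        · omega
      simp only [m']
      omega
  clear_value m'
  have sy : ∀ a b, m' a b = m' b a := fun a b => by
    have e1 := e a b
    have e2 := e b a
    rw [ed_symm u x, ed_symm v y, ed_symm u v, ed_symm x y, T.symm] at e2
    omega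
  have dg : ∀ a, m' a a = 0 := fun a => by
    have e1 := e a a
    have e2 : ed u v a a = 0 := if_neg (by rintro (⟨rfl, k⟩ | ⟨rfl, k⟩) <;> simp_all)
    have e3 : ed x y a a = 0 := if_neg (by rintro (⟨rfl, k⟩ | ⟨rfl, k⟩) <;> simp_all)
    have := T.diag a
    omega
  have de : ∀ a, ∑ b, m' a b = D := fun a => by
    have e1 := sum_congr rfl fun b (_ : b ∈ univ) => e a b
    simp only [sum_add_distrib, sum_ed d1, sum_ed d2, sum_ed d5, sum_ed d6, T.deg] at e1
    omega
  have one : ∀ X : Finset V, #X = 1 → cut m' X = D := fun X hX => by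
    obtain ⟨a, rfl⟩ := card_eq_one.1 hX
    simpa [dg] using Reduce.cut_add de {a}
  refine ⟨m', ⟨sy, dg, de, fun X ho => ?_⟩, h5.mono fun a b k => ?_, ?_, e⟩
  · have ho' := Reduce.odd_compl T hD ho
    by_cases k1 : #X = 1
    · exact (one X k1).ge
    by_cases k2 : #Xᶜ = 1
    · exact (Reduce.cut_compl sy X ▸ one _ k2).ge
    have e1 := ht X ho (by have := ho.pos; omega) (by have := ho'.pos; omega)
    have e2 := T.odd X ho
    obtain ⟨k, hk⟩ := cut_par T.symm T.diag T.deg X
    obtain ⟨j, hj⟩ := ho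
    rw [hj, mul_add, mul_one, mul_left_comm] at hk
    have e3 : cut m' X + cut (ed u x) X + cut (ed v y) X =
        cut m X + cut (ed u v) X + cut (ed x y) X := by simp only [cut, ← sum_add_distrib, e]
    rw [cut_ed d2, cut_ed d5] at e3
    split_ifs at e3 <;> first | omega | tauto
  · rw [supp_adj sy dg] at k
    rw [SimpleGraph.sup_adj, supp_adj T.symm T.diag, SimpleGraph.edge_adj]
    by_contra! n
    have e1 := e a b
    have e2 : ed x y a b = 0 := if_neg fun t => k ((n.2 t) ▸ dg a)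
    have e3 : ed u v a b = 0 := if_neg (by rintro (⟨rfl, rfl⟩ | ⟨rfl, rfl⟩) <;> omega)
    omega
  · have e1 : ∀ a b, 2 ^ m' a b + ed u x a b * 2 ^ (m u x - 1) + ed v y a b * 2 ^ (m v y - 1) =
        2 ^ m a b + ed u v a b * 2 ^ m u v + ed x y a b * 2 ^ m x y := fun a b => by
      have e1 := e a b
      have p : ∀ n, 1 ≤ n → 2 ^ (n - 1) + 2 ^ (n - 1) = 2 ^ n := fun n hn => by
        rw [← two_mul, ← pow_succ', Nat.sub_add_cancel hn]
      by_cases k1 : (a = u ∧ b = x) ∨ (a = x ∧ b = u)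
      · have : m' a b = m u x - 1 ∧ m a b = m u x ∧ ed u x a b = 1 ∧ ed v y a b = 0 ∧
            ed u v a b = 0 ∧ ed x y a b = 0 := by
          rcases k1 with ⟨rfl, rfl⟩ | ⟨rfl, rfl⟩ <;>
            simp [ed, d1, d2, d3, d6, d2.symm, d4.symm] at e1 ⊢ <;> omega
        simp [this, p _ h1]
      by_cases k2 : (a = v ∧ b = y) ∨ (a = y ∧ b = v)
      · have : m' a b = m v y - 1 ∧ m a b = m v y ∧ ed u x a b = 0 ∧ ed v y a b = 1 ∧
            ed u v a b = 0 ∧ ed x y a b = 0 := by
          rcases k2 with ⟨rfl, rfl⟩ | ⟨rfl, rfl⟩ <;>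
            simp [ed, d4, d5, d1.symm, d3.symm, d5.symm, d6.symm] at e1 ⊢ <;> omega
        simp [this, p _ h2]
      have z1 : ed u x a b = 0 := if_neg k1
      have z2 : ed v y a b = 0 := if_neg k2
      by_cases k3 : (a = u ∧ b = v) ∨ (a = v ∧ b = u)
      · have : m a b = m u v ∧ ed u v a b = 1 ∧ ed x y a b = 0 := by
          rcases k3 with ⟨rfl, rfl⟩ | ⟨rfl, rfl⟩ <;> simp [ed, d2, d3, d4, d5, s3]
        rw [show m' a b = m u v + 1 by omega]
        simp [this, z1, z2, pow_succ, mul_two]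
      have z3 : ed u v a b = 0 := if_neg k3
      by_cases k4 : (a = x ∧ b = y) ∨ (a = y ∧ b = x)
      · have : m a b = m x y ∧ ed x y a b = 1 := by
          rcases k4 with ⟨rfl, rfl⟩ | ⟨rfl, rfl⟩ <;> simp [ed, s4]
        rw [show m' a b = m x y + 1 by omega]
        simp [this, z1, z2, z3, pow_succ, mul_two]
      have z4 : ed x y a b = 0 := if_neg k4
      rw [show m' a b = m a b by omega]
      simp [z1, z2, z3, z4]
    have e2 := sum_congr rfl fun a (_ : a ∈ univ) => sum_congr rfl fun b (_ : b ∈ univ) => e1 a b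
    simp only [sum_add_distrib, ← sum_mul, sum_ed d1, sum_ed d2, sum_ed d5, sum_ed d6,
      sum_ite_eq', mem_univ, if_true] at e2
    have p : ∀ n, 1 ≤ n → n ≤ m u v → 2 * 2 ^ (n - 1) ≤ 2 ^ m u v := fun n hn k => by
      rw [← pow_succ', Nat.sub_add_cancel hn]
      exact Nat.pow_le_pow_right two_pos k
    have p1 := p _ h1 h3
    have p2 := p _ h2 h4
    have p3 : 0 < 2 ^ m x y := by positivity
    unfold pot
    omega

theorem step_of (core : StCore2) (h : SeyM d)
    (no : ∀ (V : Type) [Fintype V] [DecidableEq V] [Nonempty V] (m : V → V → ℕ),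
      ¬ Mn (d + 1) m) : SeyM (d + 1) := by
  intro V _ _
  induction hn : Fintype.card V using Nat.strong_induction_on generalizing V with
  | _ n ih =>
  intro m
  induction hk : Fintype.card V * (Fintype.card V * 2 ^ (d + 1)) - pot m
    using Nat.strong_induction_on generalizing m with
  | _ k ih2 =>
  intro T hp
  by_contra hc
  have red := fun X hX => hc (reduce_thm minor_thm (d + 1) V m d.succ_pos T hp
    (fun W _ _ m' hW T' hp' => ih _ (hn ▸ hW) W rfl m' T' hp') X hX)
  have sw : ∀ u v x y, Ok m u v x y → ∃ m' : V → V → ℕ, Col (d + 1) m' ∧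
      ∀ a b, m' a b + ed u x a b + ed v y a b = m a b + ed u v a b + ed x y a b :=
    fun u v x y k => by
      obtain ⟨m', T', p1, p2, p3⟩ := switch T d.succ_pos k fun X a b c e =>
        red X (Or.inr ⟨a, b, c, e⟩)
      have := pot_le T'
      exact ⟨m', ih2 _ (by omega) m' rfl T' p1, p3⟩
  rcases isEmpty_or_nonempty V with hV | hV
  · exact hc ⟨fun _ a => a, fun _ => ⟨fun a => rfl, fun a => isEmptyElim a⟩, fun a => isEmptyElim a⟩
  refine no V m ⟨T, hp, fun u v huv => ?_, fun u v x y k => ?_, fun u v x y k k2 => ?_⟩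
  · by_contra! t
    have z : ∀ b ≠ v, m u b = 0 := fun b hb => by_contra fun e =>
      hb (t b ((supp_adj T.symm T.diag _ _).2 e))
    have e1 : m u v = d + 1 := by
      rw [← T.deg u, sum_eq_single v (fun b _ => z b) (by simp)]
    have e2 := Reduce.cut_add T.deg {u, v}
    simp only [sum_pair huv.ne, card_pair huv.ne, T.diag, T.symm v u, e1] at e2
    rcases ({u, v}ᶜ : Finset V).eq_empty_or_nonempty with e | e
    · have al : ∀ a, a = u ∨ a = v := fun a => by
        have : a ∉ ({u, v}ᶜ : Finset V) := e ▸ notMem_empty a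
        simpa only [mem_compl, not_not, mem_insert, mem_singleton] using this
      have n := huv.ne
      have e3 := T.symm v u ▸ e1
      refine hc ⟨fun _ a => if a = u then v else u, fun _ => ⟨fun a => ?_, fun a => ?_⟩,
        fun a b => ?_⟩
      · rcases al a with rfl | rfl <;> simp [n.symm]
      · rcases al a with rfl | rfl <;> simp [n.symm, n]
      · rcases al a with rfl | rfl <;> rcases al b with rfl | rfl <;>
          simp [n, n.symm, T.diag, e1, e3]
    · exact red {u, v} (Or.inl ⟨by simp, e, by omega⟩)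
  · obtain ⟨m', ⟨c, c1, c2⟩, p⟩ := sw u v x y k
    have cnt : ∀ a b, #(cl c a b) + ed u x a b + ed v y a b = m a b + ed u v a b + ed x y a b :=
      fun a b => by rw [← p, c2, cl]
    exact ⟨c, k.ds, c1, cnt, fun i a b => hc (back k.ds c1 cnt a b), fun l hl =>
      mate h T hp hc k.ds (k.ux.trans k.ux') c1 cnt hl⟩
  · obtain ⟨m', c, p⟩ := sw u v x y k
    by_contra t
    rcases core d V m m' u v x y T k.ds.uv k.ds.ux k.ds.uy k.ds.vx k.ds.vy k.ds.xy p
      ⟨k2, by omega⟩ c with e | ⟨M, m₀, p1, p2, p3⟩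
    exacts [hc e, hc (slice h hp p1 p2 p3)]

end Low

end Pool.Agent.Lib.MP_fe5cb4_co.Sey
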