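import Pool.Agent.Lib.MP_fe5cb4_co.Sey.Low2

/-!
Local structure of a minimal counterexample, and the discharging count.
-/

set_option autoImplicit false

namespace Pool.Agent.Lib.MP_fe5cb4_co.Sey

open Finset Pool.Agent.Lib.MP_fe5cb4_co.Sey.Norm

namespace Low

variable {V : Type} [Fintype V] [DecidableEq V] {D : ℕ} {m : V → V → ℕ} {u v x y : V}
  {c : Fin D → V → V} {ι : Type} [Fintype ι] {B : ι → Ch V}

omit [Fintype V] in
theorem mem_cl {a b : V} {i : Fin D} : i ∈ cl c a b ↔ c i a = b := by simp [cl]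

/-- the colours that are neither on `uv` nor on `xy` -/
def fr (c : Fin D → V → V) (u v x y : V) : Finset (Fin D) := {i | c i u ≠ v ∧ c i x ≠ y}

omit [Fintype V] in
theorem mem_fr {i : Fin D} : i ∈ fr c u v x y ↔ c i u ≠ v ∧ c i x ≠ y := by simp [fr]

section Sw

omit [Fintype V]

theorem Sw.cS (h : Sw m u v x y c) : #(cl c u v) = m u v + 1 := by
  simpa [ed, h.ds.vx, h.ds.ux, h.ds.uv, h.ds.uy] using h.cnt u v

theorem Sw.cT (h : Sw m u v x y c) : #(cl c x y) = m x y + 1 := by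
  simpa [ed, h.ds.vx.symm, h.ds.ux.symm, h.ds.xy, h.ds.uy.symm] using h.cnt x y

theorem Sw.cU (h : Sw m u v x y c) : #(cl c u x) + 1 = m u x := by
  simpa [ed, h.ds.vx.symm, h.ds.ux, h.ds.uv, h.ds.uy] using h.cnt u x

theorem Sw.cV (h : Sw m u v x y c) : #(cl c v y) + 1 = m v y := by
  simpa [ed, h.ds.vx, h.ds.vy, h.ds.uv.symm, h.ds.uy.symm] using h.cnt v y

theorem Sw.cF (h : Sw m u v x y c) : #(fr c u v x y) + (m u v + 1) + (m x y + 1) = D := by
  rw [← h.cS, ← h.cT, add_assoc, ← card_union_of_disjoint (disjoint_left.2 fun i a b =>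
    h.dis i (mem_cl.1 a) (mem_cl.1 b)), ← card_union_of_disjoint (disjoint_left.2 fun i a b => by
      rw [mem_fr] at a
      rw [mem_union, mem_cl, mem_cl] at b
      tauto)]
  refine (congrArg card (eq_univ_of_forall fun i => ?_)).trans (card_fin D)
  simp only [mem_union, mem_fr, mem_cl]
  tauto

theorem Sw.inj (h : Sw m u v x y c) {i : Fin D} {a a' b : V} (k : c i a = b) (k' : c i a' = b) :
    a = a' := ((pm_symm (h.pm i)).1 k).symm.trans ((pm_symm (h.pm i)).1 k')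

theorem Sw.key (h : Sw m u v x y c) {l : Fin D} {X : Finset V} (k : Kil c u v x y l X) {a b : V}
    (ha : a ∈ X) (hb : b ∉ X) (h1 : ¬ (a = u ∧ b = v)) (h2 : ¬ (a = x ∧ b = y)) :
    #(cl c a b) = m a b ∧ ∀ i, c i a = b → i = l ∨ i ∈ fr c u v x y := by
  obtain ⟨k1, k2, k3, k4, k5⟩ := k
  have n1 : a ≠ v := fun e => k3 (e ▸ ha)
  have n2 : a ≠ y := fun e => k4 (e ▸ ha)
  have n3 : b ≠ u := fun e => hb (e ▸ k1)
  have n4 : b ≠ x := fun e => hb (e ▸ k2)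
  refine ⟨by simpa [ed, n1, n2, n3, n4, h1, h2] using h.cnt a b, fun i hi => ?_⟩
  refine (eq_or_ne i l).imp_right fun n => mem_fr.2 ⟨fun e => h1 ?_, fun e => h2 ?_⟩
  · obtain rfl := k5 i n a ha u k1 (hi ▸ hb) (e ▸ k3)
    exact ⟨rfl, hi.symm.trans e⟩
  · obtain rfl := k5 i n a ha x k2 (hi ▸ hb) (e ▸ k4)
    exact ⟨rfl, hi.symm.trans e⟩

theorem Sw.ex (h : Sw m u v x y c) {l : Fin D} {X : Finset V} (k : Kil c u v x y l X) {a b : V}
    (ha : a ∈ X) (hb : b ∉ X) (h1 : ¬ (a = u ∧ b = v)) (h2 : ¬ (a = x ∧ b = y)) (h3 : m a b ≠ 0) :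
    ∃ i, c i a = b ∧ (i = l ∨ i ∈ fr c u v x y) := by
  obtain ⟨k1, k2⟩ := h.key k ha hb h1 h2
  obtain ⟨i, hi⟩ := card_pos.1 (show 0 < #(cl c a b) by omega)
  exact ⟨i, mem_cl.1 hi, k2 i (mem_cl.1 hi)⟩

theorem Sw.tri (h : Sw m u v x y c) {l : Fin D} (hl : c l u = v) {X : Finset V}
    (k : Kil c u v x y l X) {w : V} (h1 : m u w ≠ 0) (h2 : m w v ≠ 0) (wu : w ≠ u) (wv : w ≠ v) :
    ∃ a ∈ X, ∃ b ∉ X, ∃ i ∈ fr c u v x y, c i a = b ∧ ((a = u ∧ b = w) ∨ (a = w ∧ b = v)) := by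
  by_cases hw : w ∈ X
  · obtain ⟨i, a, b⟩ := h.ex k hw k.2.2.1 (fun e => wu e.1) (fun e => h.ds.vy e.2) h2
    exact ⟨w, hw, v, k.2.2.1, i, b.resolve_left fun e => wu (h.inj a (e ▸ hl)), a, Or.inr ⟨rfl, rfl⟩⟩
  · obtain ⟨i, a, b⟩ := h.ex k k.1 hw (fun e => wv e.2) (fun e => h.ds.ux e.1) h1
    exact ⟨u, k.1, w, hw, i, b.resolve_left fun e => wv (a.symm.trans (e ▸ hl)), a,
      Or.inl ⟨rfl, rfl⟩⟩

end Sw

theorem Mn.adj (h : Mn D m) {a b : V} : (supp m).Adj a b ↔ m a b ≠ 0 :=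
  supp_adj h.T.symm h.T.diag a b

theorem Mn.le (h : Mn D m) (a b : V) : m a b ≤ 2 := by
  obtain ⟨⟨u, v⟩, -, hm⟩ := exists_max_image (univ : Finset (V × V)) (fun p => m p.1 p.2)
    ⟨(a, b), mem_univ _⟩
  have k : ∀ a b, m a b ≤ m u v := fun a b => hm (a, b) (mem_univ _)
  by_contra n
  have := k a b
  have uv : (supp m).Adj u v := h.adj.2 (by omega)
  obtain ⟨x, y, h1, h2, h3, h4, h5, h6⟩ := cofacial_thm V _ h.pl (local_thm D V m h.T).1
    (local_thm D V m h.T).2 u v uv (h.two u v uv)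
  have := (h.core u v x y ⟨⟨uv.ne, h1.ne, h4.symm, h3.symm, h2.ne, h5⟩,
    Nat.pos_of_ne_zero (h.adj.1 h1), Nat.pos_of_ne_zero (h.adj.1 h2), k _ _, k _ _, h6⟩
    (by omega)).1
  omega

theorem Mn.emb (h : Mn D m) : ∃ (ι : Type) (_ : Fintype ι) (B : ι → Ch V), Emb (supp m) B :=
  ex_emb h.pl (local_thm D V m h.T).1 (local_thm D V m h.T).2 h.two

theorem Mn.ok (h : Mn D m) (uv : (supp m).Adj u v) (ux : (supp m).Adj u x) (vy : (supp m).Adj v y)
    (xv : x ≠ v) (yu : y ≠ u) (xy : x ≠ y) (k : m u v = 2 ∨ (m u x ≠ 2 ∧ m v y ≠ 2))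
    (p : Planar (supp m ⊔ SimpleGraph.edge x y)) : Ok m u v x y := by
  have a1 := h.adj.1 uv
  have a2 := h.adj.1 ux
  have a3 := h.adj.1 vy
  have a4 := h.le u x
  have a5 := h.le v y
  exact ⟨⟨uv.ne, ux.ne, yu.symm, xv.symm, vy.ne, xy⟩, by omega, by omega, by omega, by omega, p⟩

theorem Mn.pl' (h : Mn D m) (xy : (supp m).Adj x y) : Planar (supp m ⊔ SimpleGraph.edge x y) := by
  rw [SimpleGraph.sup_edge_of_adj _ xy]
  exact h.pl

/-- an edge of a triangle is single -/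
theorem Mn.single (h : Mn D m) (uv : (supp m).Adj u v) (ux : (supp m).Adj u x)
    (vx : (supp m).Adj v x) : m u v = 1 := by
  obtain ⟨ι, _, B, E⟩ := h.emb
  obtain ⟨y, y1, y2, y3, y4⟩ := E.chord2 uv vx ux
  have a1 := h.adj.1 uv
  have a2 := h.le u v
  by_contra n
  exact h.adj.1 vx.symm (h.core u v x y (h.ok uv ux y1 vx.ne' y2 y3.symm (by omega) y4)
    (by omega)).2.2

/-- double edges -/
def Dbl (m : V → V → ℕ) (e : Sym2 V) : Prop := ∃ a b, e = s(a, b) ∧ m a b = 2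

/-- edges of triangles -/
def Tri (m : V → V → ℕ) (e : Sym2 V) : Prop := ∃ w, ∀ a ∈ e, (supp m).Adj a w

theorem Mn.dbl (h : Mn D m) {a b : V} : Dbl m s(a, b) ↔ m a b = 2 := by
  refine ⟨?_, fun k => ⟨a, b, rfl, k⟩⟩
  rintro ⟨p, q, e, k⟩
  rcases Sym2.eq_iff.1 e with ⟨rfl, rfl⟩ | ⟨rfl, rfl⟩
  exacts [k, h.T.symm _ _ ▸ k]

omit [Fintype V] [DecidableEq V] in
theorem tri_iff {a b : V} : Tri m s(a, b) ↔ ∃ w, (supp m).Adj a w ∧ (supp m).Adj b w := by
  simp [Tri]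

/-- the switch at a double edge of a member -/
theorem Mn.at (h : Mn D m) (E : Emb (supp m) B) {i : ι} (p : P3 (B i) x u v y) (k : m u v = 2) :
    m x y = 0 ∧ ∃ c : Fin D → V → V, Sw m u v x y c := by
  have uv := Low.adj (E.mem i) p.uv
  have ux := Low.adj (E.mem i) p.ux
  have vy := Low.adj (E.mem i) p.vy
  have xy : x ≠ y := by
    rintro rfl
    have := h.single uv ux vy
    omega
  have o := h.ok uv ux vy p.xv p.yu xy (Or.inl k) (E.chord3 p xy)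
  exact ⟨(h.core u v x y o k.ge).2.1, h.sw u v x y o⟩

theorem Mn.five (h : Mn D m) (E : Emb (supp m) B) {i : ι} {e : Sym2 V} (he : e ∈ es (B i))
    (k : Dbl m e) : 5 ≤ #(es (B i)) := by
  obtain ⟨u, v, rfl, k⟩ := k
  obtain ⟨x, y, p⟩ := ex_p3 (E.mem i) (mem_es.1 he)
  obtain ⟨h1, c, h2⟩ := h.at E p k
  have h3 := p.three (E.mem i)
  have h4 : #(es (B i)) ≠ 3 := fun t => h2.ds.xy (p.tri (E.mem i) t).1
  have h5 : #(es (B i)) ≠ 4 := fun t => h.adj.1 (Low.adj (E.mem i) (p.quad (E.mem i) t).2) h1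
  omega

/-- a cut in which all other edges have the colour `l` -/
theorem Mn.pure (h : Mn D m) (E : Emb (supp m) B) {i : ι} (p : P3 (B i) x u v y) (k : m u v = 2)
    (k0 : m x y = 0) (s : Sw m u v x y c) {l : Fin D} (hl : c l x ≠ y)
    (hf : ∀ j ∈ fr c u v x y, j = l) : ∃ a b, s(a, b) ∈ es (B i) ∧ cl c a b = {l} ∧ m a b = 1 ∧
      ¬ Tri m s(a, b) ∧ s(a, b) ≠ s(u, x) ∧ s(a, b) ≠ s(v, y) ∧ (m u x = 2 → x ∉ s(a, b)) ∧
      (m v y = 2 → y ∉ s(a, b)) := by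
  obtain ⟨X, K⟩ := s.mate l hl
  obtain ⟨a, ha, b, hb, h1, h2⟩ := cross (E.mem i) K.1 K.2.2.1 p.uv
  have ab := Low.adj (E.mem i) h1
  have n : ∀ {a b}, (supp m).Adj a b → ¬ (a = x ∧ b = y) := fun t e =>
    h.adj.1 t (e.1 ▸ e.2 ▸ k0)
  have ex : ∀ {a b}, a ∈ X → b ∉ X → ¬ (a = u ∧ b = v) → (supp m).Adj a b → c l a = b :=
    fun k1 k2 k3 k4 => by
      obtain ⟨j, j1, j2⟩ := s.ex K k1 k2 k3 (n k4) (h.adj.1 k4)
      exact (j2.elim id (hf j)) ▸ j1
  obtain ⟨h3, h4⟩ := s.key K ha hb h2 (n ab)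
  have h5 := ex ha hb h2 ab
  have h6 : cl c a b = {l} := eq_singleton_iff_unique_mem.2
    ⟨mem_cl.2 h5, fun j hj => (h4 j (mem_cl.1 hj)).elim id (hf j)⟩
  have n1 : a ≠ v := fun e => K.2.2.1 (e ▸ ha)
  have n2 : a ≠ y := fun e => K.2.2.2.1 (e ▸ ha)
  have n3 : b ≠ u := fun e => hb (e ▸ K.1)
  have n4 : b ≠ x := fun e => hb (e ▸ K.2.1)
  refine ⟨a, b, mem_es.2 h1, h6, by rw [← h3, h6, card_singleton], ?_, by simp [n3, n4],
    by simp [n1, n2], fun t e => ?_, fun t e => ?_⟩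
  · rintro t
    obtain ⟨w, w1, w2⟩ := tri_iff.1 t
    by_cases hw : w ∈ X
    · refine w1.ne (s.inj h5 (ex hw hb (fun e => ?_) w2.symm))
      have := h.single (e.1 ▸ e.2 ▸ w2.symm : (supp m).Adj u v) (e.1 ▸ w1.symm) (e.2 ▸ ab.symm)
      omega
    · refine w2.ne (h5.symm.trans (ex ha hw (fun e => ?_) w1))
      have := h.single (e.1 ▸ e.2 ▸ w1 : (supp m).Adj u v) (e.1 ▸ ab) (e.2 ▸ w2.symm)
      omega
  · have := s.cU
    obtain ⟨j, hj⟩ := card_pos.1 (show 0 < #(cl c u x) by omega)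
    have j1 := mem_cl.1 hj
    have j2 := (pm_symm (s.pm j)).1 j1
    obtain rfl := hf j (mem_fr.2 ⟨j1 ▸ s.ds.vx.symm, j2 ▸ s.ds.uy⟩)
    rcases Sym2.mem_iff.1 e with rfl | rfl
    exacts [n3 (h5.symm.trans j2), n4 rfl]
  · have := s.cV
    obtain ⟨j, hj⟩ := card_pos.1 (show 0 < #(cl c v y) by omega)
    have j1 := mem_cl.1 hj
    obtain rfl := hf j (mem_fr.2 ⟨fun e => s.ds.uy (((pm_symm (s.pm j)).1 e).symm.trans j1),
      fun e => s.ds.vx (s.inj j1 e)⟩)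
    rcases Sym2.mem_iff.1 e with rfl | rfl
    exacts [n2 rfl, n1 (s.inj h5 j1)]

open Classical in
theorem Mn.count [Nonempty V] (h : Mn D m) (E : Emb (supp m) B) (w : ι → Sym2 V → ℕ) {α β : ℕ}
    (h1 : α * D = 2 * β) (hE : ∀ e i k, i ≠ k → B i e ≠ 0 → B k e ≠ 0 →
      (∀ j, B j e ≠ 0 → j = i ∨ j = k) → w i e + w k e + α * (if Dbl m e then 2 else 1) ≤ β)
    (hF : ∀ i, β ≤ ∑ e ∈ es (B i), w i e) (h0 : 0 < β) : False := by
  let μ : Sym2 V → ℕ := fun e => if Dbl m e then 2 else 1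
  have k1 : ∀ v, ∑ e ∈ (supp m).edgeFinset with v ∈ e, μ e = D := fun v => by
    rw [← h.T.deg v, ← sum_filter_ne_zero univ]
    refine (sum_bij (fun w _ => s(v, w)) (fun w hw => ?_) (fun _ _ _ _ => Sym2.congr_right.1)
      (fun e he => ?_) fun w hw => ?_).symm
    · simpa using h.adj.2 (mem_filter.1 hw).2
    · obtain ⟨w, rfl⟩ := Sym2.mem_iff_exists.1 (mem_filter.1 he).2
      exact ⟨w, mem_filter.2 ⟨mem_univ _, h.adj.1 (by simpa using (mem_filter.1 he).1)⟩, rfl⟩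
    · have := (mem_filter.1 hw).2
      have := h.le v w
      simp only [μ, h.dbl]
      split_ifs <;> omega
  have k2 : Fintype.card V * D = 2 * ∑ e ∈ (supp m).edgeFinset, μ e := by
    rw [← smul_eq_mul, ← card_univ, ← sum_const, ← sum_congr rfl fun v _ => k1 v]
    simp only [sum_filter]
    rw [sum_comm, mul_sum]
    exact sum_congr rfl fun e he => by
      rw [← sum_filter, sum_const, ← Config.two (SimpleGraph.mem_edgeFinset.1 he), smul_eq_mul]
      congr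
  have k3 : ∑ i, ∑ e ∈ es (B i), w i e =
      ∑ e ∈ (supp m).edgeFinset, ∑ i with B i e ≠ 0, w i e :=
    sum_comm' fun i e => by
      simp only [mem_univ, true_and, mem_es, mem_filter, SimpleGraph.mem_edgeFinset]
      exact ⟨fun t => ⟨t, (E.mem i).1 e t⟩, fun t => t.1⟩
  have k4 : ∀ e ∈ (supp m).edgeFinset, ∑ i with B i e ≠ 0, w i e + α * μ e ≤ β := fun e he => by
    obtain ⟨i, k, ik, t⟩ := card_eq_two.1 (E.two e (SimpleGraph.mem_edgeFinset.1 he))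
    rw [t, sum_pair ik]
    exact hE e i k ik (mem_filter.1 (t.ge (mem_insert_self i {k}))).2
      (mem_filter.1 (t.ge (mem_insert_of_mem (mem_singleton_self k)))).2 fun j hj => by
        simpa using t.le (mem_filter.2 ⟨mem_univ j, hj⟩)
  have k5 := sum_le_card_nsmul _ _ β k4
  have k6 := card_nsmul_le_sum univ _ β fun i _ => hF i
  have k7 := E.euler
  rw [sum_add_distrib, ← k3, ← mul_sum, smul_eq_mul] at k5
  rw [card_univ, smul_eq_mul] at k6
  have k8 : α * ∑ e ∈ (supp m).edgeFinset, μ e = Fintype.card V * β := by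
    refine Nat.eq_of_mul_eq_mul_left two_pos ?_
    rw [mul_left_comm, ← k2, mul_left_comm, h1, mul_left_comm]
  have k9 := Nat.mul_lt_mul_of_pos_right k7 h0
  rw [add_mul] at k9
  omega

/-- the edge `uv` of the triangle `uvx` lies in a second triangle -/
def Two (m : V → V → ℕ) (u v x : V) : Prop := ∃ z, z ≠ x ∧ (supp m).Adj u z ∧ (supp m).Adj v z

open Classical in
theorem Mn.count2 [Nonempty V] (h : Mn D m) (E : Emb (supp m) B) (α β p q r δ ε : ℕ)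
    (h1 : α * D = 2 * β) (h0 : 0 < β) (hq : q = r + δ) (h2 : 2 * p + 2 * α ≤ β)
    (h3 : 2 * q + α ≤ β) (h4 : q + ε + r + α ≤ β)
    (ht : ∀ u v x, (supp m).Adj u v → (supp m).Adj v x → (supp m).Adj u x →
      β ≤ 3 * q + ((if Two m u v x then 0 else ε) + (if Two m x v u then 0 else ε) +
        if Two m x u v then 0 else ε))
    (hn : ∀ i, 4 ≤ #(es (B i)) → β ≤ p * #{e ∈ es (B i) | Dbl m e} +
      r * #{e ∈ es (B i) | ¬ Dbl m e} + δ * #{e ∈ es (B i) | ¬ Dbl m e ∧ ¬ Tri m e}) : False := by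
  refine h.count E (fun i e => if Dbl m e then p else if #(es (B i)) = 3 then
    (if ∃ k ≠ i, #(es (B k)) = 3 ∧ B k e ≠ 0 then q else q + ε)
    else if ∃ k, #(es (B k)) = 3 ∧ B k e ≠ 0 then r else q) h1 (fun e i k ik a b t => ?_)
    (fun i => ?_) h0
  · by_cases d : Dbl m e
    · simp only [if_pos d]
      omega
    simp only [if_neg d]
    by_cases ti : #(es (B i)) = 3 <;> by_cases tk : #(es (B k)) = 3
    · rw [if_pos ti, if_pos tk, if_pos ⟨k, ik.symm, tk, b⟩, if_pos ⟨i, ik, ti, a⟩]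
      omega
    · rw [if_pos ti, if_neg tk, if_pos (c := ∃ k, #(es (B k)) = 3 ∧ B k e ≠ 0) ⟨i, ti, a⟩]
      split_ifs <;> omega
    · rw [if_neg ti, if_pos tk, if_pos (c := ∃ k, #(es (B k)) = 3 ∧ B k e ≠ 0) ⟨k, tk, b⟩]
      split_ifs <;> omega
    · rw [if_neg ti, if_neg tk]
      split_ifs <;> omega
  obtain ⟨x, u, v, y, P⟩ := E.edge i
  by_cases ti : #(es (B i)) = 3
  · obtain ⟨rfl, t⟩ := P.tri (E.mem i) ti
    have uv := Low.adj (E.mem i) P.uv
    have ux := Low.adj (E.mem i) P.ux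
    have vx := Low.adj (E.mem i) P.vy
    have e : es (B i) = {s(u, v), s(x, v), s(x, u)} := by
      ext e
      simp only [mem_insert, mem_singleton, Sym2.eq_swap (a := x)]
      refine ⟨t e, ?_⟩
      rintro (rfl | rfl | rfl)
      exacts [mem_es.2 P.uv, mem_es.2 P.vy, mem_es.2 P.ux]
    have k : ∀ a b z, B i s(a, b) ≠ 0 → B i s(b, z) ≠ 0 → (supp m).Adj a z →
        q + (if Two m a b z then 0 else ε) ≤ if Dbl m s(a, b) then p else
          if ∃ k ≠ i, #(es (B k)) = 3 ∧ B k s(a, b) ≠ 0 then q else q + ε := fun a b z k1 k2 k3 => by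
      have := h.single (Low.adj (E.mem i) k1) k3 (Low.adj (E.mem i) k2)
      rw [if_neg (h.dbl.not.2 (by omega))]
      by_cases k4 : ∃ k ≠ i, #(es (B k)) = 3 ∧ B k s(a, b) ≠ 0
      · obtain ⟨k, k5, k6, k7⟩ := id k4
        rw [if_pos k4, if_pos (show Two m a b z from E.apex k5 k6 k1 k2 k3 k7), add_zero]
      · rw [if_neg k4]
        split_ifs <;> omega
    have k1 := k u v x P.uv P.vy ux
    have k2 := k x v u (Sym2.eq_swap ▸ P.vy) (Sym2.eq_swap ▸ P.uv) ux.symm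
    have k3 := k x u v (Sym2.eq_swap ▸ P.ux) P.uv vx.symm
    have k4 := ht u v x uv vx ux
    simp only [if_pos ti]
    rw [e, sum_insert (by simp [uv.ne, ux.ne, vx.ne, uv.ne']), sum_pair (by simp [uv.ne', ux.ne'])]
    omega
  · have := P.three (E.mem i)
    refine (hn i (by omega)).trans ?_
    simp only [card_filter, mul_sum, ← sum_add_distrib, if_neg ti]
    refine sum_le_sum fun e he => ?_
    by_cases d : Dbl m e
    · simp [d]
    by_cases t : Tri m e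
    · simp only [d, t, if_true, if_false, not_true, not_false_iff, and_false]
      split_ifs <;> omega
    · rw [if_neg d, if_neg d, if_pos d, if_pos ⟨d, t⟩, if_neg]
      · omega
      rintro ⟨k, k1, k2⟩
      induction e using Sym2.ind with
      | _ a b =>
        obtain ⟨z, y, P'⟩ := ex_p3 (E.mem k) k2
        obtain ⟨rfl, -⟩ := P'.tri (E.mem k) k1
        exact t (tri_iff.2 ⟨z, Low.adj (E.mem k) P'.ux, Low.adj (E.mem k) P'.vy⟩)

end Low

end Pool.Agent.Lib.MP_fe5cb4_co.Sey
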