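import Pool.Agent.Lib.MP_fe5cb4_co.Sey.St

/-!
Chains modulo two, the normal form of a planar structure, walks and chords.
-/

set_option autoImplicit false

namespace Pool.Agent.Lib.MP_fe5cb4_co.Sey

open Finset

namespace Norm

variable {V : Type} [Fintype V] [DecidableEq V] {G : SimpleGraph V}

/-- chains modulo two -/
abbrev Ch (V : Type) : Type := Sym2 V → ZMod 2

/-- the boundary of a chain -/
def bd (c : Ch V) (v : V) : ZMod 2 := ∑ w, c s(v, w)

/-- the chain of one edge -/
def one (a b : V) : Ch V := Pi.single s(a, b) 1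

omit [DecidableEq V] in
theorem bd_add (c c' : Ch V) (v : V) : bd (c + c') v = bd c v + bd c' v := sum_add_distrib

/-- the cycle space -/
def Z (G : SimpleGraph V) : Submodule (ZMod 2) (Ch V) where
  carrier := {c | (∀ e, c e ≠ 0 → e ∈ G.edgeSet) ∧ ∀ v, bd c v = 0}
  add_mem' {c c'} h h' := ⟨fun e he => by
    by_cases k : c e = 0
    · exact h'.1 e fun k' => he (by rw [Pi.add_apply, k, k', add_zero])
    · exact h.1 e k, fun v => by rw [bd_add, h.2, h'.2, add_zero]⟩
  zero_mem' := ⟨fun _ h => absurd rfl h, fun _ => sum_const_zero⟩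
  smul_mem' r c h := ⟨fun e he => h.1 e (right_ne_zero_of_mul he), fun v =>
    (mul_sum univ (fun w => c s(v, w)) r).symm.trans (mul_eq_zero_of_right r (h.2 v))⟩

omit [DecidableEq V] in
theorem mem_Z {c : Ch V} : c ∈ Z G ↔ (∀ e, c e ≠ 0 → e ∈ G.edgeSet) ∧ ∀ v, bd c v = 0 := Iff.rfl

theorem ne_zero_iff {a : ZMod 2} : a ≠ 0 ↔ a = 1 := by revert a; decide

theorem add_self (a : ZMod 2) : a + a = 0 := by revert a; decide

omit [Fintype V] in
theorem one_ne {a b : V} {e : Sym2 V} (h : one a b e ≠ 0) : e = s(a, b) :=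
  by_contra fun k => h (Pi.single_eq_of_ne k _)

omit [Fintype V] in
theorem one_self (a b : V) : one a b s(a, b) = 1 := Pi.single_eq_same _ _

theorem bd_one {a b : V} (h : a ≠ b) (v : V) :
    bd (one a b) v = (if v = a then 1 else 0) + if v = b then 1 else 0 := by
  by_cases ha : v = a
  · rw [bd, sum_eq_single b, ha, one_self, if_pos rfl, if_neg h, add_zero]
    · exact fun w _ hw => by_contra fun k => hw (Sym2.congr_right.1 (ha ▸ one_ne k))
    · simp
  by_cases hb : v = b
  · rw [bd, sum_eq_single a, hb, Sym2.eq_swap, one_self, if_pos rfl, if_neg h.symm, zero_add]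
    · exact fun w _ hw => by_contra fun k => hw
        (Sym2.congr_right.1 ((one_ne k).trans (hb ▸ Sym2.eq_swap)))
    · simp
  rw [if_neg ha, if_neg hb, add_zero]
  refine sum_eq_zero fun w _ => by_contra fun k => ?_
  rcases Sym2.eq_iff.1 (one_ne k) with k | k
  exacts [ha k.1, hb k.1]

/-- a sum modulo two is the number of non-zero terms -/
theorem sum_eq_card {ι : Type} (s : Finset ι) (f : ι → ZMod 2) :
    ∑ i ∈ s, f i = (#{i ∈ s | f i ≠ 0} : ℕ) := by
  rw [card_filter, Nat.cast_sum]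
  refine sum_congr rfl fun i _ => ?_
  generalize f i = a
  revert a
  decide

omit [DecidableEq V] in
theorem cyc_iff {c : Ch V} : Cyc G {e | c e ≠ 0} ↔ c ∈ Z G := by
  refine and_congr Iff.rfl (forall_congr' fun v => ?_)
  have e : {e | e ∈ {e | c e ≠ 0} ∧ v ∈ e} =
      (fun w => s(v, w)) '' ↑({w | c s(v, w) ≠ 0} : Finset V) := by
    ext e
    constructor
    · rintro ⟨h1, h2⟩
      obtain ⟨w, rfl⟩ := Sym2.mem_iff_exists.1 h2
      exact ⟨w, by simpa using h1, rfl⟩
    · rintro ⟨w, h, rfl⟩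
      exact ⟨by simpa using h, Sym2.mem_mk_left _ _⟩
  rw [e, Set.ncard_image_of_injective _ fun _ _ => Sym2.congr_right.1, Set.ncard_coe_finset, bd,
    sum_eq_card, ZMod.natCast_eq_zero_iff_even]

omit [DecidableEq V] in
/-- planarity in terms of chains -/
theorem planar_iff : Planar G ↔ ∃ (ι : Type) (_ : Fintype ι) (B : ι → Ch V), (∀ i, B i ∈ Z G) ∧
    (∀ e, #{i | B i e ≠ 0} ≤ 2) ∧ Z G ≤ Submodule.span (ZMod 2) (Set.range B) := by
  classical
  constructor
  · rintro ⟨n, B, h1, h2, h3⟩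
    have k : ∀ i, {e | (if e ∈ B i then 1 else 0 : ZMod 2) ≠ 0} = B i := fun i => by
      ext e
      simp
    refine ⟨Fin n, inferInstance, fun i e => if e ∈ B i then 1 else 0,
      fun i => cyc_iff.1 ((k i).symm ▸ h1 i), fun e => ?_, fun c hc => ?_⟩
    · rw [← Set.ncard_coe_finset]
      simpa using h2 e
    · obtain ⟨I, hI⟩ := h3 _ (cyc_iff.2 hc)
      have : c = ∑ i ∈ {i | i ∈ I}, fun e => (if e ∈ B i then 1 else 0 : ZMod 2) := by
        funext e
        have h4 : {i | i ∈ I ∧ e ∈ B i}.ncard =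
            #{i ∈ ({i | i ∈ I} : Finset _) | (if e ∈ B i then 1 else 0 : ZMod 2) ≠ 0} := by
          rw [← Set.ncard_coe_finset]
          congr 1
          ext i
          simp
        have h5 := hI e
        rw [h4, ← ZMod.natCast_eq_one_iff_odd, Set.mem_ofPred_eq, ne_zero_iff] at h5
        rw [Finset.sum_apply, sum_eq_card]
        revert h5
        generalize c e = a
        generalize ((#{i ∈ ({i | i ∈ I} : Finset _) |
          (if e ∈ B i then 1 else 0 : ZMod 2) ≠ 0} : ℕ) : ZMod 2) = b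
        revert a b
        decide
      exact this ▸ Submodule.sum_mem _ fun i _ => Submodule.subset_span ⟨i, rfl⟩
  · rintro ⟨ι, _, B, h1, h2, h3⟩
    let E := (Fintype.equivFin ι).symm
    refine ⟨_, fun i => {e | B (E i) e ≠ 0}, fun i => cyc_iff.2 (h1 _), fun e => ?_,
      fun C hC => ?_⟩
    · refine le_trans (le_of_eq ?_) (h2 e)
      rw [← Set.ncard_coe_finset, ← Set.ncard_image_of_injective _ E.injective]
      congr 1
      ext i
      simp
    · have k : {e | (if e ∈ C then 1 else 0 : ZMod 2) ≠ 0} = C := by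
        ext e
        simp
      obtain ⟨r, hr⟩ := (Submodule.mem_span_range_iff_exists_fun _).1
        (h3 (cyc_iff.1 (k.symm ▸ hC)))
      refine ⟨{i | r (E i) ≠ 0}, fun e => ?_⟩
      have h4 := congrFun hr e
      rw [Finset.sum_apply, ← E.sum_comp, sum_eq_card] at h4
      have h5 : {i | i ∈ {i | r (E i) ≠ 0} ∧ e ∈ {e | B (E i) e ≠ 0}}.ncard =
          #{i | (r (E i) • B (E i)) e ≠ 0} := by
        rw [← Set.ncard_coe_finset]
        congr 1
        ext i
        simp
      rw [h5, ← ZMod.natCast_eq_one_iff_odd, h4]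
      simp

omit [DecidableEq V] in
/-- the normal form: no member is empty and every edge is in no member or in two members -/
theorem normal (h : Planar G) : ∃ (ι : Type) (_ : Fintype ι) (B : ι → Ch V), (∀ i, B i ∈ Z G) ∧
    (∀ i, B i ≠ 0) ∧ (∀ e, #{i | B i e ≠ 0} = 0 ∨ #{i | B i e ≠ 0} = 2) ∧
    Z G ≤ Submodule.span (ZMod 2) (Set.range B) := by
  classical
  obtain ⟨ι, _, B, h1, h2, h3⟩ := planar_iff.1 h
  let B' : Option ι → Ch V := fun o => o.elim (∑ i, B i) B
  refine ⟨{o // B' o ≠ 0}, inferInstance, fun o => B' o.1, ?_, fun o => o.2, fun e => ?_,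
    h3.trans (Submodule.span_le.2 ?_)⟩
  · rintro ⟨_ | i, -⟩
    exacts [Submodule.sum_mem _ fun i _ => h1 i, h1 i]
  · have e1 : #{o : {o // B' o ≠ 0} | B' o.1 e ≠ 0} = #{o | B' o e ≠ 0} :=
      card_bij (fun o _ => o.1) (by simp) (fun _ _ _ _ => Subtype.ext) fun o ho =>
        ⟨⟨o, fun k => (mem_filter.1 ho).2 (congrFun k e)⟩, by simpa using ho, rfl⟩
    have e2 : (∑ i, B i) e = (#{i | B i e ≠ 0} : ℕ) := by rw [Finset.sum_apply, sum_eq_card]
    have e3 := h2 e
    have e4 : ∀ n : ℕ, n ≤ 2 → (if (n : ZMod 2) ≠ 0 then 1 else 0) + n = 0 ∨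
        (if (n : ZMod 2) ≠ 0 then 1 else 0) + n = 2 := by decide
    rw [e1, card_filter, Fintype.sum_option, ← card_filter]
    simp only [B', Option.elim_none, Option.elim_some, e2]
    exact e4 _ e3
  · rintro _ ⟨i, rfl⟩
    by_cases k : B i = 0
    · rw [k]
      exact zero_mem _
    · exact Submodule.subset_span ⟨⟨some i, k⟩, rfl⟩

omit [Fintype V] [DecidableEq V] in
/-- a linear relation between two coordinates passes to the span -/
theorem span_eq {ι : Type} {B : ι → Ch V} {e e' : Sym2 V} (h : ∀ i, B i e = B i e') {c : Ch V}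
    (hc : c ∈ Submodule.span (ZMod 2) (Set.range B)) : c e = c e' := by
  induction hc using Submodule.span_induction with
  | mem _ k => obtain ⟨i, rfl⟩ := k; exact h i
  | zero => rfl
  | add _ _ _ _ a b => rw [Pi.add_apply, Pi.add_apply, a, b]
  | smul r _ _ a => rw [Pi.smul_apply, Pi.smul_apply, a]

omit [Fintype V] [DecidableEq V] in
/-- an edge of an element of the span is an edge of a member -/
theorem span_ex {ι : Type} {B : ι → Ch V} {e : Sym2 V} {c : Ch V}
    (hc : c ∈ Submodule.span (ZMod 2) (Set.range B)) (he : c e ≠ 0) : ∃ i, B i e ≠ 0 := by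
  by_contra! h
  refine he ?_
  clear he
  induction hc using Submodule.span_induction with
  | mem _ k => obtain ⟨i, rfl⟩ := k; exact h i
  | zero => rfl
  | add _ _ _ _ a b => rw [Pi.add_apply, a, b, add_zero]
  | smul r _ _ a => rw [Pi.smul_apply, a, smul_zero]

/-- the edge sum of a walk -/
theorem walk {R : V → V → Prop} (hR : ∀ s t, R s t → s ≠ t) {a b : V}
    (h : Relation.ReflTransGen R a b) : ∃ c : Ch V, (∀ e, c e ≠ 0 → ∃ s t, R s t ∧ e = s(s, t)) ∧
      ∀ v, bd c v = (if v = a then 1 else 0) + if v = b then 1 else 0 := by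
  induction h with
  | refl => exact ⟨0, fun _ h => absurd rfl h, fun v => sum_const_zero.trans (add_self _).symm⟩
  | @tail s t _ k ih =>
    obtain ⟨c, h1, h2⟩ := ih
    refine ⟨c + one s t, fun e he => ?_, fun v => ?_⟩
    · by_cases k' : c e = 0
      · exact ⟨s, t, k, one_ne fun k'' => he (by rw [Pi.add_apply, k', k'', add_zero])⟩
      · exact h1 e k'
    · rw [bd_add, h2, bd_one (hR s t k), add_assoc, ← add_assoc (if v = s then _ else _), add_self,
        zero_add]

/-- an even set whose edges at `v` are `va` and `vb` -/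
theorem loc (h : Loc2 G) {v a b : V} (ha : G.Adj v a) (hb : G.Adj v b) (hab : a ≠ b) :
    ∃ c ∈ Z G, c s(v, a) = 1 ∧ c s(v, b) = 1 ∧ ∀ w, w ≠ a → w ≠ b → c s(v, w) = 0 := by
  obtain ⟨c, h1, h2⟩ := walk (fun s t k => k.1.ne) (h v a b ha hb)
  have h3 : ∀ w, c s(v, w) = 0 := fun w => by_contra fun k => by
    obtain ⟨s, t, k1, k2⟩ := h1 _ k
    rcases Sym2.eq_iff.1 k2 with k | k
    exacts [k1.2.1 k.1.symm, k1.2.2 k.1.symm]
  have h4 : ∀ {a w : V}, w ≠ a → one v a s(v, w) = 0 := fun k =>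
    by_contra fun k' => k (Sym2.congr_right.1 (one_ne k'))
  refine ⟨c + (one v a + one v b), ⟨fun e he => ?_, fun w => ?_⟩, ?_, ?_, fun w k k' => ?_⟩
  · by_cases k : c e = 0
    · by_cases k' : one v a e = 0
      · exact one_ne (a := v) (b := b) (e := e) (fun k'' => he (by simp [k, k', k''])) ▸ hb
      · exact one_ne k' ▸ ha
    · obtain ⟨s, t, k1, rfl⟩ := h1 e k
      exact k1.1
  · rw [bd_add, bd_add, h2, bd_one ha.ne, bd_one hb.ne]
    generalize (if w = a then 1 else 0 : ZMod 2) = p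
    generalize (if w = b then 1 else 0 : ZMod 2) = q
    generalize (if w = v then 1 else 0 : ZMod 2) = r
    revert p q r
    decide
  · simp [h3, h4 hab, one_self]
  · simp [h3, h4 hab.symm, one_self]
  · simp [h3, h4 k, h4 k']

omit [DecidableEq V] in
/-- an even set has a second edge at every vertex that it meets -/
theorem second {c : Ch V} (hc : c ∈ Z G) {v a : V} (h : c s(v, a) ≠ 0) :
    ∃ b, b ≠ a ∧ c s(v, b) ≠ 0 ∧ G.Adj v b := by
  by_contra! k
  refine h ((sum_eq_single a (fun b _ hb => by_contra fun k' => k b hb k' (hc.1 _ k')) ?_).symm.trans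
    (hc.2 v))
  simp

/-- an edge with a second edge at one of its ends lies in a member -/
theorem ex_mem {ι : Type} {B : ι → Ch V} (h : Loc2 G)
    (h3 : Z G ≤ Submodule.span (ZMod 2) (Set.range B)) {v a b : V} (ha : G.Adj v a)
    (hb : G.Adj v b) (hab : a ≠ b) : ∃ i, B i s(v, a) ≠ 0 := by
  obtain ⟨c, h1, h2, -⟩ := loc h ha hb hab
  exact span_ex (h3 h1) (h2 ▸ one_ne_zero)

/-- two members do not share two edges at a vertex that has a third edge -/
theorem no_pair {ι : Type} [Fintype ι] {B : ι → Ch V} (h : Loc2 G)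
    (h2 : ∀ e, #{i | B i e ≠ 0} ≤ 2) (h3 : Z G ≤ Submodule.span (ZMod 2) (Set.range B))
    {v a b z : V} (ha : G.Adj v a) (hz : G.Adj v z) (hza : z ≠ a) (hzb : z ≠ b) (hab : a ≠ b)
    {i j : ι} (hij : i ≠ j) (ia : B i s(v, a) ≠ 0) (ib : B i s(v, b) ≠ 0) (ja : B j s(v, a) ≠ 0)
    (jb : B j s(v, b) ≠ 0) : False := by
  classical
  have k : ∀ e l, B i e ≠ 0 → B j e ≠ 0 → l ≠ i → l ≠ j → B l e = 0 := fun e l p q r s =>
    by_contra fun t => by
      have u := (card_le_card (s := {l, i, j}) (by simp [insert_subset_iff, p, q, t])).trans (h2 e)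
      rw [card_eq_three.2 ⟨l, i, j, r, s, hij, rfl⟩] at u
      omega
  obtain ⟨c, h4, h5, -, h6⟩ := loc h ha hz hza.symm
  refine one_ne_zero (h5.symm.trans ((span_eq (fun l => ?_) (h3 h4)).trans (h6 b hab.symm hzb.symm)))
  by_cases p : l = i
  · rw [p, ne_zero_iff.1 ia, ne_zero_iff.1 ib]
  by_cases q : l = j
  · rw [q, ne_zero_iff.1 ja, ne_zero_iff.1 jb]
  rw [k _ l ia ja p q, k _ l ib jb p q]

end Norm

end Pool.Agent.Lib.MP_fe5cb4_co.Sey
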