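import Pool.Agent.Lib.MP_fe5cb4_co.Sey.Cr

set_option autoImplicit false
set_option linter.unusedSectionVars false
set_option linter.unusedSimpArgs false

namespace Pool.Agent.Lib.MP_fe5cb4_co.Sey

open Finset Relation

namespace CoreL

variable {V : Type} [Fintype V] [DecidableEq V]

/-- the ring family: odd sets separating `u,x` from `v,y` met once by all colours outside `J` -/
def Rg {ι : Type} (c : ι → V → V) (J : Set ι) (u v x y : V) (X : Finset V) : Prop :=
  Odd #X ∧ u ∈ X ∧ x ∈ X ∧ v ∉ X ∧ y ∉ X ∧ ∀ i, i ∉ J → cr (c i) X = 1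

/-- arcs of the ring family -/
def Arc {ι : Type} (c : ι → V → V) (J : Set ι) (u v x y : V) (s t : V) : Prop :=
  t ≠ u ∧ t ≠ v ∧ ∀ X, Rg c J u v x y X → s ∈ X → t ∈ X

theorem stay {f : V → V} {X : Finset V} {x : V} (h : cr f X = 1) (hx : x ∈ X) (hx' : f x ∉ X)
    {t : V} (ht : t ∈ X) (htx : t ≠ x) : f t ∈ X := by
  by_contra h'
  exact cr_ne_one ht h' hx hx' htx h

theorem Rg_lattice2 {ι : Type} {c : ι → V → V} (hc : ∀ i, IsPM (c i)) {J : Set ι} {u v x y : V}
    {b : ι} (hb : b ∉ J) (hbx : c b x = y ∨ c b x = v) {X Y : Finset V} (hX : Rg c J u v x y X)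
    (hY : Rg c J u v x y Y) : Rg c J u v x y (X ∩ Y) ∧ Rg c J u v x y (X ∪ Y) := by
  obtain ⟨-, hu, hx, hv, hy, h⟩ := hX
  obtain ⟨-, hu', hx', hv', hy', h'⟩ := hY
  have n1 : c b x ∉ X := by rcases hbx with e | e <;> rwa [e]
  have n2 : c b x ∉ Y := by rcases hbx with e | e <;> rwa [e]
  have e1 : cr (c b) (X ∩ Y) = 1 := by
    refine cr_eq_one (s := x) (mem_inter.2 ⟨hx, hx'⟩) (by simp [n1]) fun t ht htx => ?_
    rw [mem_inter] at ht ⊢
    exact ⟨stay (h b hb) hx n1 ht.1 htx, stay (h' b hb) hx' n2 ht.2 htx⟩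
  have e2 : cr (c b) (X ∪ Y) = 1 := by
    refine cr_eq_one (s := x) (mem_union.2 (Or.inl hx)) (by simp [n1, n2]) fun t ht htx => ?_
    rw [mem_union] at ht ⊢
    exact ht.imp (fun ht => stay (h b hb) hx n1 ht htx) (fun ht => stay (h' b hb) hx' n2 ht htx)
  have o1 : Odd #(X ∩ Y) := by rw [Nat.odd_iff, ← cr_parity (hc b), e1]
  have o2 : Odd #(X ∪ Y) := by rw [Nat.odd_iff, ← cr_parity (hc b), e2]
  have key : ∀ i, i ∉ J → cr (c i) (X ∩ Y) = 1 ∧ cr (c i) (X ∪ Y) = 1 := by
    intro i hi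
    have a1 := cr_submod (c i) X Y
    have a2 := cr_odd (hc i) o1
    have a3 := cr_odd (hc i) o2
    have a4 := h i hi
    have a5 := h' i hi
    omega
  exact ⟨⟨o1, mem_inter.2 ⟨hu, hu'⟩, mem_inter.2 ⟨hx, hx'⟩, by simp [hv], by simp [hy],
      fun i hi => (key i hi).1⟩,
    ⟨o2, mem_union.2 (Or.inl hu), mem_union.2 (Or.inl hx), by simp [hv, hv'], by simp [hy, hy'],
      fun i hi => (key i hi).2⟩⟩

/-- walks from `x` never visit `u`, `v` -/
theorem avoid {κ : Type} {h : κ → V → V} (hh : ∀ k, IsPM (h k)) {u v : V} (huv : ∀ k, h k u = v)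
    {s : V} (hs : s ≠ u ∧ s ≠ v) (k : κ) : h k s ≠ u ∧ h k s ≠ v := by
  constructor
  · intro h1
    exact hs.2 (by rw [← huv k, ← h1, (hh k).1])
  · intro h1
    exact hs.1 (IsPM_inj (hh k) (h1.trans (huv k).symm))

theorem ring_reach2 {d : ℕ} {m m' : V → V → ℕ} {u v x y : V} (hm : Target (d + 1) m)
    (hux : u ≠ x) (hvx : v ≠ x) (huy : u ≠ y) (hvy : v ≠ y)
    (hsw : ∀ a b, m' a b + ed u x a b + ed v y a b = m a b + ed u v a b + ed x y a b)
    {c : Fin (d + 1) → V → V} (hc : ∀ i, IsPM (c i)) (hcol : ∀ a b, m' a b = ∑ i, ind (c i) a b)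
    {J : Set (Fin (d + 1))} {b : Fin (d + 1)} (hb : b ∉ J) (hbx : c b x = y ∨ c b x = v)
    {κ : Type} {h : κ → V → V} (hh : ∀ k, IsPM (h k)) (huv : ∀ k, h k u = v)
    (H1 : ∀ Z : Finset V, x ∈ Z → y ∉ Z → u ∉ Z → v ∉ Z → (∀ k, ∀ s ∈ Z, h k s ∈ Z) →
      ∀ i ∈ J, cr (c i) (insert u Z) = 1) :
    ReflTransGen (fun s t => Arc c J u v x y s t ∨ ∃ k, h k s = t) x y := by
  classical
  by_contra hno
  set r := fun s t => Arc c J u v x y s t ∨ ∃ k, h k s = t with hr
  set Z : Finset V := univ.filter fun s => ReflTransGen r x s with hZ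
  have mZ : ∀ s, s ∈ Z ↔ ReflTransGen r x s := fun s => by simp [hZ]
  have hav : ∀ s ∈ Z, s ≠ u ∧ s ≠ v := by
    intro s hs
    rw [mZ] at hs
    induction hs with
    | refl => exact ⟨hux.symm, hvx.symm⟩
    | tail _ h2 ih =>
      rcases h2 with h2 | ⟨k, rfl⟩
      · exact ⟨h2.1, h2.2.1⟩
      · exact avoid hh huv ih k
  have hxZ : x ∈ Z := (mZ x).2 ReflTransGen.refl
  have hyZ : y ∉ Z := fun h' => hno ((mZ y).1 h')
  -- every vertex of `Z` has a member of the family inside `Z + u`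
  have hmin : ∀ s ∈ Z, ∃ X, Rg c J u v x y X ∧ s ∈ X ∧ X ⊆ insert u Z := by
    intro s hs
    have hex : ∃ n, ∃ X, Rg c J u v x y X ∧ s ∈ X ∧ #X = n := by
      by_contra hn
      push Not at hn
      exact hyZ ((mZ y).2 (((mZ s).1 hs).tail (Or.inl ⟨huy.symm, hvy.symm,
        fun X hX hsX => absurd rfl (hn _ X hX hsX)⟩)))
    obtain ⟨X, hX, hsX, hn⟩ := Nat.find_spec hex
    refine ⟨X, hX, hsX, fun t ht => ?_⟩
    rw [mem_insert]
    by_cases htu : t = u
    · exact Or.inl htu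
    refine Or.inr ((mZ t).2 (((mZ s).1 hs).tail (Or.inl ⟨htu, fun h' => hX.2.2.2.1 (h' ▸ ht), ?_⟩)))
    intro Y hY hsY
    have h1 := Nat.find_min' hex ⟨X ∩ Y, (Rg_lattice2 hc hb hbx hX hY).1, mem_inter.2 ⟨hsX, hsY⟩, rfl⟩
    have h2 : X ∩ Y = X := Finset.eq_of_subset_of_card_le inter_subset_left (by omega)
    rw [← h2] at ht
    exact (mem_inter.1 ht).2
  have hall : ∀ T : Finset V, T ⊆ Z → ∃ X, Rg c J u v x y X ∧ T ⊆ X ∧ X ⊆ insert u Z := by
    intro T
    induction T using Finset.induction_on with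
    | empty => intro _; obtain ⟨X, h1, -, h3⟩ := hmin x hxZ; exact ⟨X, h1, empty_subset _, h3⟩
    | insert s T _ ih =>
      intro hT
      obtain ⟨X, h1, h2, h3⟩ := ih ((subset_insert _ _).trans hT)
      obtain ⟨Y, h4, h5, h6⟩ := hmin s (hT (mem_insert_self _ _))
      refine ⟨X ∪ Y, (Rg_lattice2 hc hb hbx h1 h4).2, ?_, union_subset h3 h6⟩
      rw [insert_subset_iff]
      exact ⟨mem_union.2 (Or.inr h5), h2.trans subset_union_left⟩
  obtain ⟨X, hX, h2, h3⟩ := hall Z Subset.rfl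
  have hXe : X = insert u Z := Subset.antisymm h3 (insert_subset hX.2.1 h2)
  have hJ := H1 Z hxZ hyZ (fun h' => (hav u h').1 rfl) (fun h' => (hav v h').2 rfl)
    (fun k s hs => (mZ _).2 (((mZ s).1 hs).tail (Or.inr ⟨k, rfl⟩)))
  rw [← hXe] at hJ
  have hcut : cut m' X = d + 1 := by
    rw [cut_col hcol, Finset.sum_congr rfl (g := fun _ => 1)]
    · simp
    · intro i _
      by_cases hi : i ∈ J
      · exact hJ i hi
      · exact hX.2.2.2.2.2 i hi
  have e : (fun a b => (m' a b + ed u x a b) + ed v y a b) =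
      fun a b => (m a b + ed u v a b) + ed x y a b := by funext a b; exact hsw a b
  have e2 := congrArg (fun f => cut f X) e
  simp only [cut_add (fun a b => m' a b + ed u x a b), cut_add (fun a b => m a b + ed u v a b),
    cut_add m', cut_add m, cut_ed] at e2
  obtain ⟨ho, hu, hx, hv, hy, -⟩ := hX
  have := hm.odd X ho
  simp only [hu, hx, hv, hy, iff_self, if_true, iff_false, not_true, if_false] at e2
  omega

theorem even_card {d : ℕ} {m : V → V → ℕ} (hm : Target (d + 1) m) : Even (Fintype.card V) := by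
  by_contra h
  have := hm.odd univ (by rw [card_univ]; exact Nat.not_even_iff_odd.1 h)
  simp [cut] at this

theorem cut_compl {m : V → V → ℕ} (hs : ∀ a b, m a b = m b a) (X : Finset V) :
    cut m Xᶜ = cut m X := by
  unfold cut
  rw [compl_compl, Finset.sum_comm]
  exact Finset.sum_congr rfl fun a _ => Finset.sum_congr rfl fun b _ => hs _ _

theorem finish {d : ℕ} {m m' : V → V → ℕ} {u v x y : V} (hm : Target (d + 1) m)
    (hux : u ≠ x) (hvx : v ≠ x) (hmuv : 1 ≤ m u v)
    (hsw : ∀ a b, m' a b + ed u x a b + ed v y a b = m a b + ed u v a b + ed x y a b)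
    {c c'' : Fin (d + 1) → V → V} (hc'' : ∀ i, IsPM (c'' i))
    (hcol : ∀ a b, m' a b = ∑ i, ind (c'' i) a b)
    {J : Set (Fin (d + 1))} (hJ : ∀ i, i ∉ J → c'' i = c i) {l₀ : Fin (d + 1)} (hl₀ : l₀ ∈ J)
    (hlx : c'' l₀ x ≠ y)
    {κ : Type} {h : κ → V → V} (hh : ∀ k, IsPM (h k)) (huv : ∀ k, h k u = v) {l : κ}
    (hw : ReflTransGen (fun s t => Arc c J u v x y s t ∨ ∃ k, k ≠ l ∧ h k s = t) x y)
    (H2 : ∀ X : Finset V, u ∈ X → x ∈ X → v ∉ X → y ∉ X → ∀ k, k ≠ l → ∀ s ∈ X, s ≠ u →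
      h k s ∉ X → ∃ i, i ≠ l₀ ∧ cr (c'' i) X ≠ 1) :
    ∃ (M : V → V) (m₀ : V → V → ℕ), IsPM M ∧ Target d m₀ ∧
      ∀ a b, m a b = m₀ a b + if M a = b then 1 else 0 := by
  classical
  set M := c'' l₀ with hM
  have hPM : IsPM M := hc'' l₀
  have hle : ∀ a b, ind M a b ≤ m a b := by
    intro a b
    unfold ind
    split_ifs with hab
    swap
    · exact Nat.zero_le _
    have h1 : 1 ≤ m' a b := by
      rw [hcol]
      refine le_trans ?_ (Finset.single_le_sum (f := fun i => ind (c'' i) a b)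
        (fun _ _ => Nat.zero_le _) (mem_univ l₀))
      simp [ind, ← hM, hab]
    have h2 := hsw a b
    have h3 : ed x y a b = 0 := by
      unfold ed
      rw [if_neg]
      rintro (⟨rfl, rfl⟩ | ⟨rfl, rfl⟩)
      · exact hlx hab
      · exact hlx (IsPM_symm hPM hab)
    by_cases h4 : (a = u ∧ b = v) ∨ (a = v ∧ b = u)
    · rcases h4 with ⟨rfl, rfl⟩ | ⟨rfl, rfl⟩
      · exact hmuv
      · rw [hm.symm]; exact hmuv
    · have h5 : ed u v a b = 0 := by unfold ed; rw [if_neg h4]
      omega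
  have hdec : ∀ a b, m a b = (m a b - ind M a b) + ind M a b := fun a b => by
    have := hle a b; omega
  refine ⟨M, fun a b => m a b - ind M a b, hPM, ⟨?_, ?_, ?_, ?_⟩, hdec⟩
  · intro a b
    have : ind M a b = ind M b a := by
      unfold ind
      exact if_congr ⟨IsPM_symm hPM, IsPM_symm hPM⟩ rfl rfl
    rw [hm.symm, this]
  · intro a; simp [hm.diag]
  · intro a
    have h1 := hm.deg a
    rw [Finset.sum_congr rfl fun b _ => hdec a b, Finset.sum_add_distrib] at h1
    have h2 : ∑ b, ind M a b = 1 := by simp [ind]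
    omega
  -- odd cuts
  have main : ∀ X : Finset V, Odd #X → u ∈ X → d ≤ cut (fun a b => m a b - ind M a b) X := by
    intro X ho hu
    by_contra hlt
    have e0 : cut m X = cut (fun a b => m a b - ind M a b) X + cr M X := by
      rw [← cut_ind, ← cut_add]
      congr 1; funext a b; exact hdec a b
    have e : (fun a b => (m' a b + ed u x a b) + ed v y a b) =
        fun a b => (m a b + ed u v a b) + ed x y a b := by funext a b; exact hsw a b
    have e2 := congrArg (fun f => cut f X) e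
    simp only [cut_add (fun a b => m' a b + ed u x a b), cut_add (fun a b => m a b + ed u v a b),
      cut_add m', cut_add m, cut_ed] at e2
    have e3 : cut m' X = cr M X + ∑ i ∈ univ.erase l₀, cr (c'' i) X := by
      rw [cut_col hcol, Finset.add_sum_erase _ (fun i => cr (c'' i) X) (mem_univ l₀)]
    have hcard : #(univ.erase l₀) = d := by simp
    have hge : ∀ i, 1 ≤ cr (c'' i) X := fun i => by have := cr_odd (hc'' i) ho; omega
    have e4 : d ≤ ∑ i ∈ univ.erase l₀, cr (c'' i) X := by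
      have := Finset.card_nsmul_le_sum (univ.erase l₀) (fun i => cr (c'' i) X) 1 fun i _ => hge i
      simpa [hcard] using this
    have hpos : x ∈ X ∧ v ∉ X ∧ y ∉ X := by
      by_cases hx : x ∈ X <;> by_cases hv : v ∈ X <;> by_cases hy : y ∈ X <;>
        simp only [hu, hx, hv, hy, iff_self, if_true, iff_false, not_true, if_false, false_iff,
          iff_true, not_false_iff, and_self, true_and, and_true, and_false, false_and] at e2 ⊢ <;>
        omega
    obtain ⟨hx, hv, hy⟩ := hpos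
    simp only [hu, hx, hv, hy, iff_self, if_true, iff_false, not_true, if_false] at e2
    have hone : ∀ i, i ≠ l₀ → cr (c'' i) X = 1 := by
      intro i hi
      by_contra hne
      have h3 : 3 ≤ cr (c'' i) X := by have := cr_odd (hc'' i) ho; omega
      have hi' : i ∈ univ.erase l₀ := by simp [hi]
      have h4 := Finset.add_sum_erase _ (fun i => cr (c'' i) X) hi'
      have h5 := Finset.card_nsmul_le_sum ((univ.erase l₀).erase i) (fun i => cr (c'' i) X) 1
        fun i _ => hge i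
      rw [Finset.card_erase_of_mem hi', hcard, smul_eq_mul, mul_one] at h5
      have h6 : 1 ≤ d := by rw [← hcard]; exact Finset.card_pos.2 ⟨i, hi'⟩
      omega
    have hR : Rg c J u v x y X :=
      ⟨ho, hu, hx, hv, hy, fun i hi => by
        rw [← hJ i hi]; exact hone i fun h' => hi (h' ▸ hl₀)⟩
    have : ∀ t, ReflTransGen (fun s t => Arc c J u v x y s t ∨ ∃ k, k ≠ l ∧ h k s = t) x t →
        t ∈ X ∧ t ≠ u ∧ t ≠ v := by
      intro t ht
      induction ht with
      | refl => exact ⟨hx, hux.symm, hvx.symm⟩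
      | tail _ h2 ih =>
        rcases h2 with h2 | ⟨k, hk, rfl⟩
        · exact ⟨h2.2.2 X hR ih.1, h2.1, h2.2.1⟩
        · refine ⟨?_, avoid hh huv ih.2 k⟩
          by_contra hout
          obtain ⟨i, hi, hi'⟩ := H2 X hu hx hv hy k hk _ ih.1 ih.2.1 hout
          exact hi' (hone i hi)
    exact hy (this y hw).1
  intro X ho
  by_cases hu : u ∈ X
  · exact main X ho hu
  · have ho' : Odd #Xᶜ := by
      have h1 := Finset.card_add_card_compl X
      have h2 := even_card hm
      rw [Nat.odd_iff] at ho ⊢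
      rw [Nat.even_iff] at h2
      omega
    have := main Xᶜ ho' (mem_compl.2 hu)
    rwa [cut_compl] at this
    intro a b
    have : ind M a b = ind M b a := by
      unfold ind
      exact if_congr ⟨IsPM_symm hPM, IsPM_symm hPM⟩ rfl rfl
    rw [hm.symm, this]

end CoreL

end Pool.Agent.Lib.MP_fe5cb4_co.Sey
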