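import Pool.Agent.Lib.MP_fe5cb4_co.Sey.Defs

set_option autoImplicit false

namespace Pool.Agent.Lib.MP_fe5cb4_co.Sey

open Finset

section
variable {V : Type} [Fintype V] [DecidableEq V]

/-- perfect matching of the complete graph = fixed-point-free involution -/
def IsPM (f : V → V) : Prop := (∀ v, f (f v) = v) ∧ ∀ v, f v ≠ v

/-- number of edges leaving `X` -/
def cut (m : V → V → ℕ) (X : Finset V) : ℕ := ∑ a ∈ X, ∑ b ∈ Xᶜ, m a b

/-- `d`-graph given by its multiplicity function -/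
structure Target (d : ℕ) (m : V → V → ℕ) : Prop where
  symm : ∀ a b, m a b = m b a
  diag : ∀ a, m a a = 0
  deg : ∀ a, ∑ b, m a b = d
  odd : ∀ X : Finset V, Odd X.card → d ≤ cut m X

/-- class 1 -/
def Col (d : ℕ) (m : V → V → ℕ) : Prop :=
  ∃ c : Fin d → V → V, (∀ i, IsPM (c i)) ∧ ∀ a b, m a b = #{i | c i a = b}

/-- underlying simple graph -/
def supp (m : V → V → ℕ) : SimpleGraph V := SimpleGraph.fromRel fun a b => m a b ≠ 0

/-- indicator of the edge `pq` -/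
def ed (p q a b : V) : ℕ := if (a = p ∧ b = q) ∨ (a = q ∧ b = p) then 1 else 0

omit [Fintype V] [DecidableEq V] in
theorem supp_adj {m : V → V → ℕ} (hs : ∀ a b, m a b = m b a) (hd : ∀ a, m a a = 0) (a b : V) :
    (supp m).Adj a b ↔ m a b ≠ 0 := by
  simp only [supp, SimpleGraph.fromRel_adj]
  constructor
  · rintro ⟨-, h | h⟩
    · exact h
    · rwa [hs]
  · intro h
    exact ⟨fun e => h (by rw [e, hd]), Or.inl h⟩

end

/-- any two neighbours of a vertex `v` are joined in `G - v` -/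
def Loc2 {V : Type} (G : SimpleGraph V) : Prop :=
  ∀ v a b, G.Adj v a → G.Adj v b →
    Relation.ReflTransGen (fun s t => G.Adj s t ∧ s ≠ v ∧ t ≠ v) a b

/-- Seymour's conjecture for degree `d` in multiplicity form -/
def SeyM (d : ℕ) : Prop :=
  ∀ (V : Type) [Fintype V] [DecidableEq V] (m : V → V → ℕ),
    Target d m → Planar (supp m) → Col d m

/-- job Bridge -/
def StBridge : Prop := ∀ r : ℕ, Seymour r ↔ SeyM r

/-- job Minor: `π a = some w` means that `a` lies in the branch set of `w` -/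
def StMinor : Prop :=
  ∀ (V W : Type) [Fintype V] [Fintype W] (G : SimpleGraph V) (H : SimpleGraph W)
    (π : V → Option W),
    (∀ w a b, π a = some w → π b = some w →
      Relation.ReflTransGen (fun s t => G.Adj s t ∧ π s = some w ∧ π t = some w) a b) →
    (∀ w w', H.Adj w w' → ∃ a b, π a = some w ∧ π b = some w' ∧ G.Adj a b) →
    Planar G → Planar H

/-- job Cofacial -/
def StCofacial : Prop :=
  ∀ (V : Type) [Fintype V] (G : SimpleGraph V), Planar G → Loc2 G →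
    (∀ u v w, G.Adj u v → G.Adj v w → G.Adj u w → ∃ z, G.Adj v z ∧ z ≠ u ∧ z ≠ w) →
    ∀ u v, G.Adj u v → (∃ x, G.Adj u x ∧ x ≠ v) →
      ∃ x y, G.Adj u x ∧ G.Adj v y ∧ x ≠ v ∧ y ≠ u ∧ x ≠ y ∧
        Planar (G ⊔ SimpleGraph.edge x y)

/-- job Config -/
def StConfig : Prop :=
  ∀ (V : Type) [Fintype V] [Nonempty V] (G : SimpleGraph V) (D : V → V → Prop),
    Planar G → Loc2 G → (∀ v, 5 ≤ (G.neighborSet v).ncard) →
    (∀ v, (G.neighborSet v).ncard = 5 → ∀ a b, G.Adj v a → G.Adj v b → a ≠ b → D v a ∨ D v b) →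
    ∃ u v x y, D u v ∧ G.Adj u v ∧ G.Adj u x ∧ G.Adj v y ∧ G.Adj x y ∧ x ≠ v ∧ y ≠ u

/-- job Reduce: disconnected targets and non-trivial tight cuts -/
def StReduce : Prop :=
  ∀ (d : ℕ) (V : Type) [Fintype V] [DecidableEq V] (m : V → V → ℕ), 1 ≤ d →
    Target d m → Planar (supp m) →
    (∀ (W : Type) [Fintype W] [DecidableEq W] (m' : W → W → ℕ),
      Fintype.card W < Fintype.card V → Target d m' → Planar (supp m') → Col d m') →
    ∀ X : Finset V,
      ((X.Nonempty ∧ Xᶜ.Nonempty ∧ cut m X = 0) ∨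
        (Odd #X ∧ 2 ≤ #X ∧ 2 ≤ #Xᶜ ∧ cut m X = d)) → Col d m

/-- job Local: connectivity facts for targets -/
def StLocal : Prop :=
  ∀ (d : ℕ) (V : Type) [Fintype V] [DecidableEq V] (m : V → V → ℕ), Target d m →
    Loc2 (supp m) ∧
    (∀ u v w, (supp m).Adj u v → (supp m).Adj v w → (supp m).Adj u w →
      ∃ z, (supp m).Adj v z ∧ z ≠ u ∧ z ≠ w)

/-- the recolouring lemma for four colours -/
def StPi : Prop :=
  ∀ (V : Type) [Fintype V] [DecidableEq V] (c : Bool × Bool → V → V) (A : V → V → Prop)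
    (x y : V) (τ τ' : Bool × Bool), (∀ k, IsPM (c k)) → y ≠ x → y ≠ c τ x →
    Relation.ReflTransGen (fun s t => A s t ∨ ∃ k, c k s = t) x y →
    ∃ (c' : Bool × Bool → V → V) (l : Bool × Bool), (∀ k, IsPM (c' k)) ∧
      (∀ a b, #{k | c' k a = b} = #{k | c k a = b}) ∧ (∀ k, c' k y = c k y) ∧ l ≠ τ' ∧
      (∃ p, p ≠ l ∧ c' p x = c τ x) ∧
      Relation.ReflTransGen (fun s t => A s t ∨ ∃ k, k ≠ l ∧ c' k s = t) x y

/-- the slicing step -/
def StCore : Prop :=
  ∀ (d : ℕ) (V : Type) [Fintype V] [DecidableEq V] (m m' : V → V → ℕ) (u v x y : V),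
    Target (d + 1) m → u ≠ v → u ≠ x → u ≠ y → v ≠ x → v ≠ y → x ≠ y →
    (∀ a b, m' a b + ed u x a b + ed v y a b = m a b + ed u v a b + ed x y a b) →
    (3 ≤ m u v ∨ (2 ≤ m u v ∧ 1 ≤ m x y)) → Col (d + 1) m' →
    Col (d + 1) m ∨ ∃ (M : V → V) (m₀ : V → V → ℕ), IsPM M ∧ Target d m₀ ∧
      ∀ a b, m a b = m₀ a b + if M a = b then 1 else 0

end Pool.Agent.Lib.MP_fe5cb4_co.Sey
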