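import Pool.Agent.Lib.MP_fe5cb4_co.Sey.CoreThm
import Pool.Agent.Lib.MP_fe5cb4_co.Sey.Minor
import Pool.Agent.Lib.MP_fe5cb4_co.Sey.Cofacial
import Pool.Agent.Lib.MP_fe5cb4_co.Sey.Config
import Pool.Agent.Lib.MP_fe5cb4_co.Sey.Reduce
import Pool.Agent.Lib.MP_fe5cb4_co.Sey.Bridge

set_option autoImplicit false
set_option linter.unusedSectionVars false
set_option linter.unusedSimpArgs false

namespace Pool.Agent.Lib.MP_fe5cb4_co.Sey

open Finset Relation CoreL

namespace StepL

variable {V : Type} [Fintype V] [DecidableEq V]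

theorem ed_symm (p q a b : V) : ed p q a b = ed p q b a := by
  unfold ed
  refine if_congr ?_ rfl rfl
  tauto

theorem sum_ed {p q : V} (h : p ≠ q) (a : V) :
    ∑ b, ed p q a b = (if a = p then 1 else 0) + if a = q then 1 else 0 := by
  by_cases h1 : a = p
  · subst h1; simp [ed_left h, h]
  by_cases h2 : a = q
  · subst h2; simp [ed_right h, h1]
  · simp [ed_ne h1 h2, h1, h2]

theorem cut_single {d : ℕ} {m : V → V → ℕ} (hd : ∀ a, m a a = 0) (hdeg : ∀ a, ∑ b, m a b = d)
    (a : V) : cut m {a} = d := by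
  unfold cut
  rw [sum_singleton, ← hdeg a, ← Finset.sum_add_sum_compl {a}, sum_singleton, hd, zero_add]

theorem cut_parity {d : ℕ} {m : V → V → ℕ} (hm : Target d m) (X : Finset V) :
    cut m X % 2 = (d * #X) % 2 := by
  have h1 : ∑ a ∈ X, ∑ b, m a b = d * #X := by
    rw [Finset.sum_congr rfl fun a _ => hm.deg a]; simp [mul_comm]
  have h2 : ∑ a ∈ X, ∑ b, m a b = ∑ a ∈ X, ∑ b ∈ X, m a b + cut m X := by
    unfold cut
    rw [← Finset.sum_add_distrib]
    exact Finset.sum_congr rfl fun a _ => (Finset.sum_add_sum_compl X _).symm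
  have h3 : Even (∑ a ∈ X, ∑ b ∈ X, m a b) := by
    rw [← Finset.sum_product', ← ZMod.natCast_eq_zero_iff_even, Nat.cast_sum]
    refine Finset.sum_involution (fun p _ => p.swap) ?_ ?_ ?_ ?_
    · intro p _
      simp only [Prod.fst_swap, Prod.snd_swap, hm.symm p.2 p.1]
      exact CharTwo.add_self_eq_zero _
    · intro p _ hp h
      apply hp
      have : p.2 = p.1 := congrArg Prod.fst h
      rw [this, hm.diag]; simp
    · intro p hp
      simp only [mem_product, Prod.fst_swap, Prod.snd_swap] at hp ⊢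
      exact hp.symm
    · intro p _; rfl
  obtain ⟨k, hk⟩ := h3
  omega

/-- the switch of a target without non-trivial tight cuts is a target -/
theorem switch {d : ℕ} {m : V → V → ℕ} (hm : Target (d + 1) m)
    (hnt : ∀ X : Finset V, Odd #X → 2 ≤ #X → 2 ≤ #Xᶜ → cut m X ≠ d + 1) {u v x y : V}
    (huv : u ≠ v) (hux : u ≠ x) (huy : u ≠ y) (hvx : v ≠ x) (hvy : v ≠ y) (hxy : x ≠ y)
    (h1 : 1 ≤ m u x) (h2 : 1 ≤ m v y) :
    ∃ m' : V → V → ℕ, Target (d + 1) m' ∧
      ∀ a b, m' a b + ed u x a b + ed v y a b = m a b + ed u v a b + ed x y a b := by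
  have hle : ∀ a b, ed u x a b + ed v y a b ≤ m a b := by
    intro a b
    by_cases a1 : a = u
    · subst a1; rw [ed_left hux, ed_ne huv huy]; split_ifs with h
      · subst h; omega
      · omega
    by_cases a2 : a = x
    · subst a2; rw [ed_right hux, ed_ne hvx.symm hxy]; split_ifs with h
      · subst h; rw [hm.symm]; omega
      · omega
    rw [ed_ne a1 a2]
    by_cases a3 : a = v
    · subst a3; rw [ed_left hvy]; split_ifs with h
      · subst h; omega
      · omega
    by_cases a4 : a = y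
    · subst a4; rw [ed_right hvy]; split_ifs with h
      · subst h; rw [hm.symm]; omega
      · omega
    rw [ed_ne a3 a4]; omega
  set m' : V → V → ℕ := fun a b => m a b + ed u v a b + ed x y a b - (ed u x a b + ed v y a b)
    with hm'
  have hsw : ∀ a b, m' a b + ed u x a b + ed v y a b = m a b + ed u v a b + ed x y a b := by
    intro a b
    have := hle a b
    simp only [hm']; omega
  have hs : ∀ a b, m' a b = m' b a := by
    intro a b
    simp only [hm', hm.symm a b, ed_symm u v a b, ed_symm x y a b, ed_symm u x a b, ed_symm v y a b]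
  have hd : ∀ a, m' a a = 0 := by
    intro a
    have e : ∀ p q : V, p ≠ q → ed p q a a = 0 := by
      intro p q h; unfold ed; rw [if_neg]; rintro (⟨rfl, rfl⟩ | ⟨rfl, rfl⟩) <;> exact h rfl
    simp only [hm', hm.diag, e _ _ huv, e _ _ hxy]; omega
  have hdeg : ∀ a, ∑ b, m' a b = d + 1 := by
    intro a
    have := Finset.sum_congr (s₁ := univ) rfl fun b _ => hsw a b
    simp only [Finset.sum_add_distrib, sum_ed hux, sum_ed hvy, sum_ed huv, sum_ed hxy, hm.deg] at this
    omega
  refine ⟨m', ⟨hs, hd, hdeg, fun X ho => ?_⟩, hsw⟩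
  by_cases c1 : #X = 1
  · obtain ⟨a, rfl⟩ := card_eq_one.1 c1
    rw [cut_single hd hdeg]
  by_cases c2 : #Xᶜ = 1
  · obtain ⟨a, ha⟩ := card_eq_one.1 c2
    rw [← cut_compl hs, ha, cut_single hd hdeg]
  have h3 := Finset.card_add_card_compl X
  have h4 := even_card hm
  have ho' := Nat.odd_iff.1 ho
  rw [Nat.even_iff] at h4
  have h5 := hnt X ho (by omega) (by omega)
  have h6 := hm.odd X ho
  have h7 := cut_parity hm X
  have h8 : ((d + 1) * #X) % 2 = (d + 1) % 2 := by rw [Nat.mul_mod, ho']; simp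
  have e : (fun a b => (m' a b + ed u x a b) + ed v y a b) =
      fun a b => (m a b + ed u v a b) + ed x y a b := by funext a b; exact hsw a b
  have e2 := congrArg (fun f => cut f X) e
  simp only [cut_add (fun a b => m' a b + ed u x a b), cut_add (fun a b => m a b + ed u v a b),
    cut_add m', cut_add m, cut_ed] at e2
  split_ifs at e2 <;> omega

theorem col_succ {d : ℕ} {m m₀ : V → V → ℕ} {M : V → V} (hM : IsPM M) (h₀ : Col d m₀)
    (h : ∀ a b, m a b = m₀ a b + if M a = b then 1 else 0) : Col (d + 1) m := by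
  obtain ⟨c, hc, hcnt⟩ := h₀
  refine col_of (c := Fin.cons M c) (fun i => Fin.cases hM hc i) fun a b => ?_
  rw [Fin.sum_univ_succ, h, hcnt, card_eq_sum, add_comm]
  rfl

theorem le_deg {d : ℕ} {m : V → V → ℕ} (hm : Target d m) (a b : V) : m a b ≤ d := by
  rw [← hm.deg a]
  exact Finset.single_le_sum (f := fun b => m a b) (fun _ _ => Nat.zero_le _) (mem_univ b)

/-- one switch along `x u v y` -/
theorem one_switch {d : ℕ} (H : SeyM d) {m : V → V → ℕ} (hm : Target (d + 1) m)
    (hP : Planar (supp m))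
    (hnt : ∀ X : Finset V, Odd #X → 2 ≤ #X → 2 ≤ #Xᶜ → cut m X ≠ d + 1) {u v x y : V}
    (huv : (supp m).Adj u v) (hux : (supp m).Adj u x) (hvy : (supp m).Adj v y) (hxv : x ≠ v)
    (hyu : y ≠ u) (hxy : x ≠ y) (hP' : Planar (supp m ⊔ SimpleGraph.edge x y))
    (hcase : 3 ≤ m u v ∨ (2 ≤ m u v ∧ 1 ≤ m x y))
    (ih : ∀ m' : V → V → ℕ, Target (d + 1) m' → Planar (supp m') → m u v < m' u v → Col (d + 1) m') :
    Col (d + 1) m := by
  have adj := supp_adj hm.symm hm.diag
  obtain ⟨m', hm', hsw⟩ := switch hm hnt huv.ne hux.ne hyu.symm hxv.symm hvy.ne hxy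
    (Nat.one_le_iff_ne_zero.2 ((adj _ _).1 hux)) (Nat.one_le_iff_ne_zero.2 ((adj _ _).1 hvy))
  have hPm' : Planar (supp m') := by
    refine hP'.mono fun a b hab => ?_
    have h1 := (supp_adj hm'.symm hm'.diag a b).1 hab
    have h2 := hsw a b
    rw [SimpleGraph.sup_adj, SimpleGraph.edge_adj]
    by_cases c1 : (a = x ∧ b = y) ∨ (a = y ∧ b = x)
    · exact Or.inr ⟨c1, hab.ne⟩
    by_cases c2 : (a = u ∧ b = v) ∨ (a = v ∧ b = u)
    · rcases c2 with ⟨rfl, rfl⟩ | ⟨rfl, rfl⟩
      · exact Or.inl huv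
      · exact Or.inl huv.symm
    have h3 : ed x y a b = 0 := if_neg c1
    have h4 : ed u v a b = 0 := if_neg c2
    exact Or.inl ((adj a b).2 (by omega))
  have e1 : m' u v = m u v + 1 := by
    have := hsw u v
    rw [ed_left hux.ne, ed_ne huv.ne hyu.symm, ed_left huv.ne, ed_ne hux.ne hyu.symm, if_neg hxv,
      if_pos rfl] at this
    omega
  rcases core_thm d V m m' u v x y hm huv.ne hux.ne hyu.symm hxv.symm hvy.ne hxy hsw hcase
    (ih m' hm' hPm' (by omega)) with h | ⟨M, m₀, hM, hm₀, hdec⟩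
  · exact h
  · refine col_succ hM (H V m₀ hm₀ (hP.mono fun a b hab => ?_)) hdec
    have h1 := (supp_adj hm₀.symm hm₀.diag a b).1 hab
    have h2 := hdec a b
    exact (adj a b).2 (by omega)

theorem deg_le {d : ℕ} {m : V → V → ℕ} (hm : Target d m) (h2 : ∀ a b, m a b ≤ 2) (v : V)
    (T : Finset V) (hT : ∀ a ∈ T, m v a = 1) :
    d + #T ≤ 2 * ((supp m).neighborSet v).ncard := by
  classical
  have adj := supp_adj hm.symm hm.diag
  have e : (supp m).neighborSet v = ↑(univ.filter fun b => m v b ≠ 0) := by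
    ext b; simp [adj]
  rw [e, Set.ncard_coe_finset, ← hm.deg v, Finset.card_filter, Finset.mul_sum]
  have : #T = ∑ b, if b ∈ T then 1 else 0 := by simp
  rw [this, ← Finset.sum_add_distrib]
  refine Finset.sum_le_sum fun b _ => ?_
  have := h2 v b
  by_cases hb : b ∈ T
  · simp [hb, hT b hb]
  · simp only [hb, if_false]
    split_ifs <;> omega

end StepL

open StepL in
theorem stepM {d : ℕ} (hd : 8 ≤ d) (H : SeyM d) : SeyM (d + 1) := by
  classical
  intro V _ _ m hm hP
  induction hn : Fintype.card V using Nat.strong_induction_on generalizing V with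
  | _ n IH =>
  have IH' : ∀ (W : Type) [Fintype W] [DecidableEq W] (m' : W → W → ℕ),
      Fintype.card W < Fintype.card V → Target (d + 1) m' → Planar (supp m') → Col (d + 1) m' :=
    fun W _ _ m' h h1 h2 => IH _ (hn ▸ h) W m' h1 h2 rfl
  clear IH hn
  -- inner induction on the largest multiplicity
  suffices hk : ∀ k, ∀ m : V → V → ℕ, Target (d + 1) m → Planar (supp m) →
      (∀ u v, (∀ a b, m a b ≤ m u v) → d + 1 ≤ m u v + k) → Col (d + 1) m from
    hk (d + 1) m hm hP fun _ _ _ => by omega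
  clear hm hP m
  intro k
  induction k using Nat.strong_induction_on with
  | _ k ihk =>
  intro m hm hP hk
  have red := reduce_thm minor_thm (d + 1) V m (by omega) hm hP IH'
  by_contra hno
  have hconn : ∀ X : Finset V, X.Nonempty → Xᶜ.Nonempty → cut m X ≠ 0 :=
    fun X h1 h2 h3 => hno (red X (Or.inl ⟨h1, h2, h3⟩))
  have hnt : ∀ X : Finset V, Odd #X → 2 ≤ #X → 2 ≤ #Xᶜ → cut m X ≠ d + 1 :=
    fun X h1 h2 h3 h4 => hno (red X (Or.inr ⟨h1, h2, h3, h4⟩))
  have adj := supp_adj hm.symm hm.diag
  obtain ⟨hloc, htri⟩ := local_thm (d + 1) V m hm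
  rcases isEmpty_or_nonempty V with hV | hV
  · exact hno ⟨fun _ => id, fun _ => ⟨fun v => isEmptyElim v, fun v => isEmptyElim v⟩,
      fun a => isEmptyElim a⟩
  obtain ⟨⟨u, v⟩, -, hmax⟩ := Finset.exists_max_image (univ : Finset (V × V)) (fun p => m p.1 p.2)
    univ_nonempty
  have hmax' : ∀ a b, m a b ≤ m u v := fun a b => hmax (a, b) (mem_univ _)
  have ih : ∀ u' v', m u' v' = m u v → ∀ m' : V → V → ℕ, Target (d + 1) m' → Planar (supp m') →
      m u' v' < m' u' v' → Col (d + 1) m' := by
    intro u' v' e m' h1 h2 h3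
    have h4 := hk u v hmax'
    have h5 := le_deg h1 u' v'
    refine ihk (k - 1) (by omega) m' h1 h2 fun a b hab => ?_
    have := hab u' v'
    omega
  by_cases h3 : 3 ≤ m u v
  · have huv : (supp m).Adj u v := (adj u v).2 (by omega)
    by_cases hx : ∃ x, (supp m).Adj u x ∧ x ≠ v
    · obtain ⟨x, y, a1, a2, a3, a4, a5, a6⟩ := cofacial_thm V (supp m) hP hloc htri u v huv hx
      exact hno (one_switch H hm hP hnt huv a1 a2 a3 a4 a5 a6 (Or.inl h3) (ih u v rfl))
    · -- two vertices
      have hu : ∀ b, b ≠ v → m u b = 0 := fun b hb => by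
        by_contra h; exact hx ⟨b, (adj u b).2 h, hb⟩
      have huv' : m u v = d + 1 := by
        rw [← hm.deg u, Finset.sum_eq_single v (fun b _ hb => hu b hb) (by simp)]
      have hv : ∀ b, b ≠ u → m v b = 0 := by
        intro b hb
        have h1 := hm.deg v
        rw [← Finset.add_sum_erase _ _ (mem_univ u), hm.symm v u, huv'] at h1
        have h2 : ∑ x ∈ univ.erase u, m v x = 0 := by omega
        exact Finset.sum_eq_zero_iff.1 h2 b (by simp [hb])
      have hall : ∀ w, w = u ∨ w = v := by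
        intro w
        by_contra hw
        refine hconn {u, v} (by simp) ⟨w, by simpa using hw⟩ ?_
        unfold cut
        refine Finset.sum_eq_zero fun a ha => Finset.sum_eq_zero fun b hb => ?_
        simp only [mem_compl, mem_insert, mem_singleton, not_or] at ha hb
        rcases ha with rfl | rfl
        · exact hu b hb.2
        · exact hv b hb.1
      refine hno ⟨fun _ => Equiv.swap u v, fun _ => ⟨by simp, fun w => ?_⟩, fun a b => ?_⟩
      · rcases hall w with rfl | rfl
        · simp [huv.ne']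
        · simp [huv.ne]
      · have := huv.ne
        rcases hall a with rfl | rfl <;> rcases hall b with rfl | rfl
        · simp [hm.diag, this.symm]
        · simp [huv']
        · simp [hm.symm a b, huv']
        · simp [hm.diag, this]
  · have h2 : ∀ a b, m a b ≤ 2 := fun a b => by have := hmax' a b; omega
    obtain ⟨p, q, x, y, hD, a0, a1, a2, a3, a4, a5⟩ := config_thm V (supp m) (fun a b => m a b = 2) hP
      hloc (fun w => by have := deg_le hm h2 w ∅ (by simp); omega) (by
        intro w hw a b ha hb hab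
        by_contra hc
        push Not at hc
        have e1 := (adj _ _).1 ha
        have e2 := (adj _ _).1 hb
        have e3 := h2 w a
        have e4 := h2 w b
        have := deg_le hm h2 w {a, b} (by
          intro t ht
          simp only [mem_insert, mem_singleton] at ht
          rcases ht with rfl | rfl <;> omega)
        rw [Finset.card_pair hab] at this
        omega)
    have hle : supp m ⊔ SimpleGraph.edge x y ≤ supp m :=
      sup_le le_rfl ((SimpleGraph.edge_le_iff _).2 (Or.inr a3))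
    have e5 := hmax' p q
    exact hno (one_switch H hm hP hnt a0 a1 a2 a4 a5 a3.ne (hP.mono hle)
      (Or.inr ⟨by omega, Nat.one_le_iff_ne_zero.2 ((adj _ _).1 a3)⟩) (ih p q (by omega)))

theorem step {r : ℕ} (hr : 8 ≤ r) (H : Seymour r) : Seymour (r + 1) :=
  (bridge_thm _).2 (stepM hr ((bridge_thm _).1 H))

end Pool.Agent.Lib.MP_fe5cb4_co.Sey
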